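import Pool.Agent.Lib_MP_e0d435_kv.Defs

/-! Elementary facts on orders. -/

namespace Pool.Agent.Lib_MP_e0d435_kv

section

variable {M : Type} [Field M] (w : AddValuation M (WithTop ℤ))

theorem w_eq {f : M} (hf : f ≠ 0) : w f = (ordZ w f : WithTop ℤ) := by
  unfold ordZ
  have h : w f ≠ ⊤ := (AddValuation.ne_top_iff w).2 hf
  obtain ⟨a, ha⟩ := WithTop.ne_top_iff_exists.1 h
  rw [← ha]; rfl

theorem le_w_iff {f : M} (hf : f ≠ 0) (a : ℤ) : (a : WithTop ℤ) ≤ w f ↔ a ≤ ordZ w f := by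
  rw [w_eq w hf, WithTop.coe_le_coe]

theorem lt_w_iff {f : M} (hf : f ≠ 0) (a : ℤ) : (a : WithTop ℤ) < w f ↔ a < ordZ w f := by
  rw [w_eq w hf, WithTop.coe_lt_coe]

theorem mem_vring {f : M} : f ∈ vring w ↔ 0 ≤ w f := Iff.rfl

theorem ordZ_eq_of_w {f : M} {a : ℤ} (h : w f = (a : WithTop ℤ)) : ordZ w f = a := by
  unfold ordZ; rw [h]; rfl

@[simp] theorem ordZ_one : ordZ w 1 = 0 := ordZ_eq_of_w w (by rw [AddValuation.map_one]; rfl)

theorem ordZ_mul {f g : M} (hf : f ≠ 0) (hg : g ≠ 0) : ordZ w (f * g) = ordZ w f + ordZ w g := by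
  apply ordZ_eq_of_w
  rw [AddValuation.map_mul, w_eq w hf, w_eq w hg, WithTop.coe_add]

theorem ordZ_neg (f : M) : ordZ w (-f) = ordZ w f := by
  unfold ordZ; rw [AddValuation.map_neg]

theorem ordZ_inv {f : M} (hf : f ≠ 0) : ordZ w f⁻¹ = - ordZ w f := by
  have h := ordZ_mul w hf (inv_ne_zero hf)
  rw [mul_inv_cancel₀ hf, ordZ_one] at h
  omega

theorem ordZ_div {f g : M} (hf : f ≠ 0) (hg : g ≠ 0) : ordZ w (f / g) = ordZ w f - ordZ w g := by
  rw [div_eq_mul_inv, ordZ_mul w hf (inv_ne_zero hg), ordZ_inv w hg]; ring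

theorem ordZ_pow {f : M} (hf : f ≠ 0) (n : ℕ) : ordZ w (f ^ n) = n * ordZ w f := by
  induction n with
  | zero => simp
  | succ n ih => rw [pow_succ, ordZ_mul w (pow_ne_zero n hf) hf, ih]; push_cast; ring

theorem ordZ_zpow {f : M} (hf : f ≠ 0) (n : ℤ) : ordZ w (f ^ n) = n * ordZ w f := by
  obtain ⟨m, rfl | rfl⟩ := n.eq_nat_or_neg
  · rw [zpow_natCast, ordZ_pow w hf]
  · rw [zpow_neg, zpow_natCast, ordZ_inv w (pow_ne_zero m hf), ordZ_pow w hf]; ring

theorem ordZ_prod {ι : Type} (s : Finset ι) (f : ι → M) (hf : ∀ i ∈ s, f i ≠ 0) :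
    ordZ w (∏ i ∈ s, f i) = ∑ i ∈ s, ordZ w (f i) := by
  classical
  induction s using Finset.induction_on with
  | empty => simp
  | insert i s hi ih =>
    rw [Finset.prod_insert hi, Finset.sum_insert hi, ordZ_mul w (hf i (Finset.mem_insert_self i s))
      (Finset.prod_ne_zero_iff.2 fun j hj => hf j (Finset.mem_insert_of_mem hj)),
      ih fun j hj => hf j (Finset.mem_insert_of_mem hj)]

theorem ordZ_add_ge {f g : M} (h : f + g ≠ 0) (c : ℤ) (hf : f = 0 ∨ c ≤ ordZ w f)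
    (hg : g = 0 ∨ c ≤ ordZ w g) : c ≤ ordZ w (f + g) := by
  rw [← le_w_iff w h]
  refine (le_min ?_ ?_).trans (AddValuation.map_add w f g)
  · by_cases h0 : f = 0
    · rw [h0, AddValuation.map_zero]; exact le_top
    · rw [le_w_iff w h0]; exact hf.resolve_left h0
  · by_cases h0 : g = 0
    · rw [h0, AddValuation.map_zero]; exact le_top
    · rw [le_w_iff w h0]; exact hg.resolve_left h0

theorem le_w_sum {ι : Type} (s : Finset ι) (f : ι → M) (c : WithTop ℤ)
    (hf : ∀ i ∈ s, c ≤ w (f i)) : c ≤ w (∑ i ∈ s, f i) := by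
  classical
  induction s using Finset.induction_on with
  | empty => rw [Finset.sum_empty, AddValuation.map_zero]; exact le_top
  | insert i s hi ih =>
    rw [Finset.sum_insert hi]
    exact (le_min (hf i (Finset.mem_insert_self i s))
      (ih fun j hj => hf j (Finset.mem_insert_of_mem hj))).trans (AddValuation.map_add w _ _)

theorem lt_w_sum {ι : Type} (s : Finset ι) (f : ι → M) (c : ℤ)
    (hf : ∀ i ∈ s, (c : WithTop ℤ) < w (f i)) : (c : WithTop ℤ) < w (∑ i ∈ s, f i) := by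
  classical
  induction s using Finset.induction_on with
  | empty => rw [Finset.sum_empty, AddValuation.map_zero]; exact WithTop.coe_lt_top c
  | insert i s hi ih =>
    rw [Finset.sum_insert hi]
    exact (lt_min (hf i (Finset.mem_insert_self i s))
      (ih fun j hj => hf j (Finset.mem_insert_of_mem hj))).trans_le (AddValuation.map_add w _ _)

theorem ordZ_add_of_lt {f g : M} (hf : f ≠ 0) (h : g = 0 ∨ ordZ w f < ordZ w g) :
    f + g ≠ 0 ∧ ordZ w (f + g) = ordZ w f := by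
  have hlt : w f < w g := by
    rw [w_eq w hf]
    by_cases hg : g = 0
    · rw [hg, AddValuation.map_zero]; exact WithTop.coe_lt_top _
    · rw [lt_w_iff w hg]; exact h.resolve_left hg
  have h1 : w (f + g) = w f := by
    exact AddValuation.map_add_eq_of_lt_left w hlt
  have h2 : f + g ≠ 0 := by
    rw [← AddValuation.ne_top_iff w, h1, w_eq w hf]; exact WithTop.coe_ne_top
  refine ⟨h2, ?_⟩
  unfold ordZ; rw [h1]

variable [Algebra ℂ M]

/-- A discrete valuation is trivial on `ℂ`, because `ℂ*` is divisible. -/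
theorem w_algebraMap (a : ℂ) (ha : a ≠ 0) : w (algebraMap ℂ M a) = 0 := by
  have key : ∀ b : ℂ, b ≠ 0 → ordZ w (algebraMap ℂ M b) ≤ 0 := by
    intro b hb
    have hmap : ∀ c : ℂ, c ≠ 0 → algebraMap ℂ M c ≠ 0 := fun c hc => by
      rwa [Ne, _root_.map_eq_zero]
    set m := ordZ w (algebraMap ℂ M b) with hm
    by_contra hcon
    push Not at hcon
    obtain ⟨c, hc⟩ : ∃ c : ℂ, c ^ (m.toNat + 1) = b :=
      IsAlgClosed.exists_pow_nat_eq b (Nat.succ_pos _)
    have hc0 : c ≠ 0 := by rintro rfl; exact hb (by rw [← hc, zero_pow (Nat.succ_ne_zero _)])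
    have h1 : m = ((m.toNat + 1 : ℕ) : ℤ) * ordZ w (algebraMap ℂ M c) := by
      rw [← ordZ_pow w (hmap c hc0), ← map_pow, hc]
    have h2 : (m.toNat : ℤ) = m := Int.toNat_of_nonneg hcon.le
    push_cast at h1
    rw [h2] at h1
    have h3 : 0 < ordZ w (algebraMap ℂ M c) := by
      by_contra h4
      push Not at h4
      nlinarith
    nlinarith
  have hne : algebraMap ℂ M a ≠ 0 := by rwa [Ne, _root_.map_eq_zero]
  have h1 := key a ha
  have h2 := key a⁻¹ (inv_ne_zero ha)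
  rw [map_inv₀, ordZ_inv w hne] at h2
  rw [w_eq w hne, show ordZ w (algebraMap ℂ M a) = 0 by omega]; rfl

theorem ordZ_algebraMap (a : ℂ) : ordZ w (algebraMap ℂ M a) = 0 := by
  by_cases ha : a = 0
  · rw [ha, map_zero]; unfold ordZ; rw [AddValuation.map_zero]; rfl
  · exact ordZ_eq_of_w w (by rw [w_algebraMap w a ha]; rfl)

end

namespace LDF

variable {k : ℕ} (Λ : LDF k)

theorem t_ne : Λ.t ≠ 0 := by
  intro h
  have := Λ.w_t
  rw [h, AddValuation.map_zero] at this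
  exact absurd this (by decide)

@[simp] theorem ordZ_t : ordZ Λ.w Λ.t = 1 := ordZ_eq_of_w _ (by rw [Λ.w_t]; rfl)

theorem ordZ_le_d (i : Fin k) {f : Λ.M} (hf : f ≠ 0) (hd : Λ.d i f ≠ 0) :
    ordZ Λ.w f ≤ ordZ Λ.w (Λ.d i f) := by
  have h := Λ.log i f
  rw [w_eq _ hf, w_eq _ hd] at h
  exact_mod_cast h

theorem exists_ord (p : ℤ) : ∃ f : Λ.M, f ≠ 0 ∧ ordZ Λ.w f = p :=
  ⟨Λ.t ^ p, zpow_ne_zero _ Λ.t_ne, by rw [ordZ_zpow _ Λ.t_ne, ordZ_t, mul_one]⟩

end LDF

end Pool.Agent.Lib_MP_e0d435_kv
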