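import Pool.Agent.Lib_MP_e0d435_kv.AdDefs

/-! AD6: the span of the differentials of the coordinates; the Jacobian in homogeneous
coordinates. -/

namespace Pool.Agent.Lib_MP_e0d435_kv

open Pool.Agent.Lib_GD Pool.Agent.Lib_KF

/-- Proof: for other `b, b''` with `E.φ 0 (x b'') * w = 1` one has
`E.φ 0 (x b) * w = y_b / y_b''`, `y = E.φ 0 (x ·) * u`; `y_b''` is a unit, and
`D (y_b / y_b'')` is in the `V`-span of `D y_b` and `D y_b''`; `y_b' = 1`. -/
theorem coordSpan_eq {R : Type} [CommRing R] [Algebra ℂ R] {𝒜 : ℕ → Submodule ℂ R} {n : ℕ}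
    (E : DivisorOver 𝒜 n 1) (x : Fin (n + 1) → R) (b' : Fin (n + 1)) (u : E.V)
    (hu : E.φ 0 (x b') * u = 1) :
    coordSpan E x = Submodule.span E.V
      (Set.range fun l : Fin n => KaehlerDifferential.D ℂ E.V (E.φ 0 (x (b'.succAbove l)) * u)) := by
  set S := Submodule.span E.V
      (Set.range fun l : Fin n => KaehlerDifferential.D ℂ E.V (E.φ 0 (x (b'.succAbove l)) * u))
    with hS
  have hy : ∀ a, KaehlerDifferential.D ℂ E.V (E.φ 0 (x a) * u) ∈ S := by
    intro a
    rcases Fin.eq_self_or_eq_succAbove b' a with rfl | ⟨l, rfl⟩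
    · rw [hu, Derivation.map_one_eq_zero]
      exact S.zero_mem
    · exact Submodule.subset_span ⟨l, rfl⟩
  refine le_antisymm ?_ ?_
  · refine Submodule.span_le.2 ?_
    rintro ω ⟨j, b, b'', w, hw, rfl⟩
    have hj : j = 0 := Subsingleton.elim _ _
    subst hj
    set z : E.V := E.φ 0 (x b') * w with hz
    have h1 : E.φ 0 (x b'') * u * z = 1 := by
      rw [hz]
      calc _ = (E.φ 0 (x b'') * w) * (E.φ 0 (x b') * u) := by ring
        _ = 1 := by rw [hw, hu, mul_one]
    have h2 : E.φ 0 (x b) * w = (E.φ 0 (x b) * u) * z := by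
      rw [hz]
      calc _ = (E.φ 0 (x b) * w) * (E.φ 0 (x b') * u) := by rw [hu, mul_one]
        _ = _ := by ring
    have h3 : KaehlerDifferential.D ℂ E.V z ∈ S := by
      have h4 : (E.φ 0 (x b'') * u) • KaehlerDifferential.D ℂ E.V z +
          z • KaehlerDifferential.D ℂ E.V (E.φ 0 (x b'') * u) = 0 := by
        rw [← Derivation.leibniz, h1, Derivation.map_one_eq_zero]
      have h5 : KaehlerDifferential.D ℂ E.V z =
          -((z * z) • KaehlerDifferential.D ℂ E.V (E.φ 0 (x b'') * u)) := by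
        have h6 := congrArg (fun ω => z • ω) h4
        simp only [smul_add, smul_smul, smul_zero] at h6
        rw [show z * (E.φ 0 (x b'') * u) = 1 by rw [mul_comm]; exact h1, one_smul] at h6
        exact eq_neg_of_add_eq_zero_left h6
      rw [h5]
      exact S.neg_mem (S.smul_mem _ (hy b''))
    have h7 : KaehlerDifferential.D ℂ E.V (E.φ 0 (x b) * w) ∈ S := by
      rw [h2, Derivation.leibniz]
      exact S.add_mem (S.smul_mem _ h3) (S.smul_mem _ (hy b))
    exact h7
  · refine Submodule.span_le.2 ?_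
    rintro ω ⟨l, rfl⟩
    exact Submodule.subset_span ⟨0, b'.succAbove l, b', u, hu, rfl⟩

/-- Proof: `d_i (z_b) = z_b' d_i (y_b) + y_b d_i (z_b')`, `y_b = z_b / z_b'`: subtract `y_b` times
the column `b'` from the column `b`, take out the factors `z_b'`, and move the column `b'` to the
front (`Matrix.det_permute'`, or expand along the column; the sign is `± 1`). -/
theorem jac_homog {n : ℕ} (Λ : LDF (n + 1)) (z : Fin (n + 1) → Λ.M) (b' : Fin (n + 1))
    (hb : z b' ≠ 0) : ∃ ε : Λ.M, (ε = 1 ∨ ε = -1) ∧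
    Λ.jac z = ε * z b' ^ (n + 1) * Matrix.det (Matrix.of fun i j : Fin (n + 1) =>
      (Fin.cons (Λ.d i (z b') / z b')
        (fun l : Fin n => Λ.d i (z (b'.succAbove l) / z b')) : Fin (n + 1) → Λ.M) j) := by
  set A : Matrix (Fin (n + 1)) (Fin (n + 1)) Λ.M := Matrix.of fun i j => Λ.d i (z j) with hA
  set N : Matrix (Fin (n + 1)) (Fin (n + 1)) Λ.M := Matrix.of fun i j : Fin (n + 1) =>
      (Fin.cons (Λ.d i (z b') / z b')
        (fun l : Fin n => Λ.d i (z (b'.succAbove l) / z b')) : Fin (n + 1) → Λ.M) j with hN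
  set σ : Equiv.Perm (Fin (n + 1)) := b'.cycleRange.symm with hσ
  set c : Fin (n + 1) → Λ.M :=
    (Fin.cons 0 (fun l : Fin n => z (b'.succAbove l) / z b') : Fin (n + 1) → Λ.M) with hc
  have h1 : A.submatrix id σ = z b' • Matrix.of fun i j => N i j + c j * N i 0 := by
    ext i j
    rw [Matrix.submatrix_apply, Matrix.smul_apply, Matrix.of_apply, smul_eq_mul, id]
    refine Fin.cases ?_ (fun l => ?_) j
    · have e1 : σ 0 = b' := by rw [hσ]; exact Fin.cycleRange_symm_zero b'
      rw [e1]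
      simp only [hA, hN, hc, Matrix.of_apply, Fin.cons_zero, zero_mul, add_zero]
      field_simp
    · have e1 : σ l.succ = b'.succAbove l := by rw [hσ]; exact Fin.cycleRange_symm_succ b' l
      rw [e1]
      simp only [hA, hN, hc, Matrix.of_apply, Fin.cons_zero, Fin.cons_succ]
      have e2 : z (b'.succAbove l) = (z (b'.succAbove l) / z b') * z b' := by
        field_simp
      conv_lhs => rw [e2]
      rw [Derivation.leibniz, smul_eq_mul, smul_eq_mul]
      field_simp
      ring
  have h2 : (Matrix.of fun i j => N i j + c j * N i 0).det = N.det := by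
    rw [← Matrix.det_transpose, ← Matrix.det_transpose N]
    refine Matrix.det_eq_of_forall_row_eq_smul_add_const c 0 ?_ fun i j => rfl
    rw [hc, Fin.cons_zero]
  have h3 : ((Equiv.Perm.sign σ : ℤ) : Λ.M) * A.det = z b' ^ (n + 1) * N.det := by
    rw [← Matrix.det_permute' σ A, h1, Matrix.det_smul, Fintype.card_fin, h2]
  refine ⟨((Equiv.Perm.sign σ : ℤ) : Λ.M), ?_, ?_⟩
  · rcases Int.units_eq_one_or (Equiv.Perm.sign σ) with h | h
    · left; rw [h]; simp
    · right; rw [h]; simp
  · have h4 : ((Equiv.Perm.sign σ : ℤ) : Λ.M) * ((Equiv.Perm.sign σ : ℤ) : Λ.M) = 1 := by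
      rcases Int.units_eq_one_or (Equiv.Perm.sign σ) with h | h
      · rw [h]; simp
      · rw [h]; simp
    change A.det = _
    rw [mul_assoc, ← h3, ← mul_assoc, h4, one_mul]

/-- A determinant with entries of order `≥ 0` has order `≥ 0`. -/
theorem w_det_nonneg {M : Type} [Field M] (w : AddValuation M (WithTop ℤ)) {k : ℕ}
    (A : Matrix (Fin k) (Fin k) M) (hA : ∀ i j, 0 ≤ w (A i j)) : 0 ≤ w A.det := by
  rw [Matrix.det_apply]
  refine w.map_le_sum fun σ _ => ?_
  have h1 : 0 ≤ w (∏ i, A (σ i) i) := by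
    refine Finset.prod_induction _ (fun f => 0 ≤ w f) ?_ ?_ fun i _ => hA _ _
    · intro a b ha hb
      rw [w.map_mul]
      exact add_nonneg ha hb
    · rw [w.map_one]
  rcases Int.units_eq_one_or (Equiv.Perm.sign σ) with h | h
  · rw [h, one_smul]; exact h1
  · rw [h, Units.neg_smul, one_smul, w.map_neg]; exact h1

end Pool.Agent.Lib_MP_e0d435_kv
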