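import Pool.Agent.Lib_MP_e0d435_kv.AdField
import Pool.Agent.Lib_GD.EssRes

/-! AD5b: the divisor over `X` of an arc. -/

namespace Pool.Agent.Lib_MP_e0d435_kv

open Pool.Agent.Lib_GD Pool.Agent.Lib_KF

variable {R : Type} [CommRing R] [Algebra ℂ R] {𝒜 : ℕ → Submodule ℂ R} [GradedAlgebra 𝒜]
  {n r d : ℕ} {x : Fin (n + 1) → R} {G : R} {M : Type} [Field M] [Algebra ℂ M]

section AdDivAux

open DirectSum

/-- The dehomogenisation `s = ∑ s_m ↦ ∑ φ(s_m)/θ^m`. -/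
private noncomputable def AdDiv_psi (𝒜 : ℕ → Submodule ℂ R) [GradedAlgebra 𝒜] (φ : R →ₐ[ℂ] M)
    (θ : M) : R →ₐ[ℂ] M :=
  (DirectSum.toAlgebra ℂ (fun i => 𝒜 i)
    (fun m => (θ ^ m)⁻¹ • (φ.toLinearMap.comp (𝒜 m).subtype))
    (by
      change (θ ^ 0)⁻¹ • φ (1 : R) = 1
      rw [map_one, pow_zero, inv_one, one_smul])
    (by
      intro i j ai aj
      change (θ ^ (i + j))⁻¹ • φ ((ai : R) * (aj : R)) =
        ((θ ^ i)⁻¹ • φ (ai : R)) * ((θ ^ j)⁻¹ • φ (aj : R))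
      rw [map_mul, smul_eq_mul, smul_eq_mul, smul_eq_mul, pow_add, mul_inv]
      ring)).comp
    (DirectSum.decomposeAlgEquiv 𝒜).toAlgHom

private theorem AdDiv_psi_of_mem (𝒜 : ℕ → Submodule ℂ R) [GradedAlgebra 𝒜] (φ : R →ₐ[ℂ] M)
    (θ : M) {m : ℕ} {s : R} (hs : s ∈ 𝒜 m) : AdDiv_psi 𝒜 φ θ s = (θ ^ m)⁻¹ * φ s := by
  have h1 : (DirectSum.decomposeAlgEquiv 𝒜).toAlgHom s =
      DirectSum.of (fun i => 𝒜 i) m ⟨s, hs⟩ := by
    change DirectSum.decomposeAlgEquiv 𝒜 s = _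
    rw [DirectSum.decomposeAlgEquiv_apply, DirectSum.decompose_of_mem]
  unfold AdDiv_psi
  rw [AlgHom.comp_apply, h1]
  exact DirectSum.toAddMonoid_of
    (fun m => ((θ ^ m)⁻¹ • (φ.toLinearMap.comp (𝒜 m).subtype) : 𝒜 m →ₗ[ℂ] M).toAddMonoidHom)
    m ⟨s, hs⟩

private theorem AdDiv_psi_mem (𝒜 : ℕ → Submodule ℂ R) [GradedAlgebra 𝒜] (φ : R →ₐ[ℂ] M)
    (θ : M) (V : Subalgebra ℂ M) (hV : ∀ m, ∀ s ∈ 𝒜 m, (θ ^ m)⁻¹ * φ s ∈ V) (s : R) :
    AdDiv_psi 𝒜 φ θ s ∈ V := by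
  classical
  rw [← DirectSum.sum_support_decompose 𝒜 s, map_sum]
  refine Subalgebra.sum_mem _ fun m _ => ?_
  rw [AdDiv_psi_of_mem 𝒜 φ θ (SetLike.coe_mem _)]
  exact hV m _ (SetLike.coe_mem _)

/-- The fraction field of a subalgebra `V` of `K`, all elements of `K` being quotients. -/
private theorem AdDiv_frac (V : Subalgebra ℂ M) (K : IntermediateField ℂ M)
    (hVK : V ≤ K.toSubalgebra) (hfrac : ∀ f ∈ K, ∃ a b : V, b ≠ 0 ∧ f * b = a) :
    Nonempty (FractionRing V ≃ₐ[ℂ] K) := by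
  let : Algebra V K := (Subalgebra.inclusion hVK).toRingHom.toAlgebra
  have hinj : Function.Injective (algebraMap V K) := Subalgebra.inclusion_injective hVK
  have hf : FaithfulSMul V K := (faithfulSMul_iff_algebraMap_injective _ _).2 hinj
  have hst : IsScalarTower ℂ V K := IsScalarTower.of_algebraMap_eq fun _ => rfl
  have hfr : IsFractionRing V K := by
    apply IsFractionRing.of_field
    intro z
    obtain ⟨a, b, hb, hab⟩ := hfrac z z.2
    refine ⟨a, b, ?_⟩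
    have hb' : algebraMap V K b ≠ 0 := by
      intro h
      exact hb (hinj (by rw [h, map_zero]))
    rw [eq_div_iff hb']
    exact Subtype.ext hab
  exact ⟨(FractionRing.algEquiv V K).restrictScalars ℂ⟩

/-- The transcendence degree of a domain over `ℂ` is that of its fraction field. -/
private theorem AdDiv_trdeg (V : Type) [CommRing V] [IsDomain V] [Algebra ℂ V] :
    Algebra.trdeg ℂ V = Algebra.trdeg ℂ (FractionRing V) := by
  have h1 : Algebra.IsAlgebraic V (FractionRing V) :=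
    IsLocalization.isAlgebraic (FractionRing V) (nonZeroDivisors V)
  have h2 := trdeg_add_eq ℂ V (A := FractionRing V)
  rwa [trdeg_eq_zero_iff.2 h1, add_zero] at h2

end AdDivAux

/-- Proof: `V = vfun w (funField 𝒜 φ hφ)`, `σ` the inclusion, `E.φ 0 s = ∑_m φ(s_m)/θ^m`, where
`s = ∑ s_m` is the decomposition and `θ = φ(g)/φ(f)`, of order `w₁`; an algebra homomorphism
(multiplicative because the degrees add), with values in `V` because
`φ(s_m)/θ^m = φ(s_m f^m)/φ(g^m)` is in the function field (degrees `m + k m = (k+1) m`) and of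
order `≥ 0`. Centre: `x b` becomes a unit (order `0`, and its inverse is in the function field).
`generates`: the fraction field of `V` is the function field (`hfrac`), generated by the quotients.
`trdeg`: AD5a (`V` has the same transcendence degree as its fraction field, the function field).
`essFiniteType`: `essFiniteType_of_residue` (`Lib_GD/EssRes.lean`) with `v`, `funField_fg`,
`funField_trdeg`. -/
theorem exists_divisorOver (h : IsFano 𝒜 n r d x G) (hn : 1 ≤ n) (w : AddValuation M (WithTop ℤ))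
    (φ : R →ₐ[ℂ] M) (hφ : Function.Injective φ) (w₁ : ℤ) (k : ℕ) (f g : R) (hf : f ∈ 𝒜 k)
    (hg : g ∈ 𝒜 (k + 1)) (hf0 : f ≠ 0) (hg0 : g ≠ 0) (hfo : ordZ w (φ f) = k * w₁)
    (hgo : ordZ w (φ g) = (k + 1) * w₁)
    (hmin : ∀ m : ℕ, ∀ s ∈ 𝒜 m, s ≠ 0 → m * w₁ ≤ ordZ w (φ s))
    (b : Fin (n + 1)) (hb : ordZ w (φ (x b)) = d * w₁)
    (hV : IsDiscreteValuationRing (vfun w (funField 𝒜 φ hφ)))
    (hfrac : ∀ f ∈ funField 𝒜 φ hφ, ∃ a b : vfun w (funField 𝒜 φ hφ), b ≠ 0 ∧ f * b = a)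
    (v : Fin (n - 1) → vfun w (funField 𝒜 φ hφ))
    (hv : AlgebraicIndependent ℂ
      (fun i => IsLocalRing.residue (vfun w (funField 𝒜 φ hφ)) (v i))) :
    ∃ (E : DivisorOver 𝒜 n 1) (σ : E.V ≃ₐ[ℂ] vfun w (funField 𝒜 φ hφ)),
      (∀ m, ∀ s ∈ 𝒜 m, (σ (E.φ 0 s) : M) * (φ g / φ f) ^ m = φ s) ∧ IsUnit (E.φ 0 (x b)) := by
  have hdom := h.domain
  have hne : ∀ s : R, s ≠ 0 → φ s ≠ 0 := fun s hs h0 => hs (hφ (by rw [h0, map_zero]))
  have hf1 := hne f hf0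
  have hg1 := hne g hg0
  set θ : M := φ g / φ f with hθ
  have hθ0 : θ ≠ 0 := div_ne_zero hg1 hf1
  have hθo : ordZ w θ = w₁ := by
    rw [hθ, ordZ_div w hg1 hf1, hfo, hgo]; ring
  have hfpow : ∀ m : ℕ, f ^ m ∈ 𝒜 (m * k) := fun m => by
    have := SetLike.pow_mem_graded m hf
    rwa [smul_eq_mul] at this
  have hgpow : ∀ m : ℕ, g ^ m ∈ 𝒜 (m * (k + 1)) := fun m => by
    have := SetLike.pow_mem_graded m hg
    rwa [smul_eq_mul] at this
  -- the quotients by powers of theta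
  have hK : ∀ m, ∀ s ∈ 𝒜 m, (θ ^ m)⁻¹ * φ s ∈ funField 𝒜 φ hφ := by
    intro m s hs
    refine ⟨m * (k + 1), s * f ^ m, ?_, g ^ m, hgpow m, pow_ne_zero m hg0, ?_⟩
    · have := SetLike.mul_mem_graded hs (hfpow m)
      have h2 : m + m * k = m * (k + 1) := by ring
      rwa [h2] at this
    · rw [map_mul, map_pow, map_pow, hθ, div_pow, inv_div]
      field_simp
  have hord : ∀ m, ∀ s ∈ 𝒜 m, 0 ≤ w ((θ ^ m)⁻¹ * φ s) := by
    intro m s hs
    by_cases hs0 : s = 0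
    · rw [hs0, map_zero, mul_zero, AddValuation.map_zero]; exact le_top
    · have h1 : (θ ^ m)⁻¹ * φ s ≠ 0 :=
        mul_ne_zero (inv_ne_zero (pow_ne_zero m hθ0)) (hne s hs0)
      have h2 := (le_w_iff w h1 0).2 (by
        rw [ordZ_mul w (inv_ne_zero (pow_ne_zero m hθ0)) (hne s hs0),
          ordZ_inv w (pow_ne_zero m hθ0), ordZ_pow w hθ0, hθo]
        have := hmin m s hs hs0
        linarith)
      exact h2
  have hVK : vfun w (funField 𝒜 φ hφ) ≤ (funField 𝒜 φ hφ).toSubalgebra := fun z hz => hz.1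
  have hmem : ∀ s, AdDiv_psi 𝒜 φ θ s ∈ vfun w (funField 𝒜 φ hφ) :=
    AdDiv_psi_mem 𝒜 φ θ _ fun m s hs => ⟨hK m s hs, hord m s hs⟩
  let ψ : R →ₐ[ℂ] vfun w (funField 𝒜 φ hφ) := AlgHom.codRestrict (AdDiv_psi 𝒜 φ θ) _ hmem
  have hψ : ∀ m, ∀ s ∈ 𝒜 m, ((ψ s : vfun w (funField 𝒜 φ hφ)) : M) = (θ ^ m)⁻¹ * φ s :=
    fun m s hs => AdDiv_psi_of_mem 𝒜 φ θ hs
  obtain ⟨e⟩ := AdDiv_frac (vfun w (funField 𝒜 φ hφ)) (funField 𝒜 φ hφ) hVK hfrac
  have htr : Algebra.trdeg ℂ (vfun w (funField 𝒜 φ hφ)) = (n : ℕ) := by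
    rw [AdDiv_trdeg, e.trdeg_eq]
    exact funField_trdeg h φ hφ
  have hfg : Algebra.EssFiniteType ℂ (FractionRing (vfun w (funField 𝒜 φ hφ))) :=
    (Algebra.EssFiniteType.iff_of_algEquiv e).2 (funField_fg h φ hφ)
  have hess := essFiniteType_of_residue (vfun w (funField 𝒜 φ hφ)) n hn htr hfg v hv
  have hunit : IsUnit (ψ (x b)) := by
    have hx0 : x b ≠ 0 := h.x_indep.ne_zero b
    have h1 : ((ψ (x b) : vfun w (funField 𝒜 φ hφ)) : M) = (θ ^ d)⁻¹ * φ (x b) :=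
      hψ d _ (h.x_mem b)
    have h2 : (θ ^ d)⁻¹ * φ (x b) ≠ 0 :=
      mul_ne_zero (inv_ne_zero (pow_ne_zero d hθ0)) (hne _ hx0)
    have h3 : ordZ w ((θ ^ d)⁻¹ * φ (x b)) = 0 := by
      rw [ordZ_mul w (inv_ne_zero (pow_ne_zero d hθ0)) (hne _ hx0),
        ordZ_inv w (pow_ne_zero d hθ0), ordZ_pow w hθ0, hθo, hb]
      ring
    have h4 : ((θ ^ d)⁻¹ * φ (x b))⁻¹ ∈ vfun w (funField 𝒜 φ hφ) := by
      refine ⟨(funField 𝒜 φ hφ).inv_mem (hK d _ (h.x_mem b)), ?_⟩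
      have := (le_w_iff w (inv_ne_zero h2) 0).2 (by rw [ordZ_inv w h2, h3, neg_zero])
      exact this
    refine IsUnit.of_mul_eq_one ⟨_, h4⟩ (Subtype.ext ?_)
    change ((ψ (x b) : vfun w (funField 𝒜 φ hφ)) : M) * ((θ ^ d)⁻¹ * φ (x b))⁻¹ = 1
    rw [h1, mul_inv_cancel₀ h2]
  have hgen : IntermediateField.adjoin ℂ {z : FractionRing (vfun w (funField 𝒜 φ hφ)) |
      ∃ (_ : Fin 1), ∃ m, ∃ s ∈ 𝒜 m, ∃ s' ∈ 𝒜 m,
      ψ s' ≠ 0 ∧ z = algebraMap (vfun w (funField 𝒜 φ hφ))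
        (FractionRing (vfun w (funField 𝒜 φ hφ))) (ψ s) /
        algebraMap (vfun w (funField 𝒜 φ hφ))
        (FractionRing (vfun w (funField 𝒜 φ hφ))) (ψ s')} = ⊤ := by
    rw [eq_top_iff]
    have key : ∀ a : vfun w (funField 𝒜 φ hφ),
        algebraMap (vfun w (funField 𝒜 φ hφ)) (FractionRing (vfun w (funField 𝒜 φ hφ))) a ∈
        IntermediateField.adjoin ℂ {z : FractionRing (vfun w (funField 𝒜 φ hφ)) |
          ∃ (_ : Fin 1), ∃ m, ∃ s ∈ 𝒜 m, ∃ s' ∈ 𝒜 m,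
          ψ s' ≠ 0 ∧ z = algebraMap (vfun w (funField 𝒜 φ hφ))
            (FractionRing (vfun w (funField 𝒜 φ hφ))) (ψ s) /
            algebraMap (vfun w (funField 𝒜 φ hφ))
            (FractionRing (vfun w (funField 𝒜 φ hφ))) (ψ s')} := by
      intro a
      obtain ⟨m, s, hs, s', hs', hs0, hss⟩ := a.2.1
      have hs1 : ψ s' ≠ 0 := by
        intro h0
        have h1 := hψ m s' hs'
        rw [h0] at h1
        exact mul_ne_zero (inv_ne_zero (pow_ne_zero m hθ0)) (hne _ hs0) h1.symm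
      apply IntermediateField.subset_adjoin
      refine ⟨0, m, s, hs, s', hs', hs1, ?_⟩
      have h2 : algebraMap (vfun w (funField 𝒜 φ hφ))
          (FractionRing (vfun w (funField 𝒜 φ hφ))) (ψ s') ≠ 0 := by
        intro h0
        apply hs1
        apply IsFractionRing.injective (vfun w (funField 𝒜 φ hφ))
          (FractionRing (vfun w (funField 𝒜 φ hφ)))
        rw [h0, map_zero]
      rw [eq_div_iff h2, ← map_mul]
      congr 1
      apply Subtype.ext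
      change (a : M) * ((ψ s' : vfun w (funField 𝒜 φ hφ)) : M) =
        ((ψ s : vfun w (funField 𝒜 φ hφ)) : M)
      rw [hψ m s hs, hψ m s' hs', ← hss]
      ring
    intro z _
    obtain ⟨a, c, hc, rfl⟩ := IsFractionRing.div_surjective (A := vfun w (funField 𝒜 φ hφ)) z
    exact div_mem (key a) (key c)
  refine ⟨{ V := vfun w (funField 𝒜 φ hφ)
            φ := fun _ => ψ
            centre := fun _ => ⟨d, h.d_pos, x b, h.x_mem b, hunit⟩
            generates := hgen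
            trdeg := by rw [htr, mul_one] }, AlgEquiv.refl, ?_, hunit⟩
  intro m s hs
  change ((ψ s : vfun w (funField 𝒜 φ hφ)) : M) * θ ^ m = φ s
  rw [hψ m s hs, mul_comm, ← mul_assoc, mul_inv_cancel₀ (pow_ne_zero m hθ0), one_mul]

end Pool.Agent.Lib_MP_e0d435_kv
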