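import Pool.Agent.Lib_MP_e0d435_kv.Basic

/-! V01: the valuation ring of a discrete valuation of a subfield.

`K` is a subfield of `M` on which `w` is not trivial, `V = {f ∈ K : w f ≥ 0}`. Proof: the least
positive value `e` of `w` on `K` is taken at `t ∈ K`; as `w (K*)` is a subgroup of `ℤ` it is `e ℤ`;
every non-zero `f ∈ V` is `t ^ q` times a unit of `V` (`IsDiscreteValuationRing` of
`HasUnitMulPowIrreducibleFactorization`, see `ArcDivisor_dvr` in
`Pool/Agent/Lib_GD/ArcDivisor.lean`, which can be adapted). Every element of `K` is a quotient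
of two elements of `V` (`f` or `f⁻¹` is in `V`). -/

namespace Pool.Agent.Lib_MP_e0d435_kv

/-- The valuation ring of `w` on a subfield `K`. -/
def vsub {M : Type} [Field M] (w : AddValuation M (WithTop ℤ)) (K : Subfield M) : Subring M :=
  K.toSubring ⊓ vring w

theorem vsub_isFractionRing {M : Type} [Field M] (w : AddValuation M (WithTop ℤ))
    (K : Subfield M) (f : M) (hf : f ∈ K) : ∃ a b : vsub w K, b ≠ 0 ∧ f * b = a := by
  by_cases h0 : 0 ≤ w f
  · exact ⟨⟨f, hf, h0⟩, 1, one_ne_zero, by simp⟩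
  · have hne : f ≠ 0 := by
      rintro rfl
      apply h0
      rw [AddValuation.map_zero]; exact le_top
    have h1 : 0 ≤ w f⁻¹ := by
      have h2 : ¬ (0 : ℤ) ≤ ordZ w f := fun h => h0 ((le_w_iff w hne 0).2 h)
      have h3 : (0 : ℤ) ≤ ordZ w f⁻¹ := by rw [ordZ_inv w hne]; omega
      exact (le_w_iff w (inv_ne_zero hne) 0).2 h3
    refine ⟨1, ⟨f⁻¹, K.inv_mem hf, h1⟩, ?_, ?_⟩
    · intro h
      exact inv_ne_zero hne (congrArg Subtype.val h)
    · exact mul_inv_cancel₀ hne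

private theorem Vring_core {V : Type} [CommRing V] [IsDomain V] (o : V → ℕ)
    (hmul : ∀ f g, f ≠ 0 → g ≠ 0 → o (f * g) = o f + o g) (hone : o 1 = 0)
    (hdvd : ∀ f g, f ≠ 0 → g ≠ 0 → o f ≤ o g → f ∣ g) (hnt : ∃ f, f ≠ 0 ∧ o f ≠ 0) :
    ∃ (e : ℕ) (_ : IsDiscreteValuationRing V), 1 ≤ e ∧
      ∀ f, f ≠ 0 → o f = e * (IsDiscreteValuationRing.addVal V f).toNat := by
  classical
  have hunit : ∀ f : V, f ≠ 0 → o f = 0 → IsUnit f := fun f h0 h =>
    isUnit_of_dvd_one (hdvd f 1 h0 one_ne_zero (by rw [h]; exact Nat.zero_le _))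
  have hunit' : ∀ f : V, IsUnit f → o f = 0 := by
    intro f hf
    obtain ⟨g, hg⟩ := hf.exists_right_inv
    have hg0 : g ≠ 0 := by rintro rfl; rw [mul_zero] at hg; exact zero_ne_one hg
    have h1 := hmul f g hf.ne_zero hg0
    rw [hg, hone] at h1
    omega
  have hex : ∃ e : ℕ, 1 ≤ e ∧ ∃ t : V, t ≠ 0 ∧ o t = e := by
    obtain ⟨f, hf, hf'⟩ := hnt
    exact ⟨o f, Nat.one_le_iff_ne_zero.2 hf', f, hf, rfl⟩
  obtain ⟨he1, t, ht0, ht⟩ := Nat.find_spec hex
  have hmin : ∀ f : V, f ≠ 0 → o f < Nat.find hex → o f = 0 := by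
    intro f hf hlt
    by_contra h0
    exact Nat.find_min hex hlt ⟨Nat.one_le_iff_ne_zero.2 h0, f, hf, rfl⟩
  generalize Nat.find hex = e at he1 ht hmin
  have htpow : ∀ q : ℕ, o (t ^ q) = q * e := by
    intro q
    induction q with
    | zero => simp [hone]
    | succ q ih => rw [pow_succ, hmul _ _ (pow_ne_zero q ht0) ht0, ih, ht]; ring
  have hfac : ∀ f : V, f ≠ 0 → ∃ (q : ℕ) (u : V), IsUnit u ∧ f = t ^ q * u ∧ o f = q * e := by
    intro f hf
    have h1 : t ^ (o f / e) ∣ f := by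
      apply hdvd _ _ (pow_ne_zero _ ht0) hf
      rw [htpow]
      exact Nat.div_mul_le_self _ e
    obtain ⟨u, hu⟩ := h1
    have hu0 : u ≠ 0 := by rintro rfl; exact hf (by rw [hu, mul_zero])
    have h2 : o f = o f / e * e + o u := by
      conv_lhs => rw [hu]
      rw [hmul _ _ (pow_ne_zero _ ht0) hu0, htpow]
    have h4 : o u < e := by
      have h5 := Nat.mod_lt (o f) (show 0 < e by omega)
      have h6 := Nat.div_add_mod' (o f) e
      omega
    have h7 := hmin u hu0 h4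
    exact ⟨o f / e, u, hunit u hu0 h7, hu, by omega⟩
  have htirr : Irreducible t := by
    constructor
    · intro hu
      have h1 := hunit' t hu
      omega
    · intro a b hab
      have ha0 : a ≠ 0 := by rintro rfl; exact ht0 (by rw [hab, zero_mul])
      have hb0 : b ≠ 0 := by rintro rfl; exact ht0 (by rw [hab, mul_zero])
      have h3 : e = o a + o b := by rw [← hmul a b ha0 hb0, ← hab, ht]
      by_cases hma : o a < e
      · left
        exact hunit a ha0 (hmin a ha0 hma)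
      · right
        exact hunit b hb0 (by omega)
  have hdvr : IsDiscreteValuationRing V := by
    apply IsDiscreteValuationRing.ofHasUnitMulPowIrreducibleFactorization
    refine ⟨t, htirr, ?_⟩
    intro f hf
    obtain ⟨q, u, hu, hfu, -⟩ := hfac f hf
    exact ⟨q, hu.unit, hfu.symm⟩
  refine ⟨e, hdvr, he1, ?_⟩
  intro f hf
  obtain ⟨q, u, hu, hfu, hord⟩ := hfac f hf
  have h1 : IsDiscreteValuationRing.addVal V f = q := by
    rw [IsDiscreteValuationRing.addVal_def f hu.unit htirr q (by rw [hfu, mul_comm]; rfl)]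
  rw [h1, hord, ENat.toNat_natCast]
  ring

private theorem Vring_units {V : Type} [CommRing V] [IsDomain V] (o : V → ℕ)
    (hmul : ∀ f g, f ≠ 0 → g ≠ 0 → o (f * g) = o f + o g) (hone : o 1 = 0)
    (hdvd : ∀ f g, f ≠ 0 → g ≠ 0 → o f ≤ o g → f ∣ g) (f : V) :
    IsUnit f ↔ f ≠ 0 ∧ o f = 0 := by
  constructor
  · intro hf
    refine ⟨hf.ne_zero, ?_⟩
    obtain ⟨g, hg⟩ := hf.exists_right_inv
    have hg0 : g ≠ 0 := by rintro rfl; rw [mul_zero] at hg; exact zero_ne_one hg
    have h1 := hmul f g hf.ne_zero hg0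
    rw [hg, hone] at h1
    omega
  · rintro ⟨h0, h⟩
    exact isUnit_of_dvd_one (hdvd f 1 h0 one_ne_zero (by rw [h]; exact Nat.zero_le _))

theorem vsub_dvr {M : Type} [Field M] (w : AddValuation M (WithTop ℤ)) (K : Subfield M)
    (hnt : ∃ f ∈ K, f ≠ 0 ∧ ordZ w f ≠ 0) :
    ∃ (e : ℕ) (_ : IsDiscreteValuationRing (vsub w K)), 1 ≤ e ∧
      (∀ f : vsub w K, f ≠ 0 →
        ordZ w (f : M) = e * (IsDiscreteValuationRing.addVal (vsub w K) f).toNat) ∧
      ∀ f : vsub w K, IsUnit f ↔ ((f : M) ≠ 0 ∧ ordZ w (f : M) = 0) := by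
  have hne : ∀ f : vsub w K, f ≠ 0 → (f : M) ≠ 0 := fun f hf h => hf (Subtype.ext h)
  have hnn : ∀ f : vsub w K, f ≠ 0 → 0 ≤ ordZ w (f : M) := fun f hf =>
    (le_w_iff w (hne f hf) 0).1 f.2.2
  have hmul : ∀ f g : vsub w K, f ≠ 0 → g ≠ 0 →
      (ordZ w ((f * g : vsub w K) : M)).toNat =
        (ordZ w (f : M)).toNat + (ordZ w (g : M)).toNat := by
    intro f g hf hg
    have h1 : ((f * g : vsub w K) : M) = (f : M) * (g : M) := rfl
    rw [h1, ordZ_mul w (hne f hf) (hne g hg)]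
    have h2 := hnn f hf
    have h3 := hnn g hg
    omega
  have hone : (ordZ w ((1 : vsub w K) : M)).toNat = 0 := by
    have h1 : ((1 : vsub w K) : M) = 1 := rfl
    rw [h1, ordZ_one]; rfl
  have hdvd : ∀ f g : vsub w K, f ≠ 0 → g ≠ 0 →
      (ordZ w (f : M)).toNat ≤ (ordZ w (g : M)).toNat → f ∣ g := by
    intro f g hf hg hle
    have hf' := hne f hf
    have hg' := hne g hg
    have h2 := hnn f hf
    have h3 := hnn g hg
    have h4 : 0 ≤ ordZ w ((g : M) / (f : M)) := by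
      rw [ordZ_div w hg' hf']; omega
    refine ⟨⟨(g : M) / (f : M), K.div_mem g.2.1 f.2.1,
      (le_w_iff w (div_ne_zero hg' hf') 0).2 h4⟩, ?_⟩
    apply Subtype.ext
    change (g : M) = (f : M) * ((g : M) / (f : M))
    field_simp
  have hnt' : ∃ f : vsub w K, f ≠ 0 ∧ (ordZ w (f : M)).toNat ≠ 0 := by
    obtain ⟨f, hfK, hf0, hf⟩ := hnt
    rcases lt_or_gt_of_ne hf with h | h
    · have h1 : 0 < ordZ w f⁻¹ := by rw [ordZ_inv w hf0]; omega
      refine ⟨⟨f⁻¹, K.inv_mem hfK, (le_w_iff w (inv_ne_zero hf0) 0).2 h1.le⟩, ?_, ?_⟩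
      · intro h2; exact inv_ne_zero hf0 (congrArg Subtype.val h2)
      · change (ordZ w f⁻¹).toNat ≠ 0; omega
    · refine ⟨⟨f, hfK, (le_w_iff w hf0 0).2 h.le⟩, ?_, ?_⟩
      · intro h2; exact hf0 (congrArg Subtype.val h2)
      · change (ordZ w f).toNat ≠ 0; omega
  obtain ⟨e, iV, he, hord⟩ := Vring_core (fun f : vsub w K => (ordZ w (f : M)).toNat)
    hmul hone hdvd hnt'
  refine ⟨e, iV, he, fun f hf => ?_, fun f => ?_⟩
  · have h1 := hord f hf
    have h2 := hnn f hf
    have h3 : ((ordZ w (f : M)).toNat : ℤ) = ordZ w (f : M) := Int.toNat_of_nonneg h2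
    rw [← h3]
    exact_mod_cast h1
  · rw [Vring_units (fun f : vsub w K => (ordZ w (f : M)).toNat) hmul hone hdvd f]
    constructor
    · rintro ⟨h1, h2⟩
      have h3 := hnn f h1
      exact ⟨hne f h1, by omega⟩
    · rintro ⟨h1, h2⟩
      refine ⟨fun h => h1 (by rw [h]; rfl), ?_⟩
      rw [h2]; rfl

private theorem Vring_eq {M : Type} [Field M] (w : AddValuation M (WithTop ℤ)) :
    vsub w ⊤ = vring w := by
  ext f
  exact ⟨fun h => h.2, fun h => ⟨trivial, h⟩⟩

/-- The valuation ring in the whole field. -/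
theorem vring_dvr {M : Type} [Field M] (w : AddValuation M (WithTop ℤ)) (t : M) (ht : w t = 1) :
    ∃ (_ : IsDiscreteValuationRing (vring w)), IsFractionRing (vring w) M ∧
      (∀ f : vring w, f ≠ 0 →
        ordZ w (f : M) = (IsDiscreteValuationRing.addVal (vring w) f).toNat) ∧
      ∀ f : vring w, f ∈ IsLocalRing.maximalIdeal (vring w) ↔ 1 ≤ w (f : M) := by
  have ht0 : t ≠ 0 := by
    rintro rfl
    rw [AddValuation.map_zero] at ht
    exact absurd ht (by decide)
  have hot : ordZ w t = 1 := ordZ_eq_of_w w (by rw [ht]; rfl)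
  have hmain := vsub_dvr w ⊤ ⟨t, trivial, ht0, by rw [hot]; decide⟩
  rw [Vring_eq w] at hmain
  obtain ⟨e, iV, he, hord, hunit⟩ := hmain
  have he1 : e = 1 := by
    have h1 := hord ⟨t, by show 0 ≤ w t; rw [ht]; decide⟩ (fun h => ht0 (congrArg Subtype.val h))
    rw [show ((⟨t, by show 0 ≤ w t; rw [ht]; decide⟩ : vring w) : M) = t from rfl, hot] at h1
    have h2 : (1 : ℕ) = e * (IsDiscreteValuationRing.addVal (vring w)
      (⟨t, by show 0 ≤ w t; rw [ht]; decide⟩ : vring w)).toNat := by exact_mod_cast h1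
    exact Nat.eq_one_of_mul_eq_one_right h2.symm
  subst he1
  refine ⟨iV, ?_, fun f hf => ?_, fun f => ?_⟩
  · refine IsFractionRing.of_field (R := vring w) (K := M) fun z => ?_
    obtain ⟨a, b, hb, hab⟩ := vsub_isFractionRing w ⊤ z trivial
    refine ⟨⟨(a : M), a.2.2⟩, ⟨(b : M), b.2.2⟩, ?_⟩
    have hb' : (b : M) ≠ 0 := fun h => hb (Subtype.ext h)
    change z = (a : M) / (b : M)
    rw [← hab]
    field_simp
  · rw [hord f hf]; simp
  · rw [IsLocalRing.mem_maximalIdeal, mem_nonunits_iff, hunit]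
    by_cases hf : (f : M) = 0
    · rw [hf, AddValuation.map_zero]
      simp
    · have h1 : (1 : WithTop ℤ) ≤ w (f : M) ↔ (1 : ℤ) ≤ ordZ w (f : M) := le_w_iff w hf 1
      have h2 : (0 : ℤ) ≤ ordZ w (f : M) := (le_w_iff w hf 0).1 f.2
      rw [h1]
      constructor
      · intro h
        by_contra h3
        exact h ⟨hf, by omega⟩
      · rintro h ⟨-, h3⟩
        omega

end Pool.Agent.Lib_MP_e0d435_kv
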