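import Pool.Agent.Lib_MP_e0d435_kv.AdDefs
import Pool.Agent.Lib_MP_e0d435_kv.Vring

/-! AD2: the valuation ring of an intermediate field. Proof: as `vsub_dvr`,
`vsub_isFractionRing` of `Vring.lean` (the rings `vfun w K` and `vsub w K.toSubfield` have the
same elements; transport along a ring isomorphism, or repeat the proof). -/

namespace Pool.Agent.Lib_MP_e0d435_kv

/-- The two rings have the same elements. -/
private def AdDvr_equiv {M : Type} [Field M] [Algebra ℂ M] (w : AddValuation M (WithTop ℤ))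
    (K : IntermediateField ℂ M) : vsub w K.toSubfield ≃+* vfun w K where
  toFun f := ⟨f.1, f.2.1, f.2.2⟩
  invFun f := ⟨f.1, f.2.1, f.2.2⟩
  left_inv _ := rfl
  right_inv _ := rfl
  map_mul' _ _ := rfl
  map_add' _ _ := rfl

private theorem AdDvr_transport {A B : Type} [CommRing A] [IsDomain A] [CommRing B] [IsDomain B]
    (e : A ≃+* B) (hA : IsDiscreteValuationRing A) :
    ∃ _ : IsDiscreteValuationRing B, ∀ a : A, a ≠ 0 →
      IsDiscreteValuationRing.addVal B (e a) = IsDiscreteValuationRing.addVal A a := by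
  have hB : IsDiscreteValuationRing B := IsDiscreteValuationRing.RingEquivClass.isDiscreteValuationRing e
  refine ⟨hB, fun a ha => ?_⟩
  obtain ⟨ϖ, hϖ⟩ := IsDiscreteValuationRing.exists_irreducible A
  obtain ⟨n, u, hu⟩ := IsDiscreteValuationRing.eq_unit_mul_pow_irreducible ha hϖ
  rw [IsDiscreteValuationRing.addVal_def a u hϖ n hu]
  have h2 : Irreducible (e ϖ) := (MulEquiv.irreducible_iff e).2 hϖ
  exact IsDiscreteValuationRing.addVal_def (e a) (Units.map (e : A →* B) u) h2 n (by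
    rw [hu, map_mul, map_pow]; rfl)

theorem vfun_dvr {M : Type} [Field M] [Algebra ℂ M] (w : AddValuation M (WithTop ℤ))
    (K : IntermediateField ℂ M) (hnt : ∃ f ∈ K, f ≠ 0 ∧ ordZ w f ≠ 0) :
    ∃ (e : ℕ) (_ : IsDiscreteValuationRing (vfun w K)), 1 ≤ e ∧
      (∀ f : vfun w K, f ≠ 0 →
        ordZ w (f : M) = e * (IsDiscreteValuationRing.addVal (vfun w K) f).toNat) ∧
      ∀ f ∈ K, ∃ a b : vfun w K, b ≠ 0 ∧ f * b = a := by
  obtain ⟨e, hA, he, h1, _⟩ := vsub_dvr w K.toSubfield hnt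
  obtain ⟨hB, h2⟩ := AdDvr_transport (AdDvr_equiv w K) hA
  refine ⟨e, hB, he, ?_, ?_⟩
  · intro f hf
    have hg : (AdDvr_equiv w K).symm f ≠ 0 := fun h => hf (by
      rw [← (AdDvr_equiv w K).apply_symm_apply f, h, map_zero])
    have h3 := h1 _ hg
    have h4 := h2 _ hg
    rw [(AdDvr_equiv w K).apply_symm_apply] at h4
    rw [h4]
    exact h3
  · intro f hf
    obtain ⟨a, b, hb, hab⟩ := vsub_isFractionRing w K.toSubfield f hf
    refine ⟨AdDvr_equiv w K a, AdDvr_equiv w K b, ?_, hab⟩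
    intro h
    exact hb ((AdDvr_equiv w K).injective (by rw [h, map_zero]))

end Pool.Agent.Lib_MP_e0d435_kv
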