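import Pool.Agent.Lib_MP_e0d435_kv.AdDefs
import Pool.Agent.Lib_GD.DvrCoords
import Pool.Agent.Lib_GD.DvrDer
import Pool.Agent.Lib_GD.ArcColen

/-! AD4: the order of the Jacobian bounds the log discrepancy. -/

namespace Pool.Agent.Lib_MP_e0d435_kv

private theorem adLen_ord_prod {R : Type} [CommRing R] [IsDomain R] {m : Type} (s : Finset m)
    (c : m → R) (hc : ∀ i, c i ≠ 0) : Ring.ord R (∏ i ∈ s, c i) = ∑ i ∈ s, Ring.ord R (c i) := by
  classical
  induction s using Finset.induction_on with
  | empty => simp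
  | insert a s ha ih =>
    rw [Finset.prod_insert ha, Finset.sum_insert ha, Ring.ord_mul R, ih]
    exact mem_nonZeroDivisors_of_ne_zero (Finset.prod_ne_zero_iff.2 fun i _ => hc i)

/-- The length of the cokernel of a square matrix over a principal ideal domain. -/
private theorem adLen_length {R : Type} [CommRing R] [IsDomain R] [IsPrincipalIdealRing R]
    {m : Type} [Fintype m] [DecidableEq m] (A : Matrix m m R) (hA : A.det ≠ 0) :
    Module.length R ((m → R) ⧸ Submodule.span R (Set.range A)) = Ring.ord R A.det := by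
  set N : Submodule R (m → R) := Submodule.span R (Set.range A) with hN
  have hr : LinearMap.range A.vecMulLinear = N := by
    rw [range_vecMulLinear]
    rfl
  have hinj : Function.Injective A.vecMulLinear := by
    rw [← LinearMap.ker_eq_bot, LinearMap.ker_eq_bot']
    intro x hx
    exact Matrix.eq_zero_of_vecMul_eq_zero hA hx
  let eN : (m → R) ≃ₗ[R] N :=
    (LinearEquiv.ofInjective A.vecMulLinear hinj).trans (LinearEquiv.ofEq _ _ hr)
  have heN : ∀ x, ((eN x : N) : m → R) = A.vecMulLinear x := fun x => rfl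
  have hrank : Module.finrank R N = Module.finrank R (m → R) := eN.finrank_eq.symm
  let b := Pi.basisFun R m
  let b' := Submodule.smithNormalFormTopBasis b hrank
  let ab := Submodule.smithNormalFormBotBasis b hrank
  let c := Submodule.smithNormalFormCoeffs b hrank
  have hab : ∀ i, (ab i : m → R) = c i • b' i := Submodule.smithNormalFormBotBasis_def b hrank
  have hc : ∀ i, c i ≠ 0 := fun i => Submodule.smithNormalFormCoeffs_ne_zero b hrank i
  rw [(N.quotientEquivPiSpan b hrank).length_eq, Module.length_pi_of_fintype]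
  have h1 : ∑ i, Module.length R (R ⧸ Ideal.span ({c i} : Set R)) = Ring.ord R (∏ i, c i) := by
    rw [adLen_ord_prod _ _ hc]
    rfl
  refine h1.trans (Ring.ord_eq_of_associated ?_)
  -- the two determinants
  let ψ : (m → R) →ₗ[R] (m → R) := N.subtype ∘ₗ (b'.equiv ab (Equiv.refl m)).toLinearMap
  have hψ : LinearMap.det ψ = ∏ i, c i := by
    rw [← LinearMap.det_toMatrix b', ← Matrix.det_diagonal]
    congr 1
    ext i j
    rw [LinearMap.toMatrix_apply]
    have h2 : ψ (b' j) = c j • b' j := by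
      rw [← hab j]
      show ((b'.equiv ab (Equiv.refl m) (b' j) : N) : m → R) = ab j
      rw [Module.Basis.equiv_apply]
      rfl
    rw [h2, map_smul, Finsupp.smul_apply, Module.Basis.repr_self, Matrix.diagonal_apply,
      smul_eq_mul, Finsupp.single_apply]
    split_ifs with h3 h4 h4
    · rw [mul_one, h3]
    · exact absurd h3.symm h4
    · exact absurd h4.symm h3
    · rw [mul_zero]
  have hφ : LinearMap.det A.vecMulLinear = A.det := by
    rw [← Matrix.mulVecLin_transpose, ← Matrix.toLin'_apply', LinearMap.det_toLin',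
      Matrix.det_transpose]
  rw [← hψ, ← hφ]
  refine (LinearMap.associated_det_of_eq_comp (eN.trans (b'.equiv ab (Equiv.refl m)).symm)
    A.vecMulLinear ψ fun x => ?_).symm
  show A.vecMulLinear x = ((b'.equiv ab (Equiv.refl m)
    ((b'.equiv ab (Equiv.refl m)).symm (eN x)) : N) : m → R)
  rw [LinearEquiv.apply_symm_apply, heN]

private theorem adLen_ord_dvr {R : Type} [CommRing R] [IsDomain R] [IsDiscreteValuationRing R]
    (x : R) (hx : x ≠ 0) : Ring.ord R x = IsDiscreteValuationRing.addVal R x := by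
  obtain ⟨ϖ, hϖ⟩ := IsDiscreteValuationRing.exists_irreducible R
  obtain ⟨n, u, rfl⟩ := IsDiscreteValuationRing.eq_unit_mul_pow_irreducible hx hϖ
  rw [IsDiscreteValuationRing.addVal_def' u hϖ n, Ring.ord_mul_of_isUnit_left u.isUnit,
    Ring.ord_pow (mem_nonZeroDivisors_of_ne_zero hϖ.ne_zero), Ring.ord_of_irreducible hϖ,
    nsmul_eq_mul, mul_one]

/-- The length of `V^k` modulo the span of the rows of a square matrix of non-zero determinant is the
order of the determinant. (`ArcColen_det_ne` and the proof of `colen_of_matrix` in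
`Pool/Agent/Lib_GD/ArcColen.lean` contain this; Smith normal form or `Ring.ord`.) Conversely if the
determinant is zero then the length is infinite. -/
theorem length_matrix {V : Type} [CommRing V] [IsDomain V] [IsDiscreteValuationRing V] {k : ℕ}
    (A : Matrix (Fin k) (Fin k) V) (hA : A.det ≠ 0) :
    Module.length V ((Fin k → V) ⧸ Submodule.span V (Set.range A)) =
      IsDiscreteValuationRing.addVal V A.det := by
  rw [adLen_length A hA, adLen_ord_dvr _ hA]

private theorem adLen_der {V : Type} [CommRing V] [Algebra ℂ V] {M : Type} [Field M]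
    [Algebra ℂ M] (σ : V →ₐ[ℂ] M) (δ : Derivation ℂ M M) {ι : Type} [Fintype ι]
    (b : Module.Basis ι V (KaehlerDifferential ℂ V)) (g : ι → V)
    (hb : ∀ q, b q = KaehlerDifferential.D ℂ V (g q)) (f : V) :
    δ (σ f) = ∑ q, δ (σ (g q)) * σ (b.repr (KaehlerDifferential.D ℂ V f) q) := by
  let _ : Module V M := Module.compHom M σ.toRingHom
  have hsm : ∀ (b : V) (f : M), b • f = σ b * f := fun _ _ => rfl
  have : IsScalarTower ℂ V M := ⟨fun z b f => by
    rw [hsm, hsm, map_smul, smul_mul_assoc]⟩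
  let D : Derivation ℂ V M :=
    { toFun := fun b => δ (σ b)
      map_add' := fun a b => by rw [map_add, map_add]
      map_smul' := fun z b => by
        rw [map_smul]
        exact δ.map_smul z (σ b)
      map_one_eq_zero' := by
        change δ (σ 1) = 0
        rw [map_one, Derivation.map_one_eq_zero]
      leibniz' := fun a b => by
        change δ (σ (a * b)) = a • δ (σ b) + b • δ (σ a)
        rw [hsm, hsm, map_mul, Derivation.leibniz]
        rfl }
  have h1 : D.liftKaehlerDifferential (KaehlerDifferential.D ℂ V f) = δ (σ f) :=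
    D.liftKaehlerDifferential_comp_D f
  rw [← h1]
  conv_lhs => rw [← b.sum_repr (KaehlerDifferential.D ℂ V f)]
  rw [map_sum]
  refine Finset.sum_congr rfl fun q _ => ?_
  rw [map_smul, hb, hsm, Derivation.liftKaehlerDifferential_comp_D, mul_comm]
  rfl

private theorem adLen_w_prod {M : Type} [Field M] (w : AddValuation M (WithTop ℤ)) {ι : Type}
    (s : Finset ι) (f : ι → M) : w (∏ i ∈ s, f i) = ∑ i ∈ s, w (f i) := by
  classical
  induction s using Finset.induction_on with
  | empty => rw [Finset.prod_empty, Finset.sum_empty, AddValuation.map_one]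
  | insert a s ha ih => rw [Finset.prod_insert ha, Finset.sum_insert ha, AddValuation.map_mul, ih]

private theorem adLen_det {M : Type} [Field M] (w : AddValuation M (WithTop ℤ)) {k : ℕ}
    (A : Matrix (Fin k) (Fin k) M) (j0 : Fin k) (c : WithTop ℤ) (hA : ∀ i j, 0 ≤ w (A i j))
    (hj : ∀ i, c ≤ w (A i j0)) : c ≤ w A.det := by
  rw [Matrix.det_apply]
  refine AddValuation.map_le_sum _ fun π _ => ?_
  have h1 : w (Equiv.Perm.sign π • ∏ i, A (π i) i) = w (∏ i, A (π i) i) := by
    rcases Int.units_eq_one_or (Equiv.Perm.sign π) with h | h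
    · rw [h, one_smul]
    · rw [h, Units.neg_smul, one_smul, AddValuation.map_neg]
  rw [h1, adLen_w_prod]
  exact (hj _).trans (Finset.single_le_sum (f := fun i => w (A (π i) i)) (fun i _ => hA _ _)
    (Finset.mem_univ j0))

/-- Proof: `n = r + 1`, `Ω_V` is free on `dt, dw_1, …, dw_r` (`exists_dvr_coords`); write
`D y_l = ∑_q a_lq b_q`. For every derivation `d_i` of `Λ.M`:
`d_i σ(y_l) = ∑_q σ(a_lq) d_i σ(b'_q)`, `b' = (t, w)` (the derivation `d_i ∘ σ` factors through
`Ω_V`, see `ArcDivisor_hat_basis`). So the matrix of `hdet` is the product of the matrix with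
the columns `d_i τ / τ`, `d_i σ(t)`, `d_i σ(w_q)` and the block matrix `1 ⊕ σ(a)ᵀ`; its determinant is
`σ(det a) det (…)`, so `det a ≠ 0`, the length is `ord det a` (`length_matrix`), and
`ord det (…) ≥ e` because all entries have `w ≥ 0` and those of the column of `t` have
`w (d_i σ t) ≥ w (σ t) = e`. -/
theorem length_le_jac {n : ℕ} (hn : 1 ≤ n) (Λ : LDF (n + 1))
    {V : Type} [CommRing V] [IsDomain V] [IsDiscreteValuationRing V] [Algebra ℂ V]
    [Algebra.EssFiniteType ℂ V] (htr : Algebra.trdeg ℂ V = (n : ℕ))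
    (σ : V →ₐ[ℂ] Λ.M) (hσ : Function.Injective σ) (e : ℕ) (he : 1 ≤ e)
    (hord : ∀ f : V, f ≠ 0 → ordZ Λ.w (σ f) = e * (IsDiscreteValuationRing.addVal V f).toNat)
    (y : Fin n → V) (τ : Λ.M) (hτ : τ ≠ 0)
    (hdet : Matrix.det (Matrix.of fun i j : Fin (n + 1) =>
      (Fin.cons (Λ.d i τ / τ) (fun l : Fin n => Λ.d i (σ (y l))) : Fin (n + 1) → Λ.M) j) ≠ 0) :
    Module.length V (KaehlerDifferential ℂ V ⧸ Submodule.span V
      (Set.range fun l => KaehlerDifferential.D ℂ V (y l))) ≠ ⊤ ∧
    (e : ℤ) * (1 + (Module.length V (KaehlerDifferential ℂ V ⧸ Submodule.span V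
      (Set.range fun l => KaehlerDifferential.D ℂ V (y l)))).toNat) ≤
    ordZ Λ.w (Matrix.det (Matrix.of fun i j : Fin (n + 1) =>
      (Fin.cons (Λ.d i τ / τ) (fun l : Fin n => Λ.d i (σ (y l))) : Fin (n + 1) → Λ.M) j)) := by
  obtain ⟨r, rfl⟩ : ∃ r, n = r + 1 := ⟨n - 1, by omega⟩
  obtain ⟨t, u, b0, ht, hbt, hbu⟩ := Pool.Agent.Lib_GD.exists_dvr_coords V r htr
  let b := b0.reindex (finSuccEquiv r).symm
  let g : Fin (r + 1) → V := Fin.cons t u
  have hb : ∀ q, b q = KaehlerDifferential.D ℂ V (g q) := by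
    intro q
    refine Fin.cases ?_ (fun l => ?_) q
    · simp [b, g, hbt]
    · simp [b, g, hbu]
  let A : Matrix (Fin (r + 1)) (Fin (r + 1)) V := fun l q =>
    b.repr (KaehlerDifferential.D ℂ V (y l)) q
  set J : Matrix (Fin (r + 1 + 1)) (Fin (r + 1 + 1)) Λ.M :=
    Matrix.of fun i j : Fin (r + 1 + 1) =>
      (Fin.cons (Λ.d i τ / τ) (fun l : Fin (r + 1) => Λ.d i (σ (y l))) : Fin (r + 1 + 1) → Λ.M) j
    with hJ
  let J0 : Matrix (Fin (r + 1 + 1)) (Fin (r + 1 + 1)) Λ.M :=
    Matrix.of fun i j : Fin (r + 1 + 1) =>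
      (Fin.cons (Λ.d i τ / τ) (fun q : Fin (r + 1) => Λ.d i (σ (g q))) : Fin (r + 1 + 1) → Λ.M) j
  let T : Matrix (Fin (r + 1 + 1)) (Fin (r + 1 + 1)) Λ.M :=
    Matrix.of fun i j : Fin (r + 1 + 1) =>
      (Fin.cons (Fin.cons 1 (fun _ => 0) : Fin (r + 1 + 1) → Λ.M)
        (fun q : Fin (r + 1) => (Fin.cons 0 (fun l => σ (A l q)) : Fin (r + 1 + 1) → Λ.M)) :
        Fin (r + 1 + 1) → Fin (r + 1 + 1) → Λ.M) i j
  have hJT : J = J0 * T := by
    ext i j
    rw [Matrix.mul_apply, Fin.sum_univ_succ]
    refine Fin.cases ?_ (fun l => ?_) j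
    · simp [J, J0, T]
    · have h := adLen_der σ (Λ.d i) b g hb (y l)
      simp only [J, J0, T, Matrix.of_apply, Fin.cons_zero, Fin.cons_succ, mul_zero, zero_add]
      exact h
  have hT : T.det = σ A.det := by
    rw [Matrix.det_succ_row_zero, Fin.sum_univ_succ]
    have h1 : ∀ l : Fin (r + 1), T 0 l.succ = 0 := fun l => by simp [T]
    have h2 : T.submatrix Fin.succ (Fin.succAbove 0) = (A.map σ).transpose := by
      ext i j
      simp [T]
    have h3 : T 0 0 = 1 := by simp [T]
    rw [h2, h3, Matrix.det_transpose]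
    simp only [h1, mul_zero, zero_mul, Finset.sum_const_zero, add_zero]
    rw [Fin.val_zero, pow_zero, one_mul, one_mul]
    exact (AlgHom.map_det σ A).symm
  have hdetJ : J.det = J0.det * σ A.det := by rw [hJT, Matrix.det_mul, hT]
  have hJ0 : J0.det ≠ 0 := by
    intro h
    apply hdet
    rw [hdetJ, h, zero_mul]
  have hσA : σ A.det ≠ 0 := by
    intro h
    apply hdet
    rw [hdetJ, h, mul_zero]
  have hA : A.det ≠ 0 := by
    intro h
    apply hσA
    rw [h, map_zero]
  -- the length
  have hmap : (Submodule.span V (Set.range fun l => KaehlerDifferential.D ℂ V (y l))).map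
      (b.equivFun : KaehlerDifferential ℂ V →ₗ[V] (Fin (r + 1) → V)) =
      Submodule.span V (Set.range A) := by
    rw [Submodule.map_span, ← Set.range_comp]
    rfl
  have hlen : Module.length V (KaehlerDifferential ℂ V ⧸ Submodule.span V
      (Set.range fun l => KaehlerDifferential.D ℂ V (y l))) =
      IsDiscreteValuationRing.addVal V A.det := by
    rw [← length_matrix A hA]
    exact (Submodule.Quotient.equiv _ _ b.equivFun hmap).length_eq
  have htop : IsDiscreteValuationRing.addVal V A.det ≠ ⊤ := by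
    rw [Ne, IsDiscreteValuationRing.addVal_eq_top_iff]
    exact hA
  refine ⟨by rw [hlen]; exact htop, ?_⟩
  -- orders
  have hnn : ∀ f : V, 0 ≤ Λ.w (σ f) := by
    intro f
    by_cases hf : f = 0
    · rw [hf, map_zero, AddValuation.map_zero]
      exact le_top
    · have h1 : σ f ≠ 0 := fun h => hf (hσ (by rw [h, map_zero]))
      have h2 : ((0 : ℤ) : WithTop ℤ) ≤ Λ.w (σ f) := by
        rw [le_w_iff Λ.w h1, hord f hf]
        positivity
      exact h2
  have hcol : ∀ i, ((e : ℤ) : WithTop ℤ) ≤ Λ.w (J0 i 1) := by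
    intro i
    have h0 : J0 i 1 = Λ.d i (σ t) := by
      change J0 i (Fin.succ 0) = _
      simp [J0, g]
    have h1 : σ t ≠ 0 := fun h => ht.ne_zero (hσ (by rw [h, map_zero]))
    rw [h0]
    refine le_trans ?_ (Λ.log i (σ t))
    rw [le_w_iff Λ.w h1, hord t ht.ne_zero, IsDiscreteValuationRing.addVal_uniformizer ht]
    simp
  have hent : ∀ i j, 0 ≤ Λ.w (J0 i j) := by
    intro i j
    refine Fin.cases ?_ (fun q => ?_) j
    · have h0 : J0 i 0 = Λ.d i τ / τ := by simp [J0]
      rw [h0, div_eq_mul_inv, AddValuation.map_mul]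
      have h1 : Λ.w τ + Λ.w τ⁻¹ = 0 := by
        rw [← AddValuation.map_mul, mul_inv_cancel₀ hτ, AddValuation.map_one]
      rw [← h1]
      exact add_le_add_left (Λ.log i τ) _
    · have h0 : J0 i q.succ = Λ.d i (σ (g q)) := by simp [J0]
      rw [h0]
      exact (hnn _).trans (Λ.log i _)
  have hge : (e : ℤ) ≤ ordZ Λ.w J0.det :=
    (le_w_iff Λ.w hJ0 e).1 (adLen_det Λ.w J0 1 _ hent hcol)
  rw [hlen, hdetJ, ordZ_mul Λ.w hJ0 hσA, hord _ hA]
  linarith


end Pool.Agent.Lib_MP_e0d435_kv
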