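import Pool.Agent.Lib_MP_e0d435_kv.AdDefs
import Pool.Agent.Lib_GD.DvrCoords

/-! AD3: the residue field is large (Newton argument). -/

namespace Pool.Agent.Lib_MP_e0d435_kv

section newton

variable {M : Type} [Field M] [Algebra ℂ M] {V : Type} [CommRing V] [Algebra ℂ V]
  (σ : V →ₐ[ℂ] M) (D : V →ₗ[ℂ] M) (hD : ∀ f g, D (f * g) = σ f * D g + σ g * D f)

include hD

private theorem AdRes_one : D 1 = 0 := by
  have h := hD 1 1
  rw [mul_one, map_one σ, one_mul] at h
  exact left_eq_add.1 h

private theorem AdRes_zero_of_adjoin {ι : Type} (u : ι → V) (hu : ∀ i, D (u i) = 0)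
    (p : MvPolynomial ι ℂ) : D (MvPolynomial.aeval u p) = 0 := by
  induction p using MvPolynomial.induction_on with
  | C a =>
    rw [MvPolynomial.aeval_C, Algebra.algebraMap_eq_smul_one, map_smul, AdRes_one σ D hD,
      smul_zero]
  | add p q hp hq => rw [map_add, map_add, hp, hq, add_zero]
  | mul_X p i hp => rw [map_mul, hD, hp, MvPolynomial.aeval_X, hu, mul_zero, mul_zero, add_zero]

private theorem AdRes_pow (f : V) (m : ℕ) : D (f ^ m) = m * σ f ^ (m - 1) * D f := by
  induction m with
  | zero => rw [pow_zero, AdRes_one σ D hD]; simp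
  | succ m ih =>
    rw [pow_succ, hD, ih, map_pow]
    rcases m with _ | m
    · simp
    · simp only [Nat.add_sub_cancel, Nat.cast_add, Nat.cast_one]
      ring

private theorem AdRes_eval₂ {ι : Type} (u : ι → V) (hu : ∀ i, D (u i) = 0) (f : V)
    (P : Polynomial (MvPolynomial ι ℂ)) :
    D (P.eval₂ (MvPolynomial.aeval u : MvPolynomial ι ℂ →ₐ[ℂ] V).toRingHom f) =
      σ (P.derivative.eval₂ (MvPolynomial.aeval u : MvPolynomial ι ℂ →ₐ[ℂ] V).toRingHom f) *
        D f := by
  induction P using Polynomial.induction_on' with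
  | add p q hp hq =>
    rw [Polynomial.eval₂_add, map_add, hp, hq, Polynomial.derivative_add,
      Polynomial.eval₂_add, map_add, add_mul]
  | monomial m a =>
    rw [Polynomial.eval₂_monomial, Polynomial.derivative_monomial, Polynomial.eval₂_monomial, hD]
    have h0 : D ((MvPolynomial.aeval u : MvPolynomial ι ℂ →ₐ[ℂ] V).toRingHom a) = 0 :=
      AdRes_zero_of_adjoin σ D hD u hu a
    rw [h0, mul_zero, add_zero, AdRes_pow σ D hD]
    simp only [map_mul, map_natCast, map_pow]
    ring

end newton

/-- The Newton argument. `V` a discrete valuation ring with `σ : V → M`, `ord σ f = e ord f`; `D` a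
derivation of `V` with values in `M` (over `σ`), bounded below, which kills a uniformiser `t` and
elements `u i` whose residues are a transcendence basis of the residue field. Then `D = 0`.
Proof: otherwise let `g` have `ord D g = m` least (`m` exists by boundedness). The residue of `g`
is algebraic over the residues of the `u i`: there is `P ∈ ℂ[u][T]` of least degree with
`P(g) ∈ t V`, then `P'(g)` is a unit; `P(g) = t g'`, and `D (P g) = σ (P' g) D g`,
`D (t g') = σ t D g'`, so `ord D g' = m - e`, contradiction. (`ArcDivisor_newton` in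
`Pool/Agent/Lib_GD/ArcDivisor.lean` is the same argument.) -/
theorem newton_kill {M : Type} [Field M] [Algebra ℂ M] (w : AddValuation M (WithTop ℤ))
    {V : Type} [CommRing V] [IsDomain V] [IsDiscreteValuationRing V] [Algebra ℂ V]
    (σ : V →ₐ[ℂ] M) (hσ : Function.Injective σ) (e : ℕ) (he : 1 ≤ e)
    (hord : ∀ f : V, f ≠ 0 → ordZ w (σ f) = e * (IsDiscreteValuationRing.addVal V f).toNat)
    {ι : Type} (u : ι → V)
    (hu : IsTranscendenceBasis ℂ (fun i => IsLocalRing.residue V (u i)))
    (t : V) (ht : Irreducible t) (D : V →ₗ[ℂ] M)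
    (hD : ∀ f g, D (f * g) = σ f * D g + σ g * D f)
    (C : ℤ) (hC : ∀ f, D f ≠ 0 → - C ≤ ordZ w (D f))
    (h0 : ∀ i, D (u i) = 0) (h1 : D t = 0) (f : V) : D f = 0 := by
  classical
  by_contra hf
  have hex : ∃ m : ℕ, ∃ f : V, D f ≠ 0 ∧ (ordZ w (D f) + C).toNat = m := ⟨_, f, hf, rfl⟩
  obtain ⟨g, hgne, hg⟩ := Nat.find_spec hex
  have hmin : ∀ (g' : V), D g' ≠ 0 → Nat.find hex ≤ (ordZ w (D g') + C).toNat :=
    fun g' hg' => Nat.find_min' hex ⟨g', hg', rfl⟩
  generalize Nat.find hex = m at hg hmin
  clear hf f hex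
  let π : V →ₐ[ℂ] IsLocalRing.ResidueField V :=
    IsScalarTower.toAlgHom ℂ V (IsLocalRing.ResidueField V)
  have hπ : ∀ v, π v = IsLocalRing.residue V v := fun v => rfl
  set ub : ι → IsLocalRing.ResidueField V := fun i => IsLocalRing.residue V (u i) with hub
  have hev : ∀ P : Polynomial (MvPolynomial ι ℂ),
      π (P.eval₂ (MvPolynomial.aeval u : MvPolynomial ι ℂ →ₐ[ℂ] V).toRingHom g) =
      P.eval₂ (MvPolynomial.aeval ub : MvPolynomial ι ℂ →ₐ[ℂ] _).toRingHom (π g) := by
    intro P
    have h1 : π.toRingHom.comp (MvPolynomial.aeval u : MvPolynomial ι ℂ →ₐ[ℂ] V).toRingHom =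
        (MvPolynomial.aeval ub : MvPolynomial ι ℂ →ₐ[ℂ] _).toRingHom := by
      have : π.comp (MvPolynomial.aeval u) = MvPolynomial.aeval ub := by
        ext i
        simp [hub, hπ]
      rw [← this]; rfl
    rw [← h1]
    exact Polynomial.hom_eval₂ P _ π.toRingHom g
  have hexP : ∃ d : ℕ, ∃ P : Polynomial (MvPolynomial ι ℂ), P ≠ 0 ∧ P.natDegree = d ∧
      P.eval₂ (MvPolynomial.aeval ub : MvPolynomial ι ℂ →ₐ[ℂ] _).toRingHom (π g) = 0 := by
    have halg := hu.isAlgebraic
    obtain ⟨Q, hQ0, hQ⟩ := halg.isAlgebraic (π g)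
    refine ⟨_, Q.map hu.1.aevalEquiv.symm.toRingEquiv.toRingHom, ?_, rfl, ?_⟩
    · rw [Ne, Polynomial.map_eq_zero_iff]
      · exact hQ0
      · exact hu.1.aevalEquiv.symm.injective
    · rw [Polynomial.eval₂_map]
      rw [Polynomial.aeval_def] at hQ
      have h2 : (MvPolynomial.aeval ub : MvPolynomial ι ℂ →ₐ[ℂ] _).toRingHom.comp
          hu.1.aevalEquiv.symm.toRingEquiv.toRingHom =
          algebraMap (Algebra.adjoin ℂ (Set.range ub)) (IsLocalRing.ResidueField V) := by
        refine RingHom.ext fun a => ?_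
        have h3 := hu.1.algebraMap_aevalEquiv (hu.1.aevalEquiv.symm a)
        rw [AlgEquiv.apply_symm_apply] at h3
        exact h3.symm
      rw [h2]
      exact hQ
  obtain ⟨P, hP0, hPd, hPev⟩ := Nat.find_spec hexP
  have hPmin : ∀ P' : Polynomial (MvPolynomial ι ℂ), P' ≠ 0 → P'.natDegree < P.natDegree →
      P'.eval₂ (MvPolynomial.aeval ub : MvPolynomial ι ℂ →ₐ[ℂ] _).toRingHom (π g) ≠ 0 := by
    intro P' h0 hlt h1
    rw [hPd] at hlt
    exact Nat.find_min hexP hlt ⟨P', h0, rfl, h1⟩
  clear hPd hexP
  have hPdeg : P.natDegree ≠ 0 := by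
    intro h0
    obtain ⟨a, rfl⟩ := Polynomial.natDegree_eq_zero.1 h0
    rw [Polynomial.eval₂_C] at hPev
    have h1 : a = 0 := by
      have h2 := (injective_iff_map_eq_zero (MvPolynomial.aeval ub : MvPolynomial ι ℂ →ₐ[ℂ] _)).1
        hu.1 a hPev
      exact h2
    exact hP0 (by rw [h1, map_zero])
  have hP'0 : P.derivative ≠ 0 := fun h =>
    hPdeg (Polynomial.derivative_eq_zero.1 h)
  have hP'ev := hPmin P.derivative hP'0 (Polynomial.natDegree_derivative_lt hPdeg)
  rw [← hev] at hP'ev hPev
  set E := P.eval₂ (MvPolynomial.aeval u : MvPolynomial ι ℂ →ₐ[ℂ] V).toRingHom g with hE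
  set E' := P.derivative.eval₂ (MvPolynomial.aeval u : MvPolynomial ι ℂ →ₐ[ℂ] V).toRingHom g
    with hE'
  have hder : D E = σ E' * D g := AdRes_eval₂ σ D hD u h0 g P
  have hE'u : IsUnit E' := by
    rw [hπ] at hP'ev
    by_contra hcon
    exact hP'ev ((IsLocalRing.residue_eq_zero_iff E').2 ((IsLocalRing.mem_maximalIdeal E').2 hcon))
  have hEm : t ∣ E := by
    rw [hπ, IsLocalRing.residue_eq_zero_iff, ht.maximalIdeal_eq, Ideal.mem_span_singleton] at hPev
    exact hPev
  obtain ⟨g', hg'⟩ := hEm
  rw [hg', hD, h1, mul_zero, add_zero] at hder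
  have hσt : σ t ≠ 0 := fun h => ht.ne_zero (hσ (by rw [h, map_zero]))
  have hσE : σ E' ≠ 0 := fun h => hE'u.ne_zero (hσ (by rw [h, map_zero]))
  have ht1 : ordZ w (σ t) = e := by
    rw [hord t ht.ne_zero, IsDiscreteValuationRing.addVal_uniformizer ht]
    simp
  have hE1 : ordZ w (σ E') = 0 := by
    have h2 := IsDiscreteValuationRing.addVal_eq_zero_of_unit hE'u.unit
    rw [IsUnit.unit_spec] at h2
    rw [hord E' hE'u.ne_zero, h2]
    simp
  have hg'ne : D g' ≠ 0 := by
    intro h
    rw [h, mul_zero] at hder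
    exact mul_ne_zero hσE hgne hder.symm
  have hord' := congrArg (ordZ w) hder
  rw [ordZ_mul w hσt hg'ne, ordZ_mul w hσE hgne, ht1, hE1, zero_add] at hord'
  have h5 := hmin g' hg'ne
  have h6 := hC g' hg'ne
  have h7 := hC g hgne
  omega

/-- Proof: let `u : ι → V` lift a transcendence basis of the residue field. If `ι` had fewer than
`n - 1` elements (or take a maximal algebraically independent family), then there is
`c ≠ 0` in `M ^ (n + 1)` with `∑ c_i (d_i σ(t)) = 0`, `∑ c_i d_i σ(u_j) = 0` for all `j`,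
`∑ c_i d_i τ = 0` (at most `n` equations, `n + 1` unknowns); the derivation `D = ∑ c_i d_i ∘ σ` is
bounded below by `min ord c_i`, so it vanishes on `V` (`newton_kill`), in particular on the `y l`:
then `c` is in the left kernel of the matrix, contradiction. If the residue field has
transcendence degree at least `n - 1` take `n - 1` members of a transcendence basis. -/
theorem exists_residue_indep {n : ℕ} (hn : 1 ≤ n) (Λ : LDF (n + 1))
    {V : Type} [CommRing V] [IsDomain V] [IsDiscreteValuationRing V] [Algebra ℂ V]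
    (σ : V →ₐ[ℂ] Λ.M) (hσ : Function.Injective σ) (e : ℕ) (he : 1 ≤ e)
    (hord : ∀ f : V, f ≠ 0 → ordZ Λ.w (σ f) = e * (IsDiscreteValuationRing.addVal V f).toNat)
    (y : Fin n → V) (τ : Λ.M) (hτ : τ ≠ 0)
    (hdet : Matrix.det (Matrix.of fun i j : Fin (n + 1) =>
      (Fin.cons (Λ.d i τ / τ) (fun l : Fin n => Λ.d i (σ (y l))) : Fin (n + 1) → Λ.M) j) ≠ 0) :
    ∃ v : Fin (n - 1) → V, AlgebraicIndependent ℂ (fun i => IsLocalRing.residue V (v i)) := by
  classical
  obtain ⟨s, hs⟩ := exists_isTranscendenceBasis ℂ (IsLocalRing.ResidueField V)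
  by_cases hbig : Nonempty (Fin (n - 1) ↪ s)
  · obtain ⟨j⟩ := hbig
    choose v hv using fun i => IsLocalRing.residue_surjective (R := V)
      (j i : IsLocalRing.ResidueField V)
    refine ⟨v, ?_⟩
    have : (fun i => IsLocalRing.residue V (v i)) =
        (fun z : s => (z : IsLocalRing.ResidueField V)) ∘ j := by
      funext i; exact hv i
    rw [this]
    exact hs.1.comp j j.injective
  · exfalso
    have hfin : Finite s := by
      by_contra hinf
      rw [not_finite_iff_infinite] at hinf
      exact hbig ⟨(Fin.valEmbedding).trans (Infinite.natEmbedding s)⟩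
    have := Fintype.ofFinite s
    have hcard : Fintype.card s < n - 1 := by
      by_contra hcon
      rw [not_lt] at hcon
      apply hbig
      have : Fintype.card (Fin (n - 1)) ≤ Fintype.card s := by rwa [Fintype.card_fin]
      exact Function.Embedding.nonempty_of_card_le this
    choose u hu using fun i : s => IsLocalRing.residue_surjective (R := V)
      (i : IsLocalRing.ResidueField V)
    have hu' : IsTranscendenceBasis ℂ (fun i : s => IsLocalRing.residue V (u i)) := by
      have : (fun i : s => IsLocalRing.residue V (u i)) =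
          (fun z : s => (z : IsLocalRing.ResidueField V)) := by
        funext i; exact hu i
      rw [this]; exact hs
    obtain ⟨t, ht⟩ := IsDiscreteValuationRing.exists_irreducible V
    let g : Option (Option s) → Λ.M := fun o => o.elim τ (fun o => o.elim (σ t) fun i => σ (u i))
    let L : (Fin (n + 1) → Λ.M) →ₗ[Λ.M] (Option (Option s) → Λ.M) :=
      { toFun := fun c o => ∑ i, c i * Λ.d i (g o)
        map_add' := fun v w => by
          funext o
          simp only [Pi.add_apply, add_mul, Finset.sum_add_distrib]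
        map_smul' := fun a v => by
          funext o
          simp only [Pi.smul_apply, smul_eq_mul, RingHom.id_apply, Finset.mul_sum]
          exact Finset.sum_congr rfl fun l _ => by ring }
    have hL : ¬ Function.Injective L := by
      intro hinj
      have := LinearMap.finrank_le_finrank_of_injective (f := L) hinj
      rw [Module.finrank_pi, Module.finrank_pi, Fintype.card_fin, Fintype.card_option,
        Fintype.card_option] at this
      omega
    rw [injective_iff_map_eq_zero] at hL
    push Not at hL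
    obtain ⟨c, hc, hc0⟩ := hL
    have hc' : ∀ o, ∑ i, c i * Λ.d i (g o) = 0 := fun o => congrFun hc o
    let D : V →ₗ[ℂ] Λ.M :=
      { toFun := fun f => ∑ i, c i * Λ.d i (σ f)
        map_add' := fun f f' => by
          simp only [map_add, mul_add, Finset.sum_add_distrib]
        map_smul' := fun a f => by
          simp only [map_smul, RingHom.id_apply, Derivation.map_smul, Finset.smul_sum,
            mul_smul_comm] }
    have hDd : ∀ f, D f = ∑ i, c i * Λ.d i (σ f) := fun f => rfl
    have hDm : ∀ f f', D (f * f') = σ f * D f' + σ f' * D f := by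
      intro f f'
      rw [hDd, hDd, hDd, Finset.mul_sum, Finset.mul_sum, ← Finset.sum_add_distrib]
      refine Finset.sum_congr rfl fun i _ => ?_
      rw [map_mul, Derivation.leibniz, smul_eq_mul, smul_eq_mul]
      ring
    have hbd : ∀ f, D f ≠ 0 → - (∑ i, |ordZ Λ.w (c i)|) ≤ ordZ Λ.w (D f) := by
      intro f hf
      rw [← le_w_iff _ hf, hDd]
      refine le_w_sum _ _ _ _ fun i _ => ?_
      by_cases hz : c i * Λ.d i (σ f) = 0
      · rw [hz, AddValuation.map_zero]
        exact le_top
      · have h1 : c i ≠ 0 := left_ne_zero_of_mul hz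
        have h2 : Λ.d i (σ f) ≠ 0 := right_ne_zero_of_mul hz
        have h3 : σ f ≠ 0 := fun h => h2 (by rw [h, map_zero])
        have hf0 : f ≠ 0 := fun h => h3 (by rw [h, map_zero])
        rw [le_w_iff _ hz, ordZ_mul _ h1 h2]
        have h4 := Λ.ordZ_le_d i h3 h2
        have h5 : 0 ≤ ordZ Λ.w (σ f) := by
          rw [hord f hf0]
          positivity
        have h6 : |ordZ Λ.w (c i)| ≤ ∑ i, |ordZ Λ.w (c i)| :=
          Finset.single_le_sum (f := fun i => |ordZ Λ.w (c i)|) (fun i _ => abs_nonneg _)
            (Finset.mem_univ i)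
        have h7 := neg_abs_le (ordZ Λ.w (c i))
        linarith
    have hall := newton_kill Λ.w σ hσ e he hord u hu' t ht D hDm _ hbd
      (fun i => hc' (some (some i))) (hc' (some none))
    apply hdet
    rw [← Matrix.exists_vecMul_eq_zero_iff]
    refine ⟨c, hc0, ?_⟩
    funext j
    rw [Matrix.vecMul, dotProduct]
    simp only [Matrix.of_apply, Pi.zero_apply]
    refine Fin.cases ?_ (fun l => ?_) j
    · simp only [Fin.cons_zero]
      have h1 : ∑ i, c i * Λ.d i τ = 0 := hc' none
      calc ∑ i, c i * (Λ.d i τ / τ) = (∑ i, c i * Λ.d i τ) / τ := by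
            rw [Finset.sum_div]
            exact Finset.sum_congr rfl fun i _ => by ring
        _ = 0 := by rw [h1, zero_div]
    · simp only [Fin.cons_succ]
      exact hall (y l)

end Pool.Agent.Lib_MP_e0d435_kv
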