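import Pool.Agent.Lib_MP_e0d435_kv.AdDefs

/-! AD1: injectivity and the weight of an arc on the cone. -/

namespace Pool.Agent.Lib_MP_e0d435_kv

open Pool.Agent.Lib_GD Pool.Agent.Lib_KF

variable {R : Type} [CommRing R] [Algebra ℂ R] {𝒜 : ℕ → Submodule ℂ R} [GradedAlgebra 𝒜]
  {n r d : ℕ} {x : Fin (n + 1) → R} {G : R} {M : Type} [Field M] [Algebra ℂ M]

/-- Proof: `R` is a domain, integral over `ℂ[x]`: a non-zero `f` with `φ f = 0` has a monic equation
over `ℂ[x]` with non-zero constant coefficient `a` (divide by a power of the variable), so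
`φ a = 0`, but `φ` is injective on `ℂ[x]`. -/
theorem phi_injective (h : IsFano 𝒜 n r d x G) (φ : R →ₐ[ℂ] M)
    (hi : AlgebraicIndependent ℂ (fun b => φ (x b))) : Function.Injective φ := by
  have := h.domain
  have := h.x_finite
  have : Algebra.IsIntegral (Algebra.adjoin ℂ (Set.range x)) R := Algebra.IsIntegral.of_finite _ _
  have h1 : (RingHom.ker φ).comap (algebraMap (Algebra.adjoin ℂ (Set.range x)) R) = ⊥ := by
    refine (Submodule.eq_bot_iff _).2 fun a ha => ?_
    have ha2 : φ (a : R) = 0 := ha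
    obtain ⟨p, hp⟩ : ∃ p : MvPolynomial (Fin (n + 1)) ℂ, MvPolynomial.aeval x p = (a : R) := by
      have h3 : (a : R) ∈ (MvPolynomial.aeval x : MvPolynomial (Fin (n + 1)) ℂ →ₐ[ℂ] R).range :=
        (Algebra.adjoin_range_eq_range_aeval ℂ x) ▸ a.2
      exact h3
    have h4 : MvPolynomial.aeval (fun b => φ (x b)) p = 0 := by
      have h5 : (MvPolynomial.aeval (fun b => φ (x b)) : MvPolynomial (Fin (n + 1)) ℂ →ₐ[ℂ] M) =
          φ.comp (MvPolynomial.aeval x) := by
        ext b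
        simp
      rw [h5, AlgHom.comp_apply, hp, ha2]
    have h6 : p = 0 := hi (by rw [h4, map_zero])
    rw [h6, map_zero] at hp
    exact Subtype.ext hp.symm
  have h2 : RingHom.ker φ = ⊥ := Ideal.eq_bot_of_comap_eq_bot h1
  exact (RingHom.injective_iff_ker_eq_bot φ).2 h2

private theorem adw_integral (hfin : Module.Finite (Algebra.adjoin ℂ (Set.range x)) R)
    [Nontrivial R] (f : R) :
    ∃ (D : ℕ) (c : Fin D → MvPolynomial (Fin (n + 1)) ℂ), 1 ≤ D ∧
      f ^ D = ∑ i : Fin D, MvPolynomial.aeval x (c i) * f ^ (i : ℕ) := by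
  classical
  have := hfin
  have : Algebra.IsIntegral (Algebra.adjoin ℂ (Set.range x)) R := Algebra.IsIntegral.of_finite _ _
  obtain ⟨P, hP, hPf⟩ := Algebra.IsIntegral.isIntegral (R := Algebra.adjoin ℂ (Set.range x)) f
  have hmem : ∀ a : Algebra.adjoin ℂ (Set.range x),
      ∃ p : MvPolynomial (Fin (n + 1)) ℂ, MvPolynomial.aeval x p = (a : R) := by
    intro a
    have h : (a : R) ∈ (MvPolynomial.aeval x : MvPolynomial (Fin (n + 1)) ℂ →ₐ[ℂ] R).range :=
      (Algebra.adjoin_range_eq_range_aeval ℂ x) ▸ a.2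
    exact h
  choose p hp using fun i : ℕ => hmem (P.coeff i)
  refine ⟨P.natDegree, fun i => -p i, ?_, ?_⟩
  · rw [Nat.one_le_iff_ne_zero]
    intro h0
    rw [hP.natDegree_eq_zero] at h0
    rw [h0, Polynomial.eval₂_one] at hPf
    exact one_ne_zero hPf
  · have h1 : Polynomial.aeval f P = 0 := hPf
    rw [Polynomial.aeval_eq_sum_range, Finset.sum_range_succ, hP.coeff_natDegree, one_smul] at h1
    rw [← Finset.sum_range (fun i => MvPolynomial.aeval x (-p i) * f ^ i)]
    have h2 : ∀ i, P.coeff i • f ^ i = MvPolynomial.aeval x (p i) * f ^ i := by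
      intro i
      rw [hp i, Algebra.smul_def]
      rfl
    rw [Finset.sum_congr rfl fun i _ => h2 i] at h1
    rw [add_eq_zero_iff_eq_neg'.1 h1]
    simp only [map_neg, neg_mul, Finset.sum_neg_distrib]

/-- a homogeneous integral equation -/
private theorem adw_homeq (hfin : Module.Finite (Algebra.adjoin ℂ (Set.range x)) R)
    [Nontrivial R] {m : ℕ} {s : R} (hs : s ∈ 𝒜 m) :
    ∃ (D : ℕ) (c : Fin D → MvPolynomial (Fin (n + 1)) ℂ), 1 ≤ D ∧
      s ^ D = ∑ i : Fin D, (DirectSum.decompose 𝒜 (MvPolynomial.aeval x (c i))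
        (D * m - (i : ℕ) * m) : R) * s ^ (i : ℕ) := by
  obtain ⟨D, c, hD, hc⟩ := adw_integral hfin s
  refine ⟨D, c, hD, ?_⟩
  have h1 : s ^ D ∈ 𝒜 (D * m) := by
    have := SetLike.pow_mem_graded D hs
    simpa using this
  have h2 : ∀ i : Fin D, s ^ (i : ℕ) ∈ 𝒜 ((i : ℕ) * m) := fun i => by
    have := SetLike.pow_mem_graded (i : ℕ) hs
    simpa using this
  have h3 : (DirectSum.decompose 𝒜 (s ^ D) (D * m) : R) = s ^ D :=
    DirectSum.decompose_of_mem_same 𝒜 h1
  rw [← h3, hc, DirectSum.decompose_sum, DFinsupp.finsetSum_apply, AddSubmonoidClass.coe_finsetSum]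
  refine Finset.sum_congr rfl fun i _ => ?_
  rw [DirectSum.coe_decompose_mul_of_right_mem_of_le 𝒜 (h2 i)
    (Nat.mul_le_mul_right m i.2.le)]

/-- `d ord φ(z) ≥ e μ` -/
private def AdWle (w : AddValuation M (WithTop ℤ)) (φ : R →ₐ[ℂ] M) (d : ℕ) (μ : ℤ) (e : ℕ)
    (z : R) : Prop := ∀ a : ℤ, d * a < e * μ → (a : WithTop ℤ) < w (φ z)

/-- `d ord φ(z) > e μ` -/
private def AdWlt (w : AddValuation M (WithTop ℤ)) (φ : R →ₐ[ℂ] M) (d : ℕ) (μ : ℤ) (e : ℕ)
    (z : R) : Prop := ∀ a : ℤ, d * a ≤ e * μ → (a : WithTop ℤ) < w (φ z)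

private theorem adwle_zero (w : AddValuation M (WithTop ℤ)) (φ : R →ₐ[ℂ] M) (d : ℕ) (μ : ℤ)
    (e : ℕ) : AdWle w φ d μ e 0 := by
  intro a _
  rw [map_zero, AddValuation.map_zero]
  exact WithTop.coe_lt_top a

private theorem adwlt_zero (w : AddValuation M (WithTop ℤ)) (φ : R →ₐ[ℂ] M) (d : ℕ) (μ : ℤ)
    (e : ℕ) : AdWlt w φ d μ e 0 := by
  intro a _
  rw [map_zero, AddValuation.map_zero]
  exact WithTop.coe_lt_top a

private theorem adwle_add {w : AddValuation M (WithTop ℤ)} {φ : R →ₐ[ℂ] M} {d : ℕ} {μ : ℤ}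
    {e : ℕ} {y z : R} (hy : AdWle w φ d μ e y) (hz : AdWle w φ d μ e z) :
    AdWle w φ d μ e (y + z) := by
  intro a ha
  rw [map_add]
  exact (lt_min (hy a ha) (hz a ha)).trans_le (AddValuation.map_add w _ _)

private theorem adwlt_add {w : AddValuation M (WithTop ℤ)} {φ : R →ₐ[ℂ] M} {d : ℕ} {μ : ℤ}
    {e : ℕ} {y z : R} (hy : AdWlt w φ d μ e y) (hz : AdWlt w φ d μ e z) :
    AdWlt w φ d μ e (y + z) := by
  intro a ha
  rw [map_add]
  exact (lt_min (hy a ha) (hz a ha)).trans_le (AddValuation.map_add w _ _)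

private theorem adwle_iff {w : AddValuation M (WithTop ℤ)} {φ : R →ₐ[ℂ] M}
    (hφ : Function.Injective φ) {d : ℕ} {μ : ℤ} {e : ℕ} {z : R} (hz : z ≠ 0) :
    AdWle w φ d μ e z ↔ e * μ ≤ d * ordZ w (φ z) := by
  have h0 : φ z ≠ 0 := fun h => hz (hφ (by rw [h, map_zero]))
  constructor
  · intro h
    by_contra hcon
    push Not at hcon
    have h1 := h _ hcon
    rw [lt_w_iff w h0] at h1
    exact lt_irrefl _ h1
  · intro h a ha
    rw [lt_w_iff w h0]
    have h1 : (d : ℤ) * a < d * ordZ w (φ z) := ha.trans_le h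
    exact lt_of_mul_lt_mul_left h1 (by positivity)

private theorem adwlt_iff {w : AddValuation M (WithTop ℤ)} {φ : R →ₐ[ℂ] M}
    (hφ : Function.Injective φ) {d : ℕ} {μ : ℤ} {e : ℕ} {z : R} (hz : z ≠ 0) :
    AdWlt w φ d μ e z ↔ e * μ < d * ordZ w (φ z) := by
  have h0 : φ z ≠ 0 := fun h => hz (hφ (by rw [h, map_zero]))
  constructor
  · intro h
    by_contra hcon
    push Not at hcon
    have h1 := h _ hcon
    rw [lt_w_iff w h0] at h1
    exact lt_irrefl _ h1
  · intro h a ha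
    rw [lt_w_iff w h0]
    have h1 : (d : ℤ) * a < d * ordZ w (φ z) := ha.trans_lt h
    exact lt_of_mul_lt_mul_left h1 (by positivity)

/-- the components of a polynomial in `x` -/
private theorem adw_poly [IsDomain R] (hxm : ∀ b, x b ∈ 𝒜 d)
    (w : AddValuation M (WithTop ℤ)) (φ : R →ₐ[ℂ] M) (hφ : Function.Injective φ)
    (hx0 : ∀ b, x b ≠ 0) (μ : ℤ) (hμ : ∀ b, μ ≤ ordZ w (φ (x b)))
    (p : MvPolynomial (Fin (n + 1)) ℂ) :
    ∀ e : ℕ, AdWle w φ d μ e (DirectSum.decompose 𝒜 (MvPolynomial.aeval x p) e : R) := by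
  induction p using MvPolynomial.induction_on with
  | C c =>
    intro e
    have h1 : MvPolynomial.aeval x (MvPolynomial.C c) ∈ 𝒜 0 := by
      rw [MvPolynomial.aeval_C]
      exact SetLike.algebraMap_mem_graded 𝒜 c
    by_cases he : e = 0
    · rw [he, DirectSum.decompose_of_mem_same 𝒜 h1, MvPolynomial.aeval_C]
      intro a ha
      rw [AlgHom.commutes]
      by_cases hc : c = 0
      · rw [hc, map_zero, AddValuation.map_zero]
        exact WithTop.coe_lt_top a
      · rw [w_algebraMap w c hc]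
        have h2 : (d : ℤ) * a < 0 := by simpa using ha
        have h3 : a < 0 := by
          by_contra h4
          push Not at h4
          have : 0 ≤ (d : ℤ) * a := by positivity
          omega
        exact_mod_cast h3
    · rw [DirectSum.decompose_of_mem_ne 𝒜 h1 (Ne.symm he)]
      exact adwle_zero w φ d μ e
  | add p q hp hq =>
    intro e
    rw [map_add, DirectSum.decompose_add, DirectSum.add_apply, Submodule.coe_add]
    exact adwle_add (hp e) (hq e)
  | mul_X p b hp =>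
    intro e
    rw [map_mul, MvPolynomial.aeval_X]
    by_cases he : d ≤ e
    · rw [DirectSum.coe_decompose_mul_of_right_mem_of_le 𝒜 (hxm b) he]
      have h1 := hp (e - d)
      set z : R := (DirectSum.decompose 𝒜 (MvPolynomial.aeval x p) (e - d) : R) with hz
      by_cases hz0 : z = 0
      · rw [hz0, zero_mul]
        exact adwle_zero w φ d μ e
      · rw [adwle_iff hφ hz0] at h1
        rw [adwle_iff hφ (mul_ne_zero hz0 (hx0 b)), map_mul, ordZ_mul w
          (fun h => hz0 (hφ (by rw [h, map_zero]))) (fun h => hx0 b (hφ (by rw [h, map_zero])))]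
        have h2 := hμ b
        have h3 : (d : ℤ) * μ ≤ d * ordZ w (φ (x b)) := mul_le_mul_of_nonneg_left h2 (by positivity)
        rw [Nat.cast_sub he] at h1
        linarith
    · rw [DirectSum.coe_decompose_mul_of_right_mem_of_not_le 𝒜 (hxm b) he]
      exact adwle_zero w φ d μ e

/-- step (1) -/
private theorem adw_ge [IsDomain R] (hfin : Module.Finite (Algebra.adjoin ℂ (Set.range x)) R)
    (hxm : ∀ b, x b ∈ 𝒜 d) (hd : 1 ≤ d)
    (w : AddValuation M (WithTop ℤ)) (φ : R →ₐ[ℂ] M) (hφ : Function.Injective φ)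
    (hx0 : ∀ b, x b ≠ 0) (μ : ℤ) (hμ : ∀ b, μ ≤ ordZ w (φ (x b)))
    {m : ℕ} {s : R} (hs : s ∈ 𝒜 m) (hs0 : s ≠ 0) :
    m * μ ≤ d * ordZ w (φ s) := by
  by_contra hcon
  push Not at hcon
  set o := ordZ w (φ s) with ho
  have hφs : φ s ≠ 0 := fun h => hs0 (hφ (by rw [h, map_zero]))
  obtain ⟨D, c, hD, hc⟩ := adw_homeq (𝒜 := 𝒜) hfin hs
  have hd' : (0 : ℤ) < d := by exact_mod_cast hd
  have h1 : ((D * o : ℤ) : WithTop ℤ) < w (φ (s ^ D)) := by
    rw [hc, map_sum]
    refine lt_w_sum w _ _ _ fun i _ => ?_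
    set z : R := (DirectSum.decompose 𝒜 (MvPolynomial.aeval x (c i)) (D * m - (i : ℕ) * m) : R)
      with hz
    by_cases hz0 : z = 0
    · rw [hz0, zero_mul, map_zero, AddValuation.map_zero]
      exact WithTop.coe_lt_top _
    have h2 := adw_poly hxm w φ hφ hx0 μ hμ (c i) (D * m - (i : ℕ) * m)
    rw [← hz, adwle_iff hφ hz0] at h2
    have hφz : φ z ≠ 0 := fun h => hz0 (hφ (by rw [h, map_zero]))
    rw [map_mul, map_pow, lt_w_iff w (mul_ne_zero hφz (pow_ne_zero _ hφs)),
      ordZ_mul w hφz (pow_ne_zero _ hφs), ordZ_pow w hφs, ← ho]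
    have hi : (i : ℕ) < D := i.2
    rw [Nat.cast_sub (Nat.mul_le_mul_right m hi.le)] at h2
    push_cast at h2
    have hi2 : (0 : ℤ) < (D : ℤ) - (i : ℕ) := by
      have : ((i : ℕ) : ℤ) < (D : ℤ) := by exact_mod_cast hi
      omega
    have h3 : ((D : ℤ) - (i : ℕ)) * (d * o) < ((D : ℤ) - (i : ℕ)) * (m * μ) :=
      mul_lt_mul_of_pos_left hcon hi2
    have h4 : (d : ℤ) * (D * o) < d * (ordZ w (φ z) + (i : ℕ) * o) := by
      have h5 : ((D : ℤ) * m - (i : ℕ) * m) * μ = ((D : ℤ) - (i : ℕ)) * (m * μ) := by ring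
      rw [h5] at h2
      have h6 : (d : ℤ) * (D * o) = ((D : ℤ) - (i : ℕ)) * (d * o) + d * ((i : ℕ) * o) := by ring
      rw [h6, mul_add]
      linarith
    exact lt_of_mul_lt_mul_left h4 hd'.le
  rw [map_pow, lt_w_iff w (pow_ne_zero _ hφs), ordZ_pow w hφs, ← ho] at h1
  exact lt_irrefl _ h1

/-- Proof. `μ = min_b ord φ(x_b)`. (1) `d ord φ(s) ≥ m μ` for `0 ≠ s ∈ 𝒜 m`: `s` has an equation
`s^p + a_1 s^(p-1) + … + a_p = 0` with `a_i ∈ ℂ[x]`, homogeneous of degree `i m` in `R` (take the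
component of degree `p m` of an integral equation; the components of elements of `ℂ[x]` are in
`ℂ[x]`); so `a_i` is a form of degree `i m / d` in `x` (or `0`) and `d ord φ(a_i) ≥ i m μ`; if
`d ord φ(s) < m μ` then `s^p` would have strictly the least order. (2) The set `p` of the `s` all
of whose homogeneous components `s_m` are `0` or have `d ord φ(s_m) > m μ` is a homogeneous prime
ideal (`Ideal.IsHomogeneous.isPrime_of_homogeneous_mem_or_mem`; `ord` of products; `φ`
injective), it does not contain the `x_b` with `ord φ(x_b) = μ`. (3) `h.line` gives `f ∈ 𝒜 k`,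
`g ∈ 𝒜 (k + 1)`, not in `p`: `d ord φ(f) = k μ`, `d ord φ(g) = (k + 1) μ`; put
`w₁ = ord φ(g) - ord φ(f)`, then `d w₁ = μ`. -/
theorem exists_weight (h : IsFano 𝒜 n r d x G) (w : AddValuation M (WithTop ℤ))
    (φ : R →ₐ[ℂ] M) (hφ : Function.Injective φ) :
    ∃ (w₁ : ℤ) (k : ℕ) (f g : R), f ∈ 𝒜 k ∧ g ∈ 𝒜 (k + 1) ∧ f ≠ 0 ∧ g ≠ 0 ∧
      ordZ w (φ f) = k * w₁ ∧ ordZ w (φ g) = (k + 1) * w₁ ∧
      (∀ m : ℕ, ∀ s ∈ 𝒜 m, s ≠ 0 → m * w₁ ≤ ordZ w (φ s)) ∧
      ∃ b, ordZ w (φ (x b)) = d * w₁ := by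
  have := h.domain
  have hx0 : ∀ b, x b ≠ 0 := fun b => h.x_indep.ne_zero b
  have hd := h.d_pos
  have hd' : (0 : ℤ) < d := by exact_mod_cast hd
  obtain ⟨b₀, -, hb₀⟩ := Finset.exists_min_image (Finset.univ : Finset (Fin (n + 1)))
    (fun b => ordZ w (φ (x b))) ⟨0, Finset.mem_univ _⟩
  set μ := ordZ w (φ (x b₀)) with hμdef
  have hμ : ∀ b, μ ≤ ordZ w (φ (x b)) := fun b => hb₀ b (Finset.mem_univ b)
  have hge : ∀ (m : ℕ) (s : R), s ∈ 𝒜 m → s ≠ 0 → m * μ ≤ d * ordZ w (φ s) :=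
    fun m s hs hs0 => adw_ge h.x_finite h.x_mem hd w φ hφ hx0 μ hμ hs hs0
  -- the ideal
  let p : Ideal R :=
    { carrier := {s | ∀ m, AdWlt w φ d μ m (DirectSum.decompose 𝒜 s m : R)}
      zero_mem' := by
        intro m
        rw [DirectSum.decompose_zero, DirectSum.zero_apply, ZeroMemClass.coe_zero]
        exact adwlt_zero w φ d μ m
      add_mem' := by
        intro a b ha hb m
        rw [DirectSum.decompose_add, DirectSum.add_apply, Submodule.coe_add]
        exact adwlt_add (ha m) (hb m)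
      smul_mem' := by
        intro c s hs
        show ∀ m, AdWlt w φ d μ m (DirectSum.decompose 𝒜 (c * s) m : R)
        induction c using DirectSum.Decomposition.inductionOn 𝒜 with
        | zero =>
          intro m
          rw [zero_mul, DirectSum.decompose_zero, DirectSum.zero_apply, ZeroMemClass.coe_zero]
          exact adwlt_zero w φ d μ m
        | homogeneous c =>
          rename_i i
          intro m
          by_cases him : i ≤ m
          · rw [DirectSum.coe_decompose_mul_of_left_mem_of_le 𝒜 c.2 him]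
            by_cases hc0 : (c : R) = 0
            · rw [hc0, zero_mul]
              exact adwlt_zero w φ d μ m
            have h1 := hs (m - i)
            set z : R := (DirectSum.decompose 𝒜 s (m - i) : R) with hz
            by_cases hz0 : z = 0
            · rw [hz0, mul_zero]
              exact adwlt_zero w φ d μ m
            rw [adwlt_iff hφ hz0] at h1
            rw [adwlt_iff hφ (mul_ne_zero hc0 hz0), map_mul, ordZ_mul w
              (fun h => hc0 (hφ (by rw [h, map_zero]))) (fun h => hz0 (hφ (by rw [h, map_zero])))]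
            have h2 := hge i c c.2 hc0
            rw [Nat.cast_sub him] at h1
            linarith
          · rw [DirectSum.coe_decompose_mul_of_left_mem_of_not_le 𝒜 c.2 him]
            exact adwlt_zero w φ d μ m
        | add a b ha hb =>
          intro m
          rw [add_mul, DirectSum.decompose_add, DirectSum.add_apply, Submodule.coe_add]
          exact adwlt_add (ha m) (hb m) }
  have hpmem : ∀ s, s ∈ p ↔ ∀ m, AdWlt w φ d μ m (DirectSum.decompose 𝒜 s m : R) :=
    fun s => Iff.rfl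
  have hphom : ∀ (m : ℕ) (s : R), s ∈ 𝒜 m → (s ∈ p ↔ AdWlt w φ d μ m s) := by
    intro m s hs
    rw [hpmem]
    constructor
    · intro h1
      have h2 := h1 m
      rwa [DirectSum.decompose_of_mem_same 𝒜 hs] at h2
    · intro h1 k
      by_cases hk : m = k
      · subst hk
        rwa [DirectSum.decompose_of_mem_same 𝒜 hs]
      · rw [DirectSum.decompose_of_mem_ne 𝒜 hs hk]
        exact adwlt_zero w φ d μ k
  have hnot : ∀ (m : ℕ) (s : R), s ∈ 𝒜 m → s ∉ p → s ≠ 0 ∧ (d : ℤ) * ordZ w (φ s) = m * μ := by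
    intro m s hs hsp
    have hs0 : s ≠ 0 := by
      rintro rfl
      exact hsp p.zero_mem
    rw [hphom m s hs, adwlt_iff hφ hs0, not_lt] at hsp
    exact ⟨hs0, le_antisymm hsp (hge m s hs hs0)⟩
  have hxb : x b₀ ∉ p := by
    rw [hphom d _ (h.x_mem b₀), adwlt_iff hφ (hx0 b₀), ← hμdef]
    exact lt_irrefl _
  have hphomog : p.IsHomogeneous 𝒜 := by
    intro i s hs
    rw [hphom i _ (SetLike.coe_mem _)]
    exact (hpmem s).1 hs i
  have hprime : p.IsPrime := by
    refine hphomog.isPrime_of_homogeneous_mem_or_mem ?_ ?_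
    · intro htop
      exact hxb (htop ▸ Submodule.mem_top)
    · rintro a b ⟨i, hi⟩ ⟨j, hj⟩ hab
      by_contra hcon
      push Not at hcon
      obtain ⟨ha0, ha⟩ := hnot i a hi hcon.1
      obtain ⟨hb0, hb⟩ := hnot j b hj hcon.2
      rw [hphom (i + j) _ (SetLike.mul_mem_graded hi hj), adwlt_iff hφ (mul_ne_zero ha0 hb0),
        map_mul, ordZ_mul w (fun h => ha0 (hφ (by rw [h, map_zero])))
        (fun h => hb0 (hφ (by rw [h, map_zero]))), mul_add, ha, hb] at hab
      push_cast at hab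
      linarith
  obtain ⟨k, f, hf, g, hg, hfp, hgp⟩ := h.line p hprime ⟨d, hd, x b₀, h.x_mem b₀, hxb⟩
  obtain ⟨hf0, hf1⟩ := hnot k f hf hfp
  obtain ⟨hg0, hg1⟩ := hnot (k + 1) g hg hgp
  have hw : (d : ℤ) * (ordZ w (φ g) - ordZ w (φ f)) = μ := by
    rw [mul_sub, hf1, hg1]
    push_cast
    ring
  refine ⟨ordZ w (φ g) - ordZ w (φ f), k, f, g, hf, hg, hf0, hg0, ?_, ?_, ?_, b₀, ?_⟩
  · refine mul_left_cancel₀ hd'.ne' ?_
    rw [hf1, mul_left_comm, hw]
  · refine mul_left_cancel₀ hd'.ne' ?_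
    rw [hg1, mul_left_comm, hw]
    push_cast
    ring
  · intro m s hs hs0
    refine le_of_mul_le_mul_left ?_ hd'
    rw [mul_left_comm, hw]
    exact hge m s hs hs0
  · rw [hw]

end Pool.Agent.Lib_MP_e0d435_kv
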