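import Pool.Agent.Lib_MP_e0d435_kv.Basic

/-! V07: the Gauss extension `M(u)` of a log-differential discretely valued field.

`M' = RatFunc M` (or the fraction field of `M[u]`), `w' (∑ a_i u ^ i) = min_i w a_i` on
polynomials, `w' (P / Q) = w' P - w' Q`; multiplicativity is the Gauss lemma: after scaling by powers
of `t` both polynomials have least order `0`, take the least indices `i₀`, `j₀` where the order `0`
is attained and look at the coefficient `i₀ + j₀` of the product. Derivations:
`d' (i + 1) (∑ a_j u ^ j) = ∑ (d i a_j) u ^ j`, `d' 0 = d / du`, extended to quotients by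
`d (P / Q) = (Q d P - P d Q) / Q ^ 2`. The log property: for polynomials clear (the order of the
integer factors in `d / du` is `≥ 0`); for quotients `w' (Q dP - P dQ) ≥ w' P + w' Q`. -/

namespace Pool.Agent.Lib_MP_e0d435_kv

open Polynomial

section DerFrac

variable {A K : Type} [CommRing A] [IsDomain A] [Field K] [Algebra A K] [IsFractionRing A K]
  [Algebra ℂ A] [Algebra ℂ K] [IsScalarTower ℂ A K]

/-- `a ↦ a + d(a) ε` -/
private noncomputable def gaussDual (δ : Derivation ℂ A A) : A →+* TrivSqZeroExt K K where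
  toFun a := TrivSqZeroExt.inl (algebraMap A K a) + TrivSqZeroExt.inr (algebraMap A K (δ a))
  map_one' := by ext <;> simp
  map_zero' := by ext <;> simp
  map_add' a b := by
    ext
    · simp
    · simp only [map_add, TrivSqZeroExt.snd_add, TrivSqZeroExt.snd_inl, TrivSqZeroExt.snd_inr,
        zero_add]
  map_mul' a b := by
    ext
    · simp
    · simp only [Derivation.leibniz, smul_eq_mul, map_add, map_mul, TrivSqZeroExt.snd_add,
        TrivSqZeroExt.snd_inl, TrivSqZeroExt.snd_inr, zero_add, TrivSqZeroExt.snd_mul,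
        TrivSqZeroExt.fst_add, TrivSqZeroExt.fst_inl, TrivSqZeroExt.fst_inr, add_zero,
        MulOpposite.smul_eq_mul_unop, MulOpposite.unop_op]
      ring

omit [IsDomain A] [IsFractionRing A K] [Algebra ℂ K] [IsScalarTower ℂ A K] in
private theorem gaussDual_fst (δ : Derivation ℂ A A) (a : A) :
    (gaussDual (K := K) δ a).fst = algebraMap A K a := by
  show (TrivSqZeroExt.inl (algebraMap A K a) + TrivSqZeroExt.inr (algebraMap A K (δ a)) :
    TrivSqZeroExt K K).fst = _
  rw [TrivSqZeroExt.fst_add, TrivSqZeroExt.fst_inl, TrivSqZeroExt.fst_inr, add_zero]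

omit [IsDomain A] [IsFractionRing A K] [Algebra ℂ K] [IsScalarTower ℂ A K] in
private theorem gaussDual_snd (δ : Derivation ℂ A A) (a : A) :
    (gaussDual (K := K) δ a).snd = algebraMap A K (δ a) := by
  show (TrivSqZeroExt.inl (algebraMap A K a) + TrivSqZeroExt.inr (algebraMap A K (δ a)) :
    TrivSqZeroExt K K).snd = _
  rw [TrivSqZeroExt.snd_add, TrivSqZeroExt.snd_inl, TrivSqZeroExt.snd_inr, zero_add]

omit [IsDomain A] in
/-- A derivation of a domain extends to the fraction field. -/
private theorem exists_der_frac (δ : Derivation ℂ A A) :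
    ∃ D : Derivation ℂ K K, ∀ a, D (algebraMap A K a) = algebraMap A K (δ a) := by
  have hu : ∀ y : nonZeroDivisors A, IsUnit (gaussDual (K := K) δ y) := by
    intro y
    rw [TrivSqZeroExt.isUnit_iff_isUnit_fst, gaussDual_fst]
    exact (IsLocalization.map_units K y)
  set g : K →+* TrivSqZeroExt K K := IsLocalization.lift hu with hg
  have hg1 : ∀ a, g (algebraMap A K a) = gaussDual (K := K) δ a := fun a =>
    IsLocalization.lift_eq hu a
  have hfst : ∀ x, (g x).fst = x := by
    have h1 : ((TrivSqZeroExt.fstHom K K K).toRingHom.comp g) = RingHom.id K := by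
      apply IsLocalization.ringHom_ext (nonZeroDivisors A)
      ext a
      show (g (algebraMap A K a)).fst = algebraMap A K a
      rw [hg1, gaussDual_fst]
    intro x
    exact congrArg (fun h : K →+* K => h x) h1
  have hC : ∀ c : ℂ, g (algebraMap ℂ K c) = TrivSqZeroExt.inl (algebraMap ℂ K c) := by
    intro c
    rw [IsScalarTower.algebraMap_apply ℂ A K, hg1]
    ext
    · rw [gaussDual_fst, TrivSqZeroExt.fst_inl]
    · rw [gaussDual_snd, Derivation.map_algebraMap, TrivSqZeroExt.snd_inl, map_zero]
  let L : K →ₗ[ℂ] K :=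
    { toFun := fun x => (g x).snd
      map_add' := fun x y => by simp
      map_smul' := fun c x => by
        rw [Algebra.smul_def, map_mul, hC]
        simp [Algebra.smul_def] }
  refine ⟨Derivation.mk' L fun x y => ?_, fun a => ?_⟩
  · show (g (x * y)).snd = x • (g y).snd + y • (g x).snd
    rw [map_mul, TrivSqZeroExt.snd_mul, hfst, hfst, MulOpposite.smul_eq_mul_unop,
      MulOpposite.unop_op, smul_eq_mul, smul_eq_mul, mul_comm y]
  · show (g (algebraMap A K a)).snd = _
    rw [hg1, gaussDual_snd]

end DerFrac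

section GaussVal

variable {M : Type} [Field M] (w : AddValuation M (WithTop ℤ))

/-- The least order of the coefficients. -/
private noncomputable def gv (P : M[X]) : WithTop ℤ := P.support.inf fun i => w (P.coeff i)

private theorem le_gv_iff (P : M[X]) (c : WithTop ℤ) : c ≤ gv w P ↔ ∀ i, c ≤ w (P.coeff i) := by
  unfold gv
  rw [Finset.le_inf_iff]
  constructor
  · intro h i
    by_cases hi : i ∈ P.support
    · exact h i hi
    · rw [notMem_support_iff.1 hi, AddValuation.map_zero]; exact le_top
  · intro h i _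
    exact h i

private theorem gv_le (P : M[X]) (i : ℕ) : gv w P ≤ w (P.coeff i) := (le_gv_iff w P _).1 le_rfl i

private theorem gv_zero : gv w (0 : M[X]) = ⊤ := by simp [gv]

private theorem exists_gv (P : M[X]) (hP : P ≠ 0) :
    ∃ (a : ℤ) (i : ℕ), gv w P = (a : WithTop ℤ) ∧ w (P.coeff i) = (a : WithTop ℤ) ∧
      ∀ j < i, (a : WithTop ℤ) < w (P.coeff j) := by
  classical
  have h1 : ∃ i, w (P.coeff i) = gv w P := by
    obtain ⟨i, -, hi⟩ := Finset.exists_mem_eq_inf P.support (support_nonempty.2 hP)
      (fun i => w (P.coeff i))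
    exact ⟨i, hi.symm⟩
  have h2 : gv w P ≠ ⊤ := by
    obtain ⟨i, hi⟩ := support_nonempty.2 hP
    have h3 := gv_le w P i
    have h4 : w (P.coeff i) ≠ ⊤ := (AddValuation.ne_top_iff w).2 (mem_support_iff.1 hi)
    exact ne_top_of_le_ne_top h4 h3
  obtain ⟨a, ha⟩ := WithTop.ne_top_iff_exists.1 h2
  refine ⟨a, Nat.find h1, ha.symm, (Nat.find_spec h1).trans ha.symm, fun j hj => ?_⟩
  rw [ha]
  exact lt_of_le_of_ne (gv_le w P j) fun h => Nat.find_min h1 hj h.symm

private theorem gv_ne_top (P : M[X]) (hP : P ≠ 0) : gv w P ≠ ⊤ := by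
  obtain ⟨a, -, ha, -⟩ := exists_gv w P hP
  rw [ha]; exact WithTop.coe_ne_top

private theorem gv_one : gv w (1 : M[X]) = 0 := by
  apply le_antisymm
  · have := gv_le w (1 : M[X]) 0
    rwa [coeff_one_zero, AddValuation.map_one] at this
  · rw [le_gv_iff]
    intro i
    rw [coeff_one]
    split_ifs
    · rw [AddValuation.map_one]
    · rw [AddValuation.map_zero]; exact le_top

private theorem gv_add (P Q : M[X]) : min (gv w P) (gv w Q) ≤ gv w (P + Q) := by
  rw [le_gv_iff]
  intro i
  rw [coeff_add]
  exact (min_le_min (gv_le w P i) (gv_le w Q i)).trans (AddValuation.map_add w _ _)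

private theorem gv_mul (P Q : M[X]) : gv w (P * Q) = gv w P + gv w Q := by
  classical
  by_cases hP : P = 0
  · rw [hP, zero_mul, gv_zero, top_add]
  by_cases hQ : Q = 0
  · rw [hQ, mul_zero, gv_zero, add_top]
  obtain ⟨a, i, ha, hai, hai'⟩ := exists_gv w P hP
  obtain ⟨b, j, hb, hbj, hbj'⟩ := exists_gv w Q hQ
  apply le_antisymm
  · refine (gv_le w (P * Q) (i + j)).trans (le_of_eq ?_)
    rw [coeff_mul]
    have hmem : (i, j) ∈ Finset.HasAntidiagonal.antidiagonal (i + j) := by simp
    rw [← Finset.add_sum_erase _ _ hmem, ha, hb]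
    have h1 : w (P.coeff i * Q.coeff j) = ((a + b : ℤ) : WithTop ℤ) := by
      rw [AddValuation.map_mul, hai, hbj, WithTop.coe_add]
    have h2 : ((a + b : ℤ) : WithTop ℤ) <
        w (∑ x ∈ (Finset.HasAntidiagonal.antidiagonal (i + j)).erase (i, j), P.coeff x.1 * Q.coeff x.2) := by
      apply AddValuation.map_lt_sum w WithTop.coe_ne_top
      rintro ⟨x, y⟩ hxy
      rw [Finset.mem_erase, Finset.HasAntidiagonal.mem_antidiagonal] at hxy
      obtain ⟨hne, hsum⟩ := hxy
      simp only at hsum ⊢
      have hax : (a : WithTop ℤ) ≤ w (P.coeff x) := by rw [← ha]; exact gv_le w P x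
      have hby : (b : WithTop ℤ) ≤ w (Q.coeff y) := by rw [← hb]; exact gv_le w Q y
      rw [AddValuation.map_mul, WithTop.coe_add]
      by_cases hx : x < i
      · exact WithTop.add_lt_add_of_lt_of_le WithTop.coe_ne_top (hai' x hx) hby
      · have hy : y < j := by
          by_contra hy
          apply hne
          have : x = i := by omega
          have : y = j := by omega
          subst_vars
          rfl
        exact WithTop.add_lt_add_of_le_of_lt WithTop.coe_ne_top hax (hbj' y hy)
    rw [← h1] at h2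
    rw [AddValuation.map_add_eq_of_lt_left w h2, h1, WithTop.coe_add]
  · rw [le_gv_iff]
    intro n
    rw [coeff_mul]
    apply AddValuation.map_le_sum w
    rintro ⟨x, y⟩ -
    rw [AddValuation.map_mul]
    exact add_le_add (gv_le w P x) (gv_le w Q y)

/-- The Gauss valuation on polynomials. -/
private noncomputable def gval : AddValuation M[X] (WithTop ℤ) :=
  AddValuation.of (gv w) (gv_zero w) (gv_one w) (gv_add w) (gv_mul w)

private theorem exists_gauss_val {K : Type} [Field K] [Algebra M[X] K] [IsFractionRing M[X] K] :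
    ∃ w' : AddValuation K (WithTop ℤ), ∀ P, w' (algebraMap M[X] K P) = gv w P := by
  have hS : nonZeroDivisors M[X] ≤ (AddValuation.toValuation (gval w)).supp.primeCompl := by
    intro Q hQ h
    have h1 : (AddValuation.toValuation (gval w)) Q = 0 := h
    have h2 : gv w Q = ⊤ := h1
    exact gv_ne_top w Q (nonZeroDivisors.ne_zero hQ) h2
  refine ⟨AddValuation.ofValuation
    ((AddValuation.toValuation (gval w)).extendToLocalization hS K), fun P => ?_⟩
  exact Valuation.extendToLocalization_apply_map_apply _ hS K P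

end GaussVal

section Log

variable {M : Type} [Field M] [Algebra ℂ M] (w : AddValuation M (WithTop ℤ))

private theorem gv_derivative (P : M[X]) : gv w P ≤ gv w (derivative P) := by
  rw [le_gv_iff]
  intro n
  rw [coeff_derivative, AddValuation.map_mul]
  have h1 : w ((n : M) + 1) = 0 := by
    have h2 : ((n : M) + 1) = algebraMap ℂ M ((n : ℂ) + 1) := by simp
    rw [h2]
    exact w_algebraMap w _ (Nat.cast_add_one_ne_zero n)
  rw [h1, add_zero]
  exact gv_le w P (n + 1)

private noncomputable def gaussMapCoeffs (δ : Derivation ℂ M M) : Derivation ℂ M[X] M[X] :=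
  PolynomialModule.equivPolynomialSelf.compDer δ.mapCoeffs

private theorem gaussMapCoeffs_coeff (δ : Derivation ℂ M M) (P : M[X]) (i : ℕ) :
    (gaussMapCoeffs δ P).coeff i = δ (P.coeff i) := rfl

private theorem gv_gaussMapCoeffs (δ : Derivation ℂ M M) (h : ∀ f, w f ≤ w (δ f)) (P : M[X]) :
    gv w P ≤ gv w (gaussMapCoeffs δ P) := by
  rw [le_gv_iff]
  intro n
  rw [gaussMapCoeffs_coeff]
  exact (gv_le w P n).trans (h _)

/-- The log property extends to quotients. -/
private theorem gauss_log {A K : Type} [CommRing A] [IsDomain A] [Field K] [Algebra A K]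
    [IsFractionRing A K] [Algebra ℂ K] (w' : AddValuation K (WithTop ℤ)) (D : Derivation ℂ K K)
    (h : ∀ a : A, w' (algebraMap A K a) ≤ w' (D (algebraMap A K a))) (f : K) :
    w' f ≤ w' (D f) := by
  obtain ⟨p, q, hq, rfl⟩ := IsFractionRing.div_surjective (A := A) f
  set x := algebraMap A K p with hx
  set y := algebraMap A K q with hy
  have hy0 : y ≠ 0 := IsFractionRing.to_map_ne_zero_of_mem_nonZeroDivisors hq
  have h1 : D (x / y) * (y * y) = y * D x - x * D y := by
    rw [Derivation.leibniz_div]
    simp only [smul_eq_mul]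
    field_simp
  have h2 : w' (x / y) + w' (y * y) = w' x + w' y := by
    rw [← AddValuation.map_mul, ← AddValuation.map_mul]
    congr 1
    field_simp
  have h3 : w' x + w' y ≤ w' (y * D x - x * D y) := by
    apply AddValuation.map_le_sub
    · rw [AddValuation.map_mul, add_comm]
      exact add_le_add le_rfl (h p)
    · rw [AddValuation.map_mul]
      exact add_le_add le_rfl (h q)
  have h4 : w' (y * y) ≠ ⊤ := (AddValuation.ne_top_iff w').2 (mul_ne_zero hy0 hy0)
  rw [← h1, ← h2, AddValuation.map_mul w' (D (x / y)) (y * y)] at h3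
  exact (WithTop.add_le_add_iff_right h4).1 h3

end Log

theorem LDF.gauss {k : ℕ} (Λ : LDF k) :
    ∃ (Λ' : LDF (k + 1)) (ι : Λ.M →ₐ[ℂ] Λ'.M) (u : Λ'.M),
      (∀ a b : Λ.M, Λ'.w (ι a + ι b * u) = min (Λ.w a) (Λ.w b)) ∧
      (∀ i f, Λ'.d (Fin.succ i) (ι f) = ι (Λ.d i f)) ∧ (∀ i : Fin k, Λ'.d (Fin.succ i) u = 0) ∧
      (∀ f, Λ'.d 0 (ι f) = 0) ∧ Λ'.d 0 u = 1 := by
  classical
  let A : Type := Λ.M[X]
  let K : Type := FractionRing Λ.M[X]
  obtain ⟨w', hw'⟩ := exists_gauss_val Λ.w (K := FractionRing Λ.M[X])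
  obtain ⟨D0, hD0⟩ := exists_der_frac (A := Λ.M[X]) (K := FractionRing Λ.M[X])
    (derivative'.restrictScalars ℂ)
  have hD : ∀ i, ∃ D : Derivation ℂ (FractionRing Λ.M[X]) (FractionRing Λ.M[X]),
      ∀ a, D (algebraMap Λ.M[X] _ a) = algebraMap Λ.M[X] _ (gaussMapCoeffs (Λ.d i) a) :=
    fun i => exists_der_frac _
  choose D hD using hD
  let ι : Λ.M →ₐ[ℂ] FractionRing Λ.M[X] :=
    (IsScalarTower.toAlgHom ℂ Λ.M[X] (FractionRing Λ.M[X])).comp CAlgHom
  have hι : ∀ f, ι f = algebraMap Λ.M[X] _ (C f) := fun f => rfl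
  let Λ' : LDF (k + 1) :=
    { M := FractionRing Λ.M[X]
      w := w'
      t := algebraMap Λ.M[X] _ (C Λ.t)
      w_t := by
        rw [hw']
        apply le_antisymm
        · have := gv_le Λ.w (C Λ.t) 0
          rwa [coeff_C_zero, Λ.w_t] at this
        · rw [le_gv_iff]
          intro i
          rw [coeff_C]
          split_ifs
          · rw [Λ.w_t]
          · rw [AddValuation.map_zero]; exact le_top
      d := Fin.cons D0 D
      log := by
        intro i
        refine Fin.cases ?_ (fun i => ?_) i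
        · exact gauss_log (A := Λ.M[X]) w' _ fun a => by
            show w' (algebraMap _ _ a) ≤ w' (D0 (algebraMap _ _ a))
            rw [hD0, hw', hw']
            exact gv_derivative Λ.w a
        · exact gauss_log (A := Λ.M[X]) w' _ fun a => by
            show w' (algebraMap _ _ a) ≤ w' (D i (algebraMap _ _ a))
            rw [hD, hw', hw']
            exact gv_gaussMapCoeffs Λ.w _ (Λ.log i) a }
  refine ⟨Λ', ι, algebraMap Λ.M[X] _ X, ?_, ?_, ?_, ?_, ?_⟩
  · intro a b
    show w' (algebraMap Λ.M[X] _ (C a) + algebraMap Λ.M[X] _ (C b) * algebraMap Λ.M[X] _ X) = _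
    rw [← map_mul, ← map_add, hw']
    apply le_antisymm
    · refine le_min ?_ ?_
      · have := gv_le Λ.w (C a + C b * X) 0
        simpa using this
      · have := gv_le Λ.w (C a + C b * X) 1
        simpa [coeff_C] using this
    · rw [le_gv_iff]
      intro i
      rcases i with _ | _ | i
      · simp
      · simp [coeff_C]
      · simp
  · intro i f
    show D i (algebraMap Λ.M[X] _ (C f)) = algebraMap Λ.M[X] _ (C (Λ.d i f))
    rw [hD]
    congr 1
    ext n
    rw [gaussMapCoeffs_coeff, coeff_C, coeff_C]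
    split_ifs
    · rfl
    · rw [map_zero]
  · intro i
    show D i (algebraMap Λ.M[X] _ X) = 0
    rw [hD]
    have : gaussMapCoeffs (Λ.d i) (X : Λ.M[X]) = 0 := by
      ext n
      rw [gaussMapCoeffs_coeff, coeff_X]
      split_ifs
      · rw [Derivation.map_one_eq_zero, coeff_zero]
      · rw [map_zero, coeff_zero]
    rw [this, map_zero]
  · intro f
    show D0 (algebraMap Λ.M[X] _ (C f)) = 0
    rw [hD0]
    show algebraMap Λ.M[X] _ (derivative (C f)) = 0
    rw [derivative_C, map_zero]
  · show D0 (algebraMap Λ.M[X] _ X) = 1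
    rw [hD0]
    show algebraMap Λ.M[X] _ (derivative X) = 1
    rw [derivative_X, map_one]

end Pool.Agent.Lib_MP_e0d435_kv
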