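import Pool.Agent.Lib_MP_e0d435_kv.JacInd
import Pool.Agent.Lib_MP_e0d435_kv.Gauss
import Pool.Agent.Lib_MP_e0d435_kv.AdW
import Pool.Agent.Lib_MP_e0d435_kv.AdDvr
import Pool.Agent.Lib_MP_e0d435_kv.AdRes
import Pool.Agent.Lib_MP_e0d435_kv.AdLen
import Pool.Agent.Lib_MP_e0d435_kv.AdDiv
import Pool.Agent.Lib_MP_e0d435_kv.AdCoord

/-! AD7: from an arc family on the cone to a divisor over `X`. -/

namespace Pool.Agent.Lib_MP_e0d435_kv

open Pool.Agent.Lib_GD Pool.Agent.Lib_KF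

/-- The additive valuation of a discrete valuation ring is invariant under isomorphisms. -/
private theorem arcDiv_addVal_equiv {V V' : Type} [CommRing V] [IsDomain V]
    [IsDiscreteValuationRing V] [CommRing V'] [IsDomain V'] [IsDiscreteValuationRing V']
    (σ : V ≃+* V') (a : V) :
    IsDiscreteValuationRing.addVal V' (σ a) = IsDiscreteValuationRing.addVal V a := by
  by_cases ha : a = 0
  · rw [ha, map_zero, IsDiscreteValuationRing.addVal_zero, IsDiscreteValuationRing.addVal_zero]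
  · obtain ⟨ϖ, hϖ⟩ := IsDiscreteValuationRing.exists_irreducible V
    obtain ⟨n, u, hu⟩ := IsDiscreteValuationRing.eq_unit_mul_pow_irreducible ha hϖ
    have hϖ' : Irreducible (σ ϖ) := (MulEquiv.irreducible_iff σ).2 hϖ
    rw [IsDiscreteValuationRing.addVal_def a u hϖ n hu,
      IsDiscreteValuationRing.addVal_def (σ a) (Units.map (σ : V →* V') u) hϖ' n
        (by rw [hu, map_mul, map_pow]; rfl)]

/-- The twist of a homomorphism from a graded ring by an element. -/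
private theorem arcDiv_twist {R : Type} [CommRing R] [Algebra ℂ R] {𝒜 : ℕ → Submodule ℂ R}
    [GradedAlgebra 𝒜] {M : Type} [Field M] [Algebra ℂ M] (ψ : R →ₐ[ℂ] M) (u : M) :
    ∃ φ' : R →ₐ[ℂ] M, ∀ m : ℕ, ∀ s ∈ 𝒜 m, φ' s = ψ s * u ^ m := by
  classical
  let F : ∀ i, 𝒜 i →ₗ[ℂ] M := fun i =>
    (LinearMap.mulRight ℂ (u ^ i)).comp (ψ.toLinearMap.comp (𝒜 i).subtype)
  have hF : ∀ i (a : 𝒜 i), F i a = ψ a * u ^ i := fun i a => rfl
  let Φ : (DirectSum ℕ fun i => 𝒜 i) →ₐ[ℂ] M := DirectSum.toAlgebra ℂ (fun i => 𝒜 i) F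
    (by rw [hF, pow_zero, mul_one]; exact map_one ψ)
    (by
      intro i j ai aj
      rw [hF, hF, hF, pow_add]
      have e1 : ψ ((ai : R) * (aj : R)) * (u ^ i * u ^ j) = ψ ai * u ^ i * (ψ aj * u ^ j) := by
        rw [map_mul]; ring
      exact e1)
  refine ⟨Φ.comp (DirectSum.decomposeAlgEquiv 𝒜).toAlgHom, fun m s hs => ?_⟩
  have h1 : (DirectSum.decomposeAlgEquiv 𝒜) s = DirectSum.of (fun i => 𝒜 i) m ⟨s, hs⟩ :=
    DirectSum.decompose_of_mem 𝒜 hs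
  show Φ ((DirectSum.decomposeAlgEquiv 𝒜) s) = _
  rw [h1]
  exact DirectSum.toAddMonoid_of (fun i => (F i).toAddMonoidHom) m ⟨s, hs⟩

/-- A determinant whose first row is `(c, 0, …, 0)`. -/
private theorem arcDiv_det_row {M : Type} [Field M] {n : ℕ}
    (A : Matrix (Fin (n + 1)) (Fin (n + 1)) M) (h0 : ∀ l : Fin n, A 0 l.succ = 0) :
    A.det = A 0 0 * (A.submatrix Fin.succ Fin.succ).det := by
  rw [Matrix.det_succ_row_zero, Fin.sum_univ_succ, Finset.sum_eq_zero, add_zero]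
  · rw [Fin.val_zero, pow_zero, one_mul]
    rfl
  · intro j _
    rw [h0 j]; ring

/-- Proof. `φ` is injective (V08, AD1). `w₁`, `f`, `g`, `b` from AD1, `θ = φ(g)/φ(f)`. `jac_homog`
with `z = φ ∘ x` and `b' = b`: `jac = ± φ(x_b)^(n+1) det`, the matrix with the columns
`d_i φ(x_b)/φ(x_b)` and `d_i (φ(x_b')/φ(x_b))`; all entries have `w ≥ 0`. If `w` is trivial on the
function field: `φ(s)/θ^m` has order `0`. Otherwise AD2, AD3 (`V = vfun`, `σ` the inclusion,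
`y_l = φ(x_b')/φ(x_b)`, `τ = φ(x_b)`), AD5b give `E`; the order of `E.φ 0 s` is that of
`φ(s)/θ^m`, divided by `e` (transport `addVal` along the isomorphism `σ`); AD4 on `E.V` with
`coordSpan_eq` (`u` the inverse of `E.φ 0 (x b)`; `σ (E.φ 0 (x b') u) = φ(x_b')/φ(x_b)`). -/
theorem arc_divisor {R : Type} [CommRing R] [Algebra ℂ R] {𝒜 : ℕ → Submodule ℂ R}
    [GradedAlgebra 𝒜] {n r d : ℕ} {x : Fin (n + 1) → R} {G : R} (h : IsFano 𝒜 n r d x G)
    (hn : 1 ≤ n) (Λ : LDF (n + 1)) (φ : R →ₐ[ℂ] Λ.M) (hJ : Λ.jac (fun b => φ (x b)) ≠ 0) :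
    ∃ w₁ : ℤ, (∃ b, ordZ Λ.w (φ (x b)) = d * w₁) ∧
      (((∀ m : ℕ, ∀ s ∈ 𝒜 m, s ≠ 0 → ordZ Λ.w (φ s) = m * w₁) ∧
        (n + 1) * d * w₁ ≤ ordZ Λ.w (Λ.jac (fun b => φ (x b)))) ∨
      ∃ (E : DivisorOver 𝒜 n 1) (e : ℕ), 1 ≤ e ∧
        (∀ m : ℕ, ∀ s ∈ 𝒜 m, s ≠ 0 →
          ordZ Λ.w (φ s) = m * w₁ + e * ((E.ord (E.φ 0 s)).toNat : ℤ)) ∧
        (n + 1) * d * w₁ + e * (1 + ((Module.length E.V
          (KaehlerDifferential ℂ E.V ⧸ coordSpan E x)).toNat : ℤ)) ≤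
          ordZ Λ.w (Λ.jac (fun b => φ (x b)))) := by
  classical
  have hdom := h.domain
  have hφ : Function.Injective φ :=
    phi_injective h φ (Λ.algebraicIndependent_of_jac _ hJ)
  obtain ⟨w₁, k, f, g, hf, hg, hf0, hg0, hfo, hgo, hmin, b, hb⟩ := exists_weight h Λ.w φ hφ
  have hφ0 : ∀ s : R, s ≠ 0 → φ s ≠ 0 := fun s hs h1 => hs (hφ (by rw [h1, map_zero]))
  have hx0 : ∀ c, x c ≠ 0 := fun c => h.x_indep.ne_zero c
  refine ⟨w₁, ⟨b, hb⟩, ?_⟩
  set τ : Λ.M := φ (x b) with hτdef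
  have hτ : τ ≠ 0 := hφ0 _ (hx0 b)
  set A : Matrix (Fin (n + 1)) (Fin (n + 1)) Λ.M := Matrix.of fun i j : Fin (n + 1) =>
      (Fin.cons (Λ.d i τ / τ)
        (fun l : Fin n => Λ.d i (φ (x (b.succAbove l)) / τ)) : Fin (n + 1) → Λ.M) j with hA
  obtain ⟨ε, hε, hjac⟩ := jac_homog Λ (fun b => φ (x b)) b hτ
  change Λ.jac (fun b => φ (x b)) = ε * τ ^ (n + 1) * A.det at hjac
  have hdet : A.det ≠ 0 := by
    intro h0
    apply hJ
    rw [hjac, h0, mul_zero]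
  have hεne : ε ≠ 0 := by
    rcases hε with h1 | h1
    · rw [h1]; exact one_ne_zero
    · rw [h1]; exact neg_ne_zero.2 one_ne_zero
  have hεo : ordZ Λ.w ε = 0 := by
    rcases hε with h1 | h1
    · rw [h1, ordZ_one]
    · rw [h1, ordZ_neg, ordZ_one]
  have hord : ordZ Λ.w (Λ.jac (fun b => φ (x b))) = (n + 1) * d * w₁ + ordZ Λ.w A.det := by
    rw [hjac, ordZ_mul _ (mul_ne_zero hεne (pow_ne_zero _ hτ)) hdet,
      ordZ_mul _ hεne (pow_ne_zero _ hτ), hεo, ordZ_pow _ hτ, hb]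
    push_cast; ring
  set θ : Λ.M := φ g / φ f with hθ
  have hθ0 : θ ≠ 0 := div_ne_zero (hφ0 g hg0) (hφ0 f hf0)
  have hθo : ordZ Λ.w θ = w₁ := by
    rw [hθ, ordZ_div _ (hφ0 g hg0) (hφ0 f hf0), hfo, hgo]; ring
  have hymem : ∀ c, φ (x c) / τ ∈ funField 𝒜 φ hφ := by
    intro c
    exact ⟨d, x c, h.x_mem c, x b, h.x_mem b, hx0 b, div_mul_cancel₀ _ hτ⟩
  have hyw : ∀ c, 0 ≤ Λ.w (φ (x c) / τ) := by
    intro c
    rw [w_eq _ (div_ne_zero (hφ0 _ (hx0 c)) hτ), ordZ_div _ (hφ0 _ (hx0 c)) hτ, hb]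
    have := hmin d (x c) (h.x_mem c) (hx0 c)
    have h2 : (0 : ℤ) ≤ ordZ Λ.w (φ (x c)) - d * w₁ := by linarith
    exact_mod_cast h2
  by_cases htriv : ∃ z ∈ funField 𝒜 φ hφ, z ≠ 0 ∧ ordZ Λ.w z ≠ 0
  · right
    obtain ⟨e, hV, he, hordV, hfrac⟩ := vfun_dvr Λ.w (funField 𝒜 φ hφ) htriv
    let V := vfun Λ.w (funField 𝒜 φ hφ)
    let y : Fin n → V := fun l =>
      ⟨φ (x (b.succAbove l)) / τ, hymem _, hyw _⟩
    obtain ⟨v, hv⟩ := exists_residue_indep hn Λ V.val Subtype.val_injective e he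
      (fun f hf => hordV f hf) y τ hτ hdet
    obtain ⟨E, σ, hσ, hunit⟩ := exists_divisorOver h hn Λ.w φ hφ w₁ k f g hf hg hf0 hg0 hfo hgo
      hmin b hb hV hfrac v hv
    have hordE : ∀ z : E.V, z ≠ 0 → ordZ Λ.w ((V.val.comp σ.toAlgHom) z) =
        e * (IsDiscreteValuationRing.addVal E.V z).toNat := by
      intro z hz
      have h1 := hordV (σ z) (by
        intro h0
        exact hz (σ.injective (by rw [h0, map_zero])))
      rw [← arcDiv_addVal_equiv σ.toRingEquiv z]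
      exact h1
    have hinj : Function.Injective (V.val.comp σ.toAlgHom) :=
      Subtype.val_injective.comp σ.injective
    obtain ⟨uu, huu⟩ := hunit
    set u : E.V := ((uu⁻¹ : E.Vˣ) : E.V) with hu
    have hu1 : E.φ 0 (x b) * u = 1 := by
      rw [← huu, hu]; exact Units.mul_inv uu
    have hσ' : ∀ m, ∀ s ∈ 𝒜 m, (V.val.comp σ.toAlgHom) (E.φ 0 s) * θ ^ m = φ s := hσ
    have hσu : (V.val.comp σ.toAlgHom) u = θ ^ d / τ := by
      have h1 := hσ' d (x b) (h.x_mem b)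
      have h2 : (V.val.comp σ.toAlgHom) (E.φ 0 (x b)) * (V.val.comp σ.toAlgHom) u = 1 := by
        rw [← map_mul, hu1, map_one]
      rw [eq_div_iff hτ, hτdef, ← h1]
      rw [← mul_assoc, mul_comm _ ((V.val.comp σ.toAlgHom) (E.φ 0 (x b))), h2, one_mul]
    have hσy : ∀ l : Fin n, (V.val.comp σ.toAlgHom) (E.φ 0 (x (b.succAbove l)) * u) =
        φ (x (b.succAbove l)) / τ := by
      intro l
      have h1 := hσ' d (x (b.succAbove l)) (h.x_mem _)
      rw [map_mul, hσu, ← h1]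
      ring
    obtain ⟨hfin, hle⟩ := length_le_jac hn Λ (V := E.V) (by rw [E.trdeg, mul_one])
      (V.val.comp σ.toAlgHom) hinj e he hordE (fun l => E.φ 0 (x (b.succAbove l)) * u) τ hτ
      (by simpa only [hσy] using hdet)
    simp only [hσy] at hle
    rw [← coordSpan_eq E x b u hu1] at hle
    refine ⟨E, e, he, ?_, ?_⟩
    · intro m s hs hs0
      have h1 := hσ' m s hs
      have h2 : E.φ 0 s ≠ 0 := by
        intro h0
        rw [h0, map_zero, zero_mul] at h1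
        exact hφ0 s hs0 h1.symm
      have h3 : (V.val.comp σ.toAlgHom) (E.φ 0 s) ≠ 0 := by
        intro h0
        exact h2 (hinj (by rw [h0, map_zero]))
      rw [← h1, ordZ_mul _ h3 (pow_ne_zero _ hθ0), ordZ_pow _ hθ0, hθo, hordE _ h2]
      unfold DivisorOver.ord
      ring
    · rw [hord]
      linarith
  · left
    push Not at htriv
    constructor
    · intro m s hs hs0
      have hmem : φ s / θ ^ m ∈ funField 𝒜 φ hφ := by
        refine ⟨(k + 1) * m, s * f ^ m, ?_, g ^ m, ?_, pow_ne_zero _ hg0, ?_⟩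
        · have h1 : f ^ m ∈ 𝒜 (m • k) := SetLike.pow_mem_graded m hf
          have h2 := SetLike.mul_mem_graded hs h1
          convert h2 using 2
          simp only [smul_eq_mul]; ring
        · have h1 : g ^ m ∈ 𝒜 (m • (k + 1)) := SetLike.pow_mem_graded m hg
          convert h1 using 2
          simp only [smul_eq_mul]; ring
        · rw [hθ, map_mul, map_pow, map_pow, div_pow]
          have h1 := hφ0 g hg0
          have h2 := hφ0 f hf0
          field_simp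
      have h1 := htriv _ hmem (div_ne_zero (hφ0 s hs0) (pow_ne_zero _ hθ0))
      rw [ordZ_div _ (hφ0 s hs0) (pow_ne_zero _ hθ0), ordZ_pow _ hθ0, hθo] at h1
      linarith
    · rw [hord]
      have h1 : (0 : WithTop ℤ) ≤ Λ.w A.det := by
        apply w_det_nonneg
        intro i j
        rw [hA, Matrix.of_apply]
        refine Fin.cases ?_ (fun l => ?_) j
        · rw [Fin.cons_zero]
          by_cases h0 : Λ.d i τ = 0
          · rw [h0, zero_div, AddValuation.map_zero]; exact le_top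
          · rw [w_eq _ (div_ne_zero h0 hτ), ordZ_div _ h0 hτ]
            have := Λ.ordZ_le_d i hτ h0
            have h2 : (0 : ℤ) ≤ ordZ Λ.w (Λ.d i τ) - ordZ Λ.w τ := by linarith
            exact_mod_cast h2
        · rw [Fin.cons_succ]
          exact (hyw _).trans (Λ.log i _)
      have h2 : (0 : ℤ) ≤ ordZ Λ.w A.det := by
        rw [← le_w_iff _ hdet]
        exact_mod_cast h1
      linarith

/-- The same for a family of arcs on `X` with `n` derivations, in an affine chart: Proof: Gauss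
extension `ι`, `u` of `Λ` (V07), `φ' s = ∑ ι(φ s_m) u^m`; `jac (φ' ∘ x)` is
`± (u^d ι φ(x_a))^(n+1) (d / u) ι(det)` up to a unit (`jac_homog`, the derivation `0` kills the
quotients); so `arc_divisor` applies, `w₁` is the same as for `φ`, and
`ord jac = (n+1) ord φ(x_a) + ord det`. Choose `a` with `ord φ(x_a)` least. -/
theorem arc_divisor_affine {R : Type} [CommRing R] [Algebra ℂ R] {𝒜 : ℕ → Submodule ℂ R}
    [GradedAlgebra 𝒜] {n r d : ℕ} {x : Fin (n + 1) → R} {G : R} (h : IsFano 𝒜 n r d x G)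
    (hn : 1 ≤ n) (Λ : LDF n) (φ : R →ₐ[ℂ] Λ.M) (a : Fin (n + 1)) (ha : φ (x a) ≠ 0)
    (hmin : ∀ b, φ (x b) ≠ 0 → ordZ Λ.w (φ (x a)) ≤ ordZ Λ.w (φ (x b)))
    (hJ : Λ.jac (fun l => φ (x (a.succAbove l)) / φ (x a)) ≠ 0) :
    ∃ w₁ : ℤ, ordZ Λ.w (φ (x a)) = d * w₁ ∧
      (((∀ m : ℕ, ∀ s ∈ 𝒜 m, s ≠ 0 → φ s ≠ 0 ∧ ordZ Λ.w (φ s) = m * w₁) ∧
        0 ≤ ordZ Λ.w (Λ.jac (fun l => φ (x (a.succAbove l)) / φ (x a)))) ∨
      ∃ (E : DivisorOver 𝒜 n 1) (e : ℕ), 1 ≤ e ∧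
        (∀ m : ℕ, ∀ s ∈ 𝒜 m, s ≠ 0 →
          φ s ≠ 0 ∧ ordZ Λ.w (φ s) = m * w₁ + e * ((E.ord (E.φ 0 s)).toNat : ℤ)) ∧
        e * (1 + ((Module.length E.V
          (KaehlerDifferential ℂ E.V ⧸ coordSpan E x)).toNat : ℤ)) ≤
          ordZ Λ.w (Λ.jac (fun l => φ (x (a.succAbove l)) / φ (x a)))) := by
  classical
  have hdom := h.domain
  obtain ⟨Λ', ι, u, hw, hds, hdsu, hd0, hd0u⟩ := Λ.gauss
  have hu0 : u ≠ 0 := by
    intro h0
    rw [h0, map_zero] at hd0u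
    exact zero_ne_one hd0u
  have hwu : Λ'.w u = 0 := by
    have h1 := hw 0 1
    rw [map_zero, map_one, one_mul, zero_add, AddValuation.map_zero, AddValuation.map_one] at h1
    rw [h1]; exact min_eq_right le_top
  have hou : ordZ Λ'.w u = 0 := ordZ_eq_of_w _ (by rw [hwu]; rfl)
  have hwι : ∀ z, Λ'.w (ι z) = Λ.w z := by
    intro z
    have h1 := hw z 0
    rw [map_zero, zero_mul, add_zero, AddValuation.map_zero] at h1
    rw [h1]; exact min_eq_left le_top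
  have hoι : ∀ z, ordZ Λ'.w (ι z) = ordZ Λ.w z := by
    intro z; unfold ordZ; rw [hwι]
  have hι0 : ∀ z, z ≠ 0 → ι z ≠ 0 := fun z hz => (_root_.map_ne_zero ι).2 hz
  obtain ⟨φ', hφ'⟩ := arcDiv_twist (𝒜 := 𝒜) (ι.comp φ) u
  have hφx : ∀ c, φ' (x c) = ι (φ (x c)) * u ^ d := fun c => hφ' d (x c) (h.x_mem c)
  have hza : φ' (x a) ≠ 0 := by
    rw [hφx]; exact mul_ne_zero (hι0 _ ha) (pow_ne_zero _ hu0)
  have hquot : ∀ c, φ' (x c) / φ' (x a) = ι (φ (x c) / φ (x a)) := by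
    intro c
    rw [hφx, hφx, map_div₀]
    have := hι0 _ ha
    field_simp
  set J : Λ.M := Λ.jac (fun l => φ (x (a.succAbove l)) / φ (x a)) with hJdef
  obtain ⟨ε, hε, hjac⟩ := jac_homog Λ' (fun b => φ' (x b)) a hza
  have hεne : ε ≠ 0 := by
    rcases hε with h1 | h1
    · rw [h1]; exact one_ne_zero
    · rw [h1]; exact neg_ne_zero.2 one_ne_zero
  have hεo : ordZ Λ'.w ε = 0 := by
    rcases hε with h1 | h1
    · rw [h1, ordZ_one]
    · rw [h1, ordZ_neg, ordZ_one]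
  have hd1 := h.d_pos
  have hdu : Λ'.d 0 (φ' (x a)) / φ' (x a) = (algebraMap ℂ Λ'.M d) / u := by
    rw [hφx, Derivation.leibniz, hd0, smul_zero, add_zero, Derivation.leibniz_pow, hd0u]
    have h1 := hι0 _ ha
    obtain ⟨d', rfl⟩ : ∃ d', d = d' + 1 := ⟨d - 1, by omega⟩
    rw [map_natCast]
    simp only [smul_eq_mul, nsmul_eq_mul, mul_one, Nat.add_sub_cancel]
    rw [pow_succ]
    field_simp
  have hdetA : Matrix.det (Matrix.of fun i j : Fin (n + 1) =>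
      (Fin.cons (Λ'.d i (φ' (x a)) / φ' (x a))
        (fun l : Fin n => Λ'.d i (φ' (x (a.succAbove l)) / φ' (x a))) :
          Fin (n + 1) → Λ'.M) j) = (algebraMap ℂ Λ'.M d) / u * ι J := by
    rw [arcDiv_det_row]
    · have h1 := AlgHom.map_det ι (Matrix.of fun i l : Fin n =>
        Λ.d i (φ (x (a.succAbove l)) / φ (x a)))
      rw [hJdef, LDF.jac, h1]
      rw [Matrix.of_apply, Fin.cons_zero, hdu]
      congr 2
      ext i j
      simp only [Matrix.submatrix_apply, Matrix.of_apply, AlgHom.mapMatrix_apply,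
        Matrix.map_apply, Fin.cons_succ, hquot, hds]
    · intro l
      rw [Matrix.of_apply, Fin.cons_succ, hquot, hd0]
  rw [hdetA] at hjac
  have hdne : (algebraMap ℂ Λ'.M d) ≠ 0 := by
    rw [Ne, _root_.map_eq_zero]
    exact_mod_cast (by omega : d ≠ 0)
  have hJ' : Λ'.jac (fun b => φ' (x b)) ≠ 0 := by
    rw [hjac]
    exact mul_ne_zero (mul_ne_zero hεne (pow_ne_zero _ hza))
      (mul_ne_zero (div_ne_zero hdne hu0) (hι0 _ hJ))
  have hoza : ordZ Λ'.w (φ' (x a)) = ordZ Λ.w (φ (x a)) := by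
    rw [hφx, ordZ_mul _ (hι0 _ ha) (pow_ne_zero _ hu0), ordZ_pow _ hu0, hou, hoι]; ring
  have hordJ : ordZ Λ'.w (Λ'.jac (fun b => φ' (x b))) =
      (n + 1) * ordZ Λ.w (φ (x a)) + ordZ Λ.w J := by
    rw [hjac, ordZ_mul _ (mul_ne_zero hεne (pow_ne_zero _ hza))
      (mul_ne_zero (div_ne_zero hdne hu0) (hι0 _ hJ)),
      ordZ_mul _ hεne (pow_ne_zero _ hza), ordZ_pow _ hza,
      ordZ_mul _ (div_ne_zero hdne hu0) (hι0 _ hJ), ordZ_div _ hdne hu0, hou, hεo,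
      ordZ_algebraMap, hoι, hoza]
    push_cast; ring
  have hinj : Function.Injective φ' :=
    phi_injective h φ' (Λ'.algebraicIndependent_of_jac _ hJ')
  have hs0 : ∀ m : ℕ, ∀ s ∈ 𝒜 m, s ≠ 0 → φ s ≠ 0 := by
    intro m s hs h0 h1
    apply h0
    apply hinj
    rw [hφ' m s hs, map_zero]
    show ι (φ s) * u ^ m = 0
    rw [h1, map_zero, zero_mul]
  have hos : ∀ m : ℕ, ∀ s ∈ 𝒜 m, s ≠ 0 → ordZ Λ'.w (φ' s) = ordZ Λ.w (φ s) := by
    intro m s hs h0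
    rw [hφ' m s hs]
    show ordZ Λ'.w (ι (φ s) * u ^ m) = _
    rw [ordZ_mul _ (hι0 _ (hs0 m s hs h0)) (pow_ne_zero _ hu0), ordZ_pow _ hu0, hou, hoι]; ring
  have hx0 : ∀ c, x c ≠ 0 := fun c => h.x_indep.ne_zero c
  obtain ⟨w₁, ⟨b, hb⟩, hcase⟩ := arc_divisor h hn Λ' φ' hJ'
  have hb' : ordZ Λ.w (φ (x b)) = d * w₁ := by
    rw [← hos d (x b) (h.x_mem b) (hx0 b)]; exact hb
  have hle : (d : ℤ) * w₁ ≤ ordZ Λ.w (φ (x a)) := by
    rw [← hos d (x a) (h.x_mem a) (hx0 a)]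
    rcases hcase with ⟨h1, -⟩ | ⟨E, e, he, h1, -⟩
    · rw [h1 d (x a) (h.x_mem a) (hx0 a)]
    · rw [h1 d (x a) (h.x_mem a) (hx0 a)]
      have : (0 : ℤ) ≤ e * ((E.ord (E.φ 0 (x a))).toNat : ℤ) := by positivity
      linarith
  have hwa : ordZ Λ.w (φ (x a)) = d * w₁ :=
    le_antisymm ((hmin b (hs0 d (x b) (h.x_mem b) (hx0 b))).trans hb'.le) hle
  refine ⟨w₁, hwa, ?_⟩
  rcases hcase with ⟨h1, h2⟩ | ⟨E, e, he, h1, h2⟩
  · left
    refine ⟨fun m s hs h0 => ⟨hs0 m s hs h0, ?_⟩, ?_⟩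
    · rw [← hos m s hs h0]; exact h1 m s hs h0
    · rw [hordJ, hwa] at h2
      linarith
  · right
    refine ⟨E, e, he, fun m s hs h0 => ⟨hs0 m s hs h0, ?_⟩, ?_⟩
    · rw [← hos m s hs h0]; exact h1 m s hs h0
    · rw [hordJ, hwa] at h2
      linarith

end Pool.Agent.Lib_MP_e0d435_kv
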