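import Mathlib

/-! INT4: arithmetic. -/

namespace Pool.Agent.Lib_MP_e0d435_kv

private theorem IntArith_aux (α β γ δ C : ℝ) (hα : 0 < α) (hβ : 0 ≤ β) (hγ : 0 < γ)
    (hδ : 0 < δ) (hC : 0 ≤ C) :
    ∃ η : ℝ, 0 < η ∧ ∀ Q W A : ℝ, 0 < Q → 0 ≤ A → - (Q * η) ≤ W →
      α * W + δ * A ≤ Q * (η + (1 + C) * η) →
      Q * (1 - C * η) ≤ β * W + γ * A → False := by
  obtain ⟨ρ, hρ, hρ1, hρ2⟩ : ∃ ρ : ℝ, 0 < ρ ∧ ρ * β ≤ α ∧ ρ * γ ≤ δ := by
    refine ⟨min (α / (β + 1)) (δ / γ), lt_min (div_pos hα (by linarith)) (div_pos hδ hγ), ?_, ?_⟩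
    · have h1 : min (α / (β + 1)) (δ / γ) * β ≤ α / (β + 1) * β :=
        mul_le_mul_of_nonneg_right (min_le_left _ _) hβ
      have h2 : α / (β + 1) * β ≤ α := by
        rw [div_mul_eq_mul_div, div_le_iff₀ (by linarith)]
        nlinarith
      exact h1.trans h2
    · have h1 : min (α / (β + 1)) (δ / γ) * γ ≤ δ / γ * γ :=
        mul_le_mul_of_nonneg_right (min_le_right _ _) hγ.le
      rwa [div_mul_cancel₀ _ hγ.ne'] at h1
  obtain ⟨D, hD, hD0⟩ : ∃ D : ℝ, D = 3 + C + α ∧ 0 < D := ⟨_, rfl, by linarith⟩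
  obtain ⟨η, hη, hη1, hη2⟩ : ∃ η : ℝ, 0 < η ∧ D * η ≤ 1 / 2 ∧ D * η ≤ ρ / 4 := by
    refine ⟨min (1 / (2 * D)) (ρ / (4 * D)), lt_min (by positivity) (by positivity), ?_, ?_⟩
    · have h1 : D * min (1 / (2 * D)) (ρ / (4 * D)) ≤ D * (1 / (2 * D)) :=
        mul_le_mul_of_nonneg_left (min_le_left _ _) hD0.le
      have h2 : D * (1 / (2 * D)) = 1 / 2 := by field_simp
      linarith
    · have h1 : D * min (1 / (2 * D)) (ρ / (4 * D)) ≤ D * (ρ / (4 * D)) :=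
        mul_le_mul_of_nonneg_left (min_le_right _ _) hD0.le
      have h2 : D * (ρ / (4 * D)) = ρ / 4 := by field_simp
      linarith
  refine ⟨η, hη, fun Q W A hQ hA hW h1 h2 => ?_⟩
  have hCη : C * η ≤ 1 / 2 := by
    have : C * η ≤ D * η := mul_le_mul_of_nonneg_right (by linarith) hη.le
    linarith
  have h3 : Q / 2 ≤ β * W + γ * A := by nlinarith
  have h4 : η + (1 + C) * η + α * η + η = D * η := by rw [hD]; ring
  have hsum : η + (1 + C) * η + α * η < ρ / 4 := by linarith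
  rcases le_or_gt 0 W with hW0 | hW0
  · have h5 : ρ * (β * W + γ * A) ≤ α * W + δ * A := by
      have a1 := mul_le_mul_of_nonneg_right hρ1 hW0
      have a2 := mul_le_mul_of_nonneg_right hρ2 hA
      nlinarith
    have h6 : ρ * (Q / 2) ≤ ρ * (β * W + γ * A) := mul_le_mul_of_nonneg_left h3 hρ.le
    have h7 : Q * (η + (1 + C) * η) ≤ Q * (ρ / 4) :=
      mul_le_mul_of_nonneg_left (by nlinarith [mul_pos hα hη]) hQ.le
    nlinarith [mul_pos hρ hQ]
  · have h5 : Q / 2 ≤ γ * A := by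
      have : β * W ≤ 0 := mul_nonpos_of_nonneg_of_nonpos hβ hW0.le
      linarith
    have h6 : ρ * (Q / 2) ≤ δ * A := by
      have a1 := mul_le_mul_of_nonneg_left h5 hρ.le
      have a2 := mul_le_mul_of_nonneg_right hρ2 hA
      nlinarith
    have h7 : - (α * (Q * η)) ≤ α * W := by nlinarith
    have h8 : Q * (η + (1 + C) * η + α * η) ≤ Q * (ρ / 4) :=
      mul_le_mul_of_nonneg_left hsum.le hQ.le
    nlinarith [mul_pos hρ hQ]

/-- Proof. `T = c M m W + a + ((r d (n+1) - 1) W + b)/r`, `A' = A - b/r ≥ 0`, `β = c M m + d(n+1) - 1/r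
≥ 0`. `K - T ≥ W (1/r - c M m) + (A' - a)`, `A' - a ≥ κ/(1+κ) A'`, and
`K - T ≤ Q (θ + (1 + C₁) η)`, `C₁ = c M + 1/r`. Since `T ≤ β max W 0 + A' (1 + 1/(r η₂))` and
`T ≥ Q (1 - C₁ η) ≥ Q/2` either `W ≥ Q/(4(β+1))`, so `K - T ≥ Q (1/r - c M m)/(4(β+1))`, or
`A' ≥ Q/(4(1 + 1/(r η₂)))`, so `K - T ≥ - (1/r) Q η/d + κ/(1+κ) Q/(4(1 + 1/(r η₂)))` (`d W ≥ - Q η`).
Contradiction for small `θ`, `η`. -/
theorem int_arith (n r d M m : ℕ) (hr : 1 ≤ r) (hd : 1 ≤ d) (c κ η₂ : ℝ) (hc : 0 < c)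
    (hcm : c * (M * m) < 1 / r) (hκ : 0 < κ) (hη₂ : 0 < η₂) :
    ∃ θ η : ℝ, 0 < θ ∧ 0 < η ∧ ∀ Q W a b A K : ℝ, 0 < Q → 0 ≤ a → 0 ≤ b →
      (1 + κ) * a ≤ A - b / r → η₂ * b ≤ A - b / r → (n + 1) * d * W + A ≤ K →
      K ≤ Q * (1 + θ + η) → - (Q * η) ≤ d * W →
      Q * (1 - (c * M + 1 / r) * η) ≤
        c * (M * m) * W + a + ((r * d * (n + 1) - 1) * W + b) / r → False := by
  have hr0 : (1 : ℝ) ≤ r := by exact_mod_cast hr
  have hd0 : (1 : ℝ) ≤ d := by exact_mod_cast hd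
  have hrp : (0 : ℝ) < r := by linarith
  have hr1 : (1 : ℝ) / r ≤ 1 := by
    rw [div_le_one hrp]
    exact hr0
  have hr2 : (0 : ℝ) < 1 / r := by positivity
  have hcm0 : 0 ≤ c * (M * m : ℝ) := by positivity
  have hdn : (1 : ℝ) ≤ d * (n + 1) := by
    have : (0 : ℝ) ≤ n := Nat.cast_nonneg n
    nlinarith
  have hκ1 : 0 < 1 + κ := by linarith
  obtain ⟨η, hη, hmain⟩ := IntArith_aux (1 / r - c * (M * m)) (c * (M * m) + d * (n + 1) - 1 / r)
    (1 + 1 / (r * η₂)) (κ / (1 + κ)) (c * M + 1 / r) (by linarith) (by linarith) (by positivity)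
    (by positivity) (by positivity)
  refine ⟨η, η, hη, hη, fun Q W a b A K hQ ha hb h1 h2 h3 h4 h5 h6 => ?_⟩
  have hbr : 0 ≤ b / r := by positivity
  have hA' : 0 ≤ A - b / r := by nlinarith
  have haA : a ≤ (A - b / r) / (1 + κ) := by
    rw [le_div_iff₀ hκ1]
    linarith
  have haA' : κ / (1 + κ) * (A - b / r) ≤ A - b / r - a := by
    have h7 : κ / (1 + κ) * (A - b / r) = (A - b / r) - (A - b / r) / (1 + κ) := by
      field_simp
      ring
    linarith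
  have haA2 : a ≤ A - b / r := by nlinarith
  have hbA : b / r ≤ 1 / (r * η₂) * (A - b / r) := by
    have h7 : b ≤ (A - b / r) / η₂ := by
      rw [le_div_iff₀ hη₂]
      linarith
    have h8 : b / r ≤ (A - b / r) / η₂ / r := div_le_div_of_nonneg_right h7 hrp.le
    have h9 : (A - b / r) / η₂ / r = 1 / (r * η₂) * (A - b / r) := by
      field_simp
    linarith
  have hWη : - (Q * η) ≤ W := by
    have h7 : 0 < Q * η := mul_pos hQ hη
    by_contra hc'
    push Not at hc'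
    have h8 : W < 0 := by linarith
    nlinarith
  have hT : c * (M * m) * W + a + ((r * d * (n + 1) - 1) * W + b) / r =
      (c * (M * m) + d * (n + 1) - 1 / r) * W + a + b / r := by
    field_simp
    ring
  rw [hT] at h6
  refine hmain Q W (A - b / r) hQ hA' hWη ?_ ?_
  · have h7 : (1 / (r : ℝ) - c * (M * m)) * W + (A - b / r - a) ≤
        K - ((c * (M * m) + d * (n + 1) - 1 / r) * W + a + b / r) := by
      nlinarith
    have h8 : K - ((c * (M * m) + d * (n + 1) - 1 / r) * W + a + b / r) ≤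
        Q * (1 + η + η) - Q * (1 - (c * M + 1 / r) * η) := by linarith
    have h9 : Q * (1 + η + η) - Q * (1 - (c * M + 1 / r) * η) =
        Q * (η + (1 + (c * M + 1 / r)) * η) := by ring
    linarith
  · refine h6.trans ?_
    have h7 : (1 + 1 / (r * η₂)) * (A - b / r) =
        (A - b / r) + 1 / (r * η₂) * (A - b / r) := by ring
    rw [h7]
    linarith

end Pool.Agent.Lib_MP_e0d435_kv
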