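import Mathlib

/-!
# Log-differential discretely valued fields

Used as fields of values of families of arcs.
-/

namespace Pool.Agent.Lib_MP_e0d435_kv

/-- The integral order of an element (meaningful for `f ≠ 0`; `0` for `f = 0`). -/
noncomputable def ordZ {M : Type} [Field M] (w : AddValuation M (WithTop ℤ)) (f : M) : ℤ :=
  (w f).untopD 0

/-- The valuation ring. -/
def vring {M : Type} [Field M] (w : AddValuation M (WithTop ℤ)) : Subring M where
  carrier := {f | 0 ≤ w f}
  mul_mem' {a b} ha hb := by
    have h := add_nonneg (show (0 : WithTop ℤ) ≤ w a from ha) (show (0 : WithTop ℤ) ≤ w b from hb)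
    show 0 ≤ w (a * b)
    rw [AddValuation.map_mul]; exact h
  one_mem' := by show 0 ≤ w 1; rw [AddValuation.map_one]
  add_mem' {a b} ha hb := by
    show 0 ≤ w (a + b)
    exact (le_min (show (0 : WithTop ℤ) ≤ w a from ha) (show (0 : WithTop ℤ) ≤ w b from hb)).trans
      (AddValuation.map_add w a b)
  zero_mem' := by show 0 ≤ w 0; rw [AddValuation.map_zero]; exact le_top
  neg_mem' {a} ha := by
    show 0 ≤ w (-a)
    rw [AddValuation.map_neg]; exact ha

/-- A log-differential discretely valued field: a field `M` over `ℂ` with a normalised discrete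
valuation `w` and derivations `d_1, …, d_k` with `w (d_i f) ≥ w f` for all `f`. -/
structure LDF (k : ℕ) where
  M : Type
  [field : Field M]
  [algebra : Algebra ℂ M]
  w : AddValuation M (WithTop ℤ)
  t : M
  w_t : w t = 1
  d : Fin k → Derivation ℂ M M
  log : ∀ i f, w f ≤ w (d i f)

attribute [instance] LDF.field LDF.algebra

/-- The Jacobian determinant `det (d_i x_j)` of a `k`-tuple. -/
noncomputable def LDF.jac {k : ℕ} (Λ : LDF k) (x : Fin k → Λ.M) : Λ.M :=
  Matrix.det (Matrix.of fun i j : Fin k => Λ.d i (x j))

/-- The logarithm of `|a|` to the base `ε`. -/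
noncomputable def lg (ε : ℝ) (a : ℂ) : ℝ := Real.log ‖a‖ / Real.log ε

/-- The order `o` is `q log_ε |a|` up to `q η`. -/
def Approx (q ε η : ℝ) (o : ℤ) (a : ℂ) : Prop := |(o : ℝ) - q * lg ε a| ≤ q * η

/-- Polynomials in `k` variables. -/
abbrev Pol (k : ℕ) : Type := MvPolynomial (Fin k) ℂ

/-- Rational functions in `k` variables. -/
abbrev Rat (k : ℕ) : Type := FractionRing (Pol k)

/-- The embedding of the polynomials in an extension field of the field of rational functions. -/
noncomputable def toN (k : ℕ) (N : Type) [Field N] [Algebra (Rat k) N] : Pol k →+* N :=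
  (algebraMap (Rat k) N).comp (algebraMap (Pol k) (Rat k))

/-- `(y, ζ)` is a specialisation of `(X, z)`: all polynomial relations over `ℂ` between the
variables `X_1, …, X_k` (embedded by `f`) and the `z_i` hold for `y` and `ζ`. -/
def Specialises {k P : ℕ} {N : Type} [CommRing N] (f : Pol k →+* N) (z : Fin P → N)
    (y : Fin k → ℂ) (ζ : Fin P → ℂ) : Prop :=
  ∀ p : MvPolynomial (Fin P) (Pol k), MvPolynomial.eval₂ f z p = 0 →
    MvPolynomial.eval₂ (MvPolynomial.eval y) ζ p = 0

/-- Splitting data for a family `g` of polynomials in `k + 1` variables, `X_0` being the main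
variable: `g i = lead i ∏ (X_0 - ρ a) ^ (mult i a)` over the finite Galois extension `N` of the
field of rational functions in the other variables; `0` is one of the `ρ a`. -/
structure RootData (k J : ℕ) (g : Fin J → Pol (k + 1)) where
  N : Type
  [field : Field N]
  [algebra : Algebra (Rat k) N]
  [finite : FiniteDimensional (Rat k) N]
  [galois : IsGalois (Rat k) N]
  D : ℕ
  ρ : Fin D → N
  inj : Function.Injective ρ
  zero : ∃ a, ρ a = 0
  lead : Fin J → Pol k
  lead_ne : ∀ i, lead i ≠ 0
  mult : Fin J → Fin D → ℕ
  factor : ∀ i, (MvPolynomial.finSuccEquiv ℂ k (g i)).map (toN k N) =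
    Polynomial.C (toN k N (lead i)) *
      ∏ a, (Polynomial.X - Polynomial.C (ρ a)) ^ (mult i a)
  root : ∀ a, ρ a = 0 ∨ ∃ i, 0 < mult i a

attribute [instance] RootData.field RootData.algebra RootData.finite RootData.galois

end Pool.Agent.Lib_MP_e0d435_kv
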