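import Pool.Agent.Lib_MP_e0d435_kv.IntDefs
import Pool.Agent.Lib_MP_e0d435_kv.Defs

/-! INT3: the Galois closure of the function field of the cone. -/

namespace Pool.Agent.Lib_MP_e0d435_kv

open Pool.Agent.Lib_GD Pool.Agent.Lib_KF

private theorem intGal_finite {R : Type} [CommRing R] [Algebra ℂ R] {𝒜 : ℕ → Submodule ℂ R}
    [GradedAlgebra 𝒜] {n r d : ℕ} {x : Fin (n + 1) → R} {G : R} (h : IsFano 𝒜 n r d x G) :
    ((MvPolynomial.aeval x : Pol (n + 1) →ₐ[ℂ] R) : Pol (n + 1) →+* R).Finite := by
  haveI := h.x_finite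
  have h1 : (algebraMap (Algebra.adjoin ℂ (Set.range x)) R).Finite :=
    RingHom.finite_algebraMap.2 h.x_finite
  have h2 : ((h.x_indep.aevalEquiv : Pol (n + 1) →ₐ[ℂ] Algebra.adjoin ℂ (Set.range x)) :
      Pol (n + 1) →+* Algebra.adjoin ℂ (Set.range x)).Finite :=
    RingHom.Finite.of_surjective _ h.x_indep.aevalEquiv.surjective
  have h3 := h1.comp h2
  convert h3 using 1
  exact RingHom.ext fun q => (h.x_indep.algebraMap_aevalEquiv q).symm

private theorem intGal_aux {R : Type} [CommRing R] [IsDomain R] [IsIntegrallyClosed R] {k : ℕ}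
    (f : Pol k →+* R) (hinj : Function.Injective f) (hfin : f.Finite) :
    ∃ (N : Type) (_ : Field N) (_ : Algebra (Rat k) N)
      (_ : FiniteDimensional (Rat k) N) (_ : IsGalois (Rat k) N) (j : R →+* N),
      Function.Injective j ∧ ∀ p : Pol k, j (f p) = toN k N p := by
  letI : Algebra (Pol k) R := f.toAlgebra
  haveI : Module.Finite (Pol k) R := hfin
  haveI : FaithfulSMul (Pol k) R := (faithfulSMul_iff_algebraMap_injective _ _).2 hinj
  haveI : Module.IsTorsionFree (Pol k) R := Module.isTorsionFree_iff_algebraMap_injective.2 hinj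
  letI : Algebra (Rat k) (FractionRing R) := FractionRing.liftAlgebra _ _
  haveI : IsScalarTower (Pol k) (Rat k) (FractionRing R) :=
    FractionRing.isScalarTower_liftAlgebra _ _
  haveI : IsIntegralClosure R (Pol k) (FractionRing R) :=
    IsIntegralClosure.of_isIntegrallyClosed _ _ _
  haveI : Algebra.IsAlgebraic (Rat k) (FractionRing R) :=
    isAlgebraic_of_isFractionRing (Pol k) R ..
  haveI : IsLocalization (Algebra.algebraMapSubmonoid R (nonZeroDivisors (Pol k)))
      (FractionRing R) := IsIntegralClosure.isLocalization _ (Rat k) _ _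
  haveI : FiniteDimensional (Rat k) (FractionRing R) :=
    .of_isLocalization (Pol k) R (nonZeroDivisors (Pol k))
  haveI : Algebra.IsAlgebraic (Rat k) (AlgebraicClosure (FractionRing R)) :=
    Algebra.IsAlgebraic.trans (Rat k) (FractionRing R) (AlgebraicClosure (FractionRing R))
  haveI : IsAlgClosure (Rat k) (AlgebraicClosure (FractionRing R)) := ⟨inferInstance, inferInstance⟩
  haveI : Normal (Rat k) (AlgebraicClosure (FractionRing R)) := IsAlgClosure.normal _ _
  haveI : CharZero (Rat k) :=
    charZero_of_injective_algebraMap (IsFractionRing.injective (Pol k) (Rat k))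
  refine ⟨IntermediateField.normalClosure (Rat k) (FractionRing R)
    (AlgebraicClosure (FractionRing R)), inferInstance, inferInstance, inferInstance, ⟨⟩,
    (algebraMap (FractionRing R) _).comp (algebraMap R (FractionRing R)), ?_, ?_⟩
  · exact (algebraMap (FractionRing R) _).injective.comp (IsFractionRing.injective R _)
  · intro p
    rw [RingHom.comp_apply]
    have h1 : algebraMap R (FractionRing R) (f p) =
        algebraMap (Rat k) (FractionRing R) (algebraMap (Pol k) (Rat k) p) := by
      rw [← IsScalarTower.algebraMap_apply (Pol k) (Rat k) (FractionRing R),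
        IsScalarTower.algebraMap_apply (Pol k) R (FractionRing R)]
      rfl
    rw [h1, ← IsScalarTower.algebraMap_apply (Rat k) (FractionRing R)]
    rfl

/-- Proof: `K = FractionRing R` is a finite extension of `Rat (n + 1) = ℂ(X)` via `X_b ↦ x_b`
(`x_indep`, `x_finite`); `N` = the normal closure of `K` in its algebraic closure
(`normalClosure`), separable in characteristic zero. -/
theorem exists_galois {R : Type} [CommRing R] [Algebra ℂ R] {𝒜 : ℕ → Submodule ℂ R}
    [GradedAlgebra 𝒜] {n r d : ℕ} {x : Fin (n + 1) → R} {G : R} (h : IsFano 𝒜 n r d x G) :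
    ∃ (N : Type) (_ : Field N) (_ : Algebra (Rat (n + 1)) N)
      (_ : FiniteDimensional (Rat (n + 1)) N) (_ : IsGalois (Rat (n + 1)) N) (j : R →+* N),
      Function.Injective j ∧
      ∀ p : Pol (n + 1), j (MvPolynomial.aeval x p) = toN (n + 1) N p := by
  haveI := h.domain
  haveI := h.normal
  exact intGal_aux ((MvPolynomial.aeval x : Pol (n + 1) →ₐ[ℂ] R) : Pol (n + 1) →+* R)
    h.x_indep (intGal_finite h)

/-- Values of a point of the fibre are specialisations. Proof: a relation `eval₂ (toN) (j ∘ z) p = 0`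
is the image under `j` (injective) of the relation `eval₂ (aeval x) z p = 0` in `R`; apply `ν`. -/
theorem specialises_of_fib {R : Type} [CommRing R] [Algebra ℂ R] {n P : ℕ}
    {x : Fin (n + 1) → R} (N : Type) [Field N] [Algebra (Rat (n + 1)) N] (j : R →+* N)
    (hj : Function.Injective j)
    (hjx : ∀ p : Pol (n + 1), j (MvPolynomial.aeval x p) = toN (n + 1) N p) (z : Fin P → R)
    (y : Fin (n + 1) → ℂ) (ν : R →ₐ[ℂ] ℂ) (hν : ν ∈ fib x y) :
    Specialises (toN (n + 1) N) (fun i => j (z i)) y (fun i => ν (z i)) := by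
  intro p hp
  have h1 : toN (n + 1) N = j.comp ((MvPolynomial.aeval x : Pol (n + 1) →ₐ[ℂ] R) :
      Pol (n + 1) →+* R) := RingHom.ext fun q => (hjx q).symm
  have h2 : j (MvPolynomial.eval₂ ((MvPolynomial.aeval x : Pol (n + 1) →ₐ[ℂ] R) :
      Pol (n + 1) →+* R) z p) = 0 := by
    rw [MvPolynomial.eval₂_comp_left, ← h1]
    exact hp
  have h3 := hj (h2.trans (map_zero j).symm)
  have h4 : (ν : R →+* ℂ).comp ((MvPolynomial.aeval x : Pol (n + 1) →ₐ[ℂ] R) :
      Pol (n + 1) →+* R) = MvPolynomial.eval y := by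
    refine RingHom.ext fun q => ?_
    have h5 : ν (MvPolynomial.aeval x q) = MvPolynomial.aeval (fun i => ν (x i)) q :=
      MvPolynomial.comp_aeval_apply (f := x) ν q
    have h6 : (fun i => ν (x i)) = y := funext hν
    rw [h6] at h5
    exact h5
  have h7 := congrArg ν h3
  rw [map_zero] at h7
  have h8 := MvPolynomial.eval₂_comp_left (ν : R →+* ℂ)
    ((MvPolynomial.aeval x : Pol (n + 1) →ₐ[ℂ] R) : Pol (n + 1) →+* R) z p
  rw [h4] at h8
  exact h8.symm.trans h7

end Pool.Agent.Lib_MP_e0d435_kv
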