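import Pool.Agent.Lib_MP_e0d435_kv.IntFib

/-! INT2: the integral from the volumes of the level sets. -/

open MeasureTheory

namespace Pool.Agent.Lib_MP_e0d435_kv

open Pool.Agent.Lib_GD Pool.Agent.Lib_KF

open scoped ENNReal in
/-- The bound of a term of the fibre sum. -/
private theorem intLev_term {R : Type} [CommRing R] [Algebra ℂ R] {n r M : ℕ}
    {x : Fin (n + 1) → R} {G : R} (hr : 1 ≤ r) (e : Fin M → R) (c : ℝ) (hc : 0 < c)
    (y : Fin (n + 1) → ℂ) (hy : ‖y‖ < 1) (ν : R →ₐ[ℂ] ℂ) (hν : ν ∈ fib x y) :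
    ENNReal.ofReal ((∏ i, ‖ν (e i)‖ ^ (-2 * c)) * ‖ν G‖ ^ (-2 / (r : ℝ))) ≤
      1 + ∑' l : ℕ, (lev x G r e c l).indicator (fun _ => (4 : ℝ≥0∞) ^ (l + 1)) y := by
  have hr0 : (0 : ℝ) < r := by exact_mod_cast hr
  by_cases he : ∃ i, ν (e i) = 0
  · obtain ⟨i, hi⟩ := he
    have h1 : ∏ i, ‖ν (e i)‖ ^ (-2 * c) = 0 := by
      refine Finset.prod_eq_zero (Finset.mem_univ i) ?_
      rw [hi, norm_zero, Real.zero_rpow (by nlinarith)]
    rw [h1, zero_mul, ENNReal.ofReal_zero]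
    exact zero_le
  push Not at he
  by_cases hG : ν G = 0
  · have h1 : ‖ν G‖ ^ (-2 / (r : ℝ)) = 0 := by
      rw [hG, norm_zero, Real.zero_rpow (div_ne_zero (by norm_num) hr0.ne')]
    rw [h1, mul_zero, ENNReal.ofReal_zero]
    exact zero_le
  set v : ℝ := fval G r e c ν with hv
  have hei : ∀ i, 0 < ‖ν (e i)‖ := fun i => norm_pos_iff.2 (he i)
  have hGp : 0 < ‖ν G‖ := norm_pos_iff.2 hG
  have hv0 : 0 < v := by
    rw [hv]
    unfold fval
    have : 0 < ∏ i, ‖ν (e i)‖ ^ c := Finset.prod_pos fun i _ => Real.rpow_pos_of_pos (hei i) _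
    positivity
  have hterm : (∏ i, ‖ν (e i)‖ ^ (-2 * c)) * ‖ν G‖ ^ (-2 / (r : ℝ)) = (v ^ 2)⁻¹ := by
    rw [hv]
    unfold fval
    rw [mul_pow, mul_inv, ← Finset.prod_pow, ← Finset.prod_inv_distrib]
    congr 1
    · refine Finset.prod_congr rfl fun i _ => ?_
      rw [← Real.rpow_natCast, ← Real.rpow_mul (hei i).le, ← Real.rpow_neg (hei i).le]
      congr 1
      push_cast
      ring
    · rw [← Real.rpow_natCast, ← Real.rpow_mul hGp.le, ← Real.rpow_neg hGp.le]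
      congr 1
      push_cast
      ring
  rw [hterm]
  by_cases hv1 : 1 < v
  · have h1 : (v ^ 2)⁻¹ ≤ 1 := inv_le_one_of_one_le₀ (one_le_pow₀ hv1.le)
    calc ENNReal.ofReal ((v ^ 2)⁻¹) ≤ ENNReal.ofReal 1 := ENNReal.ofReal_le_ofReal h1
      _ = 1 := ENNReal.ofReal_one
      _ ≤ _ := le_self_add
  · push Not at hv1
    obtain ⟨l, hl1, hl2⟩ := exists_nat_pow_near_of_lt_one hv0 hv1
      (by norm_num : (0 : ℝ) < 1 / 2) (by norm_num)
    have hmem : y ∈ lev x G r e c l := ⟨hy, ν, hν, hl1, hl2⟩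
    have h1 : (v ^ 2)⁻¹ ≤ (4 : ℝ) ^ (l + 1) := by
      have h2 : ((1 / 2 : ℝ) ^ (l + 1)) ^ 2 ≤ v ^ 2 := by
        gcongr
      have h3 : (((1 / 2 : ℝ) ^ (l + 1)) ^ 2)⁻¹ = 4 ^ (l + 1) := by
        rw [← pow_mul, mul_comm, pow_mul, ← inv_pow]
        norm_num
      rw [← h3]
      exact inv_anti₀ (by positivity) h2
    calc ENNReal.ofReal ((v ^ 2)⁻¹) ≤ ENNReal.ofReal ((4 : ℝ) ^ (l + 1)) :=
          ENNReal.ofReal_le_ofReal h1
      _ = (4 : ℝ≥0∞) ^ (l + 1) := by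
          rw [ENNReal.ofReal_pow (by norm_num)]
          norm_num
      _ = (lev x G r e c l).indicator (fun _ => (4 : ℝ≥0∞) ^ (l + 1)) y := by
          rw [Set.indicator_of_mem hmem]
      _ ≤ ∑' l : ℕ, (lev x G r e c l).indicator (fun _ => (4 : ℝ≥0∞) ^ (l + 1)) y :=
          ENNReal.le_tsum l
      _ ≤ _ := le_add_self

open scoped ENNReal in
/-- The sum of the volumes. -/
private theorem intLev_sum (V : ℝ≥0∞) (hV : V ≠ ⊤) (θ : ℝ) (hθ : 0 < θ) (l₀ : ℕ)
    (a : ℕ → ℝ≥0∞) (haV : ∀ l, a l ≤ V)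
    (ha : ∀ l, l₀ ≤ l → a l ≤ ENNReal.ofReal (((1 / 2 : ℝ) ^ l) ^ (2 * (1 + θ)))) :
    ∑' l : ℕ, (4 : ℝ≥0∞) ^ (l + 1) * a l ≠ ⊤ := by
  set q : ℝ := (4 : ℝ) ^ (-θ) with hq
  have hq0 : 0 < q := by positivity
  have hq1 : q < 1 := Real.rpow_lt_one_of_one_lt_of_neg (by norm_num) (by linarith)
  have h1 : ∀ l : ℕ, (4 : ℝ≥0∞) ^ (l + 1) * a l ≤
      (if l < l₀ then (4 : ℝ≥0∞) ^ (l + 1) * V else 0) + ENNReal.ofReal (4 * q ^ l) := by
    intro l
    by_cases hl : l < l₀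
    · rw [if_pos hl]
      exact (mul_le_mul_right (haV l) _).trans le_self_add
    · rw [if_neg hl, zero_add]
      have h2 := ha l (not_lt.1 hl)
      calc (4 : ℝ≥0∞) ^ (l + 1) * a l
          ≤ (4 : ℝ≥0∞) ^ (l + 1) * ENNReal.ofReal (((1 / 2 : ℝ) ^ l) ^ (2 * (1 + θ))) :=
            mul_le_mul_right h2 _
        _ = ENNReal.ofReal ((4 : ℝ) ^ (l + 1) * ((1 / 2 : ℝ) ^ l) ^ (2 * (1 + θ))) := by
            rw [ENNReal.ofReal_mul (by positivity), ENNReal.ofReal_pow (by norm_num)]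
            norm_num
        _ = ENNReal.ofReal (4 * q ^ l) := by
            congr 1
            have h3 : ((1 / 2 : ℝ) ^ l) ^ (2 * (1 + θ)) = ((4 : ℝ) ^ l)⁻¹ * q ^ l := by
              have h4 : (1 / 2 : ℝ) ^ l = (2 : ℝ) ^ (-(l : ℝ)) := by
                rw [Real.rpow_neg (by norm_num), Real.rpow_natCast, one_div, inv_pow]
              have h5 : ((4 : ℝ) ^ l)⁻¹ = (2 : ℝ) ^ (-(2 * (l : ℝ))) := by
                rw [Real.rpow_neg (by norm_num), Real.rpow_mul (by norm_num), Real.rpow_natCast]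
                norm_num
              have h6 : q ^ l = (2 : ℝ) ^ (-(2 * θ * l)) := by
                rw [hq, ← Real.rpow_natCast, ← Real.rpow_mul (by norm_num),
                  show (4 : ℝ) = 2 ^ (2 : ℝ) by norm_num, ← Real.rpow_mul (by norm_num)]
                congr 1
                ring
              rw [h4, h5, h6, ← Real.rpow_mul (by norm_num), ← Real.rpow_add (by norm_num)]
              congr 1
              ring
            rw [h3]
            field_simp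
            ring
  refine ne_top_of_le_ne_top ?_ (ENNReal.tsum_le_tsum h1)
  rw [ENNReal.tsum_add]
  refine ENNReal.add_ne_top.2 ⟨?_, ?_⟩
  · rw [tsum_eq_sum (s := Finset.range l₀)]
    · refine ENNReal.sum_ne_top.2 fun l _ => ?_
      split_ifs
      · exact ENNReal.mul_ne_top (ENNReal.pow_ne_top (by norm_num)) hV
      · exact ENNReal.zero_ne_top
    · intro l hl
      rw [if_neg (fun h => hl (Finset.mem_range.2 h))]
  · exact ((summable_geometric_of_lt_one hq0.le hq1).mul_left 4).tsum_ofReal_ne_top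

/-- Proof: a term of the sum over the fibre is `0` if one of the `ν (e i)`, `ν G` is `0`
(`0 ^ a = 0` for `a ≠ 0`), otherwise `fval ν ^ (-2)`; it is `≤ 1` if `fval ν > 1` and otherwise
`≤ 4 ^ (l + 1)` where `2^(-l-1) < fval ν ≤ 2^(-l)`, and then `y ∈ lev l`. So the sum over
the fibre (at most `D` points, `fib_card`) is at most
`D (1 + ∑_l 4 ^ (l + 1) 1_(lev l) (y))`, and its integral over the unit ball at most
`D (vol + ∑_l 4 ^ (l + 1) vol (lev l))`; for `l ≥ l₀` the terms are `≤ 4 · 4^(-l θ)`, for `l < l₀`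
the volume is at most that of the ball. -/
theorem intI_of_levels {R : Type} [CommRing R] [Algebra ℂ R] {𝒜 : ℕ → Submodule ℂ R}
    [GradedAlgebra 𝒜] {n r d M : ℕ} {x : Fin (n + 1) → R} {G : R} (h : IsFano 𝒜 n r d x G)
    (e : Fin M → R) (c : ℝ) (hc : 0 < c) (θ : ℝ) (hθ : 0 < θ) (l₀ : ℕ)
    (hvol : ∀ l, l₀ ≤ l → volume (lev x G r e c l) ≤
      ENNReal.ofReal (((1 / 2 : ℝ) ^ l) ^ (2 * (1 + θ)))) :
    intI x G r e c ≠ ⊤ := by
  obtain ⟨D, hD⟩ := fib_card h
  have hm : ∀ l, MeasurableSet (lev x G r e c l) := fun l => measurableSet_lev h e c hc l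
  have hpt : ∀ y ∈ Metric.ball (0 : Fin (n + 1) → ℂ) 1, ∑' ν : fib x y,
      ENNReal.ofReal ((∏ i, ‖ν.1 (e i)‖ ^ (-2 * c)) * ‖ν.1 G‖ ^ (-2 / (r : ℝ))) ≤
      (D : ENNReal) * (1 + ∑' l : ℕ,
        (lev x G r e c l).indicator (fun _ => (4 : ENNReal) ^ (l + 1)) y) := by
    intro y hy
    rw [mem_ball_zero_iff] at hy
    obtain ⟨hfin, hcard⟩ := hD y
    haveI := hfin.fintype
    rw [tsum_fintype]
    refine (Finset.sum_le_card_nsmul _ _ _ fun ν _ =>
      intLev_term h.r_pos e c hc y hy ν.1 ν.2).trans ?_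
    rw [nsmul_eq_mul]
    refine mul_le_mul_left ?_ _
    rw [Finset.card_univ, ← Nat.card_eq_fintype_card, Nat.card_coe_set_eq]
    exact_mod_cast hcard
  have hint : intI x G r e c ≤ (D : ENNReal) * (volume (Metric.ball (0 : Fin (n + 1) → ℂ) 1) +
      ∑' l : ℕ, (4 : ENNReal) ^ (l + 1) * volume (lev x G r e c l)) := by
    unfold intI
    refine (setLIntegral_mono' measurableSet_ball hpt).trans ?_
    have hmeas : Measurable fun y : Fin (n + 1) → ℂ => (1 : ENNReal) + ∑' l : ℕ,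
        (lev x G r e c l).indicator (fun _ => (4 : ENNReal) ^ (l + 1)) y :=
      measurable_const.add (Measurable.ennreal_tsum fun l => measurable_const.indicator (hm l))
    rw [lintegral_const_mul _ hmeas, lintegral_add_left measurable_const, lintegral_tsum
      fun l => (measurable_const.indicator (hm l)).aemeasurable]
    refine mul_le_mul_right (add_le_add ?_ (ENNReal.tsum_le_tsum fun l => ?_)) _
    · simp
    · rw [lintegral_indicator_const (hm l)]
      exact mul_le_mul_right (Measure.restrict_le_self _) _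
  refine ne_top_of_le_ne_top ?_ hint
  refine ENNReal.mul_ne_top (ENNReal.natCast_ne_top D) (ENNReal.add_ne_top.2 ⟨?_, ?_⟩)
  · exact measure_ball_lt_top.ne
  · refine intLev_sum _ (measure_ball_lt_top (x := (0 : Fin (n + 1) → ℂ)) (r := 1)
      (μ := volume)).ne θ hθ l₀ _ (fun l => measure_mono ?_) hvol
    intro y hy
    rw [mem_ball_zero_iff]
    exact hy.1

end Pool.Agent.Lib_MP_e0d435_kv
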