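import Pool.Agent.Lib_MP_e0d435_kv.Vlemma
import Pool.Agent.Lib_MP_e0d435_kv.ArcDiv
import Pool.Agent.Lib_MP_e0d435_kv.IntLev
import Pool.Agent.Lib_MP_e0d435_kv.IntGal
import Pool.Agent.Lib_MP_e0d435_kv.IntArith

/-! INT5: the volumes of the level sets; the integrability theorem. -/

open MeasureTheory

namespace Pool.Agent.Lib_MP_e0d435_kv

open Pool.Agent.Lib_GD Pool.Agent.Lib_KF

variable {R : Type} [CommRing R] [Algebra ℂ R] {𝒜 : ℕ → Submodule ℂ R} [GradedAlgebra 𝒜]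
  {n r d M m : ℕ} {x : Fin (n + 1) → R} {G : R}

/-- The logarithm of `fval` to a small base. -/
private theorem intMain_lg {r M : ℕ} {G : R} (e : Fin M → R) (c : ℝ)
    (ν : R →ₐ[ℂ] ℂ) (he : ∀ i, ν (e i) ≠ 0) (hG : ν G ≠ 0) {ε : ℝ} (hε : 0 < ε) (hε1 : ε < 1)
    (hle : fval G r e c ν ≤ ε) :
    1 ≤ c * ∑ i, lg ε (ν (e i)) + lg ε (ν G) / r := by
  have hei : ∀ i, 0 < ‖ν (e i)‖ := fun i => norm_pos_iff.2 (he i)
  have hGp : 0 < ‖ν G‖ := norm_pos_iff.2 hG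
  have hlε : Real.log ε < 0 := Real.log_neg hε hε1
  have hpr : 0 < ∏ i, ‖ν (e i)‖ ^ c := Finset.prod_pos fun i _ => Real.rpow_pos_of_pos (hei i) _
  have hv0 : 0 < fval G r e c ν := by
    unfold fval
    positivity
  have h1 : Real.log (fval G r e c ν) = c * ∑ i, Real.log ‖ν (e i)‖ +
      Real.log ‖ν G‖ / r := by
    unfold fval
    rw [Real.log_mul hpr.ne' (Real.rpow_pos_of_pos hGp _).ne', Real.log_prod
      (fun i _ => (Real.rpow_pos_of_pos (hei i) _).ne'), Real.log_rpow hGp, Finset.mul_sum]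
    congr 1
    · exact Finset.sum_congr rfl fun i _ => Real.log_rpow (hei i) _
    · ring
  have h2 : c * ∑ i, lg ε (ν (e i)) + lg ε (ν G) / r = Real.log (fval G r e c ν) / Real.log ε := by
    rw [h1]
    unfold lg
    rw [← Finset.sum_div]
    ring
  rw [h2, le_div_iff_of_neg hlε, one_mul]
  exact Real.log_le_log hv0 hle

/-- INT5a: a point of a level set and an arc give orders on `R`. Statement: for every `η > 0` and
every `θ ≥ 0` for all large `l`: if `vol (lev l) > (2^(-l)) ^ (2(1+θ))` then there are `Λ` and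
`φ : R → Λ.M` and `Q > 0` with `ord jac ≤ Q (1 + θ + η)`, `ord φ(x_b) ≥ - Q η`, and
`∑ c ord φ(e i) + ord φ(G) / r ≥ Q (1 - (c M + 1/r) η)`.
Proof: `exists_galois`: `N`, `j`; `z = (j (e i), j G)` (`P = M + 1`), not zero. `conj_select` for
`z` and `η`: `g₁, η₁', ε₁`. `vstat (n+1)` for the family `g₁` together with the variables `X_b`,
`c := 1 + θ`, `η'' = min η₁' (η/2)`, `q₀ = 1`: `ε₂`. For `l` with `ε = 2^(-l) < min ε₁ ε₂` and
`S = lev l` (measurable, in the unit polydisc) we get `y ∈ S` and `Λ₁`, `x'`, `q`; let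
`ν ∈ fib x y` have `2^(-l-1) < fval ν ≤ 2^(-l) = ε`; `specialises_of_fib`; `conj_select` gives `Λ`,
`ι`, `e₀`, `ψ`; `φ = ψ ∘ j` is `ℂ`-linear (`ψ (toN p) = ι (aeval x' p)` for constants `p`),
`φ (x_b) = ι (x'_b)`; `Q = q e₀`. `ord jac φ(x) = e₀ ord jac x' ≤ q e₀ (1 + θ + η)` (`jac_map`),
`ord φ(x_b) = e₀ ord x'_b ≥ e₀ (q lg ε (y_b) - q η) ≥ - Q η` as `|y_b| ≤ 1` (`y_b ≠ 0`).
`∑ c ord φ(e_i) + ord φ(G)/r ≥ Q (lg ε (fval ν)) - Q (c M + 1/r) η`, where
`∑ c lg ε (ν e_i) + lg ε (ν G)/r = log (fval ν)/log ε ≥ 1`. -/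
theorem exists_arc_of_lev (h : IsFano 𝒜 n r d x G) (hn : 1 ≤ n) (e : Fin M → R)
    (he0 : ∀ i, e i ≠ 0) (hG : G ≠ 0) (c : ℝ) (hc : 0 < c) (θ η : ℝ) (hθ : 0 ≤ θ) (hη : 0 < η) :
    ∃ l₀ : ℕ, ∀ l, l₀ ≤ l →
      ENNReal.ofReal (((1 / 2 : ℝ) ^ l) ^ (2 * (1 + θ))) ≤ volume (lev x G r e c l) →
      ∃ (Λ : LDF (n + 1)) (φ : R →ₐ[ℂ] Λ.M) (Q : ℝ), 0 < Q ∧
        Λ.jac (fun b => φ (x b)) ≠ 0 ∧
        (ordZ Λ.w (Λ.jac (fun b => φ (x b))) : ℝ) ≤ Q * (1 + θ + η) ∧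
        (∀ b, - (Q * η) ≤ (ordZ Λ.w (φ (x b)) : ℝ)) ∧
        Q * (1 - (c * M + 1 / r) * η) ≤
          c * (∑ i, (ordZ Λ.w (φ (e i)) : ℝ)) + (ordZ Λ.w (φ G) : ℝ) / r := by
  have hr0 : (0 : ℝ) < r := by exact_mod_cast h.r_pos
  obtain ⟨N, _, _, _, _, j, hj, hjx⟩ := exists_galois h
  set z : Fin (M + 1) → R := Fin.cons G e with hz
  have hz0 : ∀ i, z i ≠ 0 := by
    intro i
    refine Fin.cases ?_ (fun i => ?_) i
    · exact hG
    · exact he0 i
  have hjz0 : ∀ i, j (z i) ≠ 0 := fun i h1 => hz0 i (hj (h1.trans (map_zero j).symm))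
  obtain ⟨J, g₁, η₁', ε₁, hg₁, hη₁', hε₁, hε₁1, hsel⟩ :=
    conj_select (k := n + 1) N (fun i => j (z i)) hjz0 η hη
  set η'' : ℝ := min η₁' η with hη''
  have hη''0 : 0 < η'' := lt_min hη₁' hη
  obtain ⟨ε₂, hε₂, hε₂1, hv⟩ := vstat (n + 1) (J + (n + 1))
    (Fin.append g₁ fun b => MvPolynomial.X b) (by
      intro i
      refine Fin.addCases (fun i => ?_) (fun i => ?_) i
      · rw [Fin.append_left]
        exact hg₁ i
      · rw [Fin.append_right]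
        exact MvPolynomial.X_ne_zero i) (1 + θ) η'' 1 (by linarith) hη''0
  obtain ⟨l₀, hl₀⟩ := exists_pow_lt_of_lt_one (lt_min hε₁ hε₂) (by norm_num : (1 / 2 : ℝ) < 1)
  refine ⟨l₀, fun l hl hvol => ?_⟩
  set ε : ℝ := (1 / 2 : ℝ) ^ l with hε
  have hεlt : ε < min ε₁ ε₂ :=
    (pow_le_pow_of_le_one (by norm_num) (by norm_num) hl).trans_lt hl₀
  have hε0 : 0 < ε := by positivity
  have hε1 : ε < 1 := (hεlt.trans_le (min_le_left _ _)).trans hε₁1
  obtain ⟨y, hyS, hyg, Λ₁, x', q, -, hq0, hjac, hord, happ⟩ := hv ε hε0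
    (hεlt.trans_le (min_le_right _ _)) (lev x G r e c l) (measurableSet_lev h e c hc l)
    (fun y hy b => (norm_le_pi_norm y b).trans hy.1.le) hvol
  obtain ⟨hy1, ν, hν, -, hνl⟩ := hyS
  have hsp := specialises_of_fib N j hj hjx z y ν hν
  obtain ⟨hζ, hsel'⟩ := hsel ε hε0 (hεlt.trans_le (min_le_left _ _)) y (fun i => ν (z i))
    (fun i => by
      have := hyg (Fin.castAdd (n + 1) i)
      rwa [Fin.append_left] at this) hsp
  obtain ⟨Λ, ι, e₀, ψ, he₀, hw, hd, hψ, hψz⟩ := hsel' Λ₁ x' q hq0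
    (Λ₁.algebraicIndependent_of_jac x' hjac) (fun i => by
      have := happ (Fin.castAdd (n + 1) i)
      rw [Fin.append_left] at this
      exact this.mono hq0.le (min_le_left _ _))
  have he₀0 : (0 : ℝ) < e₀ := by exact_mod_cast he₀
  have hQ : 0 < q * e₀ := mul_pos hq0 he₀0
  set φ : R →ₐ[ℂ] Λ.M :=
    { ψ.comp j with
      commutes' := by
        intro a
        change ψ (j (algebraMap ℂ R a)) = algebraMap ℂ Λ.M a
        have h1 : algebraMap ℂ R a = MvPolynomial.aeval x (MvPolynomial.C a : Pol (n + 1)) := by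
          rw [MvPolynomial.aeval_C]
        rw [h1, hjx, hψ, MvPolynomial.aeval_C, AlgHom.commutes] } with hφ
  have hφa : ∀ f, φ f = ψ (j f) := fun f => rfl
  have hφx : ∀ b, φ (x b) = ι (x' b) := by
    intro b
    have h1 : x b = MvPolynomial.aeval x (MvPolynomial.X b : Pol (n + 1)) := by
      rw [MvPolynomial.aeval_X]
    rw [hφa]
    conv_lhs => rw [h1]
    rw [hjx, hψ, MvPolynomial.aeval_X]
  have hJ : Λ.jac (fun b => φ (x b)) = ι (Λ₁.jac x') := by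
    simp only [hφx]
    exact LDF.jac_map Λ₁ Λ ι hd x'
  have hx'0 : ∀ b, x' b ≠ 0 := (Λ₁.algebraicIndependent_of_jac x' hjac).ne_zero
  refine ⟨Λ, φ, q * e₀, hQ, ?_, ?_, ?_, ?_⟩
  · rw [hJ]
    exact (map_ne_zero ι).2 hjac
  · rw [hJ, ord_ram Λ₁ Λ ι e₀ hw _ hjac]
    push_cast
    have h1 : (e₀ : ℝ) * ordZ Λ₁.w (Λ₁.jac x') ≤ e₀ * (q * (1 + θ + η'')) :=
      mul_le_mul_of_nonneg_left hord he₀0.le
    have h2 : q * e₀ * η'' ≤ q * e₀ * η := mul_le_mul_of_nonneg_left (min_le_right _ _) hQ.le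
    calc (e₀ : ℝ) * ordZ Λ₁.w (Λ₁.jac x') ≤ e₀ * (q * (1 + θ + η'')) := h1
      _ = q * e₀ * (1 + θ) + q * e₀ * η'' := by ring
      _ ≤ q * e₀ * (1 + θ) + q * e₀ * η := by linarith
      _ = q * e₀ * (1 + θ + η) := by ring
  · intro b
    rw [hφx, ord_ram Λ₁ Λ ι e₀ hw _ (hx'0 b)]
    push_cast
    have h1 := happ (Fin.natAdd J b)
    rw [Fin.append_right, MvPolynomial.aeval_X, MvPolynomial.eval_X] at h1
    unfold Approx at h1
    rw [abs_le] at h1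
    have h2 : 0 ≤ lg ε (y b) := by
      unfold lg
      refine div_nonneg_of_nonpos ?_ (Real.log_neg hε0 hε1).le
      exact Real.log_nonpos (norm_nonneg _) ((norm_le_pi_norm y b).trans hy1.le)
    have h3 : 0 ≤ q * lg ε (y b) := mul_nonneg hq0.le h2
    have h4 : q * η'' ≤ q * η := mul_le_mul_of_nonneg_left (min_le_right _ _) hq0.le
    have h5 : -(q * η) ≤ (ordZ Λ₁.w (x' b) : ℝ) := by linarith [h1.1]
    have h6 := mul_le_mul_of_nonneg_left h5 he₀0.le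
    calc -(q * e₀ * η) = e₀ * -(q * η) := by ring
      _ ≤ e₀ * (ordZ Λ₁.w (x' b) : ℝ) := h6
  · have hei : ∀ i, ν (e i) ≠ 0 := fun i => by
      have := hζ (Fin.succ i)
      simpa [hz] using this
    have hG0 : ν G ≠ 0 := by
      have := hζ 0
      simpa [hz] using this
    have h1 := intMain_lg e c ν hei hG0 hε0 hε1 hνl
    have h2 : ∀ i, q * e₀ * lg ε (ν (e i)) - q * e₀ * η ≤ (ordZ Λ.w (φ (e i)) : ℝ) := by
      intro i
      have h3 := hψz (Fin.succ i)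
      unfold Approx at h3
      rw [abs_le] at h3
      simp only [hz, Fin.cons_succ] at h3
      rw [hφa]
      linarith [h3.1]
    have h4 : q * e₀ * lg ε (ν G) - q * e₀ * η ≤ (ordZ Λ.w (φ G) : ℝ) := by
      have h3 := hψz 0
      unfold Approx at h3
      rw [abs_le] at h3
      simp only [hz, Fin.cons_zero] at h3
      rw [hφa]
      linarith [h3.1]
    have h5 : ∑ i, (q * e₀ * lg ε (ν (e i)) - q * e₀ * η) ≤ ∑ i, (ordZ Λ.w (φ (e i)) : ℝ) :=
      Finset.sum_le_sum fun i _ => h2 i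
    rw [Finset.sum_sub_distrib, ← Finset.mul_sum, Finset.sum_const, Finset.card_univ,
      Fintype.card_fin, nsmul_eq_mul] at h5
    have h6 := mul_le_mul_of_nonneg_left h5 hc.le
    have h7 : (q * e₀ * lg ε (ν G) - q * e₀ * η) / r ≤ (ordZ Λ.w (φ G) : ℝ) / r :=
      div_le_div_of_nonneg_right h4 hr0.le
    have h8 := mul_le_mul_of_nonneg_left h1 hQ.le
    calc q * e₀ * (1 - (c * M + 1 / r) * η)
        = q * e₀ * 1 - q * e₀ * (c * M + 1 / r) * η := by ring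
      _ ≤ q * e₀ * (c * ∑ i, lg ε (ν (e i)) + lg ε (ν G) / r) -
          q * e₀ * (c * M + 1 / r) * η := by linarith
      _ = c * (q * e₀ * ∑ i, lg ε (ν (e i)) - M * (q * e₀ * η)) +
          (q * e₀ * lg ε (ν G) - q * e₀ * η) / r := by ring
      _ ≤ _ := add_le_add h6 h7

/-- The integrability theorem (step A of note 1223). Proof: `int_arith` (with `η₂`) gives `θ`, `η`;
`exists_arc_of_lev` gives `l₀`; if the bound of `intI_of_levels` fails for some `l ≥ l₀` take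
`Λ`, `φ`, `Q`; `arc_divisor` gives `w₁` and `E`, `e₀` (or the trivial case, `a = b = A = 0`); put
`W = w₁`, `a = c ∑ e₀ ord_E (e i)`, `b = e₀ ord_E G`, `A = e₀ (1 + length)`; then
`A - b / r = e₀ logDisc` and `int_arith` gives a contradiction. (`G ≠ 0`: otherwise the ring
`Localization.AtPrime p` has infinite length over itself for every prime of height one, while the
differentials of a discrete valuation ring modulo the span of the `dx_b` have finite length; to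
avoid this the hypothesis `G ≠ 0` is assumed.) -/
theorem intI_ne_top (h : IsFano 𝒜 n r d x G) (hn : 1 ≤ n) (hG : G ≠ 0) (e : Fin M → R)
    (he : ∀ i, e i ∈ 𝒜 m) (he0 : ∀ i, e i ≠ 0) (c : ℝ) (hc : 0 < c)
    (hcm : c * (M * m) < 1 / r) (κ η₂ : ℝ) (hκ : 0 < κ) (hη₂ : 0 < η₂)
    (h1 : ∀ E : DivisorOver 𝒜 n 1,
      (1 + κ) * (c * ∑ i, ((E.ord (E.φ 0 (e i))).toNat : ℝ)) ≤ logDisc E r x G)
    (h2 : ∀ E : DivisorOver 𝒜 n 1, η₂ * ((E.ord (E.φ 0 G)).toNat : ℝ) ≤ logDisc E r x G) :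
    intI x G r e c ≠ ⊤ := by
  have hr0 : (0 : ℝ) < r := by exact_mod_cast h.r_pos
  obtain ⟨θ, η, hθ, hη, harith⟩ := int_arith n r d M m h.r_pos h.d_pos c κ η₂ hc hcm hκ hη₂
  obtain ⟨l₀, hl₀⟩ := exists_arc_of_lev h hn e he0 hG c hc θ η hθ.le hη
  refine intI_of_levels h e c hc θ hθ l₀ fun l hl => ?_
  by_contra hcon
  obtain ⟨Λ, φ, Q, hQ, hJ, hK, hx, hS⟩ := hl₀ l hl (not_le.1 hcon).le
  obtain ⟨w₁, ⟨b, hb⟩, halt⟩ := arc_divisor h hn Λ φ hJ
  have hW : -(Q * η) ≤ (d : ℝ) * (w₁ : ℝ) := by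
    have h3 := hx b
    rw [hb] at h3
    push_cast at h3
    exact h3
  have hdeg : ((r * d * (n + 1) - 1 : ℕ) : ℝ) = r * d * (n + 1) - 1 := by
    have h3 : 1 ≤ r * d * (n + 1) :=
      Nat.one_le_iff_ne_zero.2 (Nat.mul_ne_zero (Nat.mul_ne_zero
        (Nat.one_le_iff_ne_zero.1 h.r_pos) (Nat.one_le_iff_ne_zero.1 h.d_pos)) (Nat.succ_ne_zero n))
    push_cast [Nat.cast_sub h3]
    ring
  rcases halt with ⟨hord, hjac⟩ | ⟨E, e₀, he₀, hord, hjac⟩
  · have h3 : (∑ i, (ordZ Λ.w (φ (e i)) : ℝ)) = M * m * w₁ := by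
      have h4 : ∀ i, (ordZ Λ.w (φ (e i)) : ℝ) = m * w₁ := fun i => by
        rw [hord m (e i) (he i) (he0 i)]
        push_cast
        ring
      rw [Finset.sum_congr rfl fun i _ => h4 i, Finset.sum_const, Finset.card_univ,
        Fintype.card_fin, nsmul_eq_mul]
      ring
    have h4 : (ordZ Λ.w (φ G) : ℝ) = (r * d * (n + 1) - 1) * w₁ := by
      rw [hord _ G h.G_mem hG, ← hdeg]
      push_cast
      ring
    rw [h3, h4] at hS
    refine harith Q w₁ 0 0 0 (ordZ Λ.w (Λ.jac (fun b => φ (x b)))) hQ le_rfl le_rfl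
      (by simp) (by simp) ?_ hK hW ?_
    · rw [add_zero]
      exact_mod_cast hjac
    · refine hS.trans (le_of_eq ?_)
      ring
  · have he₀0 : (0 : ℝ) < e₀ := by exact_mod_cast he₀
    set L : ℝ := ((Module.length E.V
      (KaehlerDifferential ℂ E.V ⧸ coordSpan E x)).toNat : ℝ) with hL
    have hld : logDisc E r x G = 1 + L - (1 / r : ℝ) * ((E.ord (E.φ 0 G)).toNat : ℝ) := by
      unfold logDisc
      rw [Fin.sum_univ_one, hL]
    have h3 : (∑ i, (ordZ Λ.w (φ (e i)) : ℝ)) =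
        M * m * w₁ + e₀ * ∑ i, ((E.ord (E.φ 0 (e i))).toNat : ℝ) := by
      have h4 : ∀ i, (ordZ Λ.w (φ (e i)) : ℝ) =
          m * w₁ + e₀ * ((E.ord (E.φ 0 (e i))).toNat : ℝ) := fun i => by
        rw [hord m (e i) (he i) (he0 i)]
        push_cast
        ring
      rw [Finset.sum_congr rfl fun i _ => h4 i, Finset.sum_add_distrib, Finset.sum_const,
        Finset.card_univ, Fintype.card_fin, nsmul_eq_mul, Finset.mul_sum]
      ring
    have h4 : (ordZ Λ.w (φ G) : ℝ) = (r * d * (n + 1) - 1) * w₁ +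
        e₀ * ((E.ord (E.φ 0 G)).toNat : ℝ) := by
      rw [hord _ G h.G_mem hG, ← hdeg]
      push_cast
      ring
    rw [h3, h4] at hS
    have hA : (e₀ : ℝ) * (1 + L) - e₀ * ((E.ord (E.φ 0 G)).toNat : ℝ) / r =
        e₀ * logDisc E r x G := by
      rw [hld]
      ring
    refine harith Q w₁ (c * (e₀ * ∑ i, ((E.ord (E.φ 0 (e i))).toNat : ℝ)))
      (e₀ * ((E.ord (E.φ 0 G)).toNat : ℝ)) (e₀ * (1 + L))
      (ordZ Λ.w (Λ.jac (fun b => φ (x b)))) hQ ?_ ?_ ?_ ?_ ?_ hK hW ?_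
    · positivity
    · positivity
    · rw [hA]
      have h5 := mul_le_mul_of_nonneg_left (h1 E) he₀0.le
      calc (1 + κ) * (c * (e₀ * ∑ i, ((E.ord (E.φ 0 (e i))).toNat : ℝ)))
          = e₀ * ((1 + κ) * (c * ∑ i, ((E.ord (E.φ 0 (e i))).toNat : ℝ))) := by ring
        _ ≤ _ := h5
    · rw [hA]
      have h5 := mul_le_mul_of_nonneg_left (h2 E) he₀0.le
      calc η₂ * (e₀ * ((E.ord (E.φ 0 G)).toNat : ℝ))
          = e₀ * (η₂ * ((E.ord (E.φ 0 G)).toNat : ℝ)) := by ring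
        _ ≤ _ := h5
    · have h5 : (((n + 1) * d * w₁ + e₀ * (1 + ((Module.length E.V
          (KaehlerDifferential ℂ E.V ⧸ coordSpan E x)).toNat : ℤ)) : ℤ) : ℝ) ≤
          ((ordZ Λ.w (Λ.jac (fun b => φ (x b))) : ℤ) : ℝ) := by exact_mod_cast hjac
      push_cast at h5
      rw [hL]
      exact h5
    · refine hS.trans (le_of_eq ?_)
      ring

end Pool.Agent.Lib_MP_e0d435_kv
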