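import Pool.Agent.Lib_KF.Defs
import Pool.Agent.Lib_MP_e0d435_kv.Basic

/-! The function field of `X` and its valuation rings inside a field of values of an arc. -/

namespace Pool.Agent.Lib_MP_e0d435_kv

variable {M : Type} [Field M] [Algebra ℂ M]

/-- The valuation ring of `w` on an intermediate field. -/
def vfun (w : AddValuation M (WithTop ℤ)) (K : IntermediateField ℂ M) : Subalgebra ℂ M where
  carrier := {f | f ∈ K ∧ 0 ≤ w f}
  mul_mem' {a b} ha hb := ⟨K.mul_mem ha.1 hb.1, by
    rw [AddValuation.map_mul]; exact add_nonneg ha.2 hb.2⟩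
  add_mem' {a b} ha hb := ⟨K.add_mem ha.1 hb.1,
    (le_min ha.2 hb.2).trans (AddValuation.map_add w a b)⟩
  algebraMap_mem' a := ⟨K.algebraMap_mem a, by
    by_cases ha : a = 0
    · rw [ha, map_zero, AddValuation.map_zero]; exact le_top
    · rw [w_algebraMap w a ha]⟩

variable {R : Type} [CommRing R] [Algebra ℂ R]

/-- The function field of `X = Proj R`: the quotients `φ s / φ s'`, `s`, `s'` homogeneous of the
same degree. -/
def funField (𝒜 : ℕ → Submodule ℂ R) [GradedAlgebra 𝒜] (φ : R →ₐ[ℂ] M)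
    (hφ : Function.Injective φ) : IntermediateField ℂ M where
  carrier := {z | ∃ m, ∃ s ∈ 𝒜 m, ∃ s' ∈ 𝒜 m, s' ≠ 0 ∧ z * φ s' = φ s}
  mul_mem' := by
    rintro a b ⟨m, s, hs, s', hs', h0, h⟩ ⟨k, t, ht, t', ht', k0, k1⟩
    refine ⟨m + k, s * t, SetLike.mul_mem_graded hs ht, s' * t', SetLike.mul_mem_graded hs' ht',
      ?_, ?_⟩
    · intro h2
      have h3 : φ s' * φ t' = 0 := by rw [← map_mul, h2, map_zero]
      rcases mul_eq_zero.1 h3 with h4 | h4
      · exact h0 (hφ (by rw [h4, map_zero]))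
      · exact k0 (hφ (by rw [h4, map_zero]))
    · rw [map_mul, map_mul, ← h, ← k1]; ring
  add_mem' := by
    rintro a b ⟨m, s, hs, s', hs', h0, h⟩ ⟨k, t, ht, t', ht', k0, k1⟩
    refine ⟨m + k, s * t' + s' * t, add_mem (SetLike.mul_mem_graded hs ht')
      (SetLike.mul_mem_graded hs' ht), s' * t', SetLike.mul_mem_graded hs' ht', ?_, ?_⟩
    · intro h2
      have h3 : φ s' * φ t' = 0 := by rw [← map_mul, h2, map_zero]
      rcases mul_eq_zero.1 h3 with h4 | h4
      · exact h0 (hφ (by rw [h4, map_zero]))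
      · exact k0 (hφ (by rw [h4, map_zero]))
    · rw [map_mul, map_add, map_mul, map_mul, ← h, ← k1]; ring
  algebraMap_mem' a := by
    refine ⟨0, algebraMap ℂ R a, SetLike.algebraMap_mem_graded 𝒜 a, 1, SetLike.one_mem_graded 𝒜,
      ?_, ?_⟩
    · intro h
      have : φ 1 = φ 0 := by rw [h]
      rw [map_one, map_zero] at this
      exact one_ne_zero this
    · rw [map_one, mul_one, AlgHom.commutes]
  inv_mem' := by
    rintro a ⟨m, s, hs, s', hs', h0, h⟩
    by_cases ha : a = 0
    · refine ⟨m, 0, Submodule.zero_mem _, s', hs', h0, ?_⟩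
      rw [ha, inv_zero, zero_mul, map_zero]
    · refine ⟨m, s', hs', s, hs, ?_, ?_⟩
      · intro h1
        rw [h1, map_zero] at h
        rcases mul_eq_zero.1 h with h4 | h4
        · exact ha h4
        · exact h0 (hφ (by rw [h4, map_zero]))
      · rw [← h, ← mul_assoc, inv_mul_cancel₀ ha, one_mul]

end Pool.Agent.Lib_MP_e0d435_kv
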