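import Pool.Agent.Lib_MP_e0d435_kv.AdDefs

/-! AD5a: the function field of `X`: transcendence degree `n`, finitely generated. -/

namespace Pool.Agent.Lib_MP_e0d435_kv

open Pool.Agent.Lib_GD Pool.Agent.Lib_KF

variable {R : Type} [CommRing R] [Algebra ℂ R] {𝒜 : ℕ → Submodule ℂ R} [GradedAlgebra 𝒜]
  {n r d : ℕ} {x : Fin (n + 1) → R} {G : R} {M : Type} [Field M] [Algebra ℂ M]

private theorem adField_denom (φ : R →ₐ[ℂ] M) (hφ : Function.Injective φ)
    (c : ℕ → funField 𝒜 φ hφ) (N : ℕ) :
    ∃ m, ∃ b ∈ 𝒜 m, b ≠ 0 ∧ ∀ i < N, ∃ a ∈ 𝒜 m, (c i : M) * φ b = φ a := by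
  induction N with
  | zero =>
    refine ⟨0, 1, SetLike.one_mem_graded 𝒜, ?_, fun i hi => absurd hi (Nat.not_lt_zero i)⟩
    intro h
    have : φ 1 = φ 0 := by rw [h]
    rw [map_one, map_zero] at this
    exact one_ne_zero this
  | succ N ih =>
    obtain ⟨m, b, hb, hb0, H⟩ := ih
    obtain ⟨k, s, hs, s', hs', h0, h⟩ := (c N).2
    refine ⟨m + k, b * s', SetLike.mul_mem_graded hb hs', ?_, ?_⟩
    · intro h2
      have h3 : φ b * φ s' = 0 := by rw [← map_mul, h2, map_zero]
      rcases mul_eq_zero.1 h3 with h4 | h4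
      · exact hb0 (hφ (by rw [h4, map_zero]))
      · exact h0 (hφ (by rw [h4, map_zero]))
    · intro i hi
      rcases Nat.lt_succ_iff_lt_or_eq.1 hi with hi | hi
      · obtain ⟨a, ha, haa⟩ := H i hi
        refine ⟨a * s', SetLike.mul_mem_graded ha hs', ?_⟩
        rw [map_mul, map_mul, ← haa]; ring
      · subst hi
        refine ⟨b * s, SetLike.mul_mem_graded hb hs, ?_⟩
        rw [map_mul, map_mul, ← h]; ring

private theorem adField_transc (h : IsFano 𝒜 n r d x G) (φ : R →ₐ[ℂ] M)
    (hφ : Function.Injective φ) : Transcendental (funField 𝒜 φ hφ) (φ (x 0)) := by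
  have := h.domain
  rintro ⟨p, hp0, hp⟩
  apply hp0
  obtain ⟨m, b, hb, hb0, H⟩ := adField_denom φ hφ (fun i => p.coeff i) (p.natDegree + 1)
  choose! a ha haa using H
  have hx0 : x 0 ≠ 0 := h.x_indep.ne_zero 0
  have h1 : φ (∑ i ∈ Finset.range (p.natDegree + 1), a i * x 0 ^ i) = 0 := by
    rw [Polynomial.aeval_eq_sum_range] at hp
    rw [map_sum]
    have h2 : φ b * (∑ i ∈ Finset.range (p.natDegree + 1), p.coeff i • φ (x 0) ^ i) = 0 := by
      rw [hp, mul_zero]
    rw [Finset.mul_sum] at h2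
    rw [← h2]
    refine Finset.sum_congr rfl fun i hi => ?_
    rw [map_mul, ← haa i (Finset.mem_range.1 hi), map_pow]
    have h3 : p.coeff i • φ (x 0) ^ i = (p.coeff i : M) * φ (x 0) ^ i := rfl
    rw [h3]; ring
  have h4 : ∑ i ∈ Finset.range (p.natDegree + 1), a i * x 0 ^ i = 0 := hφ (by rw [h1, map_zero])
  have hmem : ∀ i < p.natDegree + 1, a i * x 0 ^ i ∈ 𝒜 (m + i * d) := fun i hi =>
    SetLike.mul_mem_graded (ha i hi) (by simpa using SetLike.pow_mem_graded i (h.x_mem 0))
  ext j
  by_cases hj : j < p.natDegree + 1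
  · have h5 : a j * x 0 ^ j = 0 := by
      have h6 := congrArg (fun z => (DirectSum.decompose 𝒜 z (m + j * d) : R)) h4
      simp only [DirectSum.decompose_sum, DirectSum.decompose_zero] at h6
      rw [DFinsupp.finsetSum_apply, AddSubmonoidClass.coe_finsetSum,
        Finset.sum_eq_single j] at h6
      · rw [DirectSum.decompose_of_mem_same 𝒜 (hmem j hj)] at h6
        simpa using h6
      · intro i hi hij
        rw [DirectSum.decompose_of_mem_ne 𝒜 (hmem i (Finset.mem_range.1 hi))]
        intro h7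
        apply hij
        have h8 : i * d = j * d := by omega
        exact Nat.eq_of_mul_eq_mul_right h.d_pos h8
      · intro h9
        exact absurd (Finset.mem_range.2 hj) h9
    have h6 : a j = 0 := by
      rcases mul_eq_zero.1 h5 with h7 | h7
      · exact h7
      · exact absurd h7 (pow_ne_zero j hx0)
    have h7 := haa j hj
    rw [h6, map_zero] at h7
    rcases mul_eq_zero.1 h7 with h8 | h8
    · simpa using h8
    · exact absurd (hφ (by rw [h8, map_zero])) hb0
  · rw [Polynomial.coeff_eq_zero_of_natDegree_lt (by omega), Polynomial.coeff_zero]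

private theorem adField_mem_alg {s : Set M} {z : M} :
    z ∈ (AlgebraicIndependent.matroid ℂ M).closure s ↔
      IsAlgebraic (Algebra.adjoin ℂ s) z := by
  rw [AlgebraicIndependent.matroid_closure_eq, SetLike.mem_coe, Subalgebra.mem_algebraicClosure]

private theorem adField_map {A B : Type} [CommRing A] [Algebra ℂ A] [CommRing B] [Algebra ℂ B]
    (F : A →ₐ[ℂ] B) (hF : Function.Injective F) (S : Set A) {a : A}
    (ha : IsAlgebraic (Algebra.adjoin ℂ S) a) : IsAlgebraic (Algebra.adjoin ℂ (F '' S)) (F a) := by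
  have hmem : ∀ b : Algebra.adjoin ℂ S, F b ∈ Algebra.adjoin ℂ (F '' S) := fun b => by
    rw [← AlgHom.map_adjoin]; exact ⟨b, b.2, rfl⟩
  let f : Algebra.adjoin ℂ S →+* Algebra.adjoin ℂ (F '' S) :=
    ((F.comp (Algebra.adjoin ℂ S).val).codRestrict (Algebra.adjoin ℂ (F '' S)) hmem).toRingHom
  refine ha.ringHom_of_comp_eq f F.toRingHom ?_ ?_
  · intro b c hbc
    exact Subtype.ext (hF (congrArg Subtype.val hbc))
  · ext b
    rfl

/-- Proof: the `n` elements `φ(x_b)/φ(x_0)`, `b ≠ 0`, are algebraically independent (a relation,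
multiplied by a power of `x_0`, is a homogeneous relation between the `x_b`), and the function
field is algebraic over the field generated by them: for `s ∈ 𝒜 m` the element
`z = s^d / x_0^m` is integral over `ℂ[x_b/x_0]` (divide the homogeneous integral equation of
`s^d ∈ 𝒜 (d m)`, with coefficients forms of degree `i m` in `x`, by `x_0^(m p)`), and
`(s/s')^d = z/z'`. -/
theorem funField_trdeg (h : IsFano 𝒜 n r d x G) (φ : R →ₐ[ℂ] M) (hφ : Function.Injective φ) :
    Algebra.trdeg ℂ (funField 𝒜 φ hφ) = (n : ℕ) := by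
  have := h.domain
  set K := funField 𝒜 φ hφ with hK
  obtain ⟨s0, hs0⟩ := exists_isTranscendenceBasis ℂ K
  set t := φ (x 0) with ht
  have ht0 : t ≠ 0 := by
    intro h1
    exact h.x_indep.ne_zero 0 (hφ (by rw [← ht, h1, map_zero]))
  set s : Set M := Subtype.val '' s0 with hs
  set X : Set M := Set.range (fun b => φ (x b)) with hX
  set 𝓜 := AlgebraicIndependent.matroid ℂ M with h𝓜
  have hsI : 𝓜.Indep s := by
    rw [h𝓜, AlgebraicIndependent.matroid_indep_iff]
    have h1 : AlgebraicIndependent ℂ (K.val ∘ (Subtype.val : s0 → K)) :=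
      hs0.1.map' K.val.injective
    have h2 := h1.coe_range
    rw [Set.range_comp, Subtype.range_coe] at h2
    exact h2
  have hXI : 𝓜.Indep X := by
    rw [h𝓜, AlgebraicIndependent.matroid_indep_iff]
    exact (h.x_indep.map' (f := φ) hφ).coe_range
  have hKs : ∀ z : K, (z : M) ∈ 𝓜.closure s := by
    intro z
    rw [adField_mem_alg]
    have h1 := hs0.isAlgebraic.isAlgebraic z
    rw [Subtype.range_coe] at h1
    exact adField_map K.val K.val.injective s0 h1
  have hts : t ∉ 𝓜.closure s := by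
    rw [adField_mem_alg]
    intro h1
    have hle : Algebra.adjoin ℂ s ≤ K.toSubalgebra := by
      rw [Algebra.adjoin_le_iff]
      rintro _ ⟨z, _, rfl⟩
      exact z.2
    exact adField_transc h φ hφ (h1.ringHom_of_comp_eq (Subalgebra.inclusion hle).toRingHom
      (RingHom.id M) (Subalgebra.inclusion_injective hle) (by ext; rfl))
  have hRX : ∀ a : R, φ a ∈ 𝓜.closure X := by
    intro a
    rw [adField_mem_alg]
    have h1 := h.x_finite
    have h2 : IsAlgebraic (Algebra.adjoin ℂ (Set.range x)) a := IsAlgebraic.of_finite _ a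
    have h3 := adField_map φ hφ (Set.range x) h2
    rw [← Set.range_comp] at h3
    exact h3
  have hKX : ∀ z : K, (z : M) ∈ 𝓜.closure X := by
    rintro ⟨z, m, a, ha, a', ha', h0, h1⟩
    have h2 := hRX a
    have h3 := hRX a'
    rw [adField_mem_alg] at h2 h3 ⊢
    have h4 : φ a' ≠ 0 := fun h5 => h0 (hφ (by rw [h5, map_zero]))
    refine IsAlgebraic.of_mul (mem_nonZeroDivisors_of_ne_zero h4) h3 ?_
    rw [mul_comm]
    change IsAlgebraic _ (z * φ a')
    rw [h1]
    exact h2
  have hXs : X ⊆ 𝓜.closure (insert t s) := by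
    rintro _ ⟨b, rfl⟩
    have hy : φ (x b) / t ∈ K :=
      ⟨d, x b, h.x_mem b, x 0, h.x_mem 0, h.x_indep.ne_zero 0, div_mul_cancel₀ _ ht0⟩
    have h1 : φ (x b) / t ∈ 𝓜.closure (insert t s) :=
      𝓜.closure_subset_closure (Set.subset_insert t s) (hKs ⟨_, hy⟩)
    have h2 : t ∈ 𝓜.closure (insert t s) :=
      𝓜.mem_closure_of_mem (Set.mem_insert t s) (Set.subset_univ _)
    rw [adField_mem_alg] at h1 h2
    change φ (x b) ∈ _
    rw [adField_mem_alg, ← div_mul_cancel₀ (φ (x b)) ht0]
    exact h1.mul h2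
  have hsX : insert t s ⊆ 𝓜.closure X := by
    refine Set.insert_subset (hRX _) ?_
    rintro _ ⟨z, _, rfl⟩
    exact hKX z
  have hcl : 𝓜.closure (insert t s) = 𝓜.closure X :=
    subset_antisymm (𝓜.closure_subset_closure_of_subset_closure hsX)
      (𝓜.closure_subset_closure_of_subset_closure hXs)
  have hts' : t ∉ s := fun h1 => hts (𝓜.mem_closure_of_mem h1 (Set.subset_univ _))
  have hI : 𝓜.Indep (insert t s) :=
    (hsI.insert_indep_iff_of_notMem hts').2 ⟨Set.mem_univ _, hts⟩
  have hcard : (insert t s).encard = X.encard := by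
    rw [← hI.eRk_eq_encard, ← hXI.eRk_eq_encard, ← 𝓜.eRk_closure_eq, hcl, 𝓜.eRk_closure_eq]
  have hXc : X.encard = (n + 1 : ℕ) := by
    have h1 : Function.Injective (fun b => φ (x b)) := hφ.comp h.x_indep.injective
    rw [hX, ← Set.image_univ, h1.encard_image, Set.encard_univ]
    simp
  rw [hXc, Set.encard_insert_of_notMem hts', hs,
    Function.Injective.encard_image Subtype.val_injective] at hcard
  have hs0c : s0.encard = (n : ℕ) := by
    push_cast at hcard
    exact (ENat.add_left_injective_of_ne_top ENat.one_ne_top) hcard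
  rw [← hs0.cardinalMk_eq_trdeg]
  exact Cardinal.toENat_eq_natCast.1 hs0c

/-- Proof: `R` is a finitely generated algebra (`x_finite`), so generated by homogeneous
`g_1, …, g_p` of degrees `m_i`; with `f, g ≠ 0` of degrees `k`, `k + 1` (`h.line` for the prime
`0`) and `θ = g/f` the function field is generated by the `g_i/θ^(m_i)`: `s/θ^m`, `s ∈ 𝒜 m`, is a
polynomial in them, and `s/s' = (s/θ^m)/(s'/θ^m)`. -/
theorem funField_fg (h : IsFano 𝒜 n r d x G) (φ : R →ₐ[ℂ] M) (hφ : Function.Injective φ) :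
    Algebra.EssFiniteType ℂ (funField 𝒜 φ hφ) := by
  classical
  have := h.domain
  have hx0 : x 0 ≠ 0 := h.x_indep.ne_zero 0
  obtain ⟨k, f, hf, g, hg, hfn, hgn⟩ := h.line ⊥ Ideal.isPrime_bot
    ⟨d, h.d_pos, x 0, h.x_mem 0, by simpa using hx0⟩
  have hf0 : f ≠ 0 := by simpa using hfn
  have hg0 : g ≠ 0 := by simpa using hgn
  have hφf : φ f ≠ 0 := fun h1 => hf0 (hφ (by rw [h1, map_zero]))
  have hφg : φ g ≠ 0 := fun h1 => hg0 (hφ (by rw [h1, map_zero]))
  set u : M := φ f / φ g with hu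
  have hu0 : u ≠ 0 := div_ne_zero hφf hφg
  set ψ : R →ₐ[ℂ] M := (DirectSum.toAlgebra ℂ (fun i => 𝒜 i)
    (fun i => (u ^ i) • (φ.toLinearMap ∘ₗ (𝒜 i).subtype))
    (by simp) (by
      intro i j a b
      simp [pow_add]
      ring)).comp (DirectSum.decomposeAlgEquiv 𝒜).toAlgHom with hψ
  have hψm : ∀ m, ∀ s ∈ 𝒜 m, ψ s = u ^ m * φ s := by
    intro m s hs
    rw [hψ]
    simp [DirectSum.decompose_of_mem 𝒜 hs]
  have hψK : ∀ a, ψ a ∈ funField 𝒜 φ hφ := by
    intro a
    rw [← DirectSum.sum_support_decompose 𝒜 a, map_sum]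
    refine sum_mem fun i _ => ?_
    rw [hψm i _ (SetLike.coe_mem _)]
    refine ⟨i * k + i, f ^ i * (DirectSum.decompose 𝒜 a i : R),
      SetLike.mul_mem_graded (by simpa using SetLike.pow_mem_graded i hf) (SetLike.coe_mem _),
      g ^ i, ?_, pow_ne_zero i hg0, ?_⟩
    · have h1 := SetLike.pow_mem_graded i hg
      simpa [mul_add] using h1
    · rw [map_mul, map_pow, map_pow, hu, div_pow]
      field_simp
  have : Algebra.FiniteType ℂ R := by
    have := h.x_finite
    have : Algebra.FiniteType ℂ (Algebra.adjoin ℂ (Set.range x)) :=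
      (Subalgebra.fg_iff_finiteType _).1 ⟨(Set.finite_range x).toFinset, by simp⟩
    exact Algebra.FiniteType.trans this inferInstance
  rw [IntermediateField.essFiniteType_iff]
  obtain ⟨S, hS⟩ := (Algebra.FiniteType.out : (⊤ : Subalgebra ℂ R).FG)
  refine ⟨S.image ψ, le_antisymm ?_ ?_⟩
  · rw [IntermediateField.adjoin_le_iff]
    intro z hz
    obtain ⟨a, _, rfl⟩ := Finset.mem_image.1 (Finset.mem_coe.1 hz)
    exact hψK a
  · have hψE : ∀ a, ψ a ∈ IntermediateField.adjoin ℂ ((S.image ψ : Finset M) : Set M) := by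
      intro a
      apply IntermediateField.algebra_adjoin_le_adjoin
      rw [Finset.coe_image, ← AlgHom.map_adjoin, hS]
      exact ⟨a, trivial, rfl⟩
    rintro z ⟨m, a, ha, a', ha', h0, h1⟩
    have h2 : φ a' ≠ 0 := fun h5 => h0 (hφ (by rw [h5, map_zero]))
    have h3 : z = ψ a / ψ a' := by
      rw [hψm m a ha, hψm m a' ha', ← h1]
      have := pow_ne_zero m hu0
      field_simp
    rw [h3]
    exact div_mem (hψE a) (hψE a')

end Pool.Agent.Lib_MP_e0d435_kv
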