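import Pool.Agent.Lib_MP_e0d435_kv.Newton

/-! V09b: a near tie gives a conjugate near by. -/

namespace Pool.Agent.Lib_MP_e0d435_kv

/-- The same for a conjugate: `Q` is a constant times the minimal polynomial over `F` of `z` in
the Galois extension `N`, `ψ : N → M`. Proof: `minpoly F z` splits in `N` with roots the
`σ z`; apply `newton_near` to its image under `ψ`. -/
theorem conj_near {F N M : Type} [Field F] [Field N] [Field M] [Algebra F N]
    [FiniteDimensional F N] [IsGalois F N] (ψ : N →+* M) (w : AddValuation M (WithTop ℤ)) (z : N)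
    (hz : z ≠ 0) (Q : Polynomial F) (c : F) (hc : c ≠ 0)
    (hQ : Q = Polynomial.C c * minpoly F z) (τ δ : ℝ) (hδ : 0 ≤ δ) (j₀ j₁ : ℕ) (hj : j₀ ≠ j₁)
    (h₀ : Q.coeff j₀ ≠ 0) (h₁ : Q.coeff j₁ ≠ 0)
    (m₀ : ∀ l, Q.coeff l ≠ 0 → (ordZ w (ψ (algebraMap F N (Q.coeff j₀))) : ℝ) + j₀ * τ ≤
      ordZ w (ψ (algebraMap F N (Q.coeff l))) + l * τ + δ)
    (m₁ : ∀ l, Q.coeff l ≠ 0 → (ordZ w (ψ (algebraMap F N (Q.coeff j₁))) : ℝ) + j₁ * τ ≤
      ordZ w (ψ (algebraMap F N (Q.coeff l))) + l * τ + δ) :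
    ∃ σ : N ≃ₐ[F] N, |(ordZ w (ψ (σ z)) : ℝ) - τ| ≤ δ := by
  classical
  have hint : IsIntegral F z := Algebra.IsIntegral.isIntegral z
  have hsp : Polynomial.Splits ((minpoly F z).map (algebraMap F N)) := Normal.splits' z
  have hmon : ((minpoly F z).map (algebraMap F N)).Monic := (minpoly.monic hint).map _
  set R := ((minpoly F z).map (algebraMap F N)).roots with hR
  have hprod := hsp.eq_prod_roots_of_monic hmon
  have hmin0 : minpoly F z ≠ 0 := minpoly.ne_zero hint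
  have hroot : ∀ r ∈ R, Polynomial.aeval r (minpoly F z) = 0 := by
    intro r hr
    have h1 := (Polynomial.mem_roots'.1 hr).2
    rw [Polynomial.IsRoot.def, Polynomial.eval_map_algebraMap] at h1
    exact h1
  have hs : ∀ ζ ∈ R.map ψ, ζ ≠ 0 := by
    intro ζ hζ
    obtain ⟨r, hr, rfl⟩ := Multiset.mem_map.1 hζ
    obtain ⟨σ, hσ⟩ := minpoly.exists_algEquiv_of_root' hint.isAlgebraic (hroot r hr)
    rw [Ne, map_eq_zero_iff ψ ψ.injective, ← hσ, map_eq_zero_iff σ σ.injective]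
    exact hz
  have hP : Q.map (ψ.comp (algebraMap F N)) = Polynomial.C (ψ (algebraMap F N c)) *
      ((R.map ψ).map fun ζ => Polynomial.X - Polynomial.C ζ).prod := by
    rw [hQ, Polynomial.map_mul, Polynomial.map_C, ← Polynomial.map_map, hprod, ← hR]
    congr 1
    rw [← Polynomial.coe_mapRingHom, map_multiset_prod, Multiset.map_map, Multiset.map_map]
    congr 1
    refine Multiset.map_congr rfl fun r _ => ?_
    simp
  have hcoe : ∀ l, (Q.map (ψ.comp (algebraMap F N))).coeff l = ψ (algebraMap F N (Q.coeff l)) := by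
    intro l
    rw [Polynomial.coeff_map]
    rfl
  have hne : ∀ l, (Q.map (ψ.comp (algebraMap F N))).coeff l ≠ 0 ↔ Q.coeff l ≠ 0 := by
    intro l
    rw [hcoe, Ne, map_eq_zero_iff ψ ψ.injective,
      map_eq_zero_iff (algebraMap F N) (algebraMap F N).injective]
  obtain ⟨ζ, hζ, h⟩ := newton_near w (R.map ψ) hs (ψ (algebraMap F N c))
    (by
      rw [Ne, map_eq_zero_iff ψ ψ.injective,
        map_eq_zero_iff (algebraMap F N) (algebraMap F N).injective]
      exact hc) τ δ hδ (Q.map (ψ.comp (algebraMap F N))) hP j₀ j₁ hj ((hne _).2 h₀) ((hne _).2 h₁)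
    (fun l hl => by
      rw [hcoe, hcoe]
      exact m₀ l ((hne l).1 hl))
    (fun l hl => by
      rw [hcoe, hcoe]
      exact m₁ l ((hne l).1 hl))
  obtain ⟨r, hr, rfl⟩ := Multiset.mem_map.1 hζ
  obtain ⟨σ, hσ⟩ := minpoly.exists_algEquiv_of_root' hint.isAlgebraic (hroot r hr)
  exact ⟨σ, by rw [hσ]; exact h⟩

end Pool.Agent.Lib_MP_e0d435_kv
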