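import Pool.Agent.Lib_MP_e0d435_kv.Basic

/-! V08: a non-vanishing Jacobian implies algebraic independence; Jacobians in extensions. -/

namespace Pool.Agent.Lib_MP_e0d435_kv

/-- Chain rule. -/
private theorem jacInd_chain {k : ℕ} {M : Type} [Field M] [Algebra ℂ M] (D : Derivation ℂ M M)
    (x : Fin k → M) (p : MvPolynomial (Fin k) ℂ) :
    D (MvPolynomial.aeval x p) =
      ∑ j, D (x j) * MvPolynomial.aeval x (MvPolynomial.pderiv j p) := by
  classical
  induction p using MvPolynomial.induction_on with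
  | C a =>
    simp [MvPolynomial.aeval_C]
  | add p q hp hq =>
    simp only [map_add, hp, hq, mul_add, Finset.sum_add_distrib]
  | mul_X p i hp =>
    have h1 : ∀ j, MvPolynomial.aeval x (MvPolynomial.pderiv j (p * MvPolynomial.X i)) =
        MvPolynomial.aeval x (MvPolynomial.pderiv j p) * x i +
          MvPolynomial.aeval x p * (if j = i then 1 else 0) := by
      intro j
      rw [MvPolynomial.pderiv_mul, MvPolynomial.pderiv_X, map_add, map_mul, map_mul,
        MvPolynomial.aeval_X]
      congr 2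
      by_cases hji : j = i
      · subst hji; simp
      · rw [if_neg hji, Pi.single_apply, if_neg (fun h => hji h.symm), map_zero]
    simp only [h1, mul_add, Finset.sum_add_distrib]
    rw [map_mul, MvPolynomial.aeval_X, Derivation.leibniz, hp, smul_eq_mul, smul_eq_mul,
      Finset.mul_sum]
    have h2 : ∑ j, D (x j) * (MvPolynomial.aeval x p * if j = i then 1 else 0) =
        MvPolynomial.aeval x p * D (x i) := by
      rw [Finset.sum_eq_single i]
      · rw [if_pos rfl]; ring
      · intro j _ hj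
        rw [if_neg hj]; ring
      · intro h; exact absurd (Finset.mem_univ i) h
    rw [h2, add_comm]
    congr 1
    refine Finset.sum_congr rfl fun j _ => ?_
    ring

private theorem jacInd_deg {k n : ℕ} {p : MvPolynomial (Fin k) ℂ} (hp : p.totalDegree ≤ n + 1)
    (j : Fin k) : (MvPolynomial.pderiv j p).totalDegree ≤ n := by
  classical
  refine Finset.sup_le fun m hm => ?_
  rw [MvPolynomial.mem_support_iff, MvPolynomial.coeff_pderiv] at hm
  have h1 : m + Finsupp.single j 1 ∈ p.support := by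
    rw [MvPolynomial.mem_support_iff]
    intro h0
    apply hm
    rw [h0]; simp
  have h2 := (MvPolynomial.le_totalDegree h1).trans hp
  have h3 : ((m + Finsupp.single j 1).sum fun _ e => e) = (m.sum fun _ e => e) + 1 := by
    rw [Finsupp.sum_add_index' (fun _ => rfl) (fun _ _ _ => rfl), Finsupp.sum_single_index rfl]
  rw [h3] at h2
  omega

private theorem jacInd_const {k : ℕ} {p : MvPolynomial (Fin k) ℂ}
    (hp : ∀ j, MvPolynomial.pderiv j p = 0) : p = MvPolynomial.C (MvPolynomial.coeff 0 p) := by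
  classical
  ext m
  rw [MvPolynomial.coeff_C]
  by_cases hm : 0 = m
  · rw [if_pos hm, hm]
  · rw [if_neg hm]
    obtain ⟨j, hj⟩ : ∃ j, m j ≠ 0 := by
      by_contra hcon
      push Not at hcon
      exact hm (Finsupp.ext fun j => (hcon j).symm)
    obtain ⟨m', h1⟩ : ∃ m' : Fin k →₀ ℕ, m = m' + Finsupp.single j 1 := by
      refine ⟨m - Finsupp.single j 1, (tsub_add_cancel_of_le ?_).symm⟩
      rw [Finsupp.single_le_iff]
      omega
    have h2 := congrArg (MvPolynomial.coeff m') (hp j)
    rw [MvPolynomial.coeff_pderiv, ← h1, MvPolynomial.coeff_zero] at h2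
    rcases mul_eq_zero.1 h2 with h3 | h3
    · exact h3
    · exfalso
      have h4 : ((m' j + 1 : ℕ) : ℂ) = 0 := by
        push_cast; exact h3
      exact absurd (Nat.cast_eq_zero.1 h4) (Nat.succ_ne_zero _)

/-- Proof: let `p ≠ 0` be a polynomial of least total degree with `p (x) = 0`. Then
`0 = d_i (p (x)) = ∑_j (∂_j p)(x) d_i x_j` for all `i` (`Derivation` of an `aeval`:
`MvPolynomial.mkDerivation` / `Derivation.leibniz` induction), so `(∂_j p)(x) = 0` for all `j`
because the matrix is invertible, so `∂_j p = 0` for all `j` (smaller total degree), so `p` is a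
constant (characteristic zero), so `p = 0`. -/
theorem LDF.algebraicIndependent_of_jac {k : ℕ} (Λ : LDF k) (x : Fin k → Λ.M)
    (h : Λ.jac x ≠ 0) : AlgebraicIndependent ℂ x := by
  classical
  have key : ∀ (n : ℕ) (p : MvPolynomial (Fin k) ℂ), p.totalDegree ≤ n →
      MvPolynomial.aeval x p = 0 → p = 0 := by
    have hconst : ∀ p : MvPolynomial (Fin k) ℂ, p = MvPolynomial.C (MvPolynomial.coeff 0 p) →
        MvPolynomial.aeval x p = 0 → p = 0 := by
      intro p hp h0
      rw [hp, MvPolynomial.aeval_C] at h0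
      have h1 : MvPolynomial.coeff 0 p = 0 := by
        by_contra hne
        exact hne ((FaithfulSMul.algebraMap_injective ℂ Λ.M) (by rw [h0, map_zero]))
      rw [hp, h1, map_zero]
    intro n
    induction n with
    | zero =>
      intro p hp h0
      refine hconst p ?_ h0
      exact MvPolynomial.totalDegree_eq_zero_iff_eq_C.1 (Nat.le_zero.1 hp)
    | succ n ih =>
      intro p hp h0
      refine hconst p (jacInd_const fun j => ih _ (jacInd_deg hp j) ?_) h0
      have hmul : (Matrix.of fun i j : Fin k => Λ.d i (x j)).mulVec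
          (fun j => MvPolynomial.aeval x (MvPolynomial.pderiv j p)) = 0 := by
        funext i
        have h1 := jacInd_chain (Λ.d i) x p
        rw [h0, map_zero] at h1
        rw [Matrix.mulVec, dotProduct, Pi.zero_apply, h1]
        rfl
      have h2 := Matrix.eq_zero_of_mulVec_eq_zero h hmul
      exact congrFun h2 j
  rw [AlgebraicIndependent]
  rw [injective_iff_map_eq_zero]
  intro p hp
  exact key p.totalDegree p le_rfl hp

/-- Jacobians in an extension with compatible derivations. -/
theorem LDF.jac_map {k : ℕ} (Λ Λ' : LDF k) (ι : Λ.M →ₐ[ℂ] Λ'.M)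
    (hd : ∀ i f, Λ'.d i (ι f) = ι (Λ.d i f)) (x : Fin k → Λ.M) :
    Λ'.jac (fun i => ι (x i)) = ι (Λ.jac x) := by
  have h := AlgHom.map_det ι (Matrix.of fun i j : Fin k => Λ.d i (x j))
  rw [LDF.jac, LDF.jac, h]
  congr 1
  ext i j
  simp only [Matrix.of_apply, AlgHom.mapMatrix_apply, Matrix.map_apply, hd]

/-- The Jacobian of `(x_0, ι x')` in a Gauss extension; `x_0` has `d_0 x_0 = ι b`.
Proof: the row of the derivation `0` is `(ι b, 0, …, 0)` (`Matrix.det_succ_row_zero`). -/
theorem LDF.jac_cons {k : ℕ} (Λ : LDF k) (Λ' : LDF (k + 1)) (ι : Λ.M →ₐ[ℂ] Λ'.M)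
    (hd : ∀ i f, Λ'.d (Fin.succ i) (ι f) = ι (Λ.d i f)) (hd0 : ∀ f, Λ'.d 0 (ι f) = 0)
    (x' : Fin k → Λ.M) (x0 : Λ'.M) (b : Λ.M) (hb : Λ'.d 0 x0 = ι b) :
    Λ'.jac (Fin.cons x0 fun i => ι (x' i)) = ι (b * Λ.jac x') := by
  rw [LDF.jac, Matrix.det_succ_row_zero, Fin.sum_univ_succ]
  have h1 : ∀ j : Fin k, (Matrix.of fun i j : Fin (k + 1) =>
      Λ'.d i ((Fin.cons x0 fun i => ι (x' i) : Fin (k + 1) → Λ'.M) j)) 0 j.succ = 0 := by
    intro j
    rw [Matrix.of_apply, Fin.cons_succ, hd0]
  have h2 : (Matrix.of fun i j : Fin (k + 1) =>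
      Λ'.d i ((Fin.cons x0 fun i => ι (x' i) : Fin (k + 1) → Λ'.M) j)) 0 0 = ι b := by
    rw [Matrix.of_apply, Fin.cons_zero, hb]
  rw [h2, Finset.sum_eq_zero fun j _ => by rw [h1 j]; ring, add_zero]
  have h3 := AlgHom.map_det ι (Matrix.of fun i j : Fin k => Λ.d i (x' j))
  rw [map_mul, LDF.jac, h3, Fin.val_zero, pow_zero, one_mul]
  congr 2
  ext i j
  simp only [Matrix.submatrix_apply, Matrix.of_apply, AlgHom.mapMatrix_apply, Matrix.map_apply,
    Fin.succAbove_zero, Fin.cons_succ, hd]

end Pool.Agent.Lib_MP_e0d435_kv
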