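import Pool.Agent.Lib_MP_e0d435_kv.Basic

/-! V12a: minimal polynomials with polynomial coefficients. -/

namespace Pool.Agent.Lib_MP_e0d435_kv

/-- Proof: clear the denominators of `minpoly (Rat k) z`
(`IsLocalization.integerNormalization` or a common denominator of the coefficients). The constant
coefficient of the minimal polynomial of a non-zero element is not zero. -/
theorem exists_minpol {k : ℕ} (N : Type) [Field N] [Algebra (Rat k) N]
    [FiniteDimensional (Rat k) N] (z : N) (hz : z ≠ 0) :
    ∃ (Q : Polynomial (Pol k)) (c : Rat k), c ≠ 0 ∧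
      Q.map (algebraMap (Pol k) (Rat k)) = Polynomial.C c * minpoly (Rat k) z ∧
      Q.coeff 0 ≠ 0 ∧ Q.eval₂ (toN k N) z = 0 := by
  classical
  obtain ⟨b, hb⟩ := IsLocalization.integerNormalization_map_to_map (nonZeroDivisors (Pol k))
    (minpoly (Rat k) z)
  have hc : (algebraMap (Pol k) (Rat k)) b ≠ 0 :=
    IsLocalization.to_map_ne_zero_of_mem_nonZeroDivisors (Rat k) le_rfl b.2
  have hint : IsIntegral (Rat k) z := Algebra.IsIntegral.isIntegral z
  have hmap : (IsLocalization.integerNormalization (nonZeroDivisors (Pol k))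
      (minpoly (Rat k) z)).map (algebraMap (Pol k) (Rat k)) =
      Polynomial.C ((algebraMap (Pol k) (Rat k)) b) * minpoly (Rat k) z := by
    rw [hb]
    ext j
    rw [Polynomial.coeff_smul, Polynomial.coeff_C_mul, Algebra.smul_def]
  refine ⟨IsLocalization.integerNormalization (nonZeroDivisors (Pol k)) (minpoly (Rat k) z),
    (algebraMap (Pol k) (Rat k)) b, hc, hmap, ?_, ?_⟩
  · intro h0
    have h1 := congrArg (fun p => Polynomial.coeff p 0) hmap
    simp only [Polynomial.coeff_map, Polynomial.coeff_C_mul] at h1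
    rw [h0, map_zero] at h1
    exact (mul_ne_zero hc (minpoly.coeff_zero_ne_zero hint hz)) h1.symm
  · have h1 : (IsLocalization.integerNormalization (nonZeroDivisors (Pol k))
        (minpoly (Rat k) z)).eval₂ (toN k N) z =
        ((IsLocalization.integerNormalization (nonZeroDivisors (Pol k))
        (minpoly (Rat k) z)).map (algebraMap (Pol k) (Rat k))).eval₂ (algebraMap (Rat k) N) z := by
      rw [Polynomial.eval₂_map]
      rfl
    rw [h1, hmap, Polynomial.eval₂_mul, ← Polynomial.aeval_def (R := Rat k) z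
      (minpoly (Rat k) z), minpoly.aeval, mul_zero]

/-- Proof: the relation `Q (∏ z_i ^ (m i)) = 0` is a polynomial relation between the `z_i`. -/
theorem Specialises.minpol {k P : ℕ} {N : Type} [CommRing N] {f : Pol k →+* N} {z : Fin P → N}
    {y : Fin k → ℂ} {ζ : Fin P → ℂ} (h : Specialises f z y ζ) (m : Fin P → ℕ)
    (Q : Polynomial (Pol k)) (hQ : Q.eval₂ f (∏ i, z i ^ m i) = 0) :
    ∑ j ∈ Q.support, MvPolynomial.eval y (Q.coeff j) * (∏ i, ζ i ^ m i) ^ j = 0 := by
  classical
  have h1 := h (∑ j ∈ Q.support, MvPolynomial.C (Q.coeff j) *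
    (∏ i, (MvPolynomial.X i : MvPolynomial (Fin P) (Pol k)) ^ m i) ^ j) (by
      rw [Polynomial.eval₂_eq_sum, Polynomial.sum_def] at hQ
      rw [← hQ, MvPolynomial.eval₂_sum]
      refine Finset.sum_congr rfl fun j _ => ?_
      rw [MvPolynomial.eval₂_mul, MvPolynomial.eval₂_C, MvPolynomial.eval₂_pow,
        MvPolynomial.eval₂_prod]
      simp only [MvPolynomial.eval₂_pow, MvPolynomial.eval₂_X])
  rw [MvPolynomial.eval₂_sum] at h1
  rw [← h1]
  refine Finset.sum_congr rfl fun j _ => ?_
  rw [MvPolynomial.eval₂_mul, MvPolynomial.eval₂_C, MvPolynomial.eval₂_pow,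
    MvPolynomial.eval₂_prod]
  simp only [MvPolynomial.eval₂_pow, MvPolynomial.eval₂_X]

end Pool.Agent.Lib_MP_e0d435_kv
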