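import Pool.Agent.Lib_MP_e0d435_kv.Basic

/-! V15a: numerical lemmas for adding a variable. -/

namespace Pool.Agent.Lib_MP_e0d435_kv

/-- Proof: `|y0 - c b| ≤ |y0 - c a| + |c a - c b| ≤ 2 max`, and `|y0 - c b| ≥ |y0 - c a|`,
`|c a - c b| ≤ |y0 - c a| + |y0 - c b| ≤ 2 |y0 - c b|`. -/
theorem lg_nearest (ε : ℝ) (hε : 0 < ε) (hε1 : ε < 1) (y0 ca cb : ℂ) (h0 : y0 ≠ ca)
    (hle : ‖y0 - ca‖ ≤ ‖y0 - cb‖) (hab : ca ≠ cb) :
    |lg ε (y0 - cb) - min (lg ε (y0 - ca)) (lg ε (ca - cb))| ≤ Real.log 2 / |Real.log ε| := by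
  have hL : Real.log ε < 0 := Real.log_neg hε hε1
  have hA : 0 < ‖y0 - ca‖ := norm_pos_iff.2 (sub_ne_zero.2 h0)
  have hX : 0 < ‖y0 - cb‖ := lt_of_lt_of_le hA hle
  have hB : 0 < ‖ca - cb‖ := norm_pos_iff.2 (sub_ne_zero.2 hab)
  have h1 : ‖y0 - cb‖ ≤ ‖y0 - ca‖ + ‖ca - cb‖ := norm_sub_le_norm_sub_add_norm_sub _ _ _
  have h2 : ‖ca - cb‖ ≤ ‖y0 - ca‖ + ‖y0 - cb‖ := by
    have := norm_sub_le_norm_sub_add_norm_sub ca y0 cb
    rwa [norm_sub_rev ca y0] at this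
  have hM : min (lg ε (y0 - ca)) (lg ε (ca - cb)) =
      Real.log (max ‖y0 - ca‖ ‖ca - cb‖) / Real.log ε := by
    unfold lg
    rcases le_total ‖y0 - ca‖ ‖ca - cb‖ with h | h
    · rw [max_eq_right h, min_eq_right]
      exact div_le_div_of_nonpos_of_le hL.le (Real.log_le_log hA h)
    · rw [max_eq_left h, min_eq_left]
      exact div_le_div_of_nonpos_of_le hL.le (Real.log_le_log hB h)
  have hMp : 0 < max ‖y0 - ca‖ ‖ca - cb‖ := lt_max_of_lt_left hA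
  rw [hM]
  unfold lg
  rw [← sub_div, abs_div]
  refine div_le_div_of_nonneg_right ?_ (abs_nonneg _)
  rw [abs_le]
  have h3 : ‖y0 - cb‖ ≤ 2 * max ‖y0 - ca‖ ‖ca - cb‖ := by
    have := le_max_left ‖y0 - ca‖ ‖ca - cb‖
    have := le_max_right ‖y0 - ca‖ ‖ca - cb‖
    linarith
  have h4 : max ‖y0 - ca‖ ‖ca - cb‖ ≤ 2 * ‖y0 - cb‖ := by
    apply max_le
    · linarith
    · linarith
  have h5 := Real.log_le_log hX h3
  have h6 := Real.log_le_log hMp h4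
  rw [Real.log_mul two_ne_zero hMp.ne'] at h5
  rw [Real.log_mul two_ne_zero hX.ne'] at h6
  constructor <;> linarith

/-- `lg ε (a b) = lg ε a + lg ε b`. -/
theorem lg_mul (ε : ℝ) (a b : ℂ) (ha : a ≠ 0) (hb : b ≠ 0) : lg ε (a * b) = lg ε a + lg ε b := by
  unfold lg
  rw [norm_mul, Real.log_mul (norm_ne_zero_iff.2 ha) (norm_ne_zero_iff.2 hb), add_div]

/-- `lg ε ∏ = ∑ lg ε`. -/
theorem lg_prod_pow (ε : ℝ) {D : ℕ} (a : Fin D → ℂ) (ha : ∀ i, a i ≠ 0) (m : Fin D → ℕ) :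
    lg ε (∏ i, a i ^ m i) = ∑ i, m i * lg ε (a i) := by
  unfold lg
  rw [norm_prod, Real.log_prod (fun i _ => norm_ne_zero_iff.2 (pow_ne_zero _ (ha i))),
    Finset.sum_div]
  refine Finset.sum_congr rfl fun i _ => ?_
  rw [norm_pow, Real.log_pow, mul_div_assoc]

/-- If `ε ^ γ < |a|` then `lg ε a < γ`. -/
theorem lg_lt_of_lt (ε : ℝ) (hε : 0 < ε) (hε1 : ε < 1) (a : ℂ) (γ : ℝ) (h : ε ^ γ < ‖a‖) :
    lg ε a < γ := by
  have hL : Real.log ε < 0 := Real.log_neg hε hε1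
  unfold lg
  rw [div_lt_iff_of_neg hL, ← Real.log_rpow hε]
  exact Real.log_lt_log (Real.rpow_pos_of_pos hε γ) h

/-- Approximations of products: with `o` the order of a product of elements with
approximations. -/
theorem Approx.mul {q ε η η' : ℝ} {o o' : ℤ} {a b : ℂ} (ha : a ≠ 0) (hb : b ≠ 0)
    (h : Approx q ε η o a) (h' : Approx q ε η' o' b) : Approx q ε (η + η') (o + o') (a * b) := by
  unfold Approx at *
  rw [lg_mul ε a b ha hb]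
  push_cast
  have e : (o : ℝ) + o' - q * (lg ε a + lg ε b) = (o - q * lg ε a) + (o' - q * lg ε b) := by ring
  rw [e]
  refine (abs_add_le _ _).trans ?_
  linarith

theorem Approx.prod_pow {q ε η : ℝ} {D : ℕ} (o : Fin D → ℤ) (a : Fin D → ℂ) (ha : ∀ i, a i ≠ 0)
    (m : Fin D → ℕ) (h : ∀ i, Approx q ε η (o i) (a i)) :
    Approx q ε ((∑ i, (m i : ℝ)) * η) (∑ i, m i * o i) (∏ i, a i ^ m i) := by
  unfold Approx at *
  rw [lg_prod_pow ε a ha m]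
  push_cast
  have e : (∑ i, (m i : ℝ) * (o i : ℝ)) - q * ∑ i, (m i : ℝ) * lg ε (a i) =
      ∑ i, (m i : ℝ) * ((o i : ℝ) - q * lg ε (a i)) := by
    rw [Finset.mul_sum, ← Finset.sum_sub_distrib]
    refine Finset.sum_congr rfl fun i _ => ?_
    ring
  rw [e]
  refine (Finset.abs_sum_le_sum_abs _ _).trans ?_
  rw [Finset.sum_mul, Finset.mul_sum]
  refine Finset.sum_le_sum fun i _ => ?_
  rw [abs_mul, Nat.abs_cast]
  calc (m i : ℝ) * |(o i : ℝ) - q * lg ε (a i)| ≤ m i * (q * η) :=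
        mul_le_mul_of_nonneg_left (h i) (Nat.cast_nonneg _)
    _ = q * (m i * η) := by ring

theorem Approx.mono {q ε η η' : ℝ} (hq : 0 ≤ q) {o : ℤ} {a : ℂ} (h : Approx q ε η o a)
    (hη : η ≤ η') : Approx q ε η' o a := by
  unfold Approx at *
  exact h.trans (mul_le_mul_of_nonneg_left hη hq)

/-- Approximations in an extension with ramification `e`. -/
theorem Approx.ram {q ε η : ℝ} {o : ℤ} {a : ℂ} (h : Approx q ε η o a) (e : ℕ) :
    Approx (q * e) ε η (e * o) a := by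
  unfold Approx at *
  push_cast
  have e1 : (e : ℝ) * (o : ℝ) - q * e * lg ε a = e * (o - q * lg ε a) := by ring
  rw [e1, abs_mul, Nat.abs_cast]
  calc (e : ℝ) * |(o : ℝ) - q * lg ε a| ≤ e * (q * η) :=
        mul_le_mul_of_nonneg_left h (Nat.cast_nonneg _)
    _ = q * e * η := by ring

/-- Orders in a Gauss extension. -/
theorem ord_gauss {k : ℕ} (Λ : LDF k) (Λ' : LDF (k + 1)) (ι : Λ.M →ₐ[ℂ] Λ'.M) (u : Λ'.M)
    (hw : ∀ a b : Λ.M, Λ'.w (ι a + ι b * u) = min (Λ.w a) (Λ.w b)) (A B π : Λ.M) (hπ : π ≠ 0) :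
    (ι A + ι π * u - ι B ≠ 0) ∧
    (A ≠ B → ordZ Λ'.w (ι A + ι π * u - ι B) = min (ordZ Λ.w (A - B)) (ordZ Λ.w π)) ∧
    (A = B → ordZ Λ'.w (ι A + ι π * u - ι B) = ordZ Λ.w π) := by
  have key : ι A + ι π * u - ι B = ι (A - B) + ι π * u := by
    rw [map_sub]
    ring
  have hwk : Λ'.w (ι A + ι π * u - ι B) = min (Λ.w (A - B)) (Λ.w π) := by
    rw [key, hw]
  refine ⟨?_, ?_, ?_⟩
  · rw [← AddValuation.ne_top_iff Λ'.w, hwk, w_eq Λ.w hπ]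
    exact ((min_le_right _ _).trans_lt (WithTop.coe_lt_top _)).ne
  · intro hAB
    apply ordZ_eq_of_w
    rw [hwk, w_eq Λ.w hπ, w_eq Λ.w (sub_ne_zero.2 hAB)]
    rfl
  · intro hAB
    apply ordZ_eq_of_w
    rw [hwk, w_eq Λ.w hπ, hAB, sub_self, AddValuation.map_zero, min_eq_right le_top]

/-- Orders under a ramified embedding. -/
theorem ord_ram {k l : ℕ} (Λ : LDF k) (Λ' : LDF l) (ι : Λ.M →ₐ[ℂ] Λ'.M) (e : ℕ)
    (hw : ∀ f, Λ'.w (ι f) = e • Λ.w f) (f : Λ.M) (hf : f ≠ 0) :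
    ordZ Λ'.w (ι f) = e * ordZ Λ.w f := by
  apply ordZ_eq_of_w
  rw [hw, w_eq Λ.w hf, ← WithTop.coe_nsmul, nsmul_eq_mul]

end Pool.Agent.Lib_MP_e0d435_kv
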