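import Pool.Agent.Lib_MP_e0d435_kv.Defs

/-! V11: a vanishing sum has two large terms. -/

namespace Pool.Agent.Lib_MP_e0d435_kv

/-- Proof: `log ε < 0`, so the least `lg ε (a l) + l lg ε ζ = lg ε (a l ζ ^ l)` belongs to the
largest term; `j₀` a largest term, `j₁` a largest among the others (there are others because the
sum of a single non-zero term is not zero): `|term j₀| ≤ ∑ others ≤ s.card |term j₁|`. -/
theorem exists_tie (a : ℕ → ℂ) (ζ : ℂ) (hζ : ζ ≠ 0) (s : Finset ℕ) (hs : ∀ j ∈ s, a j ≠ 0)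
    (hne : s.Nonempty) (h : ∑ j ∈ s, a j * ζ ^ j = 0) (ε : ℝ) (hε : 0 < ε) (hε1 : ε < 1) :
    ∃ j₀ ∈ s, ∃ j₁ ∈ s, j₀ ≠ j₁ ∧
      (∀ l ∈ s, lg ε (a j₀) + j₀ * lg ε ζ ≤ lg ε (a l) + l * lg ε ζ) ∧
      (∀ l ∈ s, lg ε (a j₁) + j₁ * lg ε ζ ≤
        lg ε (a l) + l * lg ε ζ + Real.log s.card / |Real.log ε|) := by
  classical
  have hlog : Real.log ε < 0 := Real.log_neg hε hε1
  set L : ℝ := |Real.log ε| with hL
  have hL0 : 0 < L := abs_pos.2 hlog.ne
  have hLe : Real.log ε = -L := by rw [hL, abs_of_neg hlog, neg_neg]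
  set T : ℕ → ℝ := fun j => ‖a j * ζ ^ j‖ with hT
  have hTpos : ∀ j ∈ s, 0 < T j := fun j hj =>
    norm_pos_iff.2 (mul_ne_zero (hs j hj) (pow_ne_zero _ hζ))
  have hlg : ∀ j ∈ s, lg ε (a j) + j * lg ε ζ = -(Real.log (T j) / L) := by
    intro j hj
    have h1 : Real.log (T j) = Real.log ‖a j‖ + j * Real.log ‖ζ‖ := by
      simp only [hT]
      rw [norm_mul, norm_pow, Real.log_mul (norm_ne_zero_iff.2 (hs j hj))
        (pow_ne_zero _ (norm_ne_zero_iff.2 hζ)), Real.log_pow]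
    unfold lg
    rw [h1, hLe]
    field_simp
    ring
  obtain ⟨j₀, hj₀, hmax⟩ := s.exists_max_image T hne
  have hne' : (s.erase j₀).Nonempty := by
    rw [Finset.nonempty_iff_ne_empty]
    intro he
    rw [← Finset.add_sum_erase s _ hj₀, he, Finset.sum_empty, add_zero] at h
    exact mul_ne_zero (hs j₀ hj₀) (pow_ne_zero _ hζ) h
  obtain ⟨j₁, hj₁, hmax₁⟩ := (s.erase j₀).exists_max_image T hne'
  have hj₁s : j₁ ∈ s := Finset.mem_of_mem_erase hj₁
  have hcard : (1 : ℝ) ≤ s.card := by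
    exact_mod_cast hne.card_pos
  have hbig : ∀ l ∈ s, T l ≤ s.card * T j₁ := by
    have h0 : T j₀ ≤ s.card * T j₁ := by
      have h1 : a j₀ * ζ ^ j₀ = -∑ j ∈ s.erase j₀, a j * ζ ^ j := by
        rw [← Finset.add_sum_erase s _ hj₀] at h
        exact eq_neg_of_add_eq_zero_left h
      calc T j₀ = ‖∑ j ∈ s.erase j₀, a j * ζ ^ j‖ := by
            simp only [hT]
            rw [h1, norm_neg]
        _ ≤ ∑ j ∈ s.erase j₀, T j := norm_sum_le _ _
        _ ≤ ∑ _j ∈ s.erase j₀, T j₁ := Finset.sum_le_sum fun j hj => hmax₁ j hj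
        _ = (s.erase j₀).card * T j₁ := by rw [Finset.sum_const, nsmul_eq_mul]
        _ ≤ s.card * T j₁ := by
            have h2 : ((s.erase j₀).card : ℝ) ≤ s.card := by
              exact_mod_cast Finset.card_le_card (Finset.erase_subset _ _)
            exact mul_le_mul_of_nonneg_right h2 (hTpos j₁ hj₁s).le
    exact fun l hl => (hmax l hl).trans h0
  refine ⟨j₀, hj₀, j₁, hj₁s, (Finset.ne_of_mem_erase hj₁).symm, ?_, ?_⟩
  · intro l hl
    rw [hlg j₀ hj₀, hlg l hl, neg_le_neg_iff]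
    exact div_le_div_of_nonneg_right (Real.log_le_log (hTpos l hl) (hmax l hl)) hL0.le
  · intro l hl
    rw [hlg j₁ hj₁s, hlg l hl]
    have h1 : Real.log (T l) ≤ Real.log s.card + Real.log (T j₁) := by
      rw [← Real.log_mul (by linarith) (hTpos j₁ hj₁s).ne']
      exact Real.log_le_log (hTpos l hl) (hbig l hl)
    have h2 : Real.log (T l) / L ≤ (Real.log s.card + Real.log (T j₁)) / L :=
      div_le_div_of_nonneg_right h1 hL0.le
    rw [add_div] at h2
    linarith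

end Pool.Agent.Lib_MP_e0d435_kv
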