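import Mathlib

/-! V10: pigeonhole and Vandermonde. -/

namespace Pool.Agent.Lib_MP_e0d435_kv

/-- the matrix of the node values -/
private noncomputable def VandM {P T : ℕ} (s : Fin P → Fin T) : Matrix (Fin P) (Fin P) ℝ :=
  Matrix.vandermonde fun j => ((s j : ℕ) : ℝ)

private theorem Vand_solve {P T : ℕ} (s : Fin P → Fin T) (hs : Function.Injective s)
    (a : Fin P → ℝ) (δ : ℝ) (h : ∀ j, |∑ i : Fin P, ((s j : ℕ) : ℝ) ^ (i : ℕ) * a i| ≤ δ)
    (i : Fin P) : |a i| ≤ (∑ i, ∑ j, |(VandM s)⁻¹ i j|) * δ := by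
  have hinj : Function.Injective fun j => ((s j : ℕ) : ℝ) := by
    intro j j' hj
    exact hs (Fin.ext (Nat.cast_injective hj))
  have hdet : IsUnit (VandM s).det :=
    (Matrix.det_vandermonde_ne_zero_iff.2 hinj).isUnit
  have h1 : (VandM s)⁻¹.mulVec ((VandM s).mulVec a) = a := by
    rw [Matrix.mulVec_mulVec, Matrix.nonsing_inv_mul _ hdet, Matrix.one_mulVec]
  have h2 : ∀ j, |(VandM s).mulVec a j| ≤ δ := h
  have hδ : 0 ≤ δ := (abs_nonneg _).trans (h2 i)
  have h3 : |a i| ≤ ∑ j, |(VandM s)⁻¹ i j| * δ := by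
    have h4 : a i = ∑ j, (VandM s)⁻¹ i j * (VandM s).mulVec a j := by
      conv_lhs => rw [← h1]
      rfl
    rw [h4]
    refine (Finset.abs_sum_le_sum_abs _ _).trans (Finset.sum_le_sum fun j _ => ?_)
    rw [abs_mul]
    exact mul_le_mul_of_nonneg_left (h2 j) (abs_nonneg _)
  rw [← Finset.sum_mul] at h3
  refine h3.trans (mul_le_mul_of_nonneg_right ?_ hδ)
  exact Finset.single_le_sum (f := fun i => ∑ j, |(VandM s)⁻¹ i j|)
    (fun _ _ => Finset.sum_nonneg fun _ _ => abs_nonneg _) (Finset.mem_univ i)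

/-- Proof: `T = P n + 1` (or more); by the pigeonhole principle some `σ` is used for at least `P`
values of `t < T` (for `P = 0` any `σ` will do; `n ≥ 1` because `t = 0` gives an element of `G`);
the Vandermonde matrix of `P` distinct values `t` is invertible, and the entries of its inverse are
bounded by a constant, the maximum over the finitely many `P`-element subsets of `{t < T}`. -/
theorem vand_select (P n : ℕ) :
    ∃ (T : ℕ) (C : ℝ), 0 < T ∧ 0 < C ∧ ∀ {G : Type} [Fintype G], Fintype.card G = n →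
      ∀ (Δ : G → Fin P → ℝ) (δ : ℝ), 0 ≤ δ →
      (∀ t < T, ∃ σ : G, |∑ i : Fin P, (t : ℝ) ^ (i : ℕ) * Δ σ i| ≤ δ) → ∃ σ, ∀ i, |Δ σ i| ≤ C * δ := by
  classical
  have hnn : ∀ s : Fin P → Fin (n * P + 1), 0 ≤ ∑ i, ∑ j, |(VandM s)⁻¹ i j| := fun s =>
    Finset.sum_nonneg fun _ _ => Finset.sum_nonneg fun _ _ => abs_nonneg _
  refine ⟨n * P + 1, 1 + ∑ s : Fin P → Fin (n * P + 1), ∑ i, ∑ j, |(VandM s)⁻¹ i j|,
    Nat.succ_pos _, add_pos_of_pos_of_nonneg one_pos (Finset.sum_nonneg fun s _ => hnn s), ?_⟩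
  intro G _ hG Δ δ hδ H
  choose f hf using fun t : Fin (n * P + 1) => H t.1 t.2
  obtain ⟨σ, -, hσ⟩ := Finset.exists_lt_card_fiber_of_mul_lt_card_of_maps_to
    (s := (Finset.univ : Finset (Fin (n * P + 1)))) (t := (Finset.univ : Finset G)) (f := f)
    (n := P) (fun _ _ => Finset.mem_univ _) (by
      rw [Finset.card_univ, Finset.card_univ, Fintype.card_fin, hG]
      exact Nat.lt_succ_self _)
  refine ⟨σ, fun i => ?_⟩
  let s : Fin P ↪o Fin (n * P + 1) :=
    Finset.orderEmbOfCardLe (Finset.univ.filter fun t => f t = σ) hσ.le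
  have hs : ∀ j, f (s j) = σ := by
    intro j
    have h1 := Finset.orderEmbOfCardLe_mem (Finset.univ.filter fun t => f t = σ) hσ.le j
    exact (Finset.mem_filter.1 h1).2
  have h2 := Vand_solve s s.injective (Δ σ) δ (fun j => by
    have h3 := hf (s j)
    rw [hs j] at h3
    exact h3) i
  refine h2.trans (mul_le_mul_of_nonneg_right ?_ hδ)
  have h4 : ∑ i, ∑ j, |(VandM (s : Fin P → Fin (n * P + 1)))⁻¹ i j| ≤
      ∑ s : Fin P → Fin (n * P + 1), ∑ i, ∑ j, |(VandM s)⁻¹ i j| :=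
    Finset.single_le_sum (f := fun s : Fin P → Fin (n * P + 1) => ∑ i, ∑ j, |(VandM s)⁻¹ i j|)
      (fun s _ => hnn s) (Finset.mem_univ _)
  linarith

end Pool.Agent.Lib_MP_e0d435_kv
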