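import Pool.Agent.Lib_MP_e0d435_kv.Extend
import Pool.Agent.Lib_MP_e0d435_kv.JacInd
import Pool.Agent.Lib_MP_e0d435_kv.ConjNear
import Pool.Agent.Lib_MP_e0d435_kv.MinPol
import Pool.Agent.Lib_MP_e0d435_kv.StepNum
import Pool.Agent.Lib_MP_e0d435_kv.Vand
import Pool.Agent.Lib_MP_e0d435_kv.Tie

/-! V12: the choice of a conjugate. -/

namespace Pool.Agent.Lib_MP_e0d435_kv

/-- The non-zero coefficients of finitely many polynomials as a finite family. -/
private theorem conj_family {k : ℕ} (Q : ℕ → Polynomial (Pol k)) (T : ℕ) :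
    ∃ (J : ℕ) (g : Fin J → Pol k), (∀ j, g j ≠ 0) ∧
      ∀ t < T, ∀ l, (Q t).coeff l ≠ 0 → ∃ j, g j = (Q t).coeff l := by
  classical
  set S : Finset (Pol k) := (Finset.range T).biUnion fun t => (Q t).support.image (Q t).coeff
    with hS
  refine ⟨S.card, fun j => (S.equivFin.symm j : Pol k), ?_, ?_⟩
  · intro j
    have h : ∀ p ∈ S, p ≠ 0 := by
      intro p hp
      rw [hS, Finset.mem_biUnion] at hp
      obtain ⟨t, -, ht⟩ := hp
      obtain ⟨l, hl, hl2⟩ := Finset.mem_image.1 ht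
      rw [← hl2]
      exact Polynomial.mem_support_iff.1 hl
    exact h _ (S.equivFin.symm j).2
  · intro t ht l hl
    have h : (Q t).coeff l ∈ S := Finset.mem_biUnion.2 ⟨t, Finset.mem_range.2 ht,
      Finset.mem_image.2 ⟨l, Polynomial.mem_support_iff.2 hl, rfl⟩⟩
    exact ⟨S.equivFin ⟨_, h⟩, by simp⟩

private theorem conj_numbers (C η : ℝ) (hC : 0 < C) (hη : 0 < η) (M : ℕ) (hM : 1 ≤ M) :
    ∃ η' ε₀ : ℝ, 0 < η' ∧ 0 < ε₀ ∧ ε₀ < 1 ∧ ∀ ε, 0 < ε → ε < ε₀ →
      C * (2 * η' + Real.log M / |Real.log ε|) ≤ η := by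
  have hlM : 0 ≤ Real.log M := Real.log_nonneg (by exact_mod_cast hM)
  set L : ℝ := 2 * C * Real.log M / η + 1 with hL
  have hL0 : 0 < L := by positivity
  refine ⟨η / (4 * C), Real.exp (-L), by positivity, Real.exp_pos _, ?_, ?_⟩
  · rw [Real.exp_lt_one_iff]
    linarith
  · intro ε hε hε2
    have h1 : Real.log ε < -L := by
      have := Real.log_lt_log hε hε2
      rwa [Real.log_exp] at this
    have h2 : L < |Real.log ε| := by
      rw [abs_of_neg (by linarith)]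
      linarith
    have h3 : Real.log M / |Real.log ε| ≤ η / (2 * C) := by
      rw [div_le_div_iff₀ (by linarith) (by positivity)]
      have h4 : 2 * C * Real.log M ≤ η * L := by
        rw [hL]
        field_simp
        nlinarith
      have h5 : η * L ≤ η * |Real.log ε| := mul_le_mul_of_nonneg_left h2.le hη.le
      nlinarith
    have h4 : C * (2 * (η / (4 * C)) + η / (2 * C)) = η := by
      field_simp
      ring
    calc C * (2 * (η / (4 * C)) + Real.log M / |Real.log ε|)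
        ≤ C * (2 * (η / (4 * C)) + η / (2 * C)) := by gcongr
      _ = η := h4

/-- Let `N` be a finite Galois extension of the field of rational functions and `z` a finite family
of non-zero elements. If the orders of finitely many polynomials `g j` at `x` agree with the
`ε`-logarithms of their values at `y`, then `ℂ(X) → Λ.M` extends to `N` so that the orders of
the `z i` agree with the `ε`-logarithms of their values `ζ i` at `y`.

Proof. `n = card Gal`, `T, C` of V10 (we may take `T ≥ 2`); for `t < T` let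
`Z_t = ∏ z_i ^ (t ^ i)` and let `Q_t`, with coefficients in `Pol k`, be a non-zero constant times
the minimal polynomial of `Z_t` over `Rat k` (V12a, `exists_minpol`). `g` = the non-zero coefficients
of all `Q_t`, `t < T`. (`ζ i ≠ 0`: the constant coefficient `a_0` of `Q_1` is not `0`
(`Z_1 ≠ 0`), and `a_0(y) ≠ 0`, and `Q_1(y, ∏ ζ_i) = 0` since `(y, ζ)` is a specialisation.)
Let `ι`, `e`, `ψ₀` be given by V06 for `φ : Rat k → Λ.M`, `X ↦ x` (`x` algebraically independent).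
For each `t < T`: the relation `Q_t(y, ∏ ζ_i ^ (t ^ i)) = 0` and V11 give a near tie for the
numbers `lg ε (a_l (y)) + l τ_t`, `τ_t = ∑ t ^ i lg ε (ζ i)`; multiplied by `q e` and with
`|ord (ι a_l(x)) - q e lg ε (a_l(y))| ≤ q e η'` this is a near tie for the orders with
`δ = q e (2 η' + log (degree + 1) / |log ε|)`, and `conj_near` gives `σ_t` with
`|∑ t ^ i (ord (ψ₀ (σ_t z_i)) - q e lg ε (ζ i))| ≤ δ`. V10 gives one `σ`;
`ψ = ψ₀ ∘ σ`. Choose `η'` and `ε₀` such that `C (2 η' + log (…) / |log ε₀|) ≤ η`. -/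
theorem conj_select {k P : ℕ} (N : Type) [Field N] [Algebra (Rat k) N]
    [FiniteDimensional (Rat k) N] [IsGalois (Rat k) N] (z : Fin P → N) (hz : ∀ i, z i ≠ 0)
    (η : ℝ) (hη : 0 < η) :
    ∃ (J : ℕ) (g : Fin J → Pol k) (η' ε₀ : ℝ), (∀ j, g j ≠ 0) ∧ 0 < η' ∧ 0 < ε₀ ∧ ε₀ < 1 ∧
      ∀ ε, 0 < ε → ε < ε₀ → ∀ (y : Fin k → ℂ) (ζ : Fin P → ℂ),
      (∀ j, MvPolynomial.eval y (g j) ≠ 0) → Specialises (toN k N) z y ζ →
      (∀ i, ζ i ≠ 0) ∧ ∀ (Λ : LDF k) (x : Fin k → Λ.M) (q : ℝ), 0 < q →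
      AlgebraicIndependent ℂ x →
      (∀ j, Approx q ε η' (ordZ Λ.w (MvPolynomial.aeval x (g j))) (MvPolynomial.eval y (g j))) →
      ∃ (Λ' : LDF k) (ι : Λ.M →ₐ[ℂ] Λ'.M) (e : ℕ) (ψ : N →+* Λ'.M), 1 ≤ e ∧
        (∀ f, Λ'.w (ι f) = e • Λ.w f) ∧ (∀ i f, Λ'.d i (ι f) = ι (Λ.d i f)) ∧
        (∀ p : Pol k, ψ (toN k N p) = ι (MvPolynomial.aeval x p)) ∧
        ∀ i, Approx (q * e) ε η (ordZ Λ'.w (ψ (z i))) (ζ i) := by
  classical
  obtain ⟨T, C, hT, hC, hvand⟩ := vand_select P (Fintype.card (N ≃ₐ[Rat k] N))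
  have hZ : ∀ t : ℕ, (∏ i : Fin P, z i ^ (t ^ (i : ℕ))) ≠ 0 := fun t =>
    Finset.prod_ne_zero_iff.2 fun i _ => pow_ne_zero _ (hz i)
  have hmin := fun t : ℕ => exists_minpol (k := k) N (∏ i : Fin P, z i ^ (t ^ (i : ℕ))) (hZ t)
  choose Q c hc hQ hQ0 hQN using hmin
  obtain ⟨J, g, hg0, hg⟩ := conj_family Q (max T 2)
  obtain ⟨M, hM1, hM⟩ : ∃ M : ℕ, 1 ≤ M ∧ ∀ t < T, (Q t).support.card ≤ M := by
    refine ⟨(Finset.range T).sup (fun t => (Q t).support.card) + 1, by omega, fun t ht => ?_⟩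
    have := Finset.le_sup (f := fun t => (Q t).support.card) (Finset.mem_range.2 ht)
    omega
  obtain ⟨η', ε₀, hη', hε₀, hε₀1, hnum⟩ := conj_numbers C η hC hη M hM1
  refine ⟨J, g, η', ε₀, hg0, hη', hε₀, hε₀1, ?_⟩
  intro ε hε hεε y ζ hy hsp
  have hε1 : ε < 1 := hεε.trans hε₀1
  have hyQ : ∀ t < max T 2, ∀ l, (Q t).coeff l ≠ 0 → MvPolynomial.eval y ((Q t).coeff l) ≠ 0 := by
    intro t ht l hl
    obtain ⟨j, hj⟩ := hg t ht l hl
    rw [← hj]
    exact hy j
  have hrel : ∀ t : ℕ, ∑ j ∈ (Q t).support, MvPolynomial.eval y ((Q t).coeff j) *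
      (∏ i, ζ i ^ (t ^ (i : ℕ))) ^ j = 0 := fun t =>
    hsp.minpol (fun i => t ^ (i : ℕ)) (Q t) (hQN t)
  have hζ : ∀ i, ζ i ≠ 0 := by
    intro i hi
    have h1 := hrel 1
    have h2 : ∏ i, ζ i ^ (1 ^ (i : ℕ)) = 0 := by
      refine Finset.prod_eq_zero (Finset.mem_univ i) ?_
      rw [hi, one_pow, pow_one]
    rw [h2, Finset.sum_eq_single 0] at h1
    · rw [pow_zero, mul_one] at h1
      exact hyQ 1 (by omega) 0 (hQ0 1) h1
    · intro j _ hj
      rw [zero_pow hj, mul_zero]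
    · intro h3
      exact absurd (Polynomial.mem_support_iff.2 (hQ0 1)) h3
  refine ⟨hζ, ?_⟩
  intro Λ x q hq hx happ
  have hinj : Function.Injective (MvPolynomial.aeval x : Pol k →ₐ[ℂ] Λ.M) := hx
  have hinj' : Function.Injective ((MvPolynomial.aeval x : Pol k →ₐ[ℂ] Λ.M) : Pol k →+* Λ.M) := hx
  set φ : Rat k →+* Λ.M := IsFractionRing.lift hinj' with hφ
  have hφp : ∀ p : Pol k, φ (algebraMap (Pol k) (Rat k) p) = MvPolynomial.aeval x p := by
    intro p
    rw [hφ, IsFractionRing.lift_algebraMap]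
    rfl
  obtain ⟨Λ', ι, e, ψ₀, he, hw, hd, hψ⟩ := Λ.extend (N := N) φ
  have hψp : ∀ p : Pol k, ψ₀ (toN k N p) = ι (MvPolynomial.aeval x p) := by
    intro p
    rw [← hφp, ← hψ]
    rfl
  have he0 : (0 : ℝ) < e := by exact_mod_cast he
  have hqe : 0 < q * e := mul_pos hq he0
  set Δ : (N ≃ₐ[Rat k] N) → Fin P → ℝ := fun σ i =>
    (ordZ Λ'.w (ψ₀ (σ (z i))) : ℝ) - q * e * lg ε (ζ i) with hΔ
  set δ : ℝ := q * e * (2 * η' + Real.log M / |Real.log ε|) with hδ
  have hlM : 0 ≤ Real.log M / |Real.log ε| :=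
    div_nonneg (Real.log_nonneg (by exact_mod_cast hM1)) (abs_nonneg _)
  have hδ0 : 0 ≤ δ := mul_nonneg hqe.le (by linarith)
  -- the orders of the coefficients
  have hcoef : ∀ t < T, ∀ l, (Q t).coeff l ≠ 0 →
      |(ordZ Λ'.w (ψ₀ (toN k N ((Q t).coeff l))) : ℝ) -
        q * e * lg ε (MvPolynomial.eval y ((Q t).coeff l))| ≤ q * e * η' := by
    intro t ht l hl
    obtain ⟨j, hj⟩ := hg t (lt_of_lt_of_le ht (le_max_left _ _)) l hl
    have h1 := (happ j).ram e
    rw [hj] at h1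
    have h2 : MvPolynomial.aeval x ((Q t).coeff l) ≠ 0 := by
      intro h3
      exact hl (hinj (by rw [h3, map_zero]))
    rw [hψp, ord_ram Λ Λ' ι e hw _ h2]
    exact h1
  have hsel : ∀ t < T, ∃ σ : N ≃ₐ[Rat k] N, |∑ i : Fin P, (t : ℝ) ^ (i : ℕ) * Δ σ i| ≤ δ := by
    intro t ht
    set a : ℕ → ℂ := fun l => MvPolynomial.eval y ((Q t).coeff l) with ha
    set ζt : ℂ := ∏ i, ζ i ^ (t ^ (i : ℕ)) with hζt
    have hζt0 : ζt ≠ 0 := Finset.prod_ne_zero_iff.2 fun i _ => pow_ne_zero _ (hζ i)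
    have hlζ : lg ε ζt = ∑ i : Fin P, ((t : ℝ) ^ (i : ℕ)) * lg ε (ζ i) := by
      rw [hζt, lg_prod_pow ε ζ hζ (fun i => t ^ (i : ℕ))]
      push_cast
      rfl
    obtain ⟨j₀, hj₀, j₁, hj₁, hj, hm₀, hm₁⟩ := exists_tie a ζt hζt0 (Q t).support
      (fun j hj => hyQ t (lt_of_lt_of_le ht (le_max_left _ _)) j (Polynomial.mem_support_iff.1 hj))
      ⟨0, Polynomial.mem_support_iff.2 (hQ0 t)⟩ (hrel t) ε hε hε1
    set τ : ℝ := q * e * lg ε ζt with hτ
    have hQc : ∀ l, ((Q t).map (algebraMap (Pol k) (Rat k))).coeff l =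
        algebraMap (Pol k) (Rat k) ((Q t).coeff l) := fun l => Polynomial.coeff_map _ _
    have hQne : ∀ l, ((Q t).map (algebraMap (Pol k) (Rat k))).coeff l ≠ 0 ↔
        (Q t).coeff l ≠ 0 := by
      intro l
      rw [hQc, Ne, map_eq_zero_iff _ (IsFractionRing.injective (Pol k) (Rat k))]
    have hcard : Real.log ((Q t).support.card) / |Real.log ε| ≤ Real.log M / |Real.log ε| := by
      refine div_le_div_of_nonneg_right ?_ (abs_nonneg _)
      refine Real.log_le_log ?_ (by exact_mod_cast hM t ht)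
      exact_mod_cast Finset.card_pos.2 ⟨0, Polynomial.mem_support_iff.2 (hQ0 t)⟩
    have hm : ∀ j ∈ (Q t).support, ∀ r : ℝ, r ≤ Real.log M / |Real.log ε| →
        (∀ l ∈ (Q t).support, lg ε (a j) + j * lg ε ζt ≤ lg ε (a l) + l * lg ε ζt + r) →
        ∀ l, ((Q t).map (algebraMap (Pol k) (Rat k))).coeff l ≠ 0 →
        (ordZ Λ'.w (ψ₀ (algebraMap (Rat k) N
          (((Q t).map (algebraMap (Pol k) (Rat k))).coeff j))) : ℝ) + j * τ ≤
        ordZ Λ'.w (ψ₀ (algebraMap (Rat k) N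
          (((Q t).map (algebraMap (Pol k) (Rat k))).coeff l))) + l * τ + δ := by
      intro j hj r hr hall l hl
      rw [hQne] at hl
      have h1 := hcoef t ht l hl
      have h2 := hcoef t ht j (Polynomial.mem_support_iff.1 hj)
      have h3 := hall l (Polynomial.mem_support_iff.2 hl)
      have h4 : ∀ l, ψ₀ (algebraMap (Rat k) N
          (((Q t).map (algebraMap (Pol k) (Rat k))).coeff l)) = ψ₀ (toN k N ((Q t).coeff l)) := by
        intro l
        rw [hQc]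
        rfl
      rw [h4, h4]
      rw [abs_le] at h1 h2
      have h5 : q * e * (lg ε (a j) + j * lg ε ζt) ≤ q * e * (lg ε (a l) + l * lg ε ζt +
          Real.log M / |Real.log ε|) :=
        mul_le_mul_of_nonneg_left (h3.trans (by linarith)) hqe.le
      have h6 : q * e * (lg ε (a j) + j * lg ε ζt) = q * e * lg ε (a j) + j * τ := by
        rw [hτ]; ring
      have h7 : q * e * (lg ε (a l) + l * lg ε ζt + Real.log M / |Real.log ε|) =
          q * e * lg ε (a l) + l * τ + q * e * (Real.log M / |Real.log ε|) := by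
        rw [hτ]; ring
      rw [h6, h7] at h5
      have h8 : δ = 2 * (q * e * η') + q * e * (Real.log M / |Real.log ε|) := by
        rw [hδ]; ring
      rw [h8]
      simp only [ha] at h5
      linarith [h1.1, h1.2, h2.1, h2.2]
    obtain ⟨σ, hσ⟩ := conj_near ψ₀ Λ'.w (∏ i : Fin P, z i ^ (t ^ (i : ℕ))) (hZ t)
      ((Q t).map (algebraMap (Pol k) (Rat k))) (c t) (hc t) (hQ t) τ δ hδ0 j₀ j₁ hj
      ((hQne j₀).2 (Polynomial.mem_support_iff.1 hj₀))
      ((hQne j₁).2 (Polynomial.mem_support_iff.1 hj₁))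
      (hm j₀ hj₀ 0 hlM (fun l hl => by rw [add_zero]; exact hm₀ l hl))
      (hm j₁ hj₁ _ hcard hm₁)
    refine ⟨σ, ?_⟩
    have h1 : (ordZ Λ'.w (ψ₀ (σ (∏ i : Fin P, z i ^ (t ^ (i : ℕ))))) : ℝ) - τ =
        ∑ i : Fin P, (t : ℝ) ^ (i : ℕ) * Δ σ i := by
      have h2 : ∀ i : Fin P, ψ₀ (σ (z i)) ≠ 0 := fun i => by
        rw [Ne, map_eq_zero_iff ψ₀ ψ₀.injective, map_eq_zero_iff σ σ.injective]
        exact hz i
      rw [map_prod, map_prod, ordZ_prod]
      · have h3 : ∀ i : Fin P, ordZ Λ'.w (ψ₀ (σ (z i ^ (t ^ (i : ℕ))))) =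
            ((t ^ (i : ℕ) : ℕ) : ℤ) * ordZ Λ'.w (ψ₀ (σ (z i))) := by
          intro i
          rw [map_pow, map_pow, ordZ_pow _ (h2 i)]
        simp only [h3]
        rw [hτ, hlζ, Finset.mul_sum]
        push_cast
        rw [← Finset.sum_sub_distrib]
        refine Finset.sum_congr rfl fun i _ => ?_
        simp only [hΔ]
        ring
      · intro i _
        rw [map_pow, map_pow]
        exact pow_ne_zero _ (h2 i)
    rw [← h1]
    exact hσ
  obtain ⟨σ, hσ⟩ := hvand rfl Δ δ hδ0 hsel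
  refine ⟨Λ', ι, e, ψ₀.comp (σ : N →+* N), he, hw, hd, ?_, ?_⟩
  · intro p
    rw [← hψp]
    have h1 : (σ : N →+* N) (toN k N p) = toN k N p := by
      change σ (algebraMap (Rat k) N (algebraMap (Pol k) (Rat k) p)) = _
      rw [σ.commutes]
      rfl
    rw [RingHom.comp_apply, h1]
  · intro i
    have h1 := hσ i
    have h2 : C * δ ≤ q * e * η := by
      have h3 := hnum ε hε hεε
      have h4 : C * δ = q * e * (C * (2 * η' + Real.log M / |Real.log ε|)) := by
        rw [hδ]; ring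
      rw [h4]
      exact mul_le_mul_of_nonneg_left h3 hqe.le
    exact h1.trans h2

end Pool.Agent.Lib_MP_e0d435_kv
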