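import Mathlib

/-! V03: derivations extend to algebraic extensions in characteristic zero.

Proof: `M → M'` is formally etale (`Algebra.FormallyEtale.of_isSeparable` or similar), so
`Ω_{M'/ℂ} = M' ⊗ Ω_{M/ℂ}` (`KaehlerDifferential.tensorKaehlerEquivOfFormallyEtale`; see the use in
`Pool/Agent/Lib_GD/TrdegBound.lean`), or: Mathlib's extension of derivations of
`Differential` fields, or by hand on `M(θ)` for finite extensions. -/

namespace Pool.Agent.Lib_MP_e0d435_kv

theorem exists_der_ext {M M' : Type} [Field M] [Field M'] [Algebra ℂ M] [Algebra ℂ M']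
    [Algebra M M'] [IsScalarTower ℂ M M'] [Algebra.IsAlgebraic M M'] (δ : Derivation ℂ M M) :
    ∃ δ' : Derivation ℂ M' M', ∀ f, δ' (algebraMap M M' f) = algebraMap M M' (δ f) := by
  have : CharZero M := charZero_of_injective_algebraMap (algebraMap ℂ M).injective
  have : Algebra.FormallyEtale M M' := Algebra.FormallyEtale.of_isSeparable _ _
  let e := KaehlerDifferential.tensorKaehlerEquivOfFormallyEtale ℂ M M'
  let φ : TensorProduct M M' (Ω[M⁄ℂ]) →ₗ[M'] M' :=
    LinearMap.liftBaseChange M' (Algebra.linearMap M M' ∘ₗ δ.liftKaehlerDifferential)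
  refine ⟨(φ ∘ₗ e.symm.toLinearMap).compDer (KaehlerDifferential.D ℂ M'), fun f => ?_⟩
  change φ (e.symm (KaehlerDifferential.D ℂ M' (algebraMap M M' f))) = _
  rw [KaehlerDifferential.tensorKaehlerEquivOfFormallyEtale_symm_D_algebraMap]
  simp [φ]

end Pool.Agent.Lib_MP_e0d435_kv
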