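import Pool.Agent.Lib_MP_e0d435_kv.ResPol

/-! V05: the log property is inherited by finite extensions (residue characteristic zero). -/

namespace Pool.Agent.Lib_MP_e0d435_kv

section LogExtAux

variable {M' : Type} [Field M'] [Algebra ℂ M'] (w' : AddValuation M' (WithTop ℤ))
  (δ' : Derivation ℂ M' M')

private def LogExt_good (c : ℤ) (x : M') : Prop := w' x + (c : WithTop ℤ) ≤ w' (δ' x)

variable {w' δ'}

private lemma LogExt_mul {c : ℤ} {x y : M'} (hx : LogExt_good w' δ' c x)
    (hy : LogExt_good w' δ' c y) : LogExt_good w' δ' c (x * y) := by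
  unfold LogExt_good at *
  rw [Derivation.leibniz, smul_eq_mul, smul_eq_mul]
  refine AddValuation.map_le_add w' ?_ ?_
  · rw [AddValuation.map_mul, AddValuation.map_mul, add_assoc]
    exact add_le_add le_rfl hy
  · rw [AddValuation.map_mul, AddValuation.map_mul, add_comm (w' x), add_assoc]
    exact add_le_add le_rfl hx

private lemma LogExt_div {c : ℤ} {x y : M'} (hy0 : y ≠ 0) (hxy : LogExt_good w' δ' c (x * y))
    (hy : LogExt_good w' δ' c y) : LogExt_good w' δ' c x := by
  unfold LogExt_good at *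
  have h1 : δ' (x * y) = x * δ' y + y * δ' x := by
    rw [Derivation.leibniz, smul_eq_mul, smul_eq_mul]
  have h2 : y * δ' x = δ' (x * y) + -(x * δ' y) := by rw [h1]; ring
  have h3 : w' (x * y) + (c : WithTop ℤ) ≤ w' (y * δ' x) := by
    rw [h2]
    refine AddValuation.map_le_add w' hxy ?_
    rw [AddValuation.map_neg, AddValuation.map_mul, AddValuation.map_mul, add_assoc]
    exact add_le_add le_rfl hy
  rw [AddValuation.map_mul, AddValuation.map_mul, add_comm (w' x), add_assoc] at h3
  exact (WithTop.add_le_add_iff_left ((AddValuation.ne_top_iff w').2 hy0)).1 h3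

private lemma LogExt_one (c : ℤ) : LogExt_good w' δ' c 1 := by
  unfold LogExt_good
  rw [Derivation.map_one_eq_zero, AddValuation.map_zero]
  exact le_top

private lemma LogExt_pow {c : ℤ} {x : M'} (hx : LogExt_good w' δ' c x) (n : ℕ) :
    LogExt_good w' δ' c (x ^ n) := by
  induction n with
  | zero => rw [pow_zero]; exact LogExt_one c
  | succ n ih => rw [pow_succ]; exact LogExt_mul ih hx

private lemma LogExt_all {c : ℤ} {t' : M'} (ht' : w' t' = 1)
    (hu : ∀ u, w' u = 0 → LogExt_good w' δ' c u) (ht : LogExt_good w' δ' c t') (g : M') :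
    LogExt_good w' δ' c g := by
  by_cases hg : g = 0
  · unfold LogExt_good
    have h0 : δ' (0 : M') = 0 := map_zero δ'
    rw [hg, h0, AddValuation.map_zero]
    exact le_top
  have ht0 : t' ≠ 0 := by
    intro h
    rw [h, AddValuation.map_zero] at ht'
    exact absurd ht' (by decide)
  have hot : ordZ w' t' = 1 := ordZ_eq_of_w w' (by rw [ht']; rfl)
  have hn : t' ^ (-ordZ w' g).toNat ≠ 0 := pow_ne_zero _ ht0
  have hp : t' ^ (ordZ w' g).toNat ≠ 0 := pow_ne_zero _ ht0
  set u : M' := g * t' ^ (-ordZ w' g).toNat / t' ^ (ordZ w' g).toNat with hudef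
  have hu0 : u ≠ 0 := div_ne_zero (mul_ne_zero hg hn) hp
  have huo : ordZ w' u = 0 := by
    rw [hudef, ordZ_div w' (mul_ne_zero hg hn) hp, ordZ_mul w' hg hn, ordZ_pow w' ht0,
      ordZ_pow w' ht0, hot]
    omega
  have huw : w' u = 0 := by rw [w_eq w' hu0, huo]; rfl
  have h1 : g * t' ^ (-ordZ w' g).toNat = u * t' ^ (ordZ w' g).toNat := by
    rw [hudef, div_mul_cancel₀ _ hp]
  refine LogExt_div hn ?_ (LogExt_pow ht _)
  rw [h1]
  exact LogExt_mul (hu u huw) (LogExt_pow ht _)

private lemma LogExt_pos {a : WithTop ℤ} (h : 0 < a) : 1 ≤ a := by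
  induction a using WithTop.recTopCoe with
  | top => exact le_top
  | coe a =>
    have h1 : (0 : ℤ) < a := by exact_mod_cast h
    have h2 : (1 : ℤ) ≤ a := h1
    exact_mod_cast h2

end LogExtAux

section LogExtPoly

variable {M M' : Type} [Field M] [Field M'] [Algebra ℂ M] [Algebra ℂ M'] [Algebra M M']

private lemma LogExt_aeval (δ : Derivation ℂ M M) (δ' : Derivation ℂ M' M')
    (hδ' : ∀ f, δ' (algebraMap M M' f) = algebraMap M M' (δ f)) (u : M')
    (P : Polynomial M) : ∃ Q : Polynomial M, (∀ i, Q.coeff i = δ (P.coeff i)) ∧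
      δ' (Polynomial.aeval u P) = Polynomial.aeval u Q +
        Polynomial.aeval u (Polynomial.derivative P) * δ' u := by
  induction P using Polynomial.induction_on' with
  | add P1 P2 h1 h2 =>
    obtain ⟨Q1, h1, h1'⟩ := h1
    obtain ⟨Q2, h2, h2'⟩ := h2
    refine ⟨Q1 + Q2, fun i => ?_, ?_⟩
    · rw [Polynomial.coeff_add, Polynomial.coeff_add, map_add, h1, h2]
    · rw [map_add, map_add, h1', h2', Polynomial.derivative_add, map_add, map_add]
      ring
  | monomial n a =>
    refine ⟨Polynomial.monomial n (δ a), fun i => ?_, ?_⟩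
    · rw [Polynomial.coeff_monomial, Polynomial.coeff_monomial]
      split_ifs
      · rfl
      · rw [map_zero]
    · rw [Polynomial.derivative_monomial, Polynomial.aeval_monomial, Polynomial.aeval_monomial,
        Polynomial.aeval_monomial, Derivation.leibniz, Derivation.leibniz_pow, hδ', smul_eq_mul,
        smul_eq_mul, smul_eq_mul, nsmul_eq_mul, map_mul, map_natCast]
      ring

private lemma LogExt_aeval_nonneg (w : AddValuation M (WithTop ℤ))
    (w' : AddValuation M' (WithTop ℤ)) (e : ℕ)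
    (hw : ∀ f : M, w' (algebraMap M M' f) = e • w f) (u : M') (hu : w' u = 0)
    (Q : Polynomial M) (hQ : ∀ i, 0 ≤ w (Q.coeff i)) : 0 ≤ w' (Polynomial.aeval u Q) := by
  rw [Polynomial.aeval_eq_sum_range]
  refine AddValuation.map_le_sum w' fun i _ => ?_
  rw [Algebra.smul_def, AddValuation.map_mul, AddValuation.map_pow, hu, smul_zero, add_zero, hw]
  exact nsmul_nonneg (hQ i) e

end LogExtPoly

/-- V05: the log property. Proof. (1) `δ'` is bounded below on the integral closure `B` of
`A = vring w` in `M'`: `B` is a finite `A`-module (`IsIntegralClosure.finite`, `A` is a discrete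
valuation ring by V01) and `δ' (∑ a_i b_i) = ∑ δ a_i b_i + ∑ a_i δ' b_i`, `w (δ a_i) ≥ 0`. Hence
`w' (δ' f) ≥ - C` whenever `w' f ≥ 0`: `f = a / b`, `δ' f = (b δ' a - a δ' b) / b ^ 2` (`hfrac`).
(2) For `g ≠ 0` put `λ g = w' (δ' g) - w' g` (`⊤` if `δ' g = 0`), the order of `δ' g / g`; since
`g = t' ^ k u` with `w' u = 0` and `δ' g / g = k δ' t' / t' + δ' u / u`, `λ g ≥ - C - 1`. Let `m` be
the least value of `λ`; suppose `m < 0`. (3) If `w' u = 0` then `λ u > m`: take `P` of V04; then
`δ' (P u) = P^δ u + P' u δ' u`, where `P^δ` has the coefficients `δ a_i`, of order `≥ 0`; and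
`w' (δ' (P u)) ≥ w' (P u) + m ≥ 1 + m` (or `P u = 0`), so `w' (δ' u) ≥ min (0, 1 + m) > m`.
(4) `t' ^ e = u t₁` where `t₁` is the image of `t` and `w' u = 0`; so
`e δ' t' / t' = δ' u / u + δ t / t` has order `> m`, and `w' e = 0`; so `λ t' > m`. (5) By
`g = t' ^ k u` again `λ g > m` for all `g`, contradiction. So `m ≥ 0`. -/
theorem log_ext {M M' : Type} [Field M] [CharZero M] [Field M'] [Algebra ℂ M] [Algebra ℂ M']
    [Algebra M M'] [IsScalarTower ℂ M M'] [FiniteDimensional M M']
    (w : AddValuation M (WithTop ℤ)) (t : M) (ht : w t = 1)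
    (w' : AddValuation M' (WithTop ℤ)) (t' : M') (e : ℕ) (he : 1 ≤ e) (ht' : w' t' = 1)
    (hw : ∀ f : M, w' (algebraMap M M' f) = e • w f)
    (hint : ∀ f : M', IsIntegral (vring w) f → 0 ≤ w' f)
    (hfrac : ∀ f : M', 0 ≤ w' f → ∃ a b : M', IsIntegral (vring w) a ∧
      IsIntegral (vring w) b ∧ w' b = 0 ∧ f * b = a)
    (δ : Derivation ℂ M M) (hδ : ∀ f, w f ≤ w (δ f))
    (δ' : Derivation ℂ M' M') (hδ' : ∀ f, δ' (algebraMap M M' f) = algebraMap M M' (δ f)) :
    ∀ f, w' f ≤ w' (δ' f) := by
  classical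
  obtain ⟨hdvr, hfr, -, -⟩ := vring_dvr w t ht
  have ht0' : t' ≠ 0 := by
    intro h
    rw [h, AddValuation.map_zero] at ht'
    exact absurd ht' (by decide)
  -- (1) a bound on the integral closure
  have hfin : Module.Finite (vring w) (integralClosure (vring w) M') :=
    IsIntegralClosure.finite (vring w) M M' (integralClosure (vring w) M')
  obtain ⟨S, hS⟩ := hfin.fg_top
  obtain ⟨C, hC⟩ : ∃ C : ℕ, ∀ b ∈ S, ((-(C : ℤ) : ℤ) : WithTop ℤ) ≤ w' (δ' (b : M')) := by
    refine ⟨∑ b ∈ S, (-ordZ w' (δ' (b : M'))).toNat, fun b hb => ?_⟩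
    by_cases h0 : δ' (b : M') = 0
    · rw [h0, AddValuation.map_zero]
      exact le_top
    · rw [le_w_iff w' h0]
      have h1 := Finset.single_le_sum
        (f := fun b : integralClosure (vring w) M' => (-ordZ w' (δ' (b : M'))).toNat)
        (fun _ _ => Nat.zero_le _) hb
      have h2 := Int.self_le_toNat (-ordZ w' (δ' (b : M')))
      have h3 : ((-ordZ w' (δ' (b : M'))).toNat : ℤ) ≤
          ((∑ b ∈ S, (-ordZ w' (δ' (b : M'))).toNat : ℕ) : ℤ) := by exact_mod_cast h1
      omega
  have hCint : ∀ f : M', IsIntegral (vring w) f → ((-(C : ℤ) : ℤ) : WithTop ℤ) ≤ w' (δ' f) := by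
    intro f hf
    have hmem : (⟨f, hf⟩ : integralClosure (vring w) M') ∈ Submodule.span (vring w)
        (S : Set (integralClosure (vring w) M')) := by
      rw [hS]
      exact Submodule.mem_top
    have key : ∀ x ∈ Submodule.span (vring w) (S : Set (integralClosure (vring w) M')),
        ((-(C : ℤ) : ℤ) : WithTop ℤ) ≤ w' (δ' (x : M')) := by
      intro x hx
      induction hx using Submodule.span_induction with
      | mem x hx => exact hC x hx
      | zero =>
        rw [ZeroMemClass.coe_zero, map_zero, AddValuation.map_zero]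
        exact le_top
      | add x y _ _ hx hy =>
        rw [AddMemClass.coe_add, map_add]
        exact AddValuation.map_le_add w' hx hy
      | smul a x _ hx =>
        have h1 : ((a • x : integralClosure (vring w) M') : M') =
            algebraMap M M' (a : M) * (x : M') := by
          change a • (x : M') = _
          rw [Algebra.smul_def]
          rfl
        rw [h1, Derivation.leibniz, smul_eq_mul, smul_eq_mul, hδ']
        have ha : 0 ≤ w (a : M) := a.2
        have hx0 : 0 ≤ w' (x : M') := hint _ x.2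
        have hC0 : ((-(C : ℤ) : ℤ) : WithTop ℤ) ≤ 0 := by
          have : (-(C : ℤ) : ℤ) ≤ 0 := by omega
          exact_mod_cast this
        refine AddValuation.map_le_add w' ?_ ?_
        · rw [AddValuation.map_mul, hw]
          calc ((-(C : ℤ) : ℤ) : WithTop ℤ) = 0 + ((-(C : ℤ) : ℤ) : WithTop ℤ) := by rw [zero_add]
            _ ≤ e • w (a : M) + w' (δ' (x : M')) := add_le_add (nsmul_nonneg ha e) hx
        · rw [AddValuation.map_mul, hw]
          exact hC0.trans (add_nonneg hx0 (nsmul_nonneg (ha.trans (hδ _)) e))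
    exact key _ hmem
  -- (2) a bound on the valuation ring
  have hCval : ∀ f : M', 0 ≤ w' f → ((-(C : ℤ) : ℤ) : WithTop ℤ) ≤ w' (δ' f) := by
    intro f hf
    obtain ⟨a, b, ha, hb, hb0, hab⟩ := hfrac f hf
    have h1 : δ' (f * b) = f * δ' b + b * δ' f := by
      rw [Derivation.leibniz, smul_eq_mul, smul_eq_mul]
    have h2 : b * δ' f = δ' a + -(f * δ' b) := by rw [← hab, h1]; ring
    have h3 : ((-(C : ℤ) : ℤ) : WithTop ℤ) ≤ w' (b * δ' f) := by
      rw [h2]
      refine AddValuation.map_le_add w' (hCint a ha) ?_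
      rw [AddValuation.map_neg, AddValuation.map_mul]
      calc ((-(C : ℤ) : ℤ) : WithTop ℤ) = 0 + ((-(C : ℤ) : ℤ) : WithTop ℤ) := by rw [zero_add]
        _ ≤ w' f + w' (δ' b) := add_le_add hf (hCint b hb)
    rwa [AddValuation.map_mul, hb0, zero_add] at h3
  have hstart : ∀ g, LogExt_good w' δ' (-((C + 1 : ℕ) : ℤ)) g := by
    refine LogExt_all ht' ?_ ?_
    · intro u hu
      unfold LogExt_good
      rw [hu, zero_add]
      refine le_trans ?_ (hCval u hu.ge)
      have : (-((C + 1 : ℕ) : ℤ)) ≤ -(C : ℤ) := by push_cast; omega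
      exact_mod_cast this
    · unfold LogExt_good
      rw [ht']
      refine le_trans ?_ (hCval t' (by rw [ht']; decide))
      have : (1 : ℤ) + (-((C + 1 : ℕ) : ℤ)) ≤ -(C : ℤ) := by push_cast; omega
      exact_mod_cast this
  -- (3), (4), (5) the step
  have hstep : ∀ n : ℕ, (∀ g, LogExt_good w' δ' (-((n + 1 : ℕ) : ℤ)) g) →
      ∀ g, LogExt_good w' δ' (-(n : ℤ)) g := by
    intro n hn
    have hn0 : ((-(n : ℤ) : ℤ) : WithTop ℤ) ≤ 0 := by
      have : (-(n : ℤ) : ℤ) ≤ 0 := by omega
      exact_mod_cast this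
    have hunit : ∀ u, w' u = 0 → LogExt_good w' δ' (-(n : ℤ)) u := by
      intro u hu
      obtain ⟨P, hP, hP1, hP2⟩ := exists_residue_polynomial w w' e he hw u hu
      obtain ⟨Q, hQ, hQ1⟩ := LogExt_aeval δ δ' hδ' u P
      have h1 : Polynomial.aeval u (Polynomial.derivative P) * δ' u =
          δ' (Polynomial.aeval u P) + -Polynomial.aeval u Q := by rw [hQ1]; ring
      have h2 : 0 ≤ w' (Polynomial.aeval u Q) :=
        LogExt_aeval_nonneg w w' e hw u hu Q fun i => by
          rw [hQ]
          exact (hP i).trans (hδ _)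
      have h3 : ((-(n : ℤ) : ℤ) : WithTop ℤ) ≤
          w' (Polynomial.aeval u (Polynomial.derivative P) * δ' u) := by
        rw [h1]
        refine AddValuation.map_le_add w' ?_ ?_
        · refine le_trans ?_ (hn (Polynomial.aeval u P))
          refine le_trans ?_ (add_le_add (LogExt_pos hP1) le_rfl)
          have : (-(n : ℤ)) ≤ 1 + (-((n + 1 : ℕ) : ℤ)) := by push_cast; omega
          exact_mod_cast this
        · rw [AddValuation.map_neg]
          exact hn0.trans h2
      rw [AddValuation.map_mul, hP2, zero_add] at h3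
      unfold LogExt_good
      rw [hu, zero_add]
      exact h3
    have htt : LogExt_good w' δ' (-(n : ℤ)) t' := by
      have ht0 : t ≠ 0 := by
        intro h
        rw [h, AddValuation.map_zero] at ht
        exact absurd ht (by decide)
      have ht1 : algebraMap M M' t ≠ 0 := by rwa [Ne, _root_.map_eq_zero]
      have hot : ordZ w' t' = 1 := ordZ_eq_of_w w' (by rw [ht']; rfl)
      have hwt1 : w' (algebraMap M M' t) = ((e : ℤ) : WithTop ℤ) := by
        rw [hw, ht]
        have : (1 : WithTop ℤ) = ((1 : ℤ) : WithTop ℤ) := rfl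
        rw [this, ← WithTop.coe_nsmul, nsmul_eq_mul, mul_one]
      have hot1 : ordZ w' (algebraMap M M' t) = e := ordZ_eq_of_w w' hwt1
      set u : M' := t' ^ e / algebraMap M M' t with hudef
      have hu0 : u ≠ 0 := div_ne_zero (pow_ne_zero _ ht0') ht1
      have huw : w' u = 0 := by
        rw [w_eq w' hu0, hudef, ordZ_div w' (pow_ne_zero _ ht0') ht1, ordZ_pow w' ht0', hot, hot1,
          mul_one, sub_self]
        rfl
      have h1 : t' ^ e = u * algebraMap M M' t := by rw [hudef, div_mul_cancel₀ _ ht1]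
      have h2 : LogExt_good w' δ' (-(n : ℤ)) (algebraMap M M' t) := by
        unfold LogExt_good
        rw [hδ', hw, hw]
        calc e • w t + ((-(n : ℤ) : ℤ) : WithTop ℤ) ≤ e • w t + 0 := add_le_add le_rfl hn0
          _ = e • w t := add_zero _
          _ ≤ e • w (δ t) := nsmul_le_nsmul_right (hδ t) e
      have h3 : LogExt_good w' δ' (-(n : ℤ)) (t' ^ e) := by
        rw [h1]
        exact LogExt_mul (hunit u huw) h2
      unfold LogExt_good at h3 ⊢
      have he0 : ((e : ℕ) : M') = algebraMap ℂ M' (e : ℂ) := (map_natCast _ _).symm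
      have hwe : w' ((e : ℕ) : M') = 0 := by
        rw [he0]
        exact w_algebraMap w' _ (Nat.cast_ne_zero.2 (by omega))
      rw [Derivation.leibniz_pow, nsmul_eq_mul, smul_eq_mul, AddValuation.map_mul, hwe, zero_add,
        AddValuation.map_mul] at h3
      have hpw : ∀ k : ℕ, w' (t' ^ k) = ((k : ℤ) : WithTop ℤ) := by
        intro k
        rw [w_eq w' (pow_ne_zero _ ht0'), ordZ_pow w' ht0', hot, mul_one]
      rw [hpw, hpw] at h3
      have h4 : (((e - 1 : ℕ) : ℤ) : WithTop ℤ) + (w' t' + ((-(n : ℤ) : ℤ) : WithTop ℤ)) =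
          ((e : ℤ) : WithTop ℤ) + ((-(n : ℤ) : ℤ) : WithTop ℤ) := by
        rw [ht', ← add_assoc]
        congr 1
        have : ((e - 1 : ℕ) : ℤ) + 1 = (e : ℤ) := by omega
        exact_mod_cast this
      rw [← h4] at h3
      exact (WithTop.add_le_add_iff_left WithTop.coe_ne_top).1 h3
    exact LogExt_all ht' hunit htt
  have hall : ∀ n : ℕ, (∀ g, LogExt_good w' δ' (-(n : ℤ)) g) →
      ∀ g, LogExt_good w' δ' (-((0 : ℕ) : ℤ)) g := by
    intro n
    induction n with
    | zero => exact fun h => h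
    | succ n ih => exact fun h => ih (hstep n h)
  intro f
  have h := hall _ hstart f
  unfold LogExt_good at h
  have h0 : ((-((0 : ℕ) : ℤ) : ℤ) : WithTop ℤ) = 0 := by simp
  rw [h0, add_zero] at h
  exact h

end Pool.Agent.Lib_MP_e0d435_kv
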