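import Pool.Agent.Lib_MP_e0d435_kv.ValExt
import Pool.Agent.Lib_MP_e0d435_kv.DerExt
import Pool.Agent.Lib_MP_e0d435_kv.LogExt

/-! V06: finite extensions of log-differential discretely valued fields.

Proof: `K` the algebraic closure of `Λ.M`, an extension of `F` by `φ`; `ψ₀ : N → K` over `F`
(`IsAlgClosed.lift`); `M'` the subfield of `K` generated over `Λ.M` by the image of `ψ₀`, a finite
extension of `Λ.M` (generated by the images of a basis of `N` over `F`, which are algebraic over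
the image of `F`). Then V02, V03, V05; `Algebra ℂ M'` through `Λ.M`. -/

namespace Pool.Agent.Lib_MP_e0d435_kv

/-- a finite extension of the underlying field carries the structure -/
private theorem Extend_aux {k : ℕ} (Λ : LDF k) {M' : Type} [Field M'] [Algebra Λ.M M']
    [FiniteDimensional Λ.M M'] :
    ∃ (Λ' : LDF k) (ι : Λ.M →ₐ[ℂ] Λ'.M) (e : ℕ) (j : M' →+* Λ'.M), 1 ≤ e ∧
      (∀ f, Λ'.w (ι f) = e • Λ.w f) ∧ (∀ i f, Λ'.d i (ι f) = ι (Λ.d i f)) ∧
      (∀ f, j (algebraMap Λ.M M' f) = ι f) := by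
  have : CharZero Λ.M := charZero_of_injective_algebraMap (algebraMap ℂ Λ.M).injective
  let : Algebra ℂ M' := ((algebraMap Λ.M M').comp (algebraMap ℂ Λ.M)).toAlgebra
  have : IsScalarTower ℂ Λ.M M' := IsScalarTower.of_algebraMap_eq' rfl
  obtain ⟨w', t', e, he, ht', hw, hint, hfrac⟩ := exists_val_ext (M' := M') Λ.w Λ.t Λ.w_t
  choose δ' hδ' using fun i => exists_der_ext (M' := M') (Λ.d i)
  refine ⟨{ M := M', w := w', t := t', w_t := ht', d := δ'
            log := fun i f => log_ext Λ.w Λ.t Λ.w_t w' t' e he ht' hw hint hfrac (Λ.d i)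
              (Λ.log i) (δ' i) (hδ' i) f },
    IsScalarTower.toAlgHom ℂ Λ.M M', e, RingHom.id M', he, hw, ?_, fun f => rfl⟩
  intro i f
  exact hδ' i f

theorem LDF.extend {k : ℕ} (Λ : LDF k) {F N : Type} [Field F] [Field N] [Algebra F N]
    [FiniteDimensional F N] (φ : F →+* Λ.M) :
    ∃ (Λ' : LDF k) (ι : Λ.M →ₐ[ℂ] Λ'.M) (e : ℕ) (ψ : N →+* Λ'.M), 1 ≤ e ∧
      (∀ f, Λ'.w (ι f) = e • Λ.w f) ∧ (∀ i f, Λ'.d i (ι f) = ι (Λ.d i f)) ∧
      (∀ f : F, ψ (algebraMap F N f) = ι (φ f)) := by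
  let : Algebra F (AlgebraicClosure Λ.M) :=
    ((algebraMap Λ.M (AlgebraicClosure Λ.M)).comp φ).toAlgebra
  let ψ₀ : N →ₐ[F] AlgebraicClosure Λ.M := IsAlgClosed.lift
  let b := Module.finBasis F N
  let M' : IntermediateField Λ.M (AlgebraicClosure Λ.M) :=
    IntermediateField.adjoin Λ.M (Set.range fun i => ψ₀ (b i))
  have hfd : FiniteDimensional Λ.M M' := by
    refine IntermediateField.finiteDimensional_adjoin fun x _ => ?_
    exact Algebra.IsIntegral.isIntegral x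
  have hmem : ∀ n : N, ψ₀ n ∈ M' := by
    intro n
    rw [← b.sum_repr n, map_sum]
    refine sum_mem fun i _ => ?_
    rw [map_smul, Algebra.smul_def]
    refine mul_mem ?_ (IntermediateField.subset_adjoin _ _ ⟨i, rfl⟩)
    exact M'.algebraMap_mem (φ (b.repr n i))
  obtain ⟨Λ', ι, e, j, he, hw, hd, hj⟩ := Extend_aux Λ (M' := M')
  refine ⟨Λ', ι, e, j.comp ((ψ₀ : N →+* AlgebraicClosure Λ.M).codRestrict M'.toSubfield hmem),
    he, hw, hd, fun f => ?_⟩
  rw [← hj]
  change j _ = j _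
  congr 1
  apply Subtype.ext
  change ψ₀ (algebraMap F N f) = algebraMap Λ.M (AlgebraicClosure Λ.M) (φ f)
  rw [ψ₀.commutes]
  rfl

end Pool.Agent.Lib_MP_e0d435_kv
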