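import Pool.Agent.Lib_KF.GeoDefs

/-! Definitions for the integrability theorem. -/

open MeasureTheory

namespace Pool.Agent.Lib_MP_e0d435_kv

open Pool.Agent.Lib_GD Pool.Agent.Lib_KF

variable {R : Type} [CommRing R] [Algebra ℂ R] {n M : ℕ}

/-- `∏ |ν (e i)| ^ c |ν G| ^ (1 / r)`. -/
noncomputable def fval (G : R) (r : ℕ) (e : Fin M → R) (c : ℝ) (ν : R →ₐ[ℂ] ℂ) : ℝ :=
  (∏ i, ‖ν (e i)‖ ^ c) * ‖ν G‖ ^ (1 / (r : ℝ))

/-- The level set: points of the unit polydisc with a point of the fibre of level `l`. -/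
def lev (x : Fin (n + 1) → R) (G : R) (r : ℕ) (e : Fin M → R) (c : ℝ) (l : ℕ) :
    Set (Fin (n + 1) → ℂ) :=
  {y | ‖y‖ < 1 ∧ ∃ ν ∈ fib x y, (1 / 2 : ℝ) ^ (l + 1) < fval G r e c ν ∧
    fval G r e c ν ≤ (1 / 2 : ℝ) ^ l}

end Pool.Agent.Lib_MP_e0d435_kv
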