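import Pool.Agent.Lib_MP_e0d435_kv.IntDefs

/-! INT1: the fibres of the finite projection. -/

open MeasureTheory

namespace Pool.Agent.Lib_MP_e0d435_kv

open Pool.Agent.Lib_GD Pool.Agent.Lib_KF

variable {R : Type} [CommRing R] [Algebra ℂ R] {𝒜 : ℕ → Submodule ℂ R} [GradedAlgebra 𝒜]
  {n r d M : ℕ} {x : Fin (n + 1) → R} {G : R}

/-- The values of the elements of the polynomial ring. -/
private theorem IntFib_eval {R : Type} [CommRing R] [Algebra ℂ R] {n : ℕ} (x : Fin (n + 1) → R)
    (c : R) (hc : c ∈ Algebra.adjoin ℂ (Set.range x)) :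
    ∃ q : MvPolynomial (Fin (n + 1)) ℂ, ∀ y, ∀ ν ∈ fib x y, ν c = MvPolynomial.eval y q := by
  rw [Algebra.adjoin_range_eq_range_aeval] at hc
  obtain ⟨q, rfl⟩ := hc
  refine ⟨q, fun y ν hν => ?_⟩
  have h1 : (fun b => ν (x b)) = y := funext hν
  change ν (MvPolynomial.aeval x q) = _
  rw [MvPolynomial.comp_aeval_apply, h1, MvPolynomial.aeval_eq_eval]

/-- Proof: `R` is generated as a module over `ℂ[x]` by `m_1, …, m_D`; different `ν` in the same
fibre are linearly independent functions on `R` (`linearIndependent_monoidHom`) and a function in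
the span of the fibre is determined by its values at the `m_i`; so the fibre has at most `D`
elements. -/
theorem fib_card (h : IsFano 𝒜 n r d x G) :
    ∃ D : ℕ, ∀ y, (fib x y).Finite ∧ (fib x y).ncard ≤ D := by
  classical
  have hfin := h.x_finite
  obtain ⟨s, hs⟩ := hfin.fg_top
  refine ⟨s.card, fun y => ?_⟩
  have hli : LinearIndependent ℂ (fun ν : fib x y => fun m : s => ν.1 (m : R)) := by
    have h1 : LinearIndependent ℂ (fun ν : fib x y => (fun f : R => ν.1 f)) := by
      have h2 := linearIndependent_monoidHom R ℂ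
      have h3 := h2.comp (fun ν : fib x y => ((ν.1 : R →+* ℂ) : R →* ℂ)) (by
        intro ν ν' hνν
        apply Subtype.ext
        ext f
        exact DFunLike.congr_fun hνν f)
      exact h3
    rw [linearIndependent_iff'] at h1 ⊢
    intro t g hg
    refine h1 t g ?_
    ext f
    have hf : f ∈ Submodule.span (Algebra.adjoin ℂ (Set.range x)) (s : Set R) := by
      rw [hs]; exact Submodule.mem_top
    simp only [Finset.sum_apply, Pi.smul_apply, smul_eq_mul, Pi.zero_apply]
    induction hf using Submodule.span_induction with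
    | mem m hm =>
      have := congrFun hg ⟨m, hm⟩
      simpa only [Finset.sum_apply, Pi.smul_apply, smul_eq_mul, Pi.zero_apply] using this
    | zero => simp
    | add a b _ _ ha hb =>
      simp only [map_add, mul_add, Finset.sum_add_distrib, ha, hb, add_zero]
    | smul p f _ hf =>
      obtain ⟨q, hq⟩ := IntFib_eval x p.1 p.2
      have h4 : ∀ ν ∈ t, g ν * ν.1 (p • f) = MvPolynomial.eval y q * (g ν * ν.1 f) := by
        intro ν _
        rw [Subalgebra.smul_def, smul_eq_mul, map_mul, hq y ν.1 ν.2]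
        ring
      rw [Finset.sum_congr rfl h4, ← Finset.mul_sum, hf, mul_zero]
  have hF : Finite (fib x y) := hli.finite
  refine ⟨Set.toFinite _, ?_⟩
  have : Fintype (fib x y) := Fintype.ofFinite _
  have h5 := hli.fintype_card_le_finrank
  rw [Module.finrank_fintype_fun_eq_card, Fintype.card_coe] at h5
  rw [← Nat.card_coe_set_eq, Nat.card_eq_fintype_card]
  exact h5

/-- The bound for the roots of a monic polynomial. -/
private theorem IntFib_root (N : ℕ) (a : ℕ → ℂ) (z : ℂ)
    (hz : z ^ N + ∑ i ∈ Finset.range N, a i * z ^ i = 0) :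
    ‖z‖ ≤ 1 + ∑ i ∈ Finset.range N, ‖a i‖ := by
  by_contra hcon
  push Not at hcon
  set S := ∑ i ∈ Finset.range N, ‖a i‖ with hS
  have hS0 : 0 ≤ S := Finset.sum_nonneg fun i _ => norm_nonneg _
  have h1 : 1 ≤ ‖z‖ := by linarith
  rcases Nat.eq_zero_or_pos N with h0 | hN
  · subst h0
    simp at hz
  have h2 : ‖z‖ ^ N ≤ S * ‖z‖ ^ (N - 1) := by
    have h3 : z ^ N = -∑ i ∈ Finset.range N, a i * z ^ i := by linear_combination hz
    calc ‖z‖ ^ N = ‖z ^ N‖ := (norm_pow _ _).symm
      _ = ‖∑ i ∈ Finset.range N, a i * z ^ i‖ := by rw [h3, norm_neg]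
      _ ≤ ∑ i ∈ Finset.range N, ‖a i * z ^ i‖ := norm_sum_le _ _
      _ ≤ ∑ i ∈ Finset.range N, ‖a i‖ * ‖z‖ ^ (N - 1) := by
          refine Finset.sum_le_sum fun i hi => ?_
          rw [norm_mul, norm_pow]
          refine mul_le_mul_of_nonneg_left ?_ (norm_nonneg _)
          have : i ≤ N - 1 := by
            have := Finset.mem_range.1 hi
            omega
          exact pow_le_pow_right₀ h1 this
      _ = S * ‖z‖ ^ (N - 1) := by rw [hS, Finset.sum_mul]
  have h4 : ‖z‖ ^ N = ‖z‖ * ‖z‖ ^ (N - 1) := by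
    rw [← pow_succ', Nat.sub_add_cancel hN]
  rw [h4] at h2
  have h5 : ‖z‖ ≤ S := le_of_mul_le_mul_right h2 (by positivity)
  linarith

/-- Proof: `f` has a monic equation over `ℂ[x]`, whose coefficients at `y` are bounded for `y` in
a bounded set (`Polynomial.cauchyBound` or directly `|ν f| ≤ 1 + ∑ |a_i(y)|`). -/
theorem fib_bounded (h : IsFano 𝒜 n r d x G) (f : R) (ρ : ℝ) :
    ∃ C : ℝ, ∀ y, ‖y‖ ≤ ρ → ∀ ν ∈ fib x y, ‖ν f‖ ≤ C := by
  have hfin := h.x_finite
  obtain ⟨p, hp, hpf⟩ :=
    (Algebra.IsIntegral.of_finite (Algebra.adjoin ℂ (Set.range x)) R).isIntegral f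
  choose q hq using fun i : ℕ => IntFib_eval x (p.coeff i : R) (p.coeff i).2
  have hC : ∀ i : ℕ, ∃ C : ℝ, ∀ y ∈ Metric.closedBall (0 : Fin (n + 1) → ℂ) ρ,
      ‖MvPolynomial.eval y (q i)‖ ≤ C := fun i =>
    (isCompact_closedBall _ _).exists_bound_of_continuousOn
      (MvPolynomial.continuous_eval (q i)).continuousOn
  choose C hC using hC
  refine ⟨1 + ∑ i ∈ Finset.range p.natDegree, C i, fun y hy ν hν => ?_⟩
  have h1 : ν f ^ p.natDegree + ∑ i ∈ Finset.range p.natDegree,
      MvPolynomial.eval y (q i) * ν f ^ i = 0 := by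
    have h2 := congrArg ν hpf
    rw [Polynomial.eval₂_eq_sum_range, Finset.sum_range_succ, map_add, map_sum, map_zero,
      map_mul, map_pow] at h2
    have h3 : p.coeff p.natDegree = 1 := hp
    rw [h3, map_one, map_one, one_mul, add_comm] at h2
    rw [← h2]
    congr 1
    refine Finset.sum_congr rfl fun i _ => ?_
    rw [map_mul, map_pow]
    congr 1
    exact (hq i y ν hν).symm
  refine (IntFib_root _ _ _ h1).trans ?_
  gcongr with i hi
  exact hC i y (by rwa [mem_closedBall_zero_iff])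

/-- Proof: let `y_i → y`, `ν_i ∈ fib x y_i`, `f(ν_i) ∈ T`. `R` is generated as an algebra by
finitely many `g_j` (`x_finite`), and the `ν_i(g_j)` are bounded (`fib_bounded`); for a convergent
subsequence the limits `z_j` define `ν : R → ℂ` (a relation between the `g_j` holds in the limit;
use a surjection `MvPolynomial (Fin p) ℂ → R` and its kernel), `ν ∈ fib x y`, and
`f(ν) = lim f(ν_i) ∈ T`. -/
theorem isClosed_fib (h : IsFano 𝒜 n r d x G) {J : ℕ} (f : Fin J → R) (T : Set (Fin J → ℂ))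
    (hT : IsClosed T) : IsClosed {y | ∃ ν ∈ fib x y, (fun j => ν (f j)) ∈ T} := by
  classical
  have hfin := h.x_finite
  have hft : Algebra.FiniteType ℂ R := by
    have h1 : Algebra.FiniteType ℂ (Algebra.adjoin ℂ (Set.range x)) :=
      ⟨(Subalgebra.fg_top _).2 (Subalgebra.fg_def.2 ⟨_, Set.finite_range x, rfl⟩)⟩
    have h2 : Algebra.FiniteType (Algebra.adjoin ℂ (Set.range x)) R := inferInstance
    exact Algebra.FiniteType.trans h1 h2
  obtain ⟨p, Ψ, hΨ⟩ := Algebra.FiniteType.iff_quotient_mvPolynomial''.1 hft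
  choose X hX using fun b => hΨ (x b)
  choose F hF using fun j => hΨ (f j)
  -- the closed set of pairs
  let Z : Set ((Fin (n + 1) → ℂ) × (Fin p → ℂ)) :=
    {w | (∀ g : MvPolynomial (Fin p) ℂ, Ψ g = 0 → MvPolynomial.eval w.2 g = 0) ∧
      (∀ b, MvPolynomial.eval w.2 (X b) = w.1 b) ∧ (fun j => MvPolynomial.eval w.2 (F j)) ∈ T}
  have hev : ∀ g : MvPolynomial (Fin p) ℂ,
      Continuous (fun w : (Fin (n + 1) → ℂ) × (Fin p → ℂ) => MvPolynomial.eval w.2 g) :=
    fun g => (MvPolynomial.continuous_eval g).comp continuous_snd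
  have hZ : IsClosed Z := by
    refine IsClosed.inter ?_ (IsClosed.inter ?_ ?_)
    · have : {w : (Fin (n + 1) → ℂ) × (Fin p → ℂ) |
          ∀ g : MvPolynomial (Fin p) ℂ, Ψ g = 0 → MvPolynomial.eval w.2 g = 0} =
          ⋂ g : MvPolynomial (Fin p) ℂ, ⋂ _ : Ψ g = 0,
            {w | MvPolynomial.eval w.2 g = 0} := by
        ext w; simp
      change IsClosed {w : (Fin (n + 1) → ℂ) × (Fin p → ℂ) |
          ∀ g : MvPolynomial (Fin p) ℂ, Ψ g = 0 → MvPolynomial.eval w.2 g = 0}
      rw [this]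
      exact isClosed_iInter fun g => isClosed_iInter fun _ =>
        isClosed_eq (hev g) continuous_const
    · have : {w : (Fin (n + 1) → ℂ) × (Fin p → ℂ) |
          ∀ b, MvPolynomial.eval w.2 (X b) = w.1 b} =
          ⋂ b, {w | MvPolynomial.eval w.2 (X b) = w.1 b} := by
        ext w; simp
      change IsClosed {w : (Fin (n + 1) → ℂ) × (Fin p → ℂ) |
          ∀ b, MvPolynomial.eval w.2 (X b) = w.1 b}
      rw [this]
      exact isClosed_iInter fun b =>
        isClosed_eq (hev (X b)) ((continuous_apply b).comp continuous_fst)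
    · exact hT.preimage (continuous_pi fun j => hev (F j))
  -- points of the fibre and points of `Z`
  have hνZ : ∀ y, ∀ ν ∈ fib x y, (fun j => ν (f j)) ∈ T →
      (y, fun i => ν (Ψ (MvPolynomial.X i))) ∈ Z := by
    intro y ν hν hνT
    have h1 : ∀ g, MvPolynomial.eval (fun i => ν (Ψ (MvPolynomial.X i))) g = ν (Ψ g) := by
      intro g
      have h2 : MvPolynomial.aeval (fun i => ν (Ψ (MvPolynomial.X i))) = ν.comp Ψ := by
        ext i
        simp
      rw [← MvPolynomial.aeval_eq_eval, h2]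
      rfl
    refine ⟨fun g hg => ?_, fun b => ?_, ?_⟩
    · change MvPolynomial.eval (fun i => ν (Ψ (MvPolynomial.X i))) g = 0
      rw [h1, hg, map_zero]
    · change MvPolynomial.eval (fun i => ν (Ψ (MvPolynomial.X i))) (X b) = y b
      rw [h1, hX, hν b]
    · change (fun j => MvPolynomial.eval (fun i => ν (Ψ (MvPolynomial.X i))) (F j)) ∈ T
      simp only [h1, hF]
      exact hνT
  have hZν : ∀ y z, (y, z) ∈ Z → ∃ ν ∈ fib x y, (fun j => ν (f j)) ∈ T := by
    rintro y z ⟨h1, h2, h3⟩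
    have hker : RingHom.ker Ψ.toRingHom ≤
        RingHom.ker (MvPolynomial.aeval z : MvPolynomial (Fin p) ℂ →ₐ[ℂ] ℂ).toRingHom := by
      intro g hg
      rw [RingHom.mem_ker] at hg ⊢
      change MvPolynomial.aeval z g = 0
      rw [MvPolynomial.aeval_eq_eval]
      exact h1 g hg
    have h4 : ∀ g, AlgHom.liftOfSurjective Ψ hΨ (MvPolynomial.aeval z) hker (Ψ g) =
        MvPolynomial.eval z g := by
      intro g
      rw [AlgHom.liftOfSurjective_apply, MvPolynomial.aeval_eq_eval]
    refine ⟨AlgHom.liftOfSurjective Ψ hΨ (MvPolynomial.aeval z) hker, fun b => ?_, ?_⟩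
    · rw [← hX b, h4]
      exact h2 b
    · simp only [← hF, h4]
      exact h3
  refine IsSeqClosed.isClosed ?_
  intro y y₀ hy hlim
  choose ν hν hνT using hy
  -- boundedness
  obtain ⟨ρ, hρ⟩ := (Metric.isBounded_range_of_tendsto y hlim).exists_norm_le
  choose C hC using fun i : Fin p => fib_bounded h (Ψ (MvPolynomial.X i)) ρ
  let z : ℕ → Fin p → ℂ := fun m i => ν m (Ψ (MvPolynomial.X i))
  have hz : ∀ m, z m ∈ Metric.closedBall (0 : Fin p → ℂ) (∑ i, |C i|) := by
    intro m
    rw [mem_closedBall_zero_iff, pi_norm_le_iff_of_nonneg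
      (Finset.sum_nonneg fun i _ => abs_nonneg _)]
    intro i
    refine (hC i (y m) (hρ _ ⟨m, rfl⟩) (ν m) (hν m)).trans ((le_abs_self _).trans ?_)
    exact Finset.single_le_sum (f := fun i => |C i|) (fun i _ => abs_nonneg _)
      (Finset.mem_univ i)
  obtain ⟨z₀, -, φ, hφ, hzlim⟩ := (isCompact_closedBall _ _).tendsto_subseq hz
  refine hZν y₀ z₀ ?_
  refine hZ.mem_of_tendsto ((hlim.comp hφ.tendsto_atTop).prodMk_nhds hzlim)
    (Filter.Eventually.of_forall fun m => ?_)
  exact hνZ _ _ (hν (φ m)) (hνT (φ m))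

/-- Proof: `fval` is a continuous function of the values of `ν` at `e i` and `G`
(`c > 0`, `1 / r > 0`); the level set is the intersection of the open unit ball with the union over
`k` of the closed sets (`isClosed_fib`)
`{∃ ν, 2^(-l-1) + 1/(k+1) ≤ fval ν ≤ 2^(-l)}`. -/
theorem measurableSet_lev (h : IsFano 𝒜 n r d x G) (e : Fin M → R) (c : ℝ) (hc : 0 < c) (l : ℕ) :
    MeasurableSet (lev x G r e c l) := by
  have hr : (0 : ℝ) < 1 / (r : ℝ) := by
    have : (0 : ℝ) < r := by exact_mod_cast h.r_pos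
    positivity
  let φ : (Fin (M + 1) → ℂ) → ℝ := fun w => (∏ i : Fin M, ‖w i.succ‖ ^ c) * ‖w 0‖ ^ (1 / (r : ℝ))
  have hφ : Continuous φ := by
    refine Continuous.mul ?_ ?_
    · refine continuous_finsetProd _ fun i _ => ?_
      exact (continuous_apply _).norm.rpow_const fun _ => Or.inr hc.le
    · exact (continuous_apply _).norm.rpow_const fun _ => Or.inr hr.le
  let f : Fin (M + 1) → R := Fin.cons G e
  have hφf : ∀ ν : R →ₐ[ℂ] ℂ, fval G r e c ν = φ (fun j => ν (f j)) := by
    intro ν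
    simp [fval, φ, f]
  have hset : lev x G r e c l = Metric.ball (0 : Fin (n + 1) → ℂ) 1 ∩
      ⋃ k : ℕ, {y | ∃ ν ∈ fib x y, (fun j => ν (f j)) ∈
        {w : Fin (M + 1) → ℂ | (1 / 2 : ℝ) ^ (l + 1) + 1 / ((k : ℝ) + 1) ≤ φ w ∧
          φ w ≤ (1 / 2 : ℝ) ^ l}} := by
    ext y
    simp only [lev, Set.mem_inter_iff, mem_ball_zero_iff, Set.mem_iUnion, Set.mem_ofPred_eq]
    refine and_congr_right fun _ => ?_
    constructor
    · rintro ⟨ν, hν, h1, h2⟩
      obtain ⟨k, hk⟩ := exists_nat_one_div_lt (sub_pos.2 h1)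
      refine ⟨k, ν, hν, ?_, ?_⟩
      · rw [← hφf]; linarith
      · rw [← hφf]; exact h2
    · rintro ⟨k, ν, hν, h1, h2⟩
      refine ⟨ν, hν, ?_, ?_⟩
      · rw [hφf]
        have : (0 : ℝ) < 1 / ((k : ℝ) + 1) := by positivity
        linarith
      · rw [hφf]; exact h2
  rw [hset]
  refine Metric.isOpen_ball.measurableSet.inter (MeasurableSet.iUnion fun k => ?_)
  refine (isClosed_fib h f _ ?_).measurableSet
  exact (isClosed_le continuous_const hφ).inter (isClosed_le hφ continuous_const)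

end Pool.Agent.Lib_MP_e0d435_kv
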