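import Pool.Agent.Lib_MP_e0d435_kv.Basic

/-! V17a. -/

namespace Pool.Agent.Lib_MP_e0d435_kv

/-- There is a log-differential discretely valued field with no derivations: `ℂ(s)` with the
`s`-adic valuation. -/
theorem exists_LDF_zero : Nonempty (LDF 0) := by
  refine ⟨{ M := HahnSeries ℤ ℂ, w := HahnSeries.addVal ℤ ℂ, t := HahnSeries.single 1 1,
            w_t := ?_, d := fun i => i.elim0, log := fun i => i.elim0 }⟩
  have h : (HahnSeries.single (1 : ℤ) (1 : ℂ)) ≠ 0 := by
    rw [Ne, HahnSeries.single_eq_zero_iff]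
    exact one_ne_zero
  rw [HahnSeries.addVal_apply_of_ne h, HahnSeries.order_single one_ne_zero]
  rfl

end Pool.Agent.Lib_MP_e0d435_kv
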