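import Pool.Agent.Lib_MP_e0d435_kv.Defs

/-! V16: Fubini and the pigeonhole principle. -/

open MeasureTheory

namespace Pool.Agent.Lib_MP_e0d435_kv

private theorem Level_fubini {k : ℕ} {S : Set (Fin (k + 1) → ℂ)} (hS : MeasurableSet S) :
    Measurable (fun y' : Fin k → ℂ =>
      volume {y0 : ℂ | (Fin.cons y0 y' : Fin (k + 1) → ℂ) ∈ S}) ∧
    volume S = ∫⁻ y' : Fin k → ℂ,
      volume {y0 : ℂ | (Fin.cons y0 y' : Fin (k + 1) → ℂ) ∈ S} := by
  let e := MeasurableEquiv.piFinSuccAbove (fun _ : Fin (k + 1) => ℂ) 0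
  have he : MeasurePreserving e := volume_preserving_piFinSuccAbove (fun _ => ℂ) 0
  have hS' : MeasurableSet (e.symm ⁻¹' S) := e.symm.measurable hS
  have hset : ∀ y' : Fin k → ℂ, {y0 : ℂ | (Fin.cons y0 y' : Fin (k + 1) → ℂ) ∈ S} =
      (fun x => (x, y')) ⁻¹' (e.symm ⁻¹' S) := by
    intro y'
    ext y0
    have h1 : e.symm (y0, y') = (Fin.cons y0 y' : Fin (k + 1) → ℂ) := by
      rw [MeasurableEquiv.symm_apply_eq]
      rfl
    rw [Set.mem_preimage, Set.mem_preimage, h1]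
    rfl
  have h1 : volume S = volume (e.symm ⁻¹' S) := by
    rw [he.symm.measure_preimage hS.nullMeasurableSet]
  simp only [hset]
  refine ⟨measurable_measure_prodMk_right hS', ?_⟩
  rw [h1, Measure.volume_eq_prod, Measure.prod_apply_symm hS']

private theorem Level_le_pi {k : ℕ} {S : Set (Fin (k + 1) → ℂ)}
    (hS : ∀ y ∈ S, ∀ j, ‖y j‖ ≤ 1) (y' : Fin k → ℂ) :
    volume {y0 : ℂ | (Fin.cons y0 y' : Fin (k + 1) → ℂ) ∈ S} ≤ ENNReal.ofReal Real.pi := by
  have h1 : {y0 : ℂ | (Fin.cons y0 y' : Fin (k + 1) → ℂ) ∈ S} ⊆ Metric.closedBall 0 1 := by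
    intro y0 hy
    have := hS _ hy 0
    rw [mem_closedBall_zero_iff]
    simpa using this
  refine (measure_mono h1).trans ?_
  rw [Complex.volume_closedBall, ENNReal.ofReal_one, one_pow, one_mul]
  exact le_of_eq (ENNReal.ofReal_coe_nnreal (p := NNReal.pi)).symm

private theorem Level_zero {k : ℕ} {S : Set (Fin (k + 1) → ℂ)}
    (hS : ∀ y ∈ S, ∀ j, ‖y j‖ ≤ 1) (y' : Fin k → ℂ)
    (h : 0 < volume {y0 : ℂ | (Fin.cons y0 y' : Fin (k + 1) → ℂ) ∈ S}) (j : Fin k) :
    ‖y' j‖ ≤ 1 := by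
  obtain ⟨y0, hy⟩ := nonempty_of_measure_ne_zero h.ne'
  have := hS _ hy j.succ
  simpa using this

/-- Proof: `a(y') = volume {y0 | Fin.cons y0 y' ∈ S}` is measurable, `≤ π` and `0` outside the
polydisc, and `volume S = ∫⁻ a` (`volume_preserving_piFinSuccAbove (fun _ => ℂ) 0`,
`Measure.prod_apply`). `L = ⌈c/η₁⌉`; for `l ≤ L` put
`E_l = {y' : ε^(2(l+1)η₁) < a(y') ∧ (l = 0 ∨ a(y') ≤ ε^(2lη₁))}`. If all
`volume E_l < ε^(2(c - lη₁ + η₁))` then
`volume S ≤ ∑_(l ≤ L) volume E_l π ε^(2lη₁) + volume(polydisc) ε^(2(L+1)η₁)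
< ε^(2c) ε^(2η₁) ((L+1) π + π^k) ≤ ε^(2c)` for small `ε`. (`(L+1)η₁ ≥ c + η₁` and
`lη₁ ≤ c + η₁` for `l ≤ L`.) -/
theorem exists_level {k : ℕ} (c η₁ : ℝ) (hc : 0 ≤ c) (hη : 0 < η₁) :
    ∃ ε₀ : ℝ, 0 < ε₀ ∧ ε₀ < 1 ∧ ∀ ε, 0 < ε → ε < ε₀ → ∀ S : Set (Fin (k + 1) → ℂ),
      MeasurableSet S → (∀ y ∈ S, ∀ j, ‖y j‖ ≤ 1) →
      ENNReal.ofReal (ε ^ (2 * c)) ≤ volume S →
      ∃ l : ℕ, (l : ℝ) * η₁ ≤ c + η₁ ∧ ∃ E : Set (Fin k → ℂ), MeasurableSet E ∧
        (∀ y' ∈ E, ∀ j, ‖y' j‖ ≤ 1) ∧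
        ENNReal.ofReal (ε ^ (2 * (c - l * η₁ + η₁))) ≤ volume E ∧
        ∀ y' ∈ E, ENNReal.ofReal (ε ^ (2 * ((l + 1) * η₁))) <
          volume {y0 : ℂ | (Fin.cons y0 y' : Fin (k + 1) → ℂ) ∈ S} := by
  set L : ℕ := ⌈c / η₁⌉₊ with hL
  have hL1 : c ≤ L * η₁ := by
    rw [← div_le_iff₀ hη]
    exact Nat.le_ceil _
  have hL2 : (L : ℝ) * η₁ ≤ c + η₁ := by
    have := (Nat.ceil_lt_add_one (div_nonneg hc hη.le)).le
    calc (L : ℝ) * η₁ ≤ (c / η₁ + 1) * η₁ := mul_le_mul_of_nonneg_right this hη.le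
      _ = c + η₁ := by field_simp
  set D : Set (Fin k → ℂ) := Metric.closedBall 0 1 with hD
  have hDfin : volume D < ⊤ := measure_closedBall_lt_top
  set V : ℝ := (volume D).toReal with hV
  have hV0 : 0 ≤ V := ENNReal.toReal_nonneg
  have hVD : volume D = ENNReal.ofReal V := (ENNReal.ofReal_toReal hDfin.ne).symm
  set M : ℝ := (L + 1) * Real.pi + V + 1 with hM
  have hM1 : 1 < M := by
    have : 0 < ((L : ℝ) + 1) * Real.pi := by positivity
    linarith
  have hM0 : 0 < M := by linarith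
  refine ⟨(1 / M) ^ (1 / (2 * η₁)), by positivity, ?_, ?_⟩
  · exact Real.rpow_lt_one (by positivity) (by rw [div_lt_one hM0]; exact hM1) (by positivity)
  intro ε hε0 hε S hSm hSD hSvol
  have hεM : ε ^ (2 * η₁) < 1 / M := by
    calc ε ^ (2 * η₁) < ((1 / M) ^ (1 / (2 * η₁))) ^ (2 * η₁) :=
          Real.rpow_lt_rpow hε0.le hε (by positivity)
      _ = 1 / M := by
          rw [← Real.rpow_mul (by positivity), one_div_mul_cancel (by positivity), Real.rpow_one]
  have hε1 : ε < 1 := hε.trans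
    (Real.rpow_lt_one (by positivity) (by rw [div_lt_one hM0]; exact hM1) (by positivity))
  obtain ⟨ham, hint⟩ := Level_fubini hSm
  have hπ := Level_le_pi hSD
  have hz := Level_zero hSD
  set a : (Fin k → ℂ) → ENNReal :=
    fun y' => volume {y0 : ℂ | (Fin.cons y0 y' : Fin (k + 1) → ℂ) ∈ S} with ha
  by_contra hcon
  push Not at hcon
  set E : ℕ → Set (Fin k → ℂ) :=
    fun l => {y' | ENNReal.ofReal (ε ^ (2 * (((l : ℝ) + 1) * η₁))) < a y'} with hE
  have hEm : ∀ l, MeasurableSet (E l) := fun l => measurableSet_lt measurable_const ham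
  have hEv : ∀ l : ℕ, l ≤ L →
      volume (E l) < ENNReal.ofReal (ε ^ (2 * (c - l * η₁ + η₁))) := by
    intro l hl
    by_contra hge
    push Not at hge
    have hl' : (l : ℝ) * η₁ ≤ c + η₁ := by
      refine le_trans ?_ hL2
      exact mul_le_mul_of_nonneg_right (by exact_mod_cast hl) hη.le
    obtain ⟨y', hy', hy''⟩ := hcon l hl' (E l) (hEm l)
      (fun y' hy' j => hz y' (lt_of_le_of_lt zero_le hy') j) hge
    exact absurd hy' (not_lt.2 hy'')
  -- pointwise bound
  have hpt : ∀ y', a y' ≤ ∑ l ∈ Finset.range (L + 1),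
      (E l).indicator (fun _ => ENNReal.ofReal (Real.pi * ε ^ (2 * ((l : ℝ) * η₁)))) y' +
      D.indicator (fun _ => ENNReal.ofReal (ε ^ (2 * (((L : ℝ) + 1) * η₁)))) y' := by
    intro y'
    by_cases h0 : a y' = 0
    · rw [h0]; exact zero_le
    have hyD : y' ∈ D := by
      rw [hD, mem_closedBall_zero_iff, pi_norm_le_iff_of_nonneg zero_le_one]
      exact hz y' (pos_iff_ne_zero.2 h0)
    by_cases hL' : y' ∈ E L
    · classical
      have hex : ∃ l, y' ∈ E l := ⟨L, hL'⟩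
      have hl1 := Nat.find_spec hex
      have hl2 : Nat.find hex ≤ L := Nat.find_min' hex hL'
      set l := Nat.find hex with hl
      have hb : a y' ≤ ENNReal.ofReal (Real.pi * ε ^ (2 * ((l : ℝ) * η₁))) := by
        rcases Nat.eq_zero_or_pos l with h | h
        · rw [h]
          simpa using hπ y'
        · have hlt : l - 1 < Nat.find hex := by omega
          have hnot := Nat.find_min hex hlt
          have hle : a y' ≤ ENNReal.ofReal (ε ^ (2 * ((((l - 1 : ℕ) : ℝ) + 1) * η₁))) :=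
            not_lt.1 hnot
          refine hle.trans (ENNReal.ofReal_le_ofReal ?_)
          have hcast : (((l - 1 : ℕ) : ℝ) + 1) = (l : ℝ) := by
            have : (l - 1) + 1 = l := Nat.sub_add_cancel h
            exact_mod_cast this
          rw [hcast]
          have hp : 0 ≤ ε ^ (2 * ((l : ℝ) * η₁)) := by positivity
          nlinarith [Real.pi_gt_three]
      calc a y' ≤ ENNReal.ofReal (Real.pi * ε ^ (2 * ((l : ℝ) * η₁))) := hb
        _ = (E l).indicator (fun _ => ENNReal.ofReal (Real.pi * ε ^ (2 * ((l : ℝ) * η₁)))) y' := by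
            rw [Set.indicator_of_mem hl1]
        _ ≤ ∑ l ∈ Finset.range (L + 1),
            (E l).indicator (fun _ => ENNReal.ofReal (Real.pi * ε ^ (2 * ((l : ℝ) * η₁)))) y' :=
            Finset.single_le_sum (f := fun l : ℕ =>
              (E l).indicator (fun _ => ENNReal.ofReal (Real.pi * ε ^ (2 * ((l : ℝ) * η₁)))) y')
              (fun _ _ => zero_le) (Finset.mem_range.2 (Nat.lt_succ_of_le hl2))
        _ ≤ _ := le_self_add
    · have hle : a y' ≤ ENNReal.ofReal (ε ^ (2 * (((L : ℝ) + 1) * η₁))) := not_lt.1 hL'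
      rw [Set.indicator_of_mem hyD]
      exact hle.trans le_add_self
  -- the bound on the volume
  have hvol : volume S ≤ ∑ l ∈ Finset.range (L + 1),
      ENNReal.ofReal (Real.pi * ε ^ (2 * ((l : ℝ) * η₁))) * volume (E l) +
      ENNReal.ofReal (ε ^ (2 * (((L : ℝ) + 1) * η₁))) * volume D := by
    rw [hint]
    refine (lintegral_mono hpt).trans ?_
    rw [lintegral_add_left, lintegral_finsetSum]
    · refine add_le_add (Finset.sum_le_sum fun l _ => ?_) ?_
      · rw [lintegral_indicator_const (hEm l)]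
      · rw [lintegral_indicator_const (Metric.isClosed_closedBall.measurableSet)]
    · exact fun l _ => measurable_const.indicator (hEm l)
    · exact Finset.measurable_sum _ (fun l _ => measurable_const.indicator (hEm l))
  have hbound : ∑ l ∈ Finset.range (L + 1),
      ENNReal.ofReal (Real.pi * ε ^ (2 * ((l : ℝ) * η₁))) * volume (E l) +
      ENNReal.ofReal (ε ^ (2 * (((L : ℝ) + 1) * η₁))) * volume D ≤
      ENNReal.ofReal (ε ^ (2 * c) * (ε ^ (2 * η₁) * ((L + 1) * Real.pi + V))) := by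
    have hs : ∑ l ∈ Finset.range (L + 1),
        ENNReal.ofReal (Real.pi * ε ^ (2 * ((l : ℝ) * η₁))) * volume (E l) ≤
        ENNReal.ofReal (((L : ℝ) + 1) * (Real.pi * ε ^ (2 * c + 2 * η₁))) := by
      calc ∑ l ∈ Finset.range (L + 1),
            ENNReal.ofReal (Real.pi * ε ^ (2 * ((l : ℝ) * η₁))) * volume (E l)
          ≤ ∑ l ∈ Finset.range (L + 1), ENNReal.ofReal (Real.pi * ε ^ (2 * c + 2 * η₁)) := by
            refine Finset.sum_le_sum fun l hl => ?_
            have hl' : l ≤ L := Nat.lt_succ_iff.1 (Finset.mem_range.1 hl)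
            calc ENNReal.ofReal (Real.pi * ε ^ (2 * ((l : ℝ) * η₁))) * volume (E l)
                ≤ ENNReal.ofReal (Real.pi * ε ^ (2 * ((l : ℝ) * η₁))) *
                  ENNReal.ofReal (ε ^ (2 * (c - l * η₁ + η₁))) :=
                  mul_le_mul_right (hEv l hl').le _
              _ = ENNReal.ofReal (Real.pi * ε ^ (2 * c + 2 * η₁)) := by
                  rw [← ENNReal.ofReal_mul (by positivity), mul_assoc, ← Real.rpow_add hε0]
                  congr 3
                  ring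
        _ = ENNReal.ofReal (((L : ℝ) + 1) * (Real.pi * ε ^ (2 * c + 2 * η₁))) := by
            rw [Finset.sum_const, Finset.card_range, nsmul_eq_mul,
              ENNReal.ofReal_mul (by positivity : (0 : ℝ) ≤ (L : ℝ) + 1)]
            congr 1
            rw [← Nat.cast_succ, ENNReal.ofReal_natCast]
    have ht : ENNReal.ofReal (ε ^ (2 * (((L : ℝ) + 1) * η₁))) * volume D ≤
        ENNReal.ofReal (ε ^ (2 * c + 2 * η₁) * V) := by
      rw [hVD, ← ENNReal.ofReal_mul (by positivity)]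
      refine ENNReal.ofReal_le_ofReal (mul_le_mul_of_nonneg_right ?_ hV0)
      exact Real.rpow_le_rpow_of_exponent_ge hε0 hε1.le (by nlinarith)
    refine (add_le_add hs ht).trans ?_
    rw [← ENNReal.ofReal_add (by positivity) (by positivity)]
    refine ENNReal.ofReal_le_ofReal (le_of_eq ?_)
    rw [Real.rpow_add hε0]
    ring
  have hlt : ENNReal.ofReal (ε ^ (2 * c) * (ε ^ (2 * η₁) * ((L + 1) * Real.pi + V))) <
      ENNReal.ofReal (ε ^ (2 * c)) := by
    rw [ENNReal.ofReal_lt_ofReal_iff (by positivity)]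
    have h1 : ε ^ (2 * η₁) * ((L + 1) * Real.pi + V) < 1 := by
      calc ε ^ (2 * η₁) * ((L + 1) * Real.pi + V) ≤ ε ^ (2 * η₁) * M := by
            refine mul_le_mul_of_nonneg_left ?_ (by positivity)
            rw [hM]; linarith
        _ < 1 / M * M := mul_lt_mul_of_pos_right hεM hM0
        _ = 1 := by field_simp
    have h2 : 0 < ε ^ (2 * c) := by positivity
    nlinarith
  exact absurd (hSvol.trans (hvol.trans hbound)) (not_le.2 hlt)

end Pool.Agent.Lib_MP_e0d435_kv
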