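import Pool.Agent.Lib_MP_e0d435_kv.Basic

/-! V09: a near tie of the Newton polygon gives a root near by. -/

namespace Pool.Agent.Lib_MP_e0d435_kv

/-- Strict real lower bound for the order of a sum. -/
private theorem Newton_lt_add {M : Type} [Field M] (w : AddValuation M (WithTop ℤ)) {f g : M}
    (h : f + g ≠ 0) (c : ℝ) (hf : f = 0 ∨ c < (ordZ w f : ℝ)) (hg : g = 0 ∨ c < (ordZ w g : ℝ)) :
    c < (ordZ w (f + g) : ℝ) := by
  have key : ⌊c⌋ + 1 ≤ ordZ w (f + g) := by
    refine ordZ_add_ge w h _ (hf.imp_right fun h1 => ?_) (hg.imp_right fun h1 => ?_)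
    · have := Int.floor_lt.2 h1
      omega
    · have := Int.floor_lt.2 h1
      omega
  exact Int.floor_lt.1 (by omega)

/-- The dominant coefficient if no root has order near `τ`. -/
private theorem Newton_dom {M : Type} [Field M] (w : AddValuation M (WithTop ℤ)) (c : M)
    (hc : c ≠ 0) (τ δ : ℝ) (hδ : 0 ≤ δ) (s : Multiset M) :
    (∀ ζ ∈ s, ζ ≠ 0) → (∀ ζ ∈ s, δ < |(ordZ w ζ : ℝ) - τ|) →
    ∃ j, (Polynomial.C c * (s.map fun ζ => Polynomial.X - Polynomial.C ζ).prod).coeff j ≠ 0 ∧
      ∀ l, l ≠ j →
        (Polynomial.C c * (s.map fun ζ => Polynomial.X - Polynomial.C ζ).prod).coeff l ≠ 0 →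
        (ordZ w ((Polynomial.C c *
          (s.map fun ζ => Polynomial.X - Polynomial.C ζ).prod).coeff j) : ℝ) + j * τ + δ <
        ordZ w ((Polynomial.C c *
          (s.map fun ζ => Polynomial.X - Polynomial.C ζ).prod).coeff l) + l * τ := by
  induction s using Multiset.induction_on with
  | empty =>
    intro _ _
    refine ⟨0, by simpa using hc, fun l hl h => absurd ?_ h⟩
    simp [Polynomial.coeff_C, hl]
  | cons ζ s ih =>
    intro hs hno
    obtain ⟨j, hj, hdom⟩ := ih (fun x hx => hs x (Multiset.mem_cons_of_mem hx))
      (fun x hx => hno x (Multiset.mem_cons_of_mem hx))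
    have hζ : ζ ≠ 0 := hs ζ (Multiset.mem_cons_self ζ s)
    have hζn := hno ζ (Multiset.mem_cons_self ζ s)
    set Q : Polynomial M := Polynomial.C c * (s.map fun ζ => Polynomial.X - Polynomial.C ζ).prod
      with hQ
    have hP : Polynomial.C c * ((ζ ::ₘ s).map fun ζ => Polynomial.X - Polynomial.C ζ).prod =
        Polynomial.X * Q + Polynomial.C (-ζ) * Q := by
      rw [Multiset.map_cons, Multiset.prod_cons, hQ, map_neg]
      ring
    have hco : ∀ l, (Polynomial.X * Q + Polynomial.C (-ζ) * Q).coeff l =
        (Polynomial.X * Q).coeff l + (-ζ) * Q.coeff l := by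
      intro l
      rw [Polynomial.coeff_add, Polynomial.coeff_C_mul]
    have hX0 : (Polynomial.X * Q).coeff 0 = 0 := by
      rw [Polynomial.mul_coeff_zero, Polynomial.coeff_X_zero, zero_mul]
    have hXs : ∀ l, (Polynomial.X * Q).coeff (l + 1) = Q.coeff l := fun l =>
      Polynomial.coeff_X_mul Q l
    have hord : ∀ l, Q.coeff l ≠ 0 →
        (ordZ w ((-ζ) * Q.coeff l) : ℝ) = ordZ w ζ + ordZ w (Q.coeff l) := by
      intro l hl
      rw [ordZ_mul w (neg_ne_zero.2 hζ) hl, ordZ_neg]
      push_cast
      ring
    rw [hP]
    rcases lt_abs.1 hζn with hbig | hsmall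
    · -- order of the root larger than `τ + δ`: the index moves to `j + 1`
      have hmain : (Polynomial.X * Q).coeff (j + 1) + (-ζ) * Q.coeff (j + 1) ≠ 0 ∧
          ordZ w ((Polynomial.X * Q).coeff (j + 1) + (-ζ) * Q.coeff (j + 1)) =
            ordZ w (Q.coeff j) := by
        rw [hXs]
        refine ordZ_add_of_lt w hj ?_
        by_cases h0 : Q.coeff (j + 1) = 0
        · left; rw [h0, mul_zero]
        · right
          have h1 := hdom (j + 1) (by omega) h0
          have h2 := hord (j + 1) h0
          have h3 : (ordZ w (Q.coeff j) : ℝ) < ordZ w ((-ζ) * Q.coeff (j + 1)) := by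
            rw [h2]
            push_cast at h1
            linarith
          exact_mod_cast h3
      refine ⟨j + 1, by rw [hco]; exact hmain.1, fun l hl hne => ?_⟩
      rw [hco] at hne
      rw [hco, hco, hmain.2]
      have h4 : (ordZ w (Q.coeff j) : ℝ) + ((j + 1 : ℕ) : ℝ) * τ + δ - l * τ <
          ordZ w ((Polynomial.X * Q).coeff l + (-ζ) * Q.coeff l) := by
        refine Newton_lt_add w hne _ ?_ ?_
        · rcases l with _ | l
          · left; exact hX0
          · rw [hXs]
            by_cases h0 : Q.coeff l = 0
            · left; exact h0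
            · right
              have h1 := hdom l (by omega) h0
              push_cast
              linarith
        · by_cases h0 : Q.coeff l = 0
          · left; rw [h0, mul_zero]
          · right
            rw [hord l h0]
            by_cases hlj : l = j
            · subst hlj
              push_cast
              linarith
            · have h1 := hdom l hlj h0
              push_cast
              linarith
      linarith
    · -- order of the root smaller than `τ - δ`: the index stays
      have hmain : (Polynomial.X * Q).coeff j + (-ζ) * Q.coeff j ≠ 0 ∧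
          ordZ w ((Polynomial.X * Q).coeff j + (-ζ) * Q.coeff j) =
            ordZ w ((-ζ) * Q.coeff j) := by
        rw [add_comm]
        refine ordZ_add_of_lt w (mul_ne_zero (neg_ne_zero.2 hζ) hj) ?_
        rcases j with _ | j
        · left; exact hX0
        · rw [hXs]
          by_cases h0 : Q.coeff j = 0
          · left; exact h0
          · right
            have h1 := hdom j (by omega) h0
            have h2 := hord (j + 1) hj
            have h3 : (ordZ w ((-ζ) * Q.coeff (j + 1)) : ℝ) < ordZ w (Q.coeff j) := by
              rw [h2]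
              push_cast at h1
              linarith
            exact_mod_cast h3
      refine ⟨j, by rw [hco]; exact hmain.1, fun l hl hne => ?_⟩
      rw [hco] at hne
      rw [hco, hco, hmain.2, hord j hj]
      have h4 : (ordZ w ζ : ℝ) + ordZ w (Q.coeff j) + j * τ + δ - l * τ <
          ordZ w ((Polynomial.X * Q).coeff l + (-ζ) * Q.coeff l) := by
        refine Newton_lt_add w hne _ ?_ ?_
        · rcases l with _ | l
          · left; exact hX0
          · rw [hXs]
            by_cases h0 : Q.coeff l = 0
            · left; exact h0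
            · right
              by_cases hlj : l = j
              · subst hlj
                push_cast
                linarith
              · have h1 := hdom l hlj h0
                push_cast
                linarith
        · by_cases h0 : Q.coeff l = 0
          · left; rw [h0, mul_zero]
          · right
            rw [hord l h0]
            have h1 := hdom l hl h0
            linarith
      linarith

/-- Let `P = c ∏ (X - ζ)` over the multiset `s` of non-zero roots, `v l = ord (coeff l) + l τ`.
If two different `l` have `v l ≤ min v + δ` then a root has `|ord ζ - τ| ≤ δ`.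
Proof: suppose that no root has this property. By induction on `s` there is an index `j` with
`coeff j ≠ 0` and `v l > v j + δ` for all `l ≠ j` with `coeff l ≠ 0`: multiplying by `X - ζ` the
new coefficient is `a_{l-1} - ζ a_l`; if `ord ζ < τ - δ`, the same `j` works, with new value
`v j + ord ζ`; if `ord ζ > τ + δ` then `j + 1` works, with new value `v j + τ`. -/
theorem newton_near {M : Type} [Field M] (w : AddValuation M (WithTop ℤ)) (s : Multiset M)
    (hs : ∀ ζ ∈ s, ζ ≠ 0) (c : M) (hc : c ≠ 0) (τ δ : ℝ) (hδ : 0 ≤ δ) (P : Polynomial M)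
    (hP : P = Polynomial.C c * (s.map fun ζ => Polynomial.X - Polynomial.C ζ).prod)
    (j₀ j₁ : ℕ) (hj : j₀ ≠ j₁) (h₀ : P.coeff j₀ ≠ 0) (h₁ : P.coeff j₁ ≠ 0)
    (m₀ : ∀ l, P.coeff l ≠ 0 →
      (ordZ w (P.coeff j₀) : ℝ) + j₀ * τ ≤ ordZ w (P.coeff l) + l * τ + δ)
    (m₁ : ∀ l, P.coeff l ≠ 0 →
      (ordZ w (P.coeff j₁) : ℝ) + j₁ * τ ≤ ordZ w (P.coeff l) + l * τ + δ) :
    ∃ ζ ∈ s, |(ordZ w ζ : ℝ) - τ| ≤ δ := by
  by_contra hcon
  push Not at hcon
  obtain ⟨j, hj', hdom⟩ := Newton_dom w c hc τ δ hδ s hs hcon
  rw [← hP] at hj'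
  have e₀ : j₀ = j := by
    by_contra h
    have h1 := hdom j₀ h (by rw [← hP]; exact h₀)
    rw [← hP] at h1
    have h2 := m₀ j hj'
    linarith
  have e₁ : j₁ = j := by
    by_contra h
    have h1 := hdom j₁ h (by rw [← hP]; exact h₁)
    rw [← hP] at h1
    have h2 := m₁ j hj'
    linarith
  exact hj (e₀.trans e₁.symm)

end Pool.Agent.Lib_MP_e0d435_kv
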