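import Pool.Agent.Lib_MP_e0d435_kv.Defs

/-! V16b: a point outside finitely many discs. -/

open MeasureTheory

namespace Pool.Agent.Lib_MP_e0d435_kv

private theorem Outside_vol (D : ℕ) (ρ : ℝ) (hρ : 0 ≤ ρ) (T : Set ℂ) (c : Fin D → ℂ)
    (h : ∀ y0 ∈ T, ∃ a, ‖y0 - c a‖ ≤ ρ) : volume T ≤ ENNReal.ofReal (D * (ρ ^ 2 * Real.pi)) := by
  have h1 : T ⊆ ⋃ a, Metric.closedBall (c a) ρ := by
    intro y hy
    obtain ⟨a, ha⟩ := h y hy
    refine Set.mem_iUnion.2 ⟨a, ?_⟩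
    rwa [Metric.mem_closedBall, dist_eq_norm]
  have h2 : ∀ a, volume (Metric.closedBall (c a) ρ) = ENNReal.ofReal (ρ ^ 2 * Real.pi) := by
    intro a
    rw [Complex.volume_closedBall, ENNReal.ofReal_mul (sq_nonneg _), ENNReal.ofReal_pow hρ,
      ← NNReal.coe_real_pi, ENNReal.ofReal_coe_nnreal]
  calc volume T ≤ volume (⋃ a, Metric.closedBall (c a) ρ) := measure_mono h1
    _ ≤ ∑ a, volume (Metric.closedBall (c a) ρ) := measure_iUnion_fintype_le _ _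
    _ = ENNReal.ofReal (D * (ρ ^ 2 * Real.pi)) := by
      rw [Finset.sum_congr rfl fun a _ => h2 a, Finset.sum_const, Finset.card_univ,
        Fintype.card_fin, nsmul_eq_mul, ENNReal.ofReal_mul (Nat.cast_nonneg D),
        ENNReal.ofReal_natCast]

/-- Proof: the union of the closed discs has volume `≤ D π ε^(2(l+2)η₁)`. -/
theorem exists_outside (D : ℕ) (η₁ : ℝ) (hη : 0 < η₁) :
    ∃ ε₀ : ℝ, 0 < ε₀ ∧ ε₀ < 1 ∧ ∀ ε, 0 < ε → ε < ε₀ → ∀ (l : ℕ) (T : Set ℂ) (c : Fin D → ℂ),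
      ENNReal.ofReal (ε ^ (2 * ((l + 1) * η₁))) < volume T →
      ∃ y0 ∈ T, ∀ a, ε ^ ((l + 2) * η₁) < ‖y0 - c a‖ := by
  have hD : (0 : ℝ) < (4 * (D + 1 : ℝ))⁻¹ := by positivity
  refine ⟨min (1 / 2) ((4 * (D + 1 : ℝ))⁻¹ ^ (1 / (2 * η₁))),
    lt_min (by norm_num) (Real.rpow_pos_of_pos hD _),
    (min_le_left _ _).trans_lt (by norm_num), ?_⟩
  intro ε hε hε0 l T c hT
  by_contra hcon
  push Not at hcon
  have h1 := Outside_vol D (ε ^ ((l + 2) * η₁)) (Real.rpow_nonneg hε.le _) T c hcon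
  have h2 : ε ^ (2 * η₁) ≤ (4 * (D + 1 : ℝ))⁻¹ := by
    calc ε ^ (2 * η₁) ≤ ((4 * (D + 1 : ℝ))⁻¹ ^ (1 / (2 * η₁))) ^ (2 * η₁) :=
          Real.rpow_le_rpow hε.le (hε0.le.trans (min_le_right _ _)) (by positivity)
      _ = (4 * (D + 1 : ℝ))⁻¹ := by
          rw [← Real.rpow_mul hD.le, one_div, inv_mul_cancel₀ (by positivity), Real.rpow_one]
  have h3 : (ε ^ ((l + 2) * η₁)) ^ 2 = ε ^ (2 * ((l + 1) * η₁)) * ε ^ (2 * η₁) := by
    rw [← Real.rpow_natCast, ← Real.rpow_mul hε.le, ← Real.rpow_add hε]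
    congr 1
    push_cast
    ring
  have h4 : (D : ℝ) * ((ε ^ ((l + 2) * η₁)) ^ 2 * Real.pi) ≤ ε ^ (2 * ((l + 1) * η₁)) := by
    rw [h3]
    have h5 : 0 < ε ^ (2 * ((l + 1) * η₁)) := Real.rpow_pos_of_pos hε _
    have h6 : (D : ℝ) * (ε ^ (2 * η₁) * Real.pi) ≤ 1 := by
      have hp : Real.pi ≤ 4 := Real.pi_le_four
      have hp0 : 0 ≤ Real.pi := Real.pi_pos.le
      have hD0 : (0 : ℝ) ≤ D := Nat.cast_nonneg D
      calc (D : ℝ) * (ε ^ (2 * η₁) * Real.pi) ≤ D * ((4 * (D + 1 : ℝ))⁻¹ * 4) := by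
            gcongr
        _ = D / (D + 1) := by
            field_simp
        _ ≤ 1 := by
            rw [div_le_one (by positivity)]
            linarith
    calc (D : ℝ) * (ε ^ (2 * ((l + 1) * η₁)) * ε ^ (2 * η₁) * Real.pi)
        = ε ^ (2 * ((l + 1) * η₁)) * ((D : ℝ) * (ε ^ (2 * η₁) * Real.pi)) := by ring
      _ ≤ ε ^ (2 * ((l + 1) * η₁)) * 1 := mul_le_mul_of_nonneg_left h6 h5.le
      _ = _ := mul_one _
  exact absurd (hT.trans_le (h1.trans (ENNReal.ofReal_le_ofReal h4))) (lt_irrefl _)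

end Pool.Agent.Lib_MP_e0d435_kv
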