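import Pool.Agent.Lib_MP_e0d435_kv.Defs

/-! V13: existence of specialisations. -/

namespace Pool.Agent.Lib_MP_e0d435_kv

/-- evaluations extend to integral extensions -/
private theorem Point_extend {A Q : Type} [CommRing A] [CommRing Q] [Algebra A Q]
    [Algebra.IsIntegral A Q] (ev : A →+* ℂ) (hev : Function.Surjective ev)
    (hker : RingHom.ker (algebraMap A Q) ≤ RingHom.ker ev) :
    ∃ φ : Q →+* ℂ, ∀ a, φ (algebraMap A Q a) = ev a := by
  have hmax : (RingHom.ker ev).IsMaximal := RingHom.ker_isMaximal_of_surjective ev hev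
  obtain ⟨M, hM, hcomap⟩ := Ideal.exists_ideal_over_maximal_of_isIntegral (S := Q)
    (RingHom.ker ev) hker
  let _ : Field (Q ⧸ M) := Ideal.Quotient.field M
  let g : A →+* Q ⧸ M := (Ideal.Quotient.mk M).comp (algebraMap A Q)
  have hg : RingHom.ker ev ≤ RingHom.ker g := by
    intro a ha
    rw [← hcomap, Ideal.mem_comap] at ha
    rw [RingHom.mem_ker]
    exact Ideal.Quotient.eq_zero_iff_mem.2 ha
  let ι : ℂ →+* Q ⧸ M := RingHom.liftOfRightInverse ev (Function.surjInv hev)
    (Function.rightInverse_surjInv hev) ⟨g, hg⟩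
  have hι : ∀ a, ι (ev a) = g a := fun a =>
    RingHom.liftOfRightInverse_comp_apply ev (Function.surjInv hev)
      (Function.rightInverse_surjInv hev) ⟨g, hg⟩ a
  have hgi : g.IsIntegral := RingHom.IsIntegral.trans _ _ (algebraMap_isIntegral_iff.2 inferInstance)
    (RingHom.isIntegral_of_surjective _ Ideal.Quotient.mk_surjective)
  have hcomp : ι.comp ev = g := RingHom.ext hι
  have hιi : ι.IsIntegral := RingHom.IsIntegral.tower_top (f := ev) (g := ι) (by rw [hcomp]; exact hgi)
  let _ : Algebra ℂ (Q ⧸ M) := ι.toAlgebra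
  have hint : Algebra.IsIntegral ℂ (Q ⧸ M) := ⟨hιi⟩
  have hbij : Function.Bijective (algebraMap ℂ (Q ⧸ M)) :=
    IsAlgClosed.algebraMap_bijective_of_isIntegral
  let e : ℂ ≃+* Q ⧸ M := RingEquiv.ofBijective (algebraMap ℂ (Q ⧸ M)) hbij
  refine ⟨(e.symm : Q ⧸ M →+* ℂ).comp (Ideal.Quotient.mk M), fun a => ?_⟩
  show e.symm (g a) = ev a
  rw [← hι a]
  exact e.symm_apply_apply (ev a)

/-- Proof: let `A' = ℂ[X, 1/h]` (embedded in `N` by `f`) and `Q = A'[ρ]`, integral over
`A'` and finitely generated over `ℂ`. The evaluation at `y` is a homomorphism `A' → ℂ` with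
kernel a maximal ideal `m`; there is a maximal ideal of `Q` over `m` (lying over), its residue
field is a finitely generated `ℂ`-algebra and a field, so `ℂ` (Zariski / Nullstellensatz), or:
algebraic over `A'/m = ℂ`. `ζ a` = the image of `ρ a`. -/
theorem exists_point {k D : ℕ} {N : Type} [Field N] (f : Pol k →+* N)
    (hf : Function.Injective f) (ρ : Fin D → N) (h : Pol k)
    (hint : ∀ a, ∃ p : Polynomial (Pol k), p.leadingCoeff ∣ h ∧ p.eval₂ f (ρ a) = 0)
    (y : Fin k → ℂ) (hy : MvPolynomial.eval y h ≠ 0) :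
    ∃ ζ : Fin D → ℂ, Specialises f ρ y ζ := by
  have hh : h ≠ 0 := fun h0 => hy (by rw [h0, map_zero])
  have hfh : IsUnit (f h) := by
    rw [isUnit_iff_ne_zero]
    exact fun h0 => hh (hf (by rw [h0, map_zero]))
  let A' : Type := Localization.Away h
  let f' : A' →+* N := IsLocalization.Away.lift h hfh
  have hf' : ∀ a, f' (algebraMap (Pol k) A' a) = f a := fun a => IsLocalization.Away.lift_eq h hfh a
  let ev' : A' →+* ℂ := IsLocalization.Away.lift (g := MvPolynomial.eval y) h (isUnit_iff_ne_zero.2 hy)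
  have hev' : ∀ a, ev' (algebraMap (Pol k) A' a) = MvPolynomial.eval y a := fun a =>
    IsLocalization.Away.lift_eq h (isUnit_iff_ne_zero.2 hy) a
  let _ : Algebra (Pol k) N := f.toAlgebra
  let _ : Algebra A' N := f'.toAlgebra
  have _ : IsScalarTower (Pol k) A' N := IsScalarTower.of_algebraMap_eq fun a => (hf' a).symm
  have hρ : ∀ a, IsIntegral A' (ρ a) := by
    intro a
    obtain ⟨p, hp1, hp2⟩ := hint a
    have h1 : IsIntegral (Pol k) (p.leadingCoeff • ρ a) :=
      isIntegral_leadingCoeff_smul p (ρ a) (by rw [Polynomial.aeval_def]; exact hp2)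
    have h2 : IsIntegral A' (p.leadingCoeff • ρ a) := h1.tower_top
    have h3 : IsUnit (algebraMap (Pol k) A' p.leadingCoeff) :=
      isUnit_of_dvd_unit (map_dvd (algebraMap (Pol k) A') hp1)
        (IsLocalization.Away.algebraMap_isUnit h)
    obtain ⟨c, hc⟩ := h3
    have h4 : ρ a = (↑c⁻¹ : A') • (p.leadingCoeff • ρ a) := by
      rw [← IsScalarTower.algebraMap_smul A' p.leadingCoeff (ρ a), ← hc, smul_smul,
        Units.inv_mul, one_smul]
    rw [h4]
    exact h2.smul _
  let Q : Subalgebra A' N := Algebra.adjoin A' (Set.range ρ)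
  have hQ : Algebra.IsIntegral A' Q := Algebra.IsIntegral.adjoin (by
    rintro _ ⟨a, rfl⟩
    exact hρ a)
  have hinj' : Function.Injective f' := by
    rw [injective_iff_map_eq_zero]
    intro a ha
    obtain ⟨m, b, hb⟩ := IsLocalization.Away.surj h a
    have h1 : f b = 0 := by
      rw [← hf' b, ← hb, map_mul, ha, zero_mul]
    have h2 : b = 0 := hf (by rw [h1, map_zero])
    rw [h2, map_zero] at hb
    have h3 : IsUnit (algebraMap (Pol k) A' h ^ m) :=
      (IsLocalization.Away.algebraMap_isUnit h).pow m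
    exact (h3.mul_left_eq_zero).1 hb
  have hev : Function.Surjective ev' := by
    intro c
    refine ⟨algebraMap (Pol k) A' (MvPolynomial.C c), ?_⟩
    rw [hev', MvPolynomial.eval_C]
  obtain ⟨φ, hφ⟩ := Point_extend (A := A') (Q := Q) ev' hev (by
    intro a ha
    rw [RingHom.mem_ker] at ha
    have h1 : f' a = 0 := congrArg Subtype.val ha
    rw [hinj' (h1.trans (map_zero f').symm)]
    exact zero_mem _)
  let z : Fin D → Q := fun a => ⟨ρ a, Algebra.subset_adjoin ⟨a, rfl⟩⟩
  refine ⟨fun a => φ (z a), ?_⟩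
  intro p hp
  have h1 : MvPolynomial.eval₂ (((algebraMap A' Q)).comp (algebraMap (Pol k) A')) z p = 0 := by
    apply Subtype.ext
    have h2 := MvPolynomial.eval₂_comp_left (Q.val : Q →+* N)
      (((algebraMap A' Q)).comp (algebraMap (Pol k) A')) z p
    have h3 : ((Q.val : Q →+* N)).comp (((algebraMap A' Q)).comp (algebraMap (Pol k) A')) = f :=
      RingHom.ext hf'
    rw [h3] at h2
    exact h2.trans hp
  have h4 := MvPolynomial.eval₂_comp_left φ
    (((algebraMap A' Q)).comp (algebraMap (Pol k) A')) z p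
  rw [h1, map_zero] at h4
  have h5 : φ.comp (((algebraMap A' Q)).comp (algebraMap (Pol k) A')) = MvPolynomial.eval y :=
    RingHom.ext fun a => (hφ _).trans (hev' a)
  rw [h5] at h4
  exact h4.symm

/-- Specialisation of elements which are polynomials in the `z i`. Proof: substitute. -/
theorem Specialises.comp {k P P' : ℕ} {N : Type} [CommRing N] {f : Pol k →+* N} {z : Fin P → N}
    {y : Fin k → ℂ} {ζ : Fin P → ℂ} (h : Specialises f z y ζ)
    (p : Fin P' → MvPolynomial (Fin P) (Pol k)) :
    Specialises f (fun i => MvPolynomial.eval₂ f z (p i)) y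
      (fun i => MvPolynomial.eval₂ (MvPolynomial.eval y) ζ (p i)) := by
  intro q hq
  have h1 := h (MvPolynomial.bind₁ p q)
  have h2 := MvPolynomial.eval₂Hom_bind₁ f z p q
  have h3 := MvPolynomial.eval₂Hom_bind₁ (MvPolynomial.eval y) ζ p q
  exact h3.symm.trans (h1 (h2.trans hq))

end Pool.Agent.Lib_MP_e0d435_kv
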