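import Pool.Agent.Lib_MP_e0d435_kv.Vring

/-! V04: residues are algebraic. -/

namespace Pool.Agent.Lib_MP_e0d435_kv

private theorem resPol_fin {M : Type} [Field M] (w : AddValuation M (WithTop ℤ)) {x : M}
    (hx : x ≠ 0) : ∃ k : ℤ, w x = k := by
  have h : w x ≠ ⊤ := fun h => hx ((AddValuation.top_iff w).1 h)
  exact ⟨(w x).untop h, (WithTop.coe_untop _ _).symm⟩

private theorem resPol_const {M : Type} [Field M] [Algebra ℂ M] (w : AddValuation M (WithTop ℤ))
    (c : ℂ) (hc : c ≠ 0) : w (algebraMap ℂ M c) = 0 := by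
  have hinj : Function.Injective (algebraMap ℂ M) := (algebraMap ℂ M).injective
  have h0 : algebraMap ℂ M c ≠ 0 := fun h => hc (hinj (by rw [h, map_zero]))
  obtain ⟨k, hk⟩ := resPol_fin w h0
  obtain ⟨d, hd⟩ := IsAlgClosed.exists_pow_nat_eq c (n := k.natAbs + 1) (by omega)
  have hd0 : d ≠ 0 := by
    rintro rfl
    rw [zero_pow (by omega)] at hd
    exact hc hd.symm
  have hd1 : algebraMap ℂ M d ≠ 0 := fun h => hd0 (hinj (by rw [h, map_zero]))
  obtain ⟨j, hj⟩ := resPol_fin w hd1
  have h1 : (k : WithTop ℤ) = ((((k.natAbs + 1 : ℕ) : ℤ) * j : ℤ) : WithTop ℤ) := by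
    rw [← hk, ← hd, map_pow, AddValuation.map_pow, hj, ← WithTop.coe_nsmul, nsmul_eq_mul]
  have h2 : k = ((k.natAbs + 1 : ℕ) : ℤ) * j := by exact_mod_cast h1
  have h3 : k = 0 := by
    by_contra hk0
    have hj0 : j ≠ 0 := by
      rintro rfl
      rw [mul_zero] at h2
      exact hk0 h2
    have h4 : k.natAbs = (k.natAbs + 1) * j.natAbs := by
      conv_lhs => rw [h2]
      rw [Int.natAbs_mul, Int.natAbs_natCast]
    have h5 : 1 ≤ j.natAbs := Nat.one_le_iff_ne_zero.2 (Int.natAbs_ne_zero.2 hj0)
    have h6 := Nat.mul_le_mul_left (k.natAbs + 1) h5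
    rw [← h4, mul_one] at h6
    omega
  rw [hk, h3]
  rfl

private theorem resPol_nat {M : Type} [Field M] [Algebra ℂ M] (w : AddValuation M (WithTop ℤ))
    (n : ℕ) (hn : n ≠ 0) : w (n : M) = 0 := by
  have h := resPol_const w (n : ℂ) (by exact_mod_cast hn)
  rwa [map_natCast] at h

/-- V04: the residue of a unit is algebraic: for `w' u = 0` there is a polynomial with coefficients
of order `≥ 0` with `w' (P u) > 0`, `w' (P' u) = 0`. Proof: `1, u, …, u ^ D`, `D = [M' : M]`, are
linearly dependent over `M`; dividing the relation by a coefficient of least order gives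
`∑ a_i u ^ i = 0` with all `w a_i ≥ 0` and one `w a_i = 0`. So there are polynomials `P` over
`vring w`, not all of whose coefficients have positive order, with `w' (P u) > 0`. Take one whose
reduction (the polynomial of the coefficients of order `0`) has least degree; dropping coefficients
of positive order, the leading coefficient has order `0` and the degree is positive
(a constant of order `0` has `w' = 0`). The derivative has smaller degree and leading coefficient
`n a_n` of order `0`, so by minimality not `w' (P' u) > 0`, i.e. `w' (P' u) = 0`. -/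
theorem exists_residue_polynomial {M M' : Type} [Field M] [CharZero M] [Field M'] [Algebra ℂ M]
    [Algebra M M'] [FiniteDimensional M M'] (w : AddValuation M (WithTop ℤ))
    (w' : AddValuation M' (WithTop ℤ)) (e : ℕ) (he : 1 ≤ e)
    (hw : ∀ f : M, w' (algebraMap M M' f) = e • w f) (u : M') (hu : w' u = 0) :
    ∃ P : Polynomial M, (∀ i, 0 ≤ w (P.coeff i)) ∧ 0 < w' (Polynomial.aeval u P) ∧
      w' (Polynomial.aeval u (Polynomial.derivative P)) = 0 := by
  classical
  -- the set of candidates
  let S : Polynomial M → Prop := fun P =>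
    (∀ i, 0 ≤ w (P.coeff i)) ∧ (∃ i, w (P.coeff i) = 0) ∧ 0 < w' (Polynomial.aeval u P)
  have hpos : ∀ f : M, 0 < w f → 0 < w' (algebraMap M M' f) := by
    intro f hf
    rw [hw]
    exact nsmul_pos hf (by omega)
  have hup : ∀ i : ℕ, w' (u ^ i) = 0 := by
    intro i
    rw [AddValuation.map_pow, hu, nsmul_zero]
  have hmono : ∀ (f : M) (i : ℕ), w' (algebraMap M M' f * u ^ i) = w' (algebraMap M M' f) := by
    intro f i
    rw [AddValuation.map_mul, hup, add_zero]
  have hnn : ∀ P : Polynomial M, (∀ i, 0 ≤ w (P.coeff i)) → 0 ≤ w' (Polynomial.aeval u P) := by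
    intro P hP
    rw [Polynomial.aeval_eq_sum_range]
    refine AddValuation.map_le_sum _ fun i _ => ?_
    rw [Algebra.smul_def, hmono, hw]
    exact nsmul_nonneg (hP i) e
  have hne : ∃ P, S P := by
    set p := minpoly M u with hp
    have hp0 : p ≠ 0 := minpoly.ne_zero (Algebra.IsIntegral.isIntegral u)
    obtain ⟨i, hi, hmin⟩ := Finset.exists_min_image p.support (fun i => w (p.coeff i))
      (Polynomial.nonempty_support_iff.2 hp0)
    have hc : p.coeff i ≠ 0 := Polynomial.mem_support_iff.1 hi
    have hcancel : w ((p.coeff i)⁻¹) + w (p.coeff i) = 0 := by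
      rw [← AddValuation.map_mul, inv_mul_cancel₀ hc, AddValuation.map_one]
    refine ⟨Polynomial.C (p.coeff i)⁻¹ * p, ?_, ⟨i, ?_⟩, ?_⟩
    · intro j
      rw [Polynomial.coeff_C_mul, AddValuation.map_mul]
      by_cases hj : p.coeff j = 0
      · rw [hj, AddValuation.map_zero]
        simp
      · rw [← hcancel]
        exact add_le_add_right (hmin j (Polynomial.mem_support_iff.2 hj)) _
    · rw [Polynomial.coeff_C_mul, AddValuation.map_mul, hcancel]
    · rw [map_mul, hp, minpoly.aeval, mul_zero, AddValuation.map_zero]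
      exact WithTop.coe_lt_top 0
  -- minimal degree
  obtain ⟨P, ⟨hP1, hP2, hP3⟩, hPmin⟩ :
      ∃ P, S P ∧ ∀ Q, S Q → P.natDegree ≤ Q.natDegree := by
    obtain ⟨P0, hP0⟩ := hne
    have hex : ∃ n, ∃ P, S P ∧ P.natDegree = n := ⟨_, P0, hP0, rfl⟩
    obtain ⟨P, hP, hd⟩ := Nat.find_spec hex
    refine ⟨P, hP, fun Q hQ => ?_⟩
    rw [hd]
    exact Nat.find_min' hex ⟨Q, hQ, rfl⟩
  -- the leading coefficient has order zero
  have hlead : w (P.coeff P.natDegree) = 0 := by
    by_contra hl
    have hl' : 0 < w (P.coeff P.natDegree) := lt_of_le_of_ne (hP1 _) (Ne.symm hl)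
    obtain ⟨i, hi⟩ := hP2
    have hin : i ≠ P.natDegree := by
      rintro rfl
      exact hl hi
    have hile : i ≤ P.natDegree := by
      apply Polynomial.le_natDegree_of_ne_zero
      intro h
      rw [h, AddValuation.map_zero] at hi
      exact absurd hi (by simp)
    have hQ : S P.eraseLead := by
      refine ⟨?_, ⟨i, ?_⟩, ?_⟩
      · intro j
        rw [Polynomial.eraseLead_coeff]
        split_ifs with h
        · rw [AddValuation.map_zero]
          simp
        · exact hP1 j
      · rw [Polynomial.eraseLead_coeff_of_ne _ hin]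
        exact hi
      · have h1 : Polynomial.aeval u P.eraseLead = Polynomial.aeval u P -
            algebraMap M M' (P.coeff P.natDegree) * u ^ P.natDegree := by
          rw [eq_sub_iff_add_eq]
          conv_rhs => rw [← Polynomial.eraseLead_add_monomial_natDegree_leadingCoeff P]
          rw [map_add, Polynomial.aeval_monomial]
          rfl
        rw [h1]
        refine lt_of_lt_of_le ?_ (AddValuation.map_sub w' _ _)
        refine lt_min hP3 ?_
        rw [hmono]
        exact hpos _ hl'
    have h2 := hPmin _ hQ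
    have h3 : P.eraseLead.natDegree < P.natDegree := by
      rcases Polynomial.eraseLead_natDegree_lt_or_eraseLead_eq_zero P with h | h
      · exact h
      · exfalso
        have := hQ.2.1
        rw [h] at this
        obtain ⟨k, hk⟩ := this
        rw [Polynomial.coeff_zero, AddValuation.map_zero] at hk
        exact absurd hk (by simp)
    omega
  have hdeg : P.natDegree ≠ 0 := by
    intro h0
    have h1 : P = Polynomial.C (P.coeff 0) := Polynomial.eq_C_of_natDegree_eq_zero h0
    rw [h0] at hlead
    rw [h1, Polynomial.aeval_C, hw, hlead, nsmul_zero] at hP3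
    exact lt_irrefl _ hP3
  refine ⟨P, hP1, hP3, ?_⟩
  have hD1 : ∀ i, 0 ≤ w ((Polynomial.derivative P).coeff i) := by
    intro i
    rw [Polynomial.coeff_derivative, AddValuation.map_mul]
    have : ((i : M) + 1) = ((i + 1 : ℕ) : M) := by push_cast; ring
    rw [this, resPol_nat w (i + 1) (by omega), add_zero]
    exact hP1 _
  refine le_antisymm ?_ (hnn _ hD1)
  by_contra hcon
  rw [not_le] at hcon
  have hSd : S (Polynomial.derivative P) := by
    refine ⟨hD1, ⟨P.natDegree - 1, ?_⟩, hcon⟩
    rw [Polynomial.coeff_derivative, AddValuation.map_mul]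
    have h1 : (((P.natDegree - 1 : ℕ) : M) + 1) = ((P.natDegree - 1 + 1 : ℕ) : M) := by
      push_cast
      ring
    rw [h1, resPol_nat w (P.natDegree - 1 + 1) (by omega), add_zero]
    have h2 : P.natDegree - 1 + 1 = P.natDegree := by omega
    rw [h2]
    exact hlead
  have h1 := hPmin _ hSd
  have h2 := Polynomial.natDegree_derivative_lt hdeg
  omega

end Pool.Agent.Lib_MP_e0d435_kv
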