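import Pool.Agent.Lib_MP_e0d435_kv.Basic

/-! V14: splitting data. -/

namespace Pool.Agent.Lib_MP_e0d435_kv

namespace RootData

variable {k J : ℕ} {g : Fin J → Pol (k + 1)} (r : RootData k J g)

/-- The factorisation at a specialisation. Proof: the coefficients of `factor` are polynomial
relations between the `ρ a`; write `finSuccEquiv` evaluated:
`eval (Fin.cons y0 y) (g i) = (finSuccEquiv ℂ k (g i)).eval₂ (eval y) y0` up to
`MvPolynomial.eval_eq_eval_mv_eval'`; for every coefficient `l` of
`finSuccEquiv (g i) - C (lead i) ∏ (X - C ρ_a) ^ m` use `Specialises`. -/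
theorem eval_eq (y : Fin k → ℂ) (ζ : Fin r.D → ℂ) (h : Specialises (toN k r.N) r.ρ y ζ)
    (i : Fin J) (y0 : ℂ) : MvPolynomial.eval (Fin.cons y0 y : Fin (k + 1) → ℂ) (g i) =
      MvPolynomial.eval y (r.lead i) * ∏ a, (y0 - ζ a) ^ (r.mult i a) := by
  set P := MvPolynomial.finSuccEquiv ℂ k (g i) with hP
  set Q : Polynomial (MvPolynomial (Fin r.D) (Pol k)) :=
    P.map MvPolynomial.C - Polynomial.C (MvPolynomial.C (r.lead i)) *
      ∏ a, (Polynomial.X - Polynomial.C (MvPolynomial.X a)) ^ (r.mult i a) with hQ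
  have key : ∀ {S : Type} [CommRing S] (f : Pol k →+* S) (z : Fin r.D → S),
      Q.map (MvPolynomial.eval₂Hom f z) = P.map f - Polynomial.C (f (r.lead i)) *
        ∏ a, (Polynomial.X - Polynomial.C (z a)) ^ (r.mult i a) := by
    intro S _ f z
    rw [hQ, Polynomial.map_sub, Polynomial.map_mul, Polynomial.map_map, Polynomial.map_C,
      MvPolynomial.eval₂Hom_comp_C, MvPolynomial.coe_eval₂Hom, MvPolynomial.eval₂_C,
      Polynomial.map_prod]
    congr 2
    refine Finset.prod_congr rfl fun a _ => ?_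
    rw [Polynomial.map_pow, Polynomial.map_sub, Polynomial.map_X, Polynomial.map_C,
      MvPolynomial.coe_eval₂Hom, MvPolynomial.eval₂_X]
  have h1 : Q.map (MvPolynomial.eval₂Hom (toN k r.N) r.ρ) = 0 := by
    rw [key, hP, r.factor i, sub_self]
  have h2 : Q.map (MvPolynomial.eval₂Hom (MvPolynomial.eval y) ζ) = 0 := by
    ext l
    rw [Polynomial.coeff_map, Polynomial.coeff_zero]
    refine h _ ?_
    have h3 := congrArg (fun q => Polynomial.coeff q l) h1
    simp only [Polynomial.coeff_map, Polynomial.coeff_zero] at h3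
    exact h3
  rw [key, sub_eq_zero] at h2
  rw [MvPolynomial.eval_eq_eval_mv_eval', ← hP, h2]
  simp [Polynomial.eval_mul, Polynomial.eval_prod]

/-- The factorisation at a point with values in a field. -/
theorem aeval_eq {M : Type} [Field M] [Algebra ℂ M] (ψ : r.N →+* M) (x : Fin k → M)
    (hψ : ∀ p : Pol k, ψ (toN k r.N p) = MvPolynomial.aeval x p) (i : Fin J) (x0 : M) :
    MvPolynomial.aeval (Fin.cons x0 x : Fin (k + 1) → M) (g i) =
      MvPolynomial.aeval x (r.lead i) * ∏ a, (x0 - ψ (r.ρ a)) ^ (r.mult i a) := by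
  have h0 : ∀ q : Pol (k + 1), MvPolynomial.aeval (Fin.cons x0 x : Fin (k + 1) → M) q =
      ((MvPolynomial.finSuccEquiv ℂ k q).map
        (MvPolynomial.aeval x : Pol k →ₐ[ℂ] M).toRingHom).eval x0 := by
    intro q
    have h1 : (MvPolynomial.aeval (Fin.cons x0 x : Fin (k + 1) → M) : Pol (k + 1) →ₐ[ℂ] M).toRingHom =
        ((Polynomial.evalRingHom x0).comp
          (Polynomial.mapRingHom (MvPolynomial.aeval x : Pol k →ₐ[ℂ] M).toRingHom)).comp
          (MvPolynomial.finSuccEquiv ℂ k).toRingEquiv.toRingHom := by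
      refine MvPolynomial.ringHom_ext (fun c => ?_) (fun j => ?_)
      · simp [MvPolynomial.finSuccEquiv_apply]
      · refine Fin.cases ?_ (fun j => ?_) j
        · simp [MvPolynomial.finSuccEquiv_X_zero]
        · simp [MvPolynomial.finSuccEquiv_X_succ]
    exact congrArg (fun f => f q) h1
  have h2 : ψ.comp (toN k r.N) = (MvPolynomial.aeval x : Pol k →ₐ[ℂ] M).toRingHom :=
    RingHom.ext hψ
  rw [h0, ← h2, ← Polynomial.map_map, r.factor i]
  have h3 : ψ (toN k r.N (r.lead i)) = MvPolynomial.aeval x (r.lead i) := hψ _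
  rw [Polynomial.map_mul, Polynomial.map_C, Polynomial.map_prod, Polynomial.eval_mul,
    Polynomial.eval_C, Polynomial.eval_prod, h3]
  congr 1
  refine Finset.prod_congr rfl fun a _ => ?_
  rw [Polynomial.map_pow, Polynomial.map_sub, Polynomial.map_X, Polynomial.map_C,
    Polynomial.eval_pow, Polynomial.eval_sub, Polynomial.eval_X, Polynomial.eval_C]

/-- The hypothesis of V13 for the roots, `h = ∏ lead`. Proof: `root`; for `ρ a = 0` take
`p = X`, else `p = finSuccEquiv (g i)` with `mult i a > 0`, whose leading coefficient is `lead i`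
(compare the leading coefficients in `factor`, `toN` is injective). -/
theorem integral (a : Fin r.D) : ∃ p : Polynomial (Pol k), p.leadingCoeff ∣ ∏ i, r.lead i ∧
    p.eval₂ (toN k r.N) (r.ρ a) = 0 := by
  rcases r.root a with h | ⟨i, hi⟩
  · refine ⟨Polynomial.X, ?_, ?_⟩
    · rw [Polynomial.leadingCoeff_X]
      exact one_dvd _
    · rw [Polynomial.eval₂_X, h]
  · have hinj : Function.Injective (toN k r.N) :=
      (RingHom.injective (algebraMap (Rat k) r.N)).comp (IsFractionRing.injective (Pol k) (Rat k))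
    refine ⟨MvPolynomial.finSuccEquiv ℂ k (g i), ?_, ?_⟩
    · have h1 : (MvPolynomial.finSuccEquiv ℂ k (g i)).leadingCoeff = r.lead i := by
        apply hinj
        rw [← Polynomial.leadingCoeff_map_of_injective hinj, r.factor i, Polynomial.leadingCoeff_mul,
          Polynomial.leadingCoeff_C, Polynomial.leadingCoeff_prod]
        simp
      rw [h1]
      exact Finset.dvd_prod_of_mem _ (Finset.mem_univ i)
    · rw [← Polynomial.eval_map, r.factor i, Polynomial.eval_mul, Polynomial.eval_prod]
      have h2 : ∏ b, Polynomial.eval (r.ρ a) ((Polynomial.X - Polynomial.C (r.ρ b)) ^ (r.mult i b)) = 0 := by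
        refine Finset.prod_eq_zero (Finset.mem_univ a) ?_
        simp [hi.ne']
      rw [h2, mul_zero]

end RootData

end Pool.Agent.Lib_MP_e0d435_kv
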