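import Pool.Agent.Lib_MP_e0d435_kv.Basic

/-! V14a: existence of splitting data. -/

namespace Pool.Agent.Lib_MP_e0d435_kv

open Polynomial in
private theorem rootEx_factor {N : Type} [Field N] (R : Finset N) (q : N[X]) (hq : q.Splits)
    (hR : ∀ x ∈ q.roots, x ∈ R) :
    q = C q.leadingCoeff * ∏ x ∈ R, (X - C x) ^ q.rootMultiplicity x := by
  classical
  have h1 := hq.eq_prod_roots
  have h2 : (q.roots.map fun a => X - C a).prod =
      ∏ x ∈ R, (X - C x) ^ q.rootMultiplicity x := by
    rw [Finset.prod_multiset_map_count]
    have h3 : q.roots.toFinset ⊆ R := fun x hx => hR x (Multiset.mem_toFinset.1 hx)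
    rw [← Finset.prod_subset h3]
    · refine Finset.prod_congr rfl fun x _ => ?_
      rw [count_roots]
    · intro x _ hx
      rw [← count_roots, Multiset.count_eq_zero.2 (fun h => hx (Multiset.mem_toFinset.2 h)),
        pow_zero]
  rw [← h2]
  exact h1

/-- Proof: `N` the splitting field over `Rat k` of the product of the images of the
`finSuccEquiv ℂ k (g i)` and of `X`; `ρ` an enumeration of the distinct roots in `N` of the
product; `lead i` the leading coefficient of `finSuccEquiv ℂ k (g i)`, `mult i a` the root
multiplicity (`Polynomial.Splits`, `Multiset` of roots as a product over the distinct roots: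
`Finset.prod_multiset_map_count`). -/
theorem exists_rootData (k J : ℕ) (g : Fin J → Pol (k + 1)) (hg : ∀ i, g i ≠ 0) :
    Nonempty (RootData k J g) := by
  classical
  let q : Fin J → Polynomial (Pol k) := fun i => MvPolynomial.finSuccEquiv ℂ k (g i)
  have hq : ∀ i, q i ≠ 0 := by
    intro i h
    exact hg i ((MvPolynomial.finSuccEquiv ℂ k).injective (by rw [map_zero]; exact h))
  have hinj : Function.Injective (algebraMap (Pol k) (Rat k)) := IsFractionRing.injective _ _
  let q' : Fin J → Polynomial (Rat k) := fun i => (q i).map (algebraMap (Pol k) (Rat k))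
  have hq' : ∀ i, q' i ≠ 0 := fun i => (Polynomial.map_ne_zero_iff hinj).2 (hq i)
  let P : Polynomial (Rat k) := Polynomial.X * ∏ i, q' i
  have hP : P ≠ 0 := mul_ne_zero Polynomial.X_ne_zero (Finset.prod_ne_zero_iff.2 fun i _ => hq' i)
  let N := P.SplittingField
  let al : Rat k →+* N := algebraMap (Rat k) N
  have hal : Function.Injective al := al.injective
  have hPN : P.map al ≠ 0 := (Polynomial.map_ne_zero_iff hal).2 hP
  have hsplit : (P.map al).Splits := Polynomial.SplittingField.splits P
  have hto : ∀ i, (q i).map (toN k N) = (q' i).map al := by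
    intro i
    simp only [q', Polynomial.map_map]
    rfl
  have hdvd : ∀ i, (q i).map (toN k N) ∣ P.map al := by
    intro i
    rw [hto]
    apply Polynomial.map_dvd
    exact (Finset.dvd_prod_of_mem q' (Finset.mem_univ i)).mul_left _
  have htoinj : Function.Injective (toN k N) := by
    have : (toN k N : Pol k → N) = al ∘ algebraMap (Pol k) (Rat k) := rfl
    rw [this]
    exact hal.comp hinj
  have hne : ∀ i, (q i).map (toN k N) ≠ 0 := fun i => (Polynomial.map_ne_zero_iff htoinj).2 (hq i)
  let R : Finset N := (P.map al).roots.toFinset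
  have h0R : (0 : N) ∈ R := by
    rw [Multiset.mem_toFinset, Polynomial.mem_roots hPN]
    simp [P, Polynomial.IsRoot]
  let E : Fin R.card ≃ R := R.equivFin.symm
  have hprod : ∀ i, ∏ x ∈ R, (Polynomial.X - Polynomial.C x) ^
      ((q i).map (toN k N)).rootMultiplicity x =
      ∏ a : Fin R.card, (Polynomial.X - Polynomial.C (E a : N)) ^
        ((q i).map (toN k N)).rootMultiplicity (E a : N) := by
    intro i
    rw [← Finset.prod_coe_sort]
    exact (Fintype.prod_equiv E _ _ fun a => rfl).symm
  refine ⟨{
    N := N
    field := inferInstance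
    algebra := inferInstance
    finite := inferInstance
    galois := ?_
    D := R.card
    ρ := fun a => (E a : N)
    inj := fun a b h => E.injective (Subtype.ext h)
    zero := ⟨E.symm ⟨0, h0R⟩, by simp⟩
    lead := fun i => (q i).leadingCoeff
    lead_ne := fun i => Polynomial.leadingCoeff_ne_zero.2 (hq i)
    mult := fun i a => ((q i).map (toN k N)).rootMultiplicity (E a : N)
    factor := ?_
    root := ?_ }⟩
  · have hn : Normal (Rat k) N := Normal.of_isSplittingField P
    have hc : CharZero (Rat k) := (RingHom.charZero_iff hinj).1 inferInstance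
    have hs : Algebra.IsSeparable (Rat k) N := inferInstance
    exact { hs, hn with }
  · intro i
    rw [← hprod i]
    have h1 := rootEx_factor R ((q i).map (toN k N)) (hsplit.of_dvd hPN (hdvd i)) (by
      intro x hx
      rw [Multiset.mem_toFinset]
      exact Multiset.mem_of_le (Polynomial.roots.le_of_dvd hPN (hdvd i)) hx)
    rw [Polynomial.leadingCoeff_map_of_injective htoinj] at h1
    exact h1
  · intro a
    have h1 : (E a : N) ∈ R := (E a).2
    rw [Multiset.mem_toFinset, Polynomial.mem_roots hPN] at h1
    simp only [P, Polynomial.IsRoot, Polynomial.map_mul, Polynomial.map_X, Polynomial.map_prod,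
      Polynomial.eval_mul, Polynomial.eval_X, Polynomial.eval_prod, mul_eq_zero] at h1
    rcases h1 with h1 | h1
    · exact Or.inl h1
    · right
      obtain ⟨i, -, hi⟩ := Finset.prod_eq_zero_iff.1 h1
      refine ⟨i, ?_⟩
      rw [Polynomial.rootMultiplicity_pos (hne i), hto]
      exact hi

end Pool.Agent.Lib_MP_e0d435_kv
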