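import Pool.Agent.Lib_MP_e0d435_kv.Conj
import Pool.Agent.Lib_MP_e0d435_kv.Gauss
import Pool.Agent.Lib_MP_e0d435_kv.Point
import Pool.Agent.Lib_MP_e0d435_kv.Root
import Pool.Agent.Lib_MP_e0d435_kv.RootEx
import Pool.Agent.Lib_MP_e0d435_kv.StepNum

/-! V15: adding one variable. -/

namespace Pool.Agent.Lib_MP_e0d435_kv

private theorem step_toN_injective (k : ℕ) (N : Type) [Field N] [Algebra (Rat k) N] :
    Function.Injective (toN k N) :=
  (algebraMap (Rat k) N).injective.comp (IsFractionRing.injective (Pol k) (Rat k))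

/-- The valuation of the Gauss extension on the ground field. -/
private theorem step_w_gauss {k : ℕ} (Λ : LDF k) (Λ' : LDF (k + 1)) (ι : Λ.M →ₐ[ℂ] Λ'.M)
    (u : Λ'.M) (hw : ∀ a b : Λ.M, Λ'.w (ι a + ι b * u) = min (Λ.w a) (Λ.w b)) (f : Λ.M) :
    ordZ Λ'.w (ι f) = ordZ Λ.w f := by
  have h := hw f 0
  rw [map_zero, zero_mul, add_zero, AddValuation.map_zero, min_eq_left le_top] at h
  unfold ordZ
  rw [h]

/-- Approximation of a difference. -/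
private theorem step_approx {Q η₁ l2 : ℝ} (hQ : 0 ≤ Q) (hl2 : l2 ≤ η₁) {o p : ℤ} {m γs s : ℝ}
    (hp : |(p : ℝ) - Q * γs| ≤ Q * η₁) (ho : |(o : ℝ) - Q * s| ≤ Q * η₁)
    (hm : |m - min γs s| ≤ l2) : |((min o p : ℤ) : ℝ) - Q * m| ≤ Q * (2 * η₁) := by
  have h1 : |min (o : ℝ) (p : ℝ) - min (Q * s) (Q * γs)| ≤ Q * η₁ :=
    (abs_min_sub_min_le_max _ _ _ _).trans (max_le ho hp)
  have h2 : min (Q * s) (Q * γs) = Q * min γs s := by
    rw [min_comm, mul_min_of_nonneg _ _ hQ]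
  have h3 : |Q * min γs s - Q * m| ≤ Q * η₁ := by
    rw [← mul_sub, abs_mul, abs_of_nonneg hQ, abs_sub_comm]
    exact mul_le_mul_of_nonneg_left (hm.trans hl2) hQ
  rw [h2] at h1
  push_cast
  calc |min (o : ℝ) (p : ℝ) - Q * m| ≤ |min (o : ℝ) (p : ℝ) - Q * min γs s| +
        |Q * min γs s - Q * m| := abs_sub_le _ _ _
    _ ≤ Q * η₁ + Q * η₁ := add_le_add h1 h3
    _ = Q * (2 * η₁) := by ring

/-- Proof. `r : RootData k J g`; `z` = the family of all differences `ρ a - ρ b`, `a ≠ b`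
(indexed by a `Fin P`), non-zero. `conj_select` for `z` and a small `η₁` gives `g₁`, `η₁'`, `ε₁`;
`g'` = `g₁` and all `lead i`; `η' = min η₁' η₁`. For `y` with `g' (y) ≠ 0` V13 (with
`h = ∏ lead i`) gives a specialisation `ζ` of `ρ`: these are the centres `c`. The differences
`ζ a - ζ b` are a specialisation of `z` (`Specialises.comp`), so not zero.
Given `Λ`, `x'`, `q`: `x'` is algebraically independent (V08); `conj_select` gives `Λ₁`, `ι₁`,
`e`, `ψ`. Let `a*` be a nearest centre to `y0`, `δ_b = |y0 - ζ b|`. With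
`γ* = lg ε (y0 - ζ a*)`, `γ* ≤ γ` because `ε ^ γ < |y0 - ζ a*|`, let `p` be the integer part of
`q e γ*` and `π ∈ Λ₁.M` of order `p`; `Λ'`, `ι₂`, `u` the Gauss extension of `Λ₁` and
`x_0 = ι₂ (ψ (ρ a*)) + ι₂ π * u`, `x = Fin.cons x_0 (ι₂ ι₁ x')`. Then
`ord (x_0 - ι₂ ψ ρ_b) = min (ord ψ (ρ a* - ρ b), p)` for `b ≠ a*`, `= p` for `b = a*`, while
`max (|y0 - ζ a*|, |ζ a* - ζ b|) / 2 ≤ |y0 - ζ b| ≤ 2 max (…)` gives
`|lg ε (y0 - ζ b) - min (γ*, lg ε (ζ a* - ζ b))| ≤ log 2 / |log ε|`; so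
`Approx` for `x_0 - ι₂ ψ ρ_b` with a small error (`|p - q e γ*| ≤ 1 ≤ q e η₁` as `q ≥ q₀ = 1/η₁`);
multiply: `Approx` for `g i` by `aeval_eq`, `eval_eq`, the error is at most
`(1 + deg) (η₁ + η₁ + log 2 / |log ε|)`. The Jacobian: `jac_cons`, `jac_map`; its order is
`p + e ord (jac x')` and `p ≤ q e γ* + 1`. (`D ≥ 1` because `0` is one of the `ρ a`.) -/
theorem arc_step {k J : ℕ} (g : Fin J → Pol (k + 1)) (hg : ∀ i, g i ≠ 0) (η : ℝ) (hη : 0 < η) :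
    ∃ (J' : ℕ) (g' : Fin J' → Pol k) (η' ε₀ q₀ : ℝ) (D : ℕ), (∀ j, g' j ≠ 0) ∧ 0 < η' ∧
      0 < ε₀ ∧ ε₀ < 1 ∧ 0 < q₀ ∧ ∀ ε, 0 < ε → ε < ε₀ → ∀ y' : Fin k → ℂ,
      (∀ j, MvPolynomial.eval y' (g' j) ≠ 0) → ∃ c : Fin D → ℂ,
      ∀ (Λ : LDF k) (x' : Fin k → Λ.M) (q : ℝ), q₀ ≤ q → Λ.jac x' ≠ 0 →
      (∀ j, Approx q ε η' (ordZ Λ.w (MvPolynomial.aeval x' (g' j)))
        (MvPolynomial.eval y' (g' j))) →
      ∀ (y0 : ℂ) (γ : ℝ), ‖y0‖ ≤ 1 → (∀ a, ε ^ γ < ‖y0 - c a‖) →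
      (∀ i, MvPolynomial.eval (Fin.cons y0 y' : Fin (k + 1) → ℂ) (g i) ≠ 0) ∧
      ∃ (Λ' : LDF (k + 1)) (x : Fin (k + 1) → Λ'.M) (e : ℕ), 1 ≤ e ∧ Λ'.jac x ≠ 0 ∧
        (ordZ Λ'.w (Λ'.jac x) : ℝ) ≤ e * ordZ Λ.w (Λ.jac x') + q * e * (γ + η) ∧
        ∀ i, Approx (q * e) ε η (ordZ Λ'.w (MvPolynomial.aeval x (g i)))
          (MvPolynomial.eval (Fin.cons y0 y' : Fin (k + 1) → ℂ) (g i)) := by
  classical
  obtain ⟨r⟩ := exists_rootData k J g hg
  -- the family of differences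
  set E : Fin (Fintype.card {p : Fin r.D × Fin r.D // p.1 ≠ p.2}) ≃
    {p : Fin r.D × Fin r.D // p.1 ≠ p.2} := (Fintype.equivFin _).symm with hE
  set z : Fin (Fintype.card {p : Fin r.D × Fin r.D // p.1 ≠ p.2}) → r.N :=
    fun i => r.ρ (E i).1.1 - r.ρ (E i).1.2 with hz
  have hz0 : ∀ i, z i ≠ 0 := fun i h => (E i).2 (r.inj (sub_eq_zero.1 h))
  -- the weights
  obtain ⟨W, hW0, hW⟩ : ∃ W : ℝ, 0 ≤ W ∧ ∀ i, ∑ a, (r.mult i a : ℝ) ≤ W := by
    refine ⟨∑ i, ∑ a, (r.mult i a : ℝ), by positivity, fun i => ?_⟩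
    exact Finset.single_le_sum (f := fun i => ∑ a, (r.mult i a : ℝ))
      (fun j _ => by positivity) (Finset.mem_univ i)
  set η₁ : ℝ := η / (1 + 2 * W) with hη₁
  have hη₁0 : 0 < η₁ := by positivity
  have hη₁W : η₁ + W * (2 * η₁) = η := by
    rw [hη₁]
    field_simp
  obtain ⟨J₁, g₁, η₁', ε₁, hg₁, hη₁', hε₁, hε₁1, hsel⟩ := conj_select (k := k) r.N z hz0 η₁ hη₁0
  have hlog2 : 0 < Real.log 2 := Real.log_pos (by norm_num)
  refine ⟨J₁ + J, Fin.append g₁ r.lead, min η₁' η₁, min ε₁ (Real.exp (-(Real.log 2 / η₁))),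
    1 / η₁, r.D, ?_, lt_min hη₁' hη₁0, lt_min hε₁ (Real.exp_pos _),
    (min_le_left _ _).trans_lt hε₁1, by positivity, ?_⟩
  · intro j
    refine Fin.addCases (fun j => ?_) (fun j => ?_) j
    · rw [Fin.append_left]
      exact hg₁ j
    · rw [Fin.append_right]
      exact r.lead_ne j
  intro ε hε hεε y' hy'
  have hε1 : ε < 1 := (hεε.trans_le (min_le_left _ _)).trans hε₁1
  have hεl : Real.log 2 / |Real.log ε| ≤ η₁ := by
    have h1 : Real.log ε < -(Real.log 2 / η₁) := by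
      have := Real.log_lt_log hε (hεε.trans_le (min_le_right _ _))
      rwa [Real.log_exp] at this
    have h2 : Real.log 2 / η₁ < |Real.log ε| := by
      rw [abs_of_neg (by have := div_pos hlog2 hη₁0; linarith)]
      linarith
    have h3 : 0 < |Real.log ε| := (div_pos hlog2 hη₁0).trans h2
    rw [div_le_iff₀ h3]
    rw [div_lt_iff₀ hη₁0] at h2
    linarith
  have hy₁ : ∀ j, MvPolynomial.eval y' (g₁ j) ≠ 0 := fun j => by
    have := hy' (Fin.castAdd J j)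
    rwa [Fin.append_left] at this
  have hyl : ∀ j, MvPolynomial.eval y' (r.lead j) ≠ 0 := fun j => by
    have := hy' (Fin.natAdd J₁ j)
    rwa [Fin.append_right] at this
  obtain ⟨ζ, hζ⟩ := exists_point (toN k r.N) (step_toN_injective k r.N) r.ρ (∏ i, r.lead i)
    r.integral y' (by
      rw [map_prod]
      exact Finset.prod_ne_zero_iff.2 fun i _ => hyl i)
  have hζz : Specialises (toN k r.N) z y' (fun i => ζ (E i).1.1 - ζ (E i).1.2) := by
    have h1 := hζ.comp (fun i => MvPolynomial.X (E i).1.1 - MvPolynomial.X (E i).1.2)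
    simpa only [MvPolynomial.eval₂_sub, MvPolynomial.eval₂_X] using h1
  obtain ⟨hζ0, hsel'⟩ := hsel ε hε (hεε.trans_le (min_le_left _ _)) y' _ hy₁ hζz
  have hζne : ∀ a b, a ≠ b → ζ a ≠ ζ b := by
    intro a b hab h
    have h1 := hζ0 (E.symm ⟨(a, b), hab⟩)
    rw [Equiv.apply_symm_apply] at h1
    exact h1 (sub_eq_zero.2 h)
  refine ⟨ζ, ?_⟩
  intro Λ x' q hq hjac happ y0 γ _ hγ
  have hq0 : 0 < q := (by positivity : 0 < 1 / η₁).trans_le hq
  have happ₁ : ∀ j, Approx q ε η₁' (ordZ Λ.w (MvPolynomial.aeval x' (g₁ j)))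
      (MvPolynomial.eval y' (g₁ j)) := fun j => by
    have := happ (Fin.castAdd J j)
    rw [Fin.append_left] at this
    exact this.mono hq0.le (min_le_left _ _)
  have happl : ∀ j, Approx q ε η₁ (ordZ Λ.w (MvPolynomial.aeval x' (r.lead j)))
      (MvPolynomial.eval y' (r.lead j)) := fun j => by
    have := happ (Fin.natAdd J₁ j)
    rw [Fin.append_right] at this
    exact this.mono hq0.le (min_le_right _ _)
  have hx' : AlgebraicIndependent ℂ x' := Λ.algebraicIndependent_of_jac x' hjac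
  obtain ⟨Λ₁, ι₁, e, ψ₁, he, hw₁, hd₁, hψ₁, hzapp⟩ := hsel' Λ x' q hq0 hx' happ₁
  have he0 : (0 : ℝ) < e := by exact_mod_cast he
  have he1 : (1 : ℝ) ≤ e := by exact_mod_cast he
  have hqe : 0 < q * e := mul_pos hq0 he0
  have hy0 : ∀ a, y0 - ζ a ≠ 0 := fun a h => by
    have h1 := hγ a
    rw [h, norm_zero] at h1
    exact absurd h1 (not_lt.2 (Real.rpow_nonneg hε.le γ))
  refine ⟨fun i => ?_, ?_⟩
  · rw [r.eval_eq y' ζ hζ i y0]
    exact mul_ne_zero (hyl i) (Finset.prod_ne_zero_iff.2 fun a _ => pow_ne_zero _ (hy0 a))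
  -- the nearest centre
  obtain ⟨a₀, -⟩ := r.zero
  haveI : Nonempty (Fin r.D) := ⟨a₀⟩
  obtain ⟨as, has⟩ := Finite.exists_min (fun b => ‖y0 - ζ b‖)
  set γs : ℝ := lg ε (y0 - ζ as) with hγs
  have hγsγ : γs < γ := lg_lt_of_lt ε hε hε1 _ γ (hγ as)
  set p : ℤ := ⌊q * e * γs⌋ with hp
  obtain ⟨π, hπ0, hπp⟩ := Λ₁.exists_ord p
  obtain ⟨Λ', ι₂, u, hw₂, hd₂, hdu, hd0, hdu0⟩ := Λ₁.gauss
  have hp1 : (p : ℝ) ≤ q * e * γs := Int.floor_le _
  have hp2 : |(p : ℝ) - q * e * γs| ≤ q * e * η₁ := by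
    have h1 : q * e * γs - 1 < p := Int.sub_one_lt_floor _
    have h2 : 1 ≤ q * e * η₁ := by
      have h3 : 1 ≤ q * η₁ := by
        rw [div_le_iff₀ hη₁0] at hq
        exact hq
      nlinarith
    rw [abs_le]
    constructor <;> linarith
  set x0 : Λ'.M := ι₂ (ψ₁ (r.ρ as)) + ι₂ π * u with hx0
  have hd0x : Λ'.d 0 x0 = ι₂ π := by
    rw [hx0, map_add, Derivation.leibniz, hd0, hd0, hdu0]
    simp
  have hJ : Λ'.jac (Fin.cons x0 fun i => ι₂ (ι₁ (x' i))) = ι₂ (π * ι₁ (Λ.jac x')) := by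
    rw [LDF.jac_cons Λ₁ Λ' ι₂ hd₂ hd0 (fun i => ι₁ (x' i)) x0 π hd0x,
      LDF.jac_map Λ Λ₁ ι₁ hd₁]
  have hιJ : ι₁ (Λ.jac x') ≠ 0 := (map_ne_zero ι₁).2 hjac
  refine ⟨Λ', Fin.cons x0 fun i => ι₂ (ι₁ (x' i)), e, he, ?_, ?_, ?_⟩
  · rw [hJ]
    exact (map_ne_zero ι₂).2 (mul_ne_zero hπ0 hιJ)
  · rw [hJ, step_w_gauss Λ₁ Λ' ι₂ u hw₂, ordZ_mul _ hπ0 hιJ, hπp,
      ord_ram Λ Λ₁ ι₁ e hw₁ _ hjac]
    push_cast
    have h1 : q * e * γs ≤ q * e * (γ + η) := mul_le_mul_of_nonneg_left (by linarith) hqe.le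
    linarith
  · intro i
    set ψ : r.N →+* Λ'.M := (ι₂ : Λ₁.M →+* Λ'.M).comp ψ₁ with hψ
    have hψp : ∀ p : Pol k, ψ (toN k r.N p) =
        MvPolynomial.aeval (fun i => ι₂ (ι₁ (x' i))) p := by
      intro p
      have h1 : ψ (toN k r.N p) = ι₂ (ι₁ (MvPolynomial.aeval x' p)) := by
        rw [hψ, RingHom.comp_apply, hψ₁]
        rfl
      rw [h1]
      exact MvPolynomial.comp_aeval_apply (f := x') (ι₂.comp ι₁) p
    rw [r.aeval_eq ψ (fun i => ι₂ (ι₁ (x' i))) hψp i x0, r.eval_eq y' ζ hζ i y0]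
    -- the factors
    have hfac : ∀ b, x0 - ψ (r.ρ b) ≠ 0 ∧
        Approx (q * e) ε (2 * η₁) (ordZ Λ'.w (x0 - ψ (r.ρ b))) (y0 - ζ b) := by
      intro b
      obtain ⟨h1, h2, h3⟩ := ord_gauss Λ₁ Λ' ι₂ u hw₂ (ψ₁ (r.ρ as)) (ψ₁ (r.ρ b)) π hπ0
      have hψb : ψ (r.ρ b) = ι₂ (ψ₁ (r.ρ b)) := rfl
      rw [hψb, hx0]
      refine ⟨h1, ?_⟩
      by_cases hb : as = b
      · subst hb
        rw [h3 rfl, hπp]
        unfold Approx
        rw [← hγs]
        refine hp2.trans ?_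
        have : 0 ≤ q * e * η₁ := by positivity
        linarith
      · have hne : ψ₁ (r.ρ as) ≠ ψ₁ (r.ρ b) := fun h => hb (r.inj (ψ₁.injective h))
        rw [h2 hne, hπp]
        have h4 := hzapp (E.symm ⟨(as, b), hb⟩)
        have h5 : z (E.symm ⟨(as, b), hb⟩) = r.ρ as - r.ρ b := by
          simp only [hz, Equiv.apply_symm_apply]
        rw [h5] at h4
        simp only [Equiv.apply_symm_apply] at h4
        rw [map_sub] at h4
        have h6 := lg_nearest ε hε hε1 y0 (ζ as) (ζ b) (fun h => hy0 as (sub_eq_zero.2 h))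
          (has b) (hζne as b hb)
        exact step_approx hqe.le hεl hp2 h4 h6
    have hlead : Approx (q * e) ε η₁ (ordZ Λ'.w
        (MvPolynomial.aeval (fun i => ι₂ (ι₁ (x' i))) (r.lead i)))
        (MvPolynomial.eval y' (r.lead i)) := by
      have h1 := (happl i).ram e
      have h2 : MvPolynomial.aeval (fun i => ι₂ (ι₁ (x' i))) (r.lead i) =
          ι₂ (ι₁ (MvPolynomial.aeval x' (r.lead i))) :=
        (MvPolynomial.comp_aeval_apply (f := x') (ι₂.comp ι₁) (r.lead i)).symm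
      have h3 : MvPolynomial.aeval x' (r.lead i) ≠ 0 := by
        intro h4
        exact r.lead_ne i (hx' (by rw [h4, map_zero]))
      rw [h2, step_w_gauss Λ₁ Λ' ι₂ u hw₂, ord_ram Λ Λ₁ ι₁ e hw₁ _ h3]
      exact h1
    have hleadne : MvPolynomial.aeval (fun i => ι₂ (ι₁ (x' i))) (r.lead i) ≠ 0 := by
      have h2 : MvPolynomial.aeval (fun i => ι₂ (ι₁ (x' i))) (r.lead i) =
          ι₂ (ι₁ (MvPolynomial.aeval x' (r.lead i))) :=
        (MvPolynomial.comp_aeval_apply (f := x') (ι₂.comp ι₁) (r.lead i)).symm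
      rw [h2]
      refine (map_ne_zero ι₂).2 ((map_ne_zero ι₁).2 ?_)
      intro h4
      exact r.lead_ne i (hx' (by rw [h4, map_zero]))
    have hprod := Approx.prod_pow (fun b => ordZ Λ'.w (x0 - ψ (r.ρ b))) (fun b => y0 - ζ b)
      hy0 (r.mult i) (fun b => (hfac b).2)
    have hord : ordZ Λ'.w (MvPolynomial.aeval (fun i => ι₂ (ι₁ (x' i))) (r.lead i) *
        ∏ a, (x0 - ψ (r.ρ a)) ^ (r.mult i a)) =
        ordZ Λ'.w (MvPolynomial.aeval (fun i => ι₂ (ι₁ (x' i))) (r.lead i)) +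
          ∑ a, r.mult i a * ordZ Λ'.w (x0 - ψ (r.ρ a)) := by
      rw [ordZ_mul _ hleadne (Finset.prod_ne_zero_iff.2 fun a _ => pow_ne_zero _ (hfac a).1),
        ordZ_prod _ _ _ (fun a _ => pow_ne_zero _ (hfac a).1)]
      congr 1
      exact Finset.sum_congr rfl fun a _ => ordZ_pow _ (hfac a).1 _
    rw [hord]
    have hmul := Approx.mul (hyl i) (Finset.prod_ne_zero_iff.2 fun a _ =>
      pow_ne_zero (r.mult i a) (hy0 a)) hlead hprod
    refine hmul.mono hqe.le ?_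
    have h1 : (∑ a, (r.mult i a : ℝ)) * (2 * η₁) ≤ W * (2 * η₁) :=
      mul_le_mul_of_nonneg_right (hW i) (by positivity)
    linarith

end Pool.Agent.Lib_MP_e0d435_kv
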