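import Pool.Agent.Lib_MP_e0d435_kv.Vring

/-! V02: extension of a discrete valuation to a finite extension.

Proof. `A = vring w` is a discrete valuation ring with fraction field `M` (V01). `B`, the integral
closure of `A` in `M'`, is a Dedekind domain with fraction field `M'`
(`integralClosure.isDedekindDomain`, `M'/M` is separable in characteristic zero) and not a field.
Let `P ≠ 0` be a maximal ideal of `B` over the maximal ideal of `A` (`B` is integral over `A`).
The `P`-adic valuation of `M'` (`IsDedekindDomain.HeightOneSpectrum.valuation`, or the localisation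
`B_P`, a discrete valuation ring, and its `addVal` extended to the fraction field) is written
additively: `w'`. `e = w' t`. For `f = t ^ m u`, `u` a unit of `A`, `w' f = e m`. An element `f`
with `w' f ≥ 0` is in `B_P`, so `f = a / b`, `a, b ∈ B`, `b ∉ P`. -/

namespace Pool.Agent.Lib_MP_e0d435_kv

section

variable {B L : Type} [CommRing B] [IsDedekindDomain B] [Field L] [Algebra B L]
  [IsFractionRing B L]

private theorem ValExt_exists (v : IsDedekindDomain.HeightOneSpectrum B) :
    ∃ w' : AddValuation L (WithTop ℤ), ∀ f : L, f ≠ 0 →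
      w' f = ((-(WithZero.log (v.valuation L f)) : ℤ) : WithTop ℤ) := by
  classical
  have hne : ∀ f : L, f ≠ 0 → v.valuation L f ≠ 0 := fun f hf =>
    (Valuation.ne_zero_iff _).2 hf
  refine ⟨AddValuation.of (fun f => if f = 0 then ⊤ else
    ((-(WithZero.log (v.valuation L f)) : ℤ) : WithTop ℤ)) (by simp) ?_ ?_ ?_, ?_⟩
  · rw [if_neg one_ne_zero, map_one, WithZero.log_one, neg_zero]; rfl
  · intro x y
    by_cases hx : x = 0
    · rw [hx, zero_add]; exact min_le_right _ _
    by_cases hy : y = 0
    · rw [hy, add_zero]; exact min_le_left _ _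
    by_cases hxy : x + y = 0
    · simp only [hxy, if_true]; exact le_top
    simp only [if_neg hx, if_neg hy, if_neg hxy]
    have h1 := (v.valuation L).map_add x y
    rcases le_total (v.valuation L x) (v.valuation L y) with h | h
    · rw [max_eq_right h] at h1
      refine (min_le_right _ _).trans ?_
      rw [WithTop.coe_le_coe]
      have h2 := (WithZero.log_le_log (hne _ hxy) (hne _ hy)).2 h1
      omega
    · rw [max_eq_left h] at h1
      refine (min_le_left _ _).trans ?_
      rw [WithTop.coe_le_coe]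
      have h2 := (WithZero.log_le_log (hne _ hxy) (hne _ hx)).2 h1
      omega
  · intro x y
    by_cases hx : x = 0
    · simp [hx]
    by_cases hy : y = 0
    · simp [hy]
    simp only [if_neg hx, if_neg hy, if_neg (mul_ne_zero hx hy)]
    rw [map_mul, WithZero.log_mul (hne _ hx) (hne _ hy), ← WithTop.coe_add]
    congr 1
    ring
  · intro f hf
    rw [AddValuation.of_apply, if_neg hf]

end

theorem exists_val_ext {M M' : Type} [Field M] [CharZero M] [Field M'] [Algebra M M']
    [FiniteDimensional M M'] (w : AddValuation M (WithTop ℤ)) (t : M) (ht : w t = 1) :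
    ∃ (w' : AddValuation M' (WithTop ℤ)) (t' : M') (e : ℕ), 1 ≤ e ∧ w' t' = 1 ∧
      (∀ f : M, w' (algebraMap M M' f) = e • w f) ∧
      (∀ f : M', IsIntegral (vring w) f → 0 ≤ w' f) ∧
      (∀ f : M', 0 ≤ w' f → ∃ a b : M', IsIntegral (vring w) a ∧ IsIntegral (vring w) b ∧
        w' b = 0 ∧ f * b = a) := by
  classical
  obtain ⟨iV, iF, -, hmax⟩ := vring_dvr w t ht
  have ht0 : t ≠ 0 := by
    rintro rfl
    rw [AddValuation.map_zero] at ht
    exact absurd ht (by decide)
  have hot : ordZ w t = 1 := ordZ_eq_of_w w (by rw [ht]; rfl)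
  let A := vring w
  let B := integralClosure (vring w) M'
  have hsep : Algebra.IsSeparable M M' := inferInstance
  have : IsDedekindDomain B := integralClosure.isDedekindDomain (vring w) M M'
  have : IsFractionRing B M' := integralClosure.isFractionRing_of_finite_extension M M'
  -- the element t of B
  have htA : (0 : WithTop ℤ) ≤ w t := by rw [ht]; decide
  let tA : vring w := ⟨t, htA⟩
  let tB : B := algebraMap (vring w) B tA
  have htB : (tB : M') = algebraMap M M' t := rfl
  have htB0 : tB ≠ 0 := by
    intro h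
    have h1 : (tB : M') = 0 := by rw [h]; rfl
    rw [htB, _root_.map_eq_zero] at h1
    exact ht0 h1
  have hnu : ¬ IsUnit tB := by
    intro hu
    obtain ⟨b, hb⟩ := hu.exists_right_inv
    have h1 : (b : M') = algebraMap M M' t⁻¹ := by
      have h2 : (tB : M') * (b : M') = 1 := by
        have h3 := congrArg (fun z : B => (z : M')) hb
        exact h3
      rw [htB] at h2
      rw [map_inv₀]
      exact (eq_inv_of_mul_eq_one_right h2)
    have h2 : IsIntegral (vring w) (algebraMap M M' t⁻¹) := by
      rw [← h1]; exact b.2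
    have h3 : IsIntegral (vring w) (t⁻¹ : M) :=
      (isIntegral_algebraMap_iff (algebraMap M M').injective).1 h2
    obtain ⟨y, hy⟩ := IsIntegrallyClosed.isIntegral_iff.1 h3
    have h4 : (0 : WithTop ℤ) ≤ w t⁻¹ := by
      rw [← hy]; exact y.2
    have h5 : (0 : ℤ) ≤ ordZ w t⁻¹ := (le_w_iff w (inv_ne_zero ht0) 0).1 h4
    rw [ordZ_inv w ht0, hot] at h5
    omega
  obtain ⟨P, hPm, hP⟩ := Ideal.exists_le_maximal (Ideal.span {tB})
    (by rwa [Ne, Ideal.span_singleton_eq_top])
  have htP : tB ∈ P := hP (Ideal.mem_span_singleton_self tB)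
  let v : IsDedekindDomain.HeightOneSpectrum B :=
    ⟨P, hPm.isPrime, fun h => htB0 (by rw [h] at htP; exact htP)⟩
  obtain ⟨w', hw'⟩ := ValExt_exists (L := M') v
  have hvne : ∀ f : M', f ≠ 0 → v.valuation M' f ≠ 0 := fun f hf =>
    (Valuation.ne_zero_iff _).2 hf
  have hnn : ∀ f : M', v.valuation M' f ≤ 1 ↔ 0 ≤ w' f := by
    intro f
    by_cases hf : f = 0
    · rw [hf, map_zero, AddValuation.map_zero]
      exact ⟨fun _ => le_top, fun _ => zero_le⟩
    · rw [hw' f hf]
      have h1 := WithZero.log_le_log (hvne f hf) (one_ne_zero)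
      rw [WithZero.log_one] at h1
      rw [← h1]
      constructor
      · intro h
        exact_mod_cast (show (0 : ℤ) ≤ -(WithZero.log (v.valuation M' f)) by omega)
      · intro h
        have h2 : (0 : ℤ) ≤ -(WithZero.log (v.valuation M' f)) := by exact_mod_cast h
        omega
  have hint : ∀ f : M', IsIntegral (vring w) f → 0 ≤ w' f := by
    intro f hf
    rw [← hnn]
    exact v.valuation_le_one (⟨f, hf⟩ : B)
  obtain ⟨t', ht'⟩ := v.valuation_exists_uniformizer M'
  have ht'0 : t' ≠ 0 := by
    rintro rfl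
    rw [map_zero] at ht'
    exact WithZero.exp_ne_zero ht'.symm
  have hwt' : w' t' = 1 := by
    rw [hw' t' ht'0, ht', WithZero.log_exp, neg_neg]; rfl
  have htM : algebraMap M M' t ≠ 0 := by rwa [Ne, _root_.map_eq_zero]
  have hwt : 1 ≤ ordZ w' (algebraMap M M' t) := by
    have h1 : v.valuation M' (algebraMap B M' tB) < 1 :=
      (v.valuation_lt_one_iff_mem tB).2 htP
    have h2 : algebraMap B M' tB = algebraMap M M' t := rfl
    rw [h2] at h1
    have h3 := (WithZero.log_lt_log (hvne _ htM) one_ne_zero).2 h1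
    rw [WithZero.log_one] at h3
    have h4 : ordZ w' (algebraMap M M' t) = -(WithZero.log (v.valuation M' (algebraMap M M' t))) :=
      ordZ_eq_of_w w' (hw' _ htM)
    omega
  have hunit : ∀ u : M, u ≠ 0 → ordZ w u = 0 → ordZ w' (algebraMap M M' u) = 0 := by
    intro u hu h
    have key : ∀ x : M, x ≠ 0 → ordZ w x = 0 → 0 ≤ ordZ w' (algebraMap M M' x) := by
      intro x hx hx0
      have hxA : (0 : WithTop ℤ) ≤ w x := (le_w_iff w hx 0).2 hx0.ge
      have h1 : IsIntegral (vring w) (algebraMap M M' x) :=
        isIntegral_algebraMap (R := vring w) (x := (⟨x, hxA⟩ : vring w))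
      have hxM : algebraMap M M' x ≠ 0 := by rwa [Ne, _root_.map_eq_zero]
      exact (le_w_iff w' hxM 0).1 (hint _ h1)
    have h1 := key u hu h
    have h2 := key u⁻¹ (inv_ne_zero hu) (by rw [ordZ_inv w hu, h]; rfl)
    have huM : algebraMap M M' u ≠ 0 := by rwa [Ne, _root_.map_eq_zero]
    rw [map_inv₀, ordZ_inv w' huM] at h2
    omega
  refine ⟨w', t', (ordZ w' (algebraMap M M' t)).toNat, by omega, hwt', fun f => ?_, hint,
    fun f hf => ?_⟩
  · have he : (((ordZ w' (algebraMap M M' t)).toNat : ℕ) : ℤ) = ordZ w' (algebraMap M M' t) :=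
      Int.toNat_of_nonneg (by omega)
    by_cases hf : f = 0
    · rw [hf, map_zero, AddValuation.map_zero, AddValuation.map_zero]
      obtain ⟨n, hn⟩ : ∃ n, (ordZ w' (algebraMap M M' t)).toNat = n + 1 :=
        ⟨(ordZ w' (algebraMap M M' t)).toNat - 1, by omega⟩
      rw [hn, succ_nsmul, WithTop.add_top]
    · have hfM : algebraMap M M' f ≠ 0 := by rwa [Ne, _root_.map_eq_zero]
      set m := ordZ w f with hm
      have hz : t ^ m ≠ 0 := zpow_ne_zero _ ht0
      have h1 : ordZ w (f / t ^ m) = 0 := by
        rw [ordZ_div w hf hz, ordZ_zpow w ht0, hot]; omega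
      have h2 := hunit (f / t ^ m) (div_ne_zero hf hz) h1
      rw [map_div₀, map_zpow₀, ordZ_div w' hfM (zpow_ne_zero _ htM), ordZ_zpow w' htM] at h2
      rw [w_eq w' hfM, w_eq w hf, ← hm]
      have h3 : ordZ w' (algebraMap M M' f) = m * ordZ w' (algebraMap M M' t) := by omega
      rw [h3]
      generalize (ordZ w' (algebraMap M M' t)).toNat = e at he ⊢
      rw [← he]
      have h4 : e • ((m : ℤ) : WithTop ℤ) = ((e • m : ℤ) : WithTop ℤ) := (WithTop.coe_nsmul m e).symm
      rw [h4, nsmul_eq_mul, mul_comm]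
  · have h1 := (hnn f).2 hf
    obtain ⟨n, d, hnd⟩ := v.exists_primeCompl_mul_eq_of_integer (K := M') f h1
    refine ⟨(n : M'), ((d : B) : M'), n.2, (d : B).2, ?_, hnd⟩
    have h2 : v.valuation M' (algebraMap B M' (d : B)) = 1 :=
      (v.valuation_eq_one_iff_notMem (K := M')).2 d.2
    have h3 : algebraMap B M' (d : B) = ((d : B) : M') := rfl
    rw [h3] at h2
    have h4 : ((d : B) : M') ≠ 0 := by
      intro h
      rw [h, map_zero] at h2
      exact zero_ne_one h2
    rw [hw' _ h4, h2, WithZero.log_one, neg_zero]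
    rfl

end Pool.Agent.Lib_MP_e0d435_kv
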