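import Pool.Agent.Lib_MP_e0d435_kv.Step
import Pool.Agent.Lib_MP_e0d435_kv.Level
import Pool.Agent.Lib_MP_e0d435_kv.Outside
import Pool.Agent.Lib_MP_e0d435_kv.LDF0

/-! V17: the volume lemma V(k) of note 1223. -/

open MeasureTheory

namespace Pool.Agent.Lib_MP_e0d435_kv

/-- The statement V(k). -/
def VStat (k : ℕ) : Prop :=
  ∀ (J : ℕ) (g : Fin J → Pol k), (∀ i, g i ≠ 0) → ∀ c η q₀ : ℝ, 0 ≤ c → 0 < η →
    ∃ ε₀ : ℝ, 0 < ε₀ ∧ ε₀ < 1 ∧ ∀ ε, 0 < ε → ε < ε₀ → ∀ S : Set (Fin k → ℂ),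
      MeasurableSet S → (∀ y ∈ S, ∀ j, ‖y j‖ ≤ 1) →
      ENNReal.ofReal (ε ^ (2 * c)) ≤ volume S →
      ∃ y ∈ S, (∀ i, MvPolynomial.eval y (g i) ≠ 0) ∧
        ∃ (Λ : LDF k) (x : Fin k → Λ.M) (q : ℝ), q₀ ≤ q ∧ 0 < q ∧ Λ.jac x ≠ 0 ∧
          (ordZ Λ.w (Λ.jac x) : ℝ) ≤ q * (c + η) ∧
          ∀ i, Approx q ε η (ordZ Λ.w (MvPolynomial.aeval x (g i))) (MvPolynomial.eval y (g i))

/-- Approximation with a larger error. -/
theorem Vlemma_approx_mono {q ε η₁ η₂ : ℝ} (hq : 0 ≤ q) (h : η₁ ≤ η₂) {o : ℤ} {a : ℂ}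
    (ha : Approx q ε η₁ o a) : Approx q ε η₂ o a :=
  le_trans ha (mul_le_mul_of_nonneg_left h hq)

/-- The logarithm of a fixed number to a small base is small. -/
theorem Vlemma_lg_small (L η ε : ℝ) (hL : 0 ≤ L) (hη : 0 < η) (hε : 0 < ε)
    (hε₀ : ε < Real.exp (-(1 + L / η))) (a : ℂ) (ha : |Real.log ‖a‖| ≤ L) : |lg ε a| ≤ η := by
  have h1 : Real.log ε < -(1 + L / η) := (Real.log_lt_iff_lt_exp hε).2 hε₀
  have h2 : 0 ≤ L / η := div_nonneg hL hη.le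
  have h3 : 1 + L / η < |Real.log ε| := by
    rw [abs_of_neg (by linarith)]; linarith
  unfold lg
  rw [abs_div, div_le_iff₀ (by linarith)]
  calc |Real.log ‖a‖| ≤ L := ha
    _ = η * (L / η) := by field_simp
    _ ≤ η * |Real.log ε| := mul_le_mul_of_nonneg_left (by linarith) hη.le

/-- Proof: `S` is not empty, so it contains the only point `y`; `g i` is a non-zero constant:
`|lg ε (g i)| ≤ η` for small `ε`, `ord = 0`; `q = max 1 q₀`. -/
theorem vstat_zero : VStat 0 := by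
  intro J g hg c η q₀ hc hη
  set L : ℝ := ∑ i, |Real.log ‖MvPolynomial.coeff 0 (g i)‖| with hLdef
  have hL : 0 ≤ L := Finset.sum_nonneg fun i _ => abs_nonneg _
  have hLη : 0 ≤ L / η := div_nonneg hL hη.le
  refine ⟨Real.exp (-(1 + L / η)), Real.exp_pos _, ?_, ?_⟩
  · rw [Real.exp_lt_one_iff]; linarith
  intro ε hε hε₀ S _ _ hvol
  have hpos : 0 < volume S := lt_of_lt_of_le
    (ENNReal.ofReal_pos.2 (Real.rpow_pos_of_pos hε _)) hvol
  obtain ⟨y, hy⟩ := nonempty_of_measure_ne_zero hpos.ne'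
  have hC : ∀ i, g i = MvPolynomial.C (MvPolynomial.coeff 0 (g i)) :=
    fun i => MvPolynomial.eq_C_of_isEmpty (g i)
  have hne : ∀ i, MvPolynomial.coeff 0 (g i) ≠ 0 := by
    intro i h0
    apply hg i
    rw [hC i, h0, map_zero]
  have hev : ∀ i, MvPolynomial.eval y (g i) = MvPolynomial.coeff 0 (g i) := by
    intro i
    conv_lhs => rw [hC i]
    exact MvPolynomial.eval_C _
  obtain ⟨Λ⟩ := exists_LDF_zero
  refine ⟨y, hy, fun i => by rw [hev i]; exact hne i, Λ, fun j => j.elim0, max 1 q₀,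
    le_max_right _ _, lt_of_lt_of_le one_pos (le_max_left _ _), ?_, ?_, ?_⟩
  · unfold LDF.jac
    rw [Matrix.det_isEmpty]
    exact one_ne_zero
  · unfold LDF.jac
    rw [Matrix.det_isEmpty, ordZ_one]
    have : 0 ≤ max 1 q₀ * (c + η) := mul_nonneg
      (le_trans zero_le_one (le_max_left _ _)) (by linarith)
    simpa using this
  · intro i
    have h1 : MvPolynomial.aeval (fun j : Fin 0 => (j.elim0 : Λ.M)) (g i) =
        algebraMap ℂ Λ.M (MvPolynomial.coeff 0 (g i)) := by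
      conv_lhs => rw [hC i]
      exact MvPolynomial.aeval_C _ _
    rw [h1, ordZ_algebraMap, hev i]
    have h2 : |lg ε (MvPolynomial.coeff 0 (g i))| ≤ η := by
      refine Vlemma_lg_small L η ε hL hη hε hε₀ _ ?_
      exact Finset.single_le_sum (f := fun i => |Real.log ‖MvPolynomial.coeff 0 (g i)‖|)
        (fun i _ => abs_nonneg _) (Finset.mem_univ i)
    have h3 : 0 ≤ max 1 q₀ := le_trans zero_le_one (le_max_left _ _)
    unfold Approx
    rw [Int.cast_zero, zero_sub, abs_neg, abs_mul, abs_of_nonneg h3]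
    exact mul_le_mul_of_nonneg_left h2 h3

/-- A common bound for finitely many smallness conditions. -/
theorem Vlemma_finite (P : ℕ → ℝ → Prop) (N : ℕ)
    (h : ∀ l ≤ N, ∃ ε₀ : ℝ, 0 < ε₀ ∧ ε₀ < 1 ∧ ∀ ε, 0 < ε → ε < ε₀ → P l ε) :
    ∃ ε₀ : ℝ, 0 < ε₀ ∧ ε₀ < 1 ∧ ∀ ε, 0 < ε → ε < ε₀ → ∀ l ≤ N, P l ε := by
  induction N with
  | zero =>
    obtain ⟨e, h1, h2, h3⟩ := h 0 le_rfl
    refine ⟨e, h1, h2, fun ε hε hε' l hl => ?_⟩
    obtain rfl : l = 0 := by omega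
    exact h3 ε hε hε'
  | succ N ih =>
    obtain ⟨e, h1, h2, h3⟩ := ih fun l hl => h l (by omega)
    obtain ⟨e', h1', h2', h3'⟩ := h (N + 1) le_rfl
    refine ⟨min e e', lt_min h1 h1', lt_of_le_of_lt (min_le_left _ _) h2,
      fun ε hε hε' l hl => ?_⟩
    rcases Nat.lt_or_ge l (N + 1) with hl' | hl'
    · exact h3 ε hε (lt_of_lt_of_le hε' (min_le_left _ _)) l (by omega)
    · obtain rfl : l = N + 1 := by omega
      exact h3' ε hε (lt_of_lt_of_le hε' (min_le_right _ _))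

/-- Proof: `arc_step` with `η/4`: `g'`, `η'`, `ε₁`, `q₁`, `D`; `η₁ = η/8`; V(k) for `g'`,
`η'' = min (η', η/4)`, `max q₀ q₁ 1` and each of the finitely many `c - lη₁ + η₁ ≥ 0`,
`lη₁ ≤ c + η₁`; `ε₀` the least. For `S`: `exists_level` gives `l`, `E`; V(k) gives `y' ∈ E` and
`Λ`, `x'`, `q` with `ord jac ≤ q (c - lη₁ + η₁ + η'')`; `arc_step` gives centres `c_a`;
`exists_outside` gives `y0` with `Fin.cons y0 y' ∈ S` and `|y0 - c_a| > ε^γ`, `γ = (l+2)η₁`;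
`arc_step`: `ord jac x ≤ q e (c - lη₁ + η₁ + η'' + (l+2)η₁ + η/4) ≤ q e (c + η)`. -/
theorem vstat_succ (k : ℕ) (h : VStat k) : VStat (k + 1) := by
  intro J g hg c η q₀ hc hη
  obtain ⟨J', g', η', ε₁, q₁, D, hg', hη', hε₁, hε₁1, hq₁, H⟩ :=
    arc_step g hg (η / 4) (by positivity)
  have hη₁ : 0 < η / 8 := by positivity
  obtain ⟨ε₂, hε₂, hε₂1, H2⟩ := exists_level (k := k) c (η / 8) hc hη₁
  obtain ⟨ε₃, hε₃, hε₃1, H3⟩ := exists_outside D (η / 8) hη₁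
  set η'' : ℝ := min η' (η / 4) with hη''
  have hη''pos : 0 < η'' := lt_min hη' (by positivity)
  set Q : ℝ := max q₀ q₁ with hQ
  obtain ⟨ε₄, hε₄, hε₄1, H4⟩ := Vlemma_finite (fun l ε => (l : ℝ) * (η / 8) ≤ c + η / 8 →
      ∀ S : Set (Fin k → ℂ), MeasurableSet S → (∀ y ∈ S, ∀ j, ‖y j‖ ≤ 1) →
      ENNReal.ofReal (ε ^ (2 * (c - l * (η / 8) + η / 8))) ≤ volume S →
      ∃ y ∈ S, (∀ i, MvPolynomial.eval y (g' i) ≠ 0) ∧
        ∃ (Λ : LDF k) (x : Fin k → Λ.M) (q : ℝ), Q ≤ q ∧ 0 < q ∧ Λ.jac x ≠ 0 ∧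
          (ordZ Λ.w (Λ.jac x) : ℝ) ≤ q * (c - l * (η / 8) + η / 8 + η'') ∧
          ∀ i, Approx q ε η'' (ordZ Λ.w (MvPolynomial.aeval x (g' i)))
            (MvPolynomial.eval y (g' i)))
      ⌊(c + η / 8) / (η / 8)⌋₊ (by
        intro l _
        by_cases hl : (l : ℝ) * (η / 8) ≤ c + η / 8
        · obtain ⟨e, h1, h2, h3⟩ := h J' g' hg' (c - l * (η / 8) + η / 8) η'' Q
            (by linarith) hη''pos
          exact ⟨e, h1, h2, fun ε hε hε' _ S hS hS1 hS2 => h3 ε hε hε' S hS hS1 hS2⟩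
        · exact ⟨1 / 2, by norm_num, by norm_num, fun ε _ _ h0 => absurd h0 hl⟩)
  refine ⟨min (min ε₁ ε₂) (min ε₃ ε₄), lt_min (lt_min hε₁ hε₂) (lt_min hε₃ hε₄),
    lt_of_le_of_lt (min_le_left _ _) (lt_of_le_of_lt (min_le_left _ _) hε₁1), ?_⟩
  intro ε hε hεm S hS hS1 hS2
  have e1 : ε < ε₁ := lt_of_lt_of_le hεm ((min_le_left _ _).trans (min_le_left _ _))
  have e2 : ε < ε₂ := lt_of_lt_of_le hεm ((min_le_left _ _).trans (min_le_right _ _))
  have e3 : ε < ε₃ := lt_of_lt_of_le hεm ((min_le_right _ _).trans (min_le_left _ _))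
  have e4 : ε < ε₄ := lt_of_lt_of_le hεm ((min_le_right _ _).trans (min_le_right _ _))
  obtain ⟨l, hl, E, hE, hE1, hE2, hE3⟩ := H2 ε hε e2 S hS hS1 hS2
  have hlN : l ≤ ⌊(c + η / 8) / (η / 8)⌋₊ := by
    apply Nat.le_floor
    rw [le_div_iff₀ hη₁]
    exact hl
  obtain ⟨y', hy', hgy', Λ, x', q, hQq, hq, hjac, hord, happ⟩ := H4 ε hε e4 l hlN hl E hE hE1 hE2
  obtain ⟨cc, H5⟩ := H ε hε e1 y' hgy'
  obtain ⟨y0, hy0, hout⟩ := H3 ε hε e3 l _ cc (hE3 y' hy')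
  have hy0' : (Fin.cons y0 y' : Fin (k + 1) → ℂ) ∈ S := hy0
  have hn : ‖y0‖ ≤ 1 := by simpa using hS1 _ hy0' 0
  obtain ⟨hne, Λ', x, e, he, hjac', hord', happ'⟩ := H5 Λ x' q ((le_max_right _ _).trans hQq) hjac
    (fun j => Vlemma_approx_mono hq.le (min_le_left _ _) (happ j)) y0 ((l + 2) * (η / 8)) hn hout
  have heR : (1 : ℝ) ≤ e := by exact_mod_cast he
  have hqe : q ≤ q * e := le_mul_of_one_le_right hq.le heR
  refine ⟨Fin.cons y0 y', hy0', hne, Λ', x, q * e, ?_, lt_of_lt_of_le hq hqe, hjac', ?_, ?_⟩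
  · exact ((le_max_left _ _).trans hQq).trans hqe
  · have h1 : (e : ℝ) * ordZ Λ.w (Λ.jac x') ≤
        e * (q * (c - l * (η / 8) + η / 8 + η'')) :=
      mul_le_mul_of_nonneg_left hord (by linarith)
    have h2 : η'' ≤ η / 4 := min_le_right _ _
    have h3 : q * e * η'' ≤ q * e * (η / 4) :=
      mul_le_mul_of_nonneg_left h2 (hq.le.trans hqe)
    have h4 : 0 ≤ q * e * (η / 8) := mul_nonneg (hq.le.trans hqe) hη₁.le
    calc (ordZ Λ'.w (Λ'.jac x) : ℝ)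
        ≤ e * ordZ Λ.w (Λ.jac x') + q * e * ((l + 2) * (η / 8) + η / 4) := hord'
      _ ≤ e * (q * (c - l * (η / 8) + η / 8 + η'')) +
            q * e * ((l + 2) * (η / 8) + η / 4) := by linarith
      _ = q * e * (c + η) + q * e * η'' - q * e * (η / 4) - q * e * (η / 8) := by ring
      _ ≤ q * e * (c + η) := by linarith
  · intro i
    exact Vlemma_approx_mono (hq.le.trans hqe) (by linarith) (happ' i)

theorem vstat (k : ℕ) : VStat k := by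
  induction k with
  | zero => exact vstat_zero
  | succ k ih => exact vstat_succ k ih

end Pool.Agent.Lib_MP_e0d435_kv
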